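import Pool.Agent.Run7.h524.MG.ConP

/-!
# The Poisson law for prime constellations along random lists of primes: the theorem
-/

set_option autoImplicit false

namespace Pool.Agent.Run7.h524.MG

open Finset Filter Polynomial Topology
open Pool.Agent.R460.SQ (thp)
open Pool.Agent.Run7.h18.MK (gP gP_eval sysp_fin eval_le)
open Pool.Agent.N384.MQ (ev_log_pow ev_log_ge)
open Pool.Agent.Run7.h794.MK (cheb)
open Q282.CL (av)

lemma x_large (N x g d : ℕ) (L : ℝ) (hL : L = Real.log N) (hL1 : 1 ≤ L) (hg : 1 ≤ g) (hgd : g ≤ d) (C : ℕ)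
    (hx1 : (N : ℝ) ^ (1 / 3 : ℝ) * L ^ C ≤ (x : ℝ) ^ g) (hx2 : (x : ℝ) ^ g * L ^ C ≤ N) :
    0 < x ∧ L / (3 * d) ≤ Real.log x ∧ x ≤ N := by
  have hN0 : (0 : ℝ) < N := by
    rcases Nat.eq_zero_or_pos N with h | h
    · rw [hL, h, Nat.cast_zero, Real.log_zero] at hL1
      linarith
    · exact_mod_cast h
  have hLC : 1 ≤ L ^ C := one_le_pow₀ hL1
  have h1 : (0 : ℝ) < (N : ℝ) ^ (1 / 3 : ℝ) := by positivity
  have h2 : (N : ℝ) ^ (1 / 3 : ℝ) ≤ (x : ℝ) ^ g := le_trans (le_mul_of_one_le_right h1.le hLC) hx1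
  have hx : 0 < x := by
    rcases Nat.eq_zero_or_pos x with h | h
    · rw [h, Nat.cast_zero, zero_pow (by omega)] at h2
      linarith
    · exact h
  have hx0 : (0 : ℝ) < x := by exact_mod_cast hx
  have hx1' : (1 : ℝ) ≤ x := by exact_mod_cast hx
  refine ⟨hx, ?_, ?_⟩
  · have h3 := Real.log_le_log h1 h2
    rw [Real.log_rpow hN0, Real.log_pow, ← hL] at h3
    have hl0 : 0 ≤ Real.log (x : ℝ) := Real.log_natCast_nonneg x
    have hd0 : (0 : ℝ) < d := by exact_mod_cast (by omega : 0 < d)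
    rw [div_le_iff₀ (by positivity)]
    have h4 : (g : ℝ) * Real.log x ≤ d * Real.log x := mul_le_mul_of_nonneg_right (by exact_mod_cast hgd) hl0
    linarith
  · have h3 : (x : ℝ) ≤ N := by
      calc (x : ℝ) = (x : ℝ) ^ 1 := (pow_one _).symm
        _ ≤ (x : ℝ) ^ g := pow_le_pow_right₀ hx1' hg
        _ ≤ (x : ℝ) ^ g * L ^ C := le_mul_of_one_le_right (by positivity) hLC
        _ ≤ N := hx2
    exact_mod_cast h3

/-- the primes up to `x` -/
def PX (x : ℕ) : Finset ℕ := (Icc 1 x).filter Nat.Prime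

set_option maxHeartbeats 1000000 in
open Classical in
/-- **The Poisson law for prime constellations along random lists of primes.** -/
theorem con_pois (k : ℕ) (hk : 1 ≤ k) (F : Fin k → ℤ[X]) (hF : ∀ i, 1 ≤ (F i).natDegree) (B : ℕ) (hB : 1 ≤ B) (Λ : ℝ) (hΛ : 0 < Λ)
    (ε : ℝ) (hε : 0 < ε) : ∃ (C B₀ M₀ : ℕ) (δ : ℝ), 0 < δ ∧ ∀ E : ℕ, ∃ N₀ : ℕ, ∀ N : ℕ, N₀ ≤ N → ∀ z : ℕ,
    Real.log N ^ B₀ ≤ z → (z : ℝ) ≤ Real.log N ^ E → ∀ x : ℕ,
    (∀ i, (N : ℝ) ^ (1 / 3 : ℝ) * Real.log N ^ C ≤ (x : ℝ) ^ (F i).natDegree ∧ (x : ℝ) ^ (F i).natDegree * Real.log N ^ C ≤ N) →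
    ∀ J : Finset (Fin k → ℕ), J ⊆ Fintype.piFinset (fun _ => Icc 1 N) → N ^ k ≤ B * J.card →
    ∀ m : ℕ, M₀ ≤ m → (m : ℝ) ≤ Λ * Real.log N ^ k →
    ((univ.filter fun ω : Fin m → {p // p ∈ PX x} => ¬ ∀ j : ℕ,
      |((J.filter fun a => (univ.filter fun l => AllP F a (ω l)).card = j).card : ℝ) -
        ∑ a ∈ J, pw (m * (Pool.Agent.Run7.h18.MK.dens (X * gP F a) (k + 1) z / ∏ i, Real.log (a i))) j| ≤ ε * J.card).card : ℝ) ≤
      Real.exp (-(δ * Real.log N ^ k)) * ((PX x).card : ℝ) ^ m := by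
  have hBr : (1 : ℝ) ≤ B := by exact_mod_cast hB
  obtain ⟨Kc, hKc0, hKc⟩ := coeff_bd F
  obtain ⟨d, hd⟩ : ∃ d : ℕ, d = ∑ i, (F i).natDegree := ⟨_, rfl⟩
  have hdi : ∀ i, (F i).natDegree ≤ d := fun i => by
    rw [hd]
    exact single_le_sum (f := fun i => (F i).natDegree) (fun _ _ => Nat.zero_le _) (mem_univ i)
  have hd1 : 1 ≤ d := (hF ⟨0, hk⟩).trans (hdi _)
  have hd0 : (0 : ℝ) < d := by exact_mod_cast hd1
  obtain ⟨K0, hK0⟩ : ∃ K0 : ℝ, K0 = 2 * 8 ^ k + 1 := ⟨_, rfl⟩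
  have hK00 : 0 < K0 := by rw [hK0]; positivity
  obtain ⟨Kd, hKd⟩ : ∃ Kd : ℝ, Kd = K0 * (24 * B / ε) := ⟨_, rfl⟩
  have hKd0 : 0 < Kd := by rw [hKd]; positivity
  obtain ⟨B', hB'⟩ : ∃ B' : ℝ, B' = 2 ^ k * Kd + 1 := ⟨_, rfl⟩
  have hB'1 : 1 ≤ B' := by
    rw [hB']
    have : 0 ≤ 2 ^ k * Kd := by positivity
    linarith
  obtain ⟨η, δ, ρ₀, hη, hδ, hρ₀, M₀, hg⟩ := pois2 B' Λ hB'1 hΛ ε hε
  obtain ⟨η', hη'⟩ : ∃ η' : ℝ, η' = η / (Λ * 2 ^ k) := ⟨_, rfl⟩
  have hη'0 : 0 < η' := by rw [hη']; positivity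
  obtain ⟨σ, hσd⟩ : ∃ σ : ℝ, σ = min (1 / 4) (η' / (12 * Kd)) := ⟨_, rfl⟩
  have hσ : 0 < σ := by rw [hσd]; positivity
  have hσ1 : σ ≤ 1 / 4 := by rw [hσd]; exact min_le_left _ _
  have hσ2 : 4 * σ * Kd ≤ η' / 3 := by
    have h1 : σ ≤ η' / (12 * Kd) := by rw [hσd]; exact min_le_right _ _
    rw [le_div_iff₀ (by positivity)] at h1
    linarith
  obtain ⟨X₁, hpnt⟩ := pnt σ hσ
  obtain ⟨X₀, hcheb⟩ := cheb
  obtain ⟨C, B₁, hsys⟩ := sysp_fin k d 1 1 hk hd1
  obtain ⟨B₂, hB₂⟩ : ∃ B₂ : ℝ, B₂ = 4 ^ k * B := ⟨_, rfl⟩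
  have hB₂1 : 1 ≤ B₂ := by
    rw [hB₂]
    exact one_le_mul_of_one_le_of_one_le (one_le_pow₀ (by norm_num)) hBr
  refine ⟨C + 6, B₁, M₀, δ / B₂ ^ 2, by positivity, fun E => ?_⟩
  obtain ⟨N₁, hsys⟩ := hsys E
  obtain ⟨N₂, hN₂⟩ := eventually_atTop.1 ((ev_log_ge (8 + 8 * k / σ + Kc + (d + 1) + 6 / η' + 24 * B / ε + k + B₂ ^ 2 / ρ₀ +
    3 * d * (X₁ + 2))).and ((ev_exp (k + 1) (σ / (6 * d)) (η' / 6) (by positivity) (by positivity)).and ((ev_log_pow 8 1).and (eventually_ge_atTop 3))))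
  refine ⟨N₁ + N₂ + X₀ + 3, fun N hN z hz1 hz2 x hx12 J hJ hJB m hm1 hm2 => ?_⟩
  obtain ⟨hbig, hexp, hpow8, hN3⟩ := hN₂ N (by omega)
  have hsys := hsys N (by omega) z hz1 hz2
  obtain ⟨L, hL⟩ : ∃ L, L = Real.log (N : ℝ) := ⟨_, rfl⟩
  rw [← hL] at hbig hexp hpow8 hm2 hsys hx12 ⊢
  have hk0 : (0 : ℝ) < k := by exact_mod_cast hk
  have t1 : 0 < 8 * k / σ := by positivity
  have t2 : 0 < 6 / η' := by positivity
  have t3 : 0 < 24 * B / ε := by positivity
  have t4 : 0 < B₂ ^ 2 / ρ₀ := by positivity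
  have t5 : (0 : ℝ) < 3 * d * (X₁ + 2) := by positivity
  have hL8 : 8 ≤ L := by linarith
  have hL1 : 1 ≤ L := by linarith
  have hL0 : 0 < L := by linarith
  have hN0 : (0 : ℝ) < N := by exact_mod_cast (by omega : 0 < N)
  have hpow8' : L ^ 8 ≤ (N : ℝ) := by linarith
  have hLk1 : L ≤ L ^ k := by
    calc L = L ^ 1 := (pow_one L).symm
      _ ≤ L ^ k := pow_le_pow_right₀ hL1 hk
  -- the size of `x`
  obtain ⟨hx, hxlog, hxN⟩ := x_large N x _ d L hL hL1 (hF ⟨0, hk⟩) (hdi _) (C + 6) (hx12 ⟨0, hk⟩).1 (hx12 ⟨0, hk⟩).2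
  have hx0 : (0 : ℝ) < x := by exact_mod_cast hx
  have hXx : (X₁ : ℝ) + 2 ≤ x := by
    have h1 : (X₁ : ℝ) + 2 ≤ L / (3 * d) := by
      rw [le_div_iff₀ (by positivity)]
      linarith
    have h2 := Real.log_le_sub_one_of_pos hx0
    linarith
  have hx2 : 2 ≤ x := by
    have : (2 : ℝ) ≤ x := by
      have : (0 : ℝ) ≤ X₁ := Nat.cast_nonneg _
      linarith
    exact_mod_cast this
  have hxX : X₁ ≤ x := by
    have : (X₁ : ℝ) ≤ x := by linarith
    exact_mod_cast this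
  have hQ := hpnt x hxX
  have hxe : (x : ℝ) ^ (-(σ / 2)) * L ^ (k + 1) ≤ η' / 6 := by
    refine le_trans ?_ hexp
    rw [mul_comm]
    apply mul_le_mul_of_nonneg_left _ (by positivity)
    rw [Real.rpow_def_of_pos hx0]
    apply Real.exp_le_exp.2
    have h1 : σ / (6 * d) * L ≤ σ / 2 * Real.log x := by
      calc σ / (6 * d) * L = σ / 2 * (L / (3 * d)) := by field_simp; ring
        _ ≤ _ := mul_le_mul_of_nonneg_left hxlog (by positivity)
    linarith
  -- the polynomials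
  have hFb : ∀ i, ∀ p ∈ Icc 1 x, |(((F i).eval (p : ℤ) : ℤ) : ℝ)| ≤ N / L ^ 4 := by
    intro i p hp
    have h6 := eval_le (F i) d (hdi i) L (fun j => (hKc i j).trans (by linarith)) x p hp
    rw [le_div_iff₀ (by positivity)]
    calc |(((F i).eval (p : ℤ) : ℤ) : ℝ)| * L ^ 4 ≤ ((d : ℝ) + 1) * L * (x : ℝ) ^ (F i).natDegree * L ^ 4 := by gcongr
      _ ≤ L * L * (x : ℝ) ^ (F i).natDegree * L ^ 4 := by gcongr; linarith
      _ = (x : ℝ) ^ (F i).natDegree * L ^ 6 := by ring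
      _ ≤ (x : ℝ) ^ (F i).natDegree * L ^ (C + 6) := by
        apply mul_le_mul_of_nonneg_left _ (by positivity)
        exact pow_le_pow_right₀ hL1 (by omega)
      _ ≤ N := (hx12 i).2
  have hFN : ∀ i, ∀ p ∈ Icc 1 x, |(((F i).eval (p : ℤ) : ℤ) : ℝ)| ≤ N := fun i p hp =>
    (hFb i p hp).trans (div_le_self hN0.le (one_le_pow₀ hL1))
  have hcardp : ∀ i, ∀ p ∈ Icc 1 x, (((Icc 1 N).filter fun n : ℕ => ((n : ℤ) + (F i).eval (p : ℤ)).toNat.Prime).card : ℝ) ≤ 4 * N / L := by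
    intro i p hp
    rw [hL]
    exact card_primes_int N X₀ hcheb (by omega) (by omega) _ (hFN i p hp) (Icc 1 N) (Subset.refl _)
  -- the box
  obtain ⟨box, hbox⟩ : ∃ box, box = Fintype.piFinset (fun _ : Fin k => Icc 1 N) := ⟨_, rfl⟩
  rw [← hbox] at hJ
  have hboxm : ∀ a ∈ box, ∀ i, 1 ≤ a i ∧ a i ≤ N := by
    intro a ha i
    rw [hbox, Fintype.mem_piFinset] at ha
    exact mem_Icc.1 (ha i)
  have hboxc : (box.card : ℝ) = (N : ℝ) ^ k := by
    rw [hbox, Fintype.card_piFinset, prod_const, Nat.card_Icc, Nat.add_sub_cancel, card_univ, Fintype.card_fin]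
    push_cast
    rfl
  obtain ⟨Ex, hEx1, hEx2⟩ := hsys
  rw [← hbox] at hEx2
  obtain ⟨S, hS⟩ : ∃ S : (Fin k → ℕ) → ℝ, S = fun a => ∑ m ∈ Icc 1 x, thp m * ∏ i, thp ((a i : ℤ) + (F i).eval (m : ℤ)).toNat := ⟨_, rfl⟩
  obtain ⟨D, hD⟩ : ∃ D : (Fin k → ℕ) → ℝ, D = fun a => Pool.Agent.Run7.h18.MK.dens (X * gP F a) (k + 1) z := ⟨_, rfl⟩
  have hD0 : ∀ a, 0 ≤ D a := fun a => by rw [hD]; exact sdens_nonneg _ _ _
  have herr : ∀ a ∈ box, a ∉ Ex → |S a - x * D a| ≤ x * (1 / L) := by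
    intro a ha haE
    obtain ⟨-, h2⟩ := hEx2 a ha haE F (fun i => ⟨hF i, hdi i, fun j => by
      rw [pow_one]
      exact (hKc i j).trans (by linarith)⟩)
    obtain ⟨-, h3⟩ := h2 x (fun i => by
      obtain ⟨c1, c2⟩ := hx12 i
      have hp : L ^ C ≤ L ^ (C + 6) := pow_le_pow_right₀ hL1 (by omega)
      exact ⟨le_trans (mul_le_mul_of_nonneg_left hp (by positivity)) c1,
        le_trans (mul_le_mul_of_nonneg_left hp (by positivity)) c2⟩)
    rw [hS, hD]
    refine h3.trans (le_of_eq ?_)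
    rw [pow_one]
    ring
  obtain ⟨E₁, hE₁⟩ : ∃ E₁, E₁ = box.filter fun a => ∃ i, ((a i : ℕ) : ℝ) < N / L ^ 2 := ⟨_, rfl⟩
  have hE₁c : (E₁.card : ℝ) ≤ k / L ^ 2 * (N : ℝ) ^ k := by
    rw [hE₁, hbox]
    refine (small_coord k N (N / L ^ 2) (by positivity)).trans (le_of_eq ?_)
    obtain ⟨k', rfl⟩ : ∃ k', k = k' + 1 := ⟨k - 1, by omega⟩
    rw [Nat.add_sub_cancel, pow_succ]
    ring
  obtain ⟨E₂, hE₂⟩ : ∃ E₂, E₂ = (box \ Ex).filter fun a => Kd < D a := ⟨_, rfl⟩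
  have hthpx : ∑ m ∈ Icc 1 x, thp m ≤ 2 * x := by
    have h1 : ∀ m ∈ Icc 1 x, thp m ≤ if m.Prime then Real.log x else 0 := by
      intro m hm
      rw [mem_Icc] at hm
      unfold Pool.Agent.R460.SQ.thp
      split_ifs with h
      · exact Real.log_le_log (by exact_mod_cast h.pos) (by exact_mod_cast hm.2)
      · exact le_refl _
    refine (sum_le_sum h1).trans ?_
    rw [← sum_filter, sum_const, nsmul_eq_mul]
    have h2 := (abs_le.1 hQ).2
    have h3 : ((((Icc 1 x).filter Nat.Prime).card : ℕ) : ℝ) * Real.log x / x ≤ 2 := by linarith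
    rwa [div_le_iff₀ hx0] at h3
  have htot : ∑ a ∈ box, S a ≤ 2 * x * (8 * N) ^ k := by
    rw [hbox, hS]
    exact total F N x hN0.le _ hthpx fun i p hp => thp_sum N L hL hL1 _ (hFN i p hp) (hcardp i p hp) (by omega)
  have hE₂c : (E₂.card : ℝ) ≤ ε / (24 * B) * (N : ℝ) ^ k := by
    have h1 : Kd * E₂.card ≤ ∑ a ∈ box \ Ex, D a := by
      calc Kd * E₂.card = ∑ _a ∈ E₂, Kd := by rw [sum_const, nsmul_eq_mul]; ring
        _ ≤ ∑ a ∈ E₂, D a := sum_le_sum fun a ha => by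
            rw [hE₂, mem_filter] at ha
            exact ha.2.le
        _ ≤ _ := by
            rw [hE₂]
            exact sum_le_sum_of_subset_of_nonneg (filter_subset _ _) fun a _ _ => hD0 a
    have h2 : x * ∑ a ∈ box \ Ex, D a ≤ 2 * x * (8 * N) ^ k + x * (N : ℝ) ^ k := by
      have hS0 : ∀ a, 0 ≤ S a := by
        intro a
        rw [hS]
        have hthp : ∀ n : ℕ, 0 ≤ thp n := by
          intro n
          unfold Pool.Agent.R460.SQ.thp
          split_ifs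
          · exact Real.log_natCast_nonneg n
          · exact le_refl _
        exact sum_nonneg fun m _ => mul_nonneg (hthp m) (prod_nonneg fun i _ => hthp _)
      have h3 : ∀ a ∈ box \ Ex, x * D a ≤ S a + x := by
        intro a ha
        rw [Finset.mem_sdiff] at ha
        have h4 := (abs_le.1 (herr a ha.1 ha.2)).1
        have h5 : (x : ℝ) * (1 / L) ≤ x * 1 := by
          apply mul_le_mul_of_nonneg_left _ hx0.le
          rw [div_le_one hL0]
          exact hL1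
        linarith
      rw [mul_sum]
      refine (sum_le_sum h3).trans ?_
      rw [sum_add_distrib, sum_const, nsmul_eq_mul]
      have h6 : ∑ a ∈ box \ Ex, S a ≤ ∑ a ∈ box, S a := sum_le_sum_of_subset_of_nonneg sdiff_subset fun a _ _ => hS0 a
      have h7 : ((box \ Ex).card : ℝ) ≤ (N : ℝ) ^ k := by
        rw [← hboxc]
        exact_mod_cast card_le_card sdiff_subset
      have h8 : ((box \ Ex).card : ℝ) * x ≤ (N : ℝ) ^ k * x := mul_le_mul_of_nonneg_right h7 hx0.le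
      linarith
    have h3 : ∑ a ∈ box \ Ex, D a ≤ K0 * (N : ℝ) ^ k := by
      have h4 : x * ∑ a ∈ box \ Ex, D a ≤ x * (K0 * (N : ℝ) ^ k) := by
        refine h2.trans (le_of_eq ?_)
        rw [hK0, mul_pow]
        ring
      exact le_of_mul_le_mul_left h4 hx0
    have h4 : Kd * E₂.card ≤ Kd * (ε / (24 * B) * (N : ℝ) ^ k) := by
      refine (h1.trans h3).trans (le_of_eq ?_)
      rw [hKd]
      field_simp
    exact le_of_mul_le_mul_left h4 hKd0
  -- the set `J`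
  have hJ0 : 0 < J.card := by
    rcases Nat.eq_zero_or_pos J.card with h | h
    · rw [h, mul_zero] at hJB
      have : 0 < N ^ k := Nat.pow_pos (by omega)
      omega
    · exact h
  have hJr : (N : ℝ) ^ k ≤ B * J.card := by exact_mod_cast hJB
  have hJc : (0 : ℝ) < J.card := by exact_mod_cast hJ0
  obtain ⟨ρ, hρ⟩ : ∃ ρ : ℝ, ρ = 1 / L ^ k := ⟨_, rfl⟩
  have hρ0 : 0 < ρ := by rw [hρ]; positivity
  obtain ⟨P, hP'⟩ : ∃ P, P = PX x := ⟨_, rfl⟩
  have hP : P = (Icc 1 x).filter Nat.Prime := hP'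
  have h2P : 2 ∈ P := by
    rw [hP, mem_filter, mem_Icc]
    exact ⟨⟨by norm_num, hx2⟩, Nat.prime_two⟩
  rw [← hP']
  have : Nonempty {p // p ∈ P} := ⟨⟨2, h2P⟩⟩
  have hPm : ∀ p : {p // p ∈ P}, (p : ℕ) ∈ Icc 1 x := by
    rintro ⟨p, hp⟩
    rw [hP, mem_filter] at hp
    exact hp.1
  have hav : ∀ a : Fin k → ℕ, av (fun p : {p // p ∈ P} => (((if AllP F a (p : ℕ) then 1 else 0 : ℕ)) : ℝ)) =
      ((P.filter (AllP F a)).card : ℝ) / P.card := by
    intro a
    unfold av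
    rw [Fintype.card_coe]
    congr 1
    have e : ∑ p : {p // p ∈ P}, (((if AllP F a (p : ℕ) then 1 else 0 : ℕ)) : ℝ) =
        ∑ p ∈ P, (((if AllP F a p then 1 else 0 : ℕ)) : ℝ) :=
      sum_coe_sort P (fun p : ℕ => (((if AllP F a p then 1 else 0 : ℕ)) : ℝ))
    rw [e, card_filter]
    push_cast
    rfl
  have hres := hg {p // p ∈ P} (Fin k → ℕ) J (Ex ∪ E₁ ∪ E₂) (fun a p => if AllP F a (p : ℕ) then 1 else 0)
    (fun a => D a / ∏ i, Real.log (a i)) ρ B₂ m (card_pos.1 hJ0) (fun a p => by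
    split_ifs
    · exact Or.inr rfl
    · exact Or.inl rfl) hρ0 hB₂1 (by
    rw [hρ, mul_one_div, div_le_iff₀ (by positivity)]
    have h1 : B₂ ^ 2 / ρ₀ ≤ L := by linarith
    rw [div_le_iff₀ hρ₀] at h1
    have h2 : L * ρ₀ ≤ L ^ k * ρ₀ := mul_le_mul_of_nonneg_right hLk1 hρ₀.le
    linarith) hm1 (by
    rw [hρ, mul_one_div, div_le_iff₀ (by positivity)]
    exact hm2) (by
    have h1 : ((J ∩ (Ex ∪ E₁ ∪ E₂)).card : ℝ) ≤ Ex.card + E₁.card + E₂.card := by
      have h2 : (J ∩ (Ex ∪ E₁ ∪ E₂)).card ≤ Ex.card + E₁.card + E₂.card :=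
        (card_le_card inter_subset_right).trans ((card_union_le _ _).trans (Nat.add_le_add_right (card_union_le _ _) _))
      exact_mod_cast h2
    rw [pow_one] at hEx1
    have h3 : 24 * B / ε ≤ L := by linarith
    rw [div_le_iff₀ hε] at h3
    have hNk : (0 : ℝ) < (N : ℝ) ^ k := by positivity
    have h4 : (N : ℝ) ^ k / L ≤ ε / (24 * B) * (N : ℝ) ^ k := by
      rw [div_le_iff₀ hL0, div_mul_eq_mul_div, div_mul_eq_mul_div, le_div_iff₀ (by positivity)]
      calc (N : ℝ) ^ k * (24 * B) ≤ (N : ℝ) ^ k * (L * ε) := mul_le_mul_of_nonneg_left h3 hNk.le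
        _ = ε * (N : ℝ) ^ k * L := by ring
    have h5 : (k : ℝ) / L ^ 2 * (N : ℝ) ^ k ≤ ε / (24 * B) * (N : ℝ) ^ k := by
      refine le_trans ?_ h4
      rw [div_mul_eq_mul_div, div_le_div_iff₀ (by positivity) hL0]
      have h6 : (k : ℝ) ≤ L := by linarith
      calc (k : ℝ) * (N : ℝ) ^ k * L ≤ L * (N : ℝ) ^ k * L := by gcongr
        _ = (N : ℝ) ^ k * L ^ 2 := by ring
    have h6 : ε / (24 * B) * (N : ℝ) ^ k ≤ ε / 24 * J.card := by
      calc ε / (24 * B) * (N : ℝ) ^ k ≤ ε / (24 * B) * (B * J.card) := mul_le_mul_of_nonneg_left hJr (by positivity)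
        _ = ε / 24 * J.card := by field_simp
    linarith) (fun a ha => by
    apply div_nonneg (hD0 a)
    exact prod_nonneg fun i _ => Real.log_natCast_nonneg _) (fun a ha => by
    rw [Finset.mem_sdiff, mem_union, mem_union, not_or, not_or] at ha
    obtain ⟨haJ, ⟨haE, haE1⟩, haE2⟩ := ha
    have hab := hJ haJ
    have haN : ∀ i, a i ≤ N := fun i => (hboxm a hab i).2
    have halow : ∀ i, (N : ℝ) / L ^ 2 ≤ (a i : ℝ) := by
      rw [hE₁, mem_filter, not_and] at haE1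
      have h1 := haE1 hab
      push Not at h1
      exact h1
    have hDK : D a ≤ Kd := by
      rw [hE₂, mem_filter, not_and, not_lt] at haE2
      exact haE2 (mem_sdiff.2 ⟨hab, haE⟩)
    have hone := one_vec hk F a N x L hL hL8 hx2 σ hσ hσ1 (by linarith) halow haN hpow8' hFb (D a) Kd (1 / L) (by positivity)
      (hD0 a) hDK (by
        have := herr a hab haE
        rw [hS] at this
        exact this) hQ hxN
    have hloga : ∀ i, L / 2 ≤ Real.log (a i : ℝ) := by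
      intro i
      have h1 := Real.log_le_log (by positivity) (halow i)
      rw [Real.log_div (by positivity) (by positivity), Real.log_pow, ← hL] at h1
      have h2 : Real.log L * 8 ≤ L := by
        have h3 := Real.log_le_log (by positivity) hpow8'
        rw [Real.log_pow, ← hL] at h3
        push_cast at h3
        linarith
      push_cast at h1
      have h4 : 0 ≤ Real.log L := Real.log_nonneg hL1
      linarith
    constructor
    · have hLM : (L / 2) ^ k ≤ ∏ i, Real.log (a i : ℝ) := by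
        refine le_trans (le_of_eq ?_) (prod_le_prod (fun i _ => by positivity) fun i _ => hloga i)
        rw [prod_const, card_univ, Fintype.card_fin]
      have hM0 : 0 < ∏ i, Real.log (a i : ℝ) := lt_of_lt_of_le (by positivity) hLM
      rw [div_le_iff₀ hM0, hρ]
      calc D a ≤ Kd := hDK
        _ = (2 ^ k * Kd) * (1 / L ^ k) * (L / 2) ^ k := by rw [div_pow]; field_simp
        _ ≤ B' * (1 / L ^ k) * ∏ i, Real.log (a i : ℝ) := by
          apply mul_le_mul _ hLM (by positivity) (by positivity)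
          apply mul_le_mul_of_nonneg_right _ (by positivity)
          rw [hB']
          linarith
    · rw [← hP] at hone
      rw [hav]
      calc m * |((P.filter (AllP F a)).card : ℝ) / P.card - D a / ∏ i, Real.log (a i : ℝ)|
          ≤ (Λ * L ^ k) * ((4 * σ * Kd + 2 * (1 / L) + 2 * ((x : ℝ) ^ (-(σ / 2)) * L ^ (k + 1))) * (2 / L) ^ k) :=
            mul_le_mul hm2 hone (abs_nonneg _) (by positivity)
        _ = (Λ * 2 ^ k) * (4 * σ * Kd + 2 * (1 / L) + 2 * ((x : ℝ) ^ (-(σ / 2)) * L ^ (k + 1))) := by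
          rw [div_pow]
          field_simp
        _ ≤ (Λ * 2 ^ k) * η' := by
          apply mul_le_mul_of_nonneg_left _ (by positivity)
          have h1 : 2 * (1 / L) ≤ η' / 3 := by
            have h2 : 6 / η' ≤ L := by linarith
            rw [div_le_iff₀ hη'0] at h2
            rw [mul_one_div, div_le_iff₀ hL0]
            linarith
          linarith
        _ = η := by rw [hη']; field_simp) (fun p => by
    have h1 : ∑ a ∈ J \ (Ex ∪ E₁ ∪ E₂), (((if AllP F a (p : ℕ) then 1 else 0 : ℕ)) : ℝ) ≤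
        ((box.filter fun a => AllP F a (p : ℕ)).card : ℝ) := by
      have h2 : ∀ a : Fin k → ℕ, (((if AllP F a (p : ℕ) then 1 else 0 : ℕ)) : ℝ) = if AllP F a (p : ℕ) then (1 : ℝ) else 0 := by
        intro a
        split_ifs <;> simp
      simp only [h2]
      rw [sum_boole]
      exact_mod_cast card_le_card (filter_subset_filter _ (sdiff_subset.trans hJ))
    refine h1.trans ?_
    have h2 : (box.filter fun a => AllP F a (p : ℕ)) =
        Fintype.piFinset fun i => (Icc 1 N).filter fun n : ℕ => ((n : ℤ) + (F i).eval ((p : ℕ) : ℤ)).toNat.Prime := by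
      ext a
      rw [mem_filter, hbox, Fintype.mem_piFinset, Fintype.mem_piFinset]
      unfold AllP
      constructor
      · rintro ⟨h3, h4⟩ i
        exact mem_filter.2 ⟨h3 i, h4 i⟩
      · intro h3
        exact ⟨fun i => (mem_filter.1 (h3 i)).1, fun i => (mem_filter.1 (h3 i)).2⟩
    rw [h2, Fintype.card_piFinset]
    push_cast
    refine (prod_le_prod (fun i _ => Nat.cast_nonneg _) fun i _ => hcardp i p (hPm p)).trans ?_
    rw [prod_const, card_univ, Fintype.card_fin, hρ, hB₂]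
    calc (4 * (N : ℝ) / L) ^ k = 4 ^ k * (N : ℝ) ^ k / L ^ k := by rw [div_pow, mul_pow]
      _ ≤ 4 ^ k * (B * J.card) / L ^ k := by gcongr
      _ = 4 ^ k * B * (1 / L ^ k) * J.card := by ring)
  have hsum : ∀ (ω : Fin m → {p // p ∈ P}) (a : Fin k → ℕ), ∑ l, (if AllP F a (ω l : ℕ) then 1 else 0) =
      (univ.filter fun l => AllP F a (ω l)).card := by
    intro ω a
    rw [sum_boole]
    rfl
  simp only [hsum] at hres
  rw [hD] at hres
  refine hres.trans (le_of_eq ?_)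
  rw [Fintype.card_coe, hρ]
  congr 2
  field_simp

end Pool.Agent.Run7.h524.MG
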