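import Pool.Agent.Run7.h524.MG.One

/-!
# The Gaussian law for almost all choices: the abstract theorem
-/

set_option autoImplicit false

namespace Pool.Agent.Run7.h524.MG

open Finset
open Q282.CL (av av_add av_sub av_mul av_const av_pi av_mono av_nonneg norm_av_le abs_av_le av_ofReal)

section

variable {α : Type} [Fintype α] [Nonempty α]

/-- the normalised sum, set to zero on the exceptional set -/
noncomputable def Yn (J E : Finset ℕ) (f : ℕ → α → ℝ) (r : ℕ → ℝ) {m : ℕ} (ω : Fin m → α) (n : {n // n ∈ J}) : ℝ :=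
  if n.1 ∈ E then 0 else (∑ l, f n.1 (ω l) - m * r n.1) / √(m * r n.1)

omit [Fintype α] [Nonempty α] in
lemma sum_update {m : ℕ} (g : α → ℝ) (ω : Fin m → α) (i : Fin m) (v : α) :
    ∑ l, g (Function.update ω i v l) - ∑ l, g (ω l) = g v - g (ω i) := by
  classical
  rw [← add_sum_erase _ _ (mem_univ i), ← add_sum_erase univ (fun l => g (ω l)) (mem_univ i)]
  rw [Function.update_self]
  have h : ∑ x ∈ univ.erase i, g (Function.update ω i v x) = ∑ x ∈ univ.erase i, g (ω x) := by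
    refine sum_congr rfl fun x hx => ?_
    rw [Function.update_of_ne (mem_erase.1 hx).1]
  rw [h]
  ring

omit [Fintype α] [Nonempty α] in
/-- a change of one coordinate -/
lemma Yn_diff (J E : Finset ℕ) (f : ℕ → α → ℝ) (hf : ∀ n a, f n a = 0 ∨ f n a = 1) (r : ℕ → ℝ) (ρ : ℝ) (hρ : 0 < ρ) {m : ℕ}
    (hm : 0 < m) (hr : ∀ n ∈ J \ E, ρ ≤ r n) (ω : Fin m → α) (i : Fin m) (v : α) (n : {n // n ∈ J}) :
    |Yn J E f r (Function.update ω i v) n - Yn J E f r ω n| ≤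
      if n.1 ∈ E then 0 else (f n.1 v + f n.1 (ω i)) / √(m * ρ) := by
  unfold Yn
  by_cases h : n.1 ∈ E
  · rw [if_pos h, if_pos h, if_pos h, sub_zero, abs_zero]
  · rw [if_neg h, if_neg h, if_neg h, ← sub_div, sub_sub_sub_cancel_right, sum_update (f n.1) ω i v]
    have hr1 : ρ ≤ r n.1 := hr n.1 (mem_sdiff.2 ⟨n.2, h⟩)
    have hm0 : (0 : ℝ) < m := by exact_mod_cast hm
    have h0 : ∀ a, 0 ≤ f n.1 a := fun a => by rcases hf n.1 a with h | h <;> rw [h] <;> norm_num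
    rw [abs_div, abs_of_nonneg (Real.sqrt_nonneg _)]
    apply div_le_div₀ (add_nonneg (h0 v) (h0 (ω i)))
    · have := h0 v
      have := h0 (ω i)
      rw [abs_le]
      constructor <;> linarith
    · exact Real.sqrt_pos.2 (by positivity)
    · exact Real.sqrt_le_sqrt (mul_le_mul_of_nonneg_left hr1 hm0.le)

omit [Fintype α] [Nonempty α] in
/-- the mean change -/
lemma av_diff (J E : Finset ℕ) (hJ : J.Nonempty) (f : ℕ → α → ℝ) (B ρ : ℝ) (hρ : 0 < ρ) {m : ℕ}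
    (hm : 0 < m) (hc : ∀ a, ∑ n ∈ J \ E, f n a ≤ B * ρ * J.card) (v v' : α) :
    av (fun n : {n // n ∈ J} => if n.1 ∈ E then 0 else (f n.1 v + f n.1 v') / √(m * ρ)) ≤ 2 * B * √(ρ / m) := by
  have hm0 : (0 : ℝ) < m := by exact_mod_cast hm
  have hJ0 : (0 : ℝ) < J.card := by exact_mod_cast hJ.card_pos
  have hs : 0 < √(m * ρ) := Real.sqrt_pos.2 (by positivity)
  unfold av
  rw [Fintype.card_coe, sum_coe_sort J (fun n => if n ∈ E then 0 else (f n v + f n v') / √(m * ρ)), div_le_iff₀ hJ0]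
  have h1 : ∑ n ∈ J, (if n ∈ E then 0 else (f n v + f n v') / √(m * ρ)) = (∑ n ∈ J \ E, f n v + ∑ n ∈ J \ E, f n v') / √(m * ρ) := by
    rw [← sum_add_distrib, sum_div, sdiff_eq_filter, sum_filter]
    refine sum_congr rfl fun n _ => ?_
    by_cases h : n ∈ E
    · simp [h]
    · simp [h]
  rw [h1]
  have h2 : √(ρ / m) = ρ / √(m * ρ) := by
    rw [Real.sqrt_div hρ.le, Real.sqrt_mul hm0.le, div_eq_div_iff (by positivity) (by positivity)]
    have := Real.mul_self_sqrt hρ.le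
    calc √ρ * (√↑m * √ρ) = √ρ * √ρ * √m := by ring
      _ = ρ * √m := by rw [this]
  rw [h2, div_le_iff₀ hs]
  have h3 := hc v
  have h4 := hc v'
  calc ∑ n ∈ J \ E, f n v + ∑ n ∈ J \ E, f n v' ≤ 2 * B * ρ * J.card := by linarith
    _ = 2 * B * (ρ / √(m * ρ)) * J.card * √(m * ρ) := by field_simp

end

lemma exp_dist (x y : ℝ) : ‖Complex.exp (Complex.I * (x : ℂ)) - Complex.exp (Complex.I * (y : ℂ))‖ ≤ |x - y| := by
  have h2 := Real.norm_exp_I_mul_ofReal_sub_one_le (x := x - y)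
  have h3 : Complex.exp (Complex.I * (x : ℂ)) - Complex.exp (Complex.I * (y : ℂ)) =
      Complex.exp (Complex.I * (y : ℂ)) * (Complex.exp (Complex.I * ((x - y : ℝ) : ℂ)) - 1) := by
    rw [mul_sub, ← Complex.exp_add, mul_one]
    congr 2
    push_cast
    ring
  rw [h3, norm_mul, Complex.norm_exp_I_mul_ofReal, one_mul]
  rwa [Real.norm_eq_abs] at h2

/-- the constants -/
lemma consts (B : ℝ) (hB : 1 ≤ B) (D : ℕ) (hD : 1 ≤ D) (ε : ℝ) (hε : 0 < ε) : ∃ η K δ ρ₀ : ℝ, 0 < η ∧ 0 < δ ∧ 0 < ρ₀ ∧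
    B * ρ₀ ≤ 1 / 2 ∧ (D : ℝ) ^ 2 ≤ K ∧ 1 ≤ K ∧ η ≤ 1 ∧ 2 * η ≤ ε ∧ 2 * η ≤ 1 / (8 * D) ∧ η * D ≤ 1 / (16 * D) ∧
    (D : ℝ) ^ 3 ≤ √K * (1 / (16 * D)) ∧ 3 * (B * ρ₀) * (D : ℝ) ^ 2 ≤ 1 / (16 * D) ∧
    ∀ ρ : ℝ, 0 < ρ → ρ ≤ ρ₀ → (4 * (2 * (D : ℝ) ^ 2 + 1) + 2) * Real.exp (-(1 / (128 * B ^ 2 * (D : ℝ) ^ 4)) / ρ) ≤
      Real.exp (-δ / ρ) := by
  have hD1 : (1 : ℝ) ≤ D := by exact_mod_cast hD
  have hD0 : (0 : ℝ) < D := by linarith
  obtain ⟨c, hc⟩ : ∃ c : ℝ, c = 1 / (128 * B ^ 2 * (D : ℝ) ^ 4) := ⟨_, rfl⟩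
  have hc0 : 0 < c := by rw [hc]; positivity
  refine ⟨min (ε / 2) (1 / (16 * D ^ 2)), (16 * D ^ 4) ^ 2, c / 2, min (1 / (48 * B * D ^ 3)) (c / (28 * D ^ 2)), by positivity,
    by positivity, by positivity, ?_, ?_, ?_, ?_, ?_, ?_, ?_, ?_, ?_, ?_⟩
  · calc B * min (1 / (48 * B * (D : ℝ) ^ 3)) (c / (28 * D ^ 2)) ≤ B * (1 / (48 * B * D ^ 3)) :=
          mul_le_mul_of_nonneg_left (min_le_left _ _) (by linarith)
      _ = 1 / (48 * D ^ 3) := by field_simp
      _ ≤ 1 / 2 := by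
        apply one_div_le_one_div_of_le (by norm_num)
        have : 1 ≤ (D : ℝ) ^ 3 := one_le_pow₀ hD1
        linarith
  · have : (D : ℝ) ^ 2 ≤ D ^ 8 := pow_le_pow_right₀ hD1 (by norm_num)
    have h2 : 0 ≤ (D : ℝ) ^ 8 := by positivity
    nlinarith
  · have : (1 : ℝ) ≤ D ^ 8 := one_le_pow₀ hD1
    nlinarith
  · refine (min_le_right _ _).trans ?_
    rw [div_le_one (by positivity)]
    have : (1 : ℝ) ≤ D ^ 2 := one_le_pow₀ hD1
    linarith
  · have := min_le_left (ε / 2) (1 / (16 * (D : ℝ) ^ 2))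
    linarith
  · have h1 := min_le_right (ε / 2) (1 / (16 * (D : ℝ) ^ 2))
    have h2 : 1 / (16 * (D : ℝ) ^ 2) ≤ 1 / (16 * D) := by
      apply one_div_le_one_div_of_le (by positivity)
      nlinarith
    have h3 : 1 / (8 * (D : ℝ)) = 2 * (1 / (16 * D)) := by field_simp; norm_num
    rw [h3]
    linarith
  · calc min (ε / 2) (1 / (16 * (D : ℝ) ^ 2)) * D ≤ 1 / (16 * (D : ℝ) ^ 2) * D :=
          mul_le_mul_of_nonneg_right (min_le_right _ _) hD0.le
      _ = 1 / (16 * D) := by field_simp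
  · rw [Real.sqrt_sq (by positivity)]
    have : 16 * (D : ℝ) ^ 4 * (1 / (16 * D)) = D ^ 3 := by field_simp
    rw [this]
  · have h1 : B * min (1 / (48 * B * (D : ℝ) ^ 3)) (c / (28 * D ^ 2)) ≤ B * (1 / (48 * B * (D : ℝ) ^ 3)) :=
      mul_le_mul_of_nonneg_left (min_le_left _ _) (by linarith)
    have h2 : 3 * (B * (1 / (48 * B * (D : ℝ) ^ 3))) * (D : ℝ) ^ 2 = 1 / (16 * (D : ℝ)) := by
      field_simp
      norm_num
    rw [← h2]
    have h3 : (0 : ℝ) ≤ (D : ℝ) ^ 2 := by positivity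
    exact mul_le_mul_of_nonneg_right (by linarith) h3
  · intro ρ hρ hρ0
    rw [← hc]
    have h1 : ρ ≤ c / (28 * D ^ 2) := hρ0.trans (min_le_right _ _)
    rw [le_div_iff₀ (by positivity)] at h1
    have h2 : 14 * (D : ℝ) ^ 2 ≤ c / 2 / ρ := by
      rw [le_div_iff₀ hρ]
      linarith
    have h3 : 4 * (2 * (D : ℝ) ^ 2 + 1) + 2 ≤ Real.exp (c / 2 / ρ) := by
      have := Real.add_one_le_exp (c / 2 / ρ)
      have h4 : (1 : ℝ) ≤ D ^ 2 := one_le_pow₀ hD1
      linarith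
    calc (4 * (2 * (D : ℝ) ^ 2 + 1) + 2) * Real.exp (-c / ρ) ≤ Real.exp (c / 2 / ρ) * Real.exp (-c / ρ) :=
          mul_le_mul_of_nonneg_right h3 (Real.exp_pos _).le
      _ = Real.exp (-(c / 2) / ρ) := by
          rw [← Real.exp_add]
          congr 1
          ring

open Classical in
/-- **The Gaussian law for almost all choices.** -/
theorem gauss (B : ℝ) (hB : 1 ≤ B) (ε : ℝ) (hε : 0 < ε) : ∃ η K δ ρ₀ : ℝ, 0 < η ∧ 0 < δ ∧ 0 < ρ₀ ∧
    ∀ (α : Type) [Fintype α] [Nonempty α] (J E : Finset ℕ) (f : ℕ → α → ℝ) (r : ℕ → ℝ) (ρ : ℝ) (m : ℕ), J.Nonempty →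
    (∀ n a, f n a = 0 ∨ f n a = 1) → 0 < ρ → ρ ≤ ρ₀ → K ≤ m * ρ → ((J ∩ E).card : ℝ) ≤ η * J.card →
    (∀ n ∈ J \ E, ρ ≤ r n ∧ r n ≤ B * ρ ∧ m * |av (f n) - r n| ≤ η * √(m * r n)) →
    (∀ a, ∑ n ∈ J \ E, f n a ≤ B * ρ * J.card) →
    ((univ.filter fun ω : Fin m → α => ¬ ∀ u : ℝ,
      |((J.filter fun n => ∑ l, f n (ω l) ≤ m * r n + u * √(m * r n)).card : ℝ) / J.card - Phi u| ≤ ε).card : ℝ) ≤
      Real.exp (-δ / ρ) * (Fintype.card α : ℝ) ^ m := by
  obtain ⟨D, hD, hemp⟩ := emp (2 * Real.exp 3 + 1) (by positivity) (ε / 2) (by positivity)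
  obtain ⟨η, K, δ, ρ₀, hη, hδ, hρ₀, c1, c2, c3, c4, c5, c6, c7, c8, c9, c10⟩ := consts B hB D hD (ε / 2) (by positivity)
  refine ⟨η, K, δ, ρ₀, hη, hδ, hρ₀, fun α _ _ J E f r ρ m hJ hf hρ hρρ hK hE hr hc => ?_⟩
  have hD1 : (1 : ℝ) ≤ D := by exact_mod_cast hD
  have hD0 : (0 : ℝ) < D := by linarith
  have hm : 0 < m := by
    rcases Nat.eq_zero_or_pos m with h | h
    · rw [h, Nat.cast_zero, zero_mul] at hK
      linarith
    · exact h
  have hm0 : (0 : ℝ) < m := by exact_mod_cast hm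
  have hJ0 : (0 : ℝ) < J.card := by exact_mod_cast hJ.card_pos
  have : Nonempty {n // n ∈ J} := ⟨⟨_, hJ.choose_spec⟩⟩
  have hBρ : B * ρ ≤ B * ρ₀ := mul_le_mul_of_nonneg_left hρρ (by linarith)
  -- the statistics
  obtain ⟨F, hF⟩ : ∃ F : ℤ → (Fin m → α) → ℂ, F = fun (k : ℤ) (ω : Fin m → α) =>
    av (fun n => Complex.exp (Complex.I * (((k : ℝ) / D * Yn J E f r ω n : ℝ) : ℂ))) := ⟨_, rfl⟩
  obtain ⟨H, hH⟩ : ∃ H : (Fin m → α) → ℝ, H = fun ω => av (fun n => |Yn J E f r ω n|) := ⟨_, rfl⟩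
  obtain ⟨L, hL⟩ : ∃ L : ℝ, L = 2 * B * √(ρ / m) * D := ⟨_, rfl⟩
  have hL0 : 0 < L := by
    rw [hL]
    have : 0 < √(ρ / m) := Real.sqrt_pos.2 (by positivity)
    positivity
  have hmL : m * L ^ 2 = 4 * B ^ 2 * D ^ 2 * ρ := by
    rw [hL, mul_pow, mul_pow, mul_pow, Real.sq_sqrt (by positivity)]
    field_simp
    ring
  have hdiff : ∀ (ω : Fin m → α) (i : Fin m) (v : α),
      av (fun n => |Yn J E f r (Function.update ω i v) n - Yn J E f r ω n|) ≤ 2 * B * √(ρ / m) := by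
    intro ω i v
    refine (av_mono fun n => Yn_diff J E f hf r ρ hρ hm (fun n hn => (hr n hn).1) ω i v n).trans ?_
    exact av_diff J E hJ f B ρ hρ hm hc v (ω i)
  have hkD : ∀ k : ℤ, |k| ≤ (D : ℤ) ^ 2 → |(k : ℝ) / D| ≤ D := by
    intro k hk
    rw [abs_div, abs_of_pos hD0, div_le_iff₀ hD0]
    have : ((|k| : ℤ) : ℝ) ≤ (((D : ℤ) ^ 2 : ℤ) : ℝ) := by exact_mod_cast hk
    push_cast at this
    linarith [sq (D : ℝ)]
  -- concentration
  have hconF : ∀ k : ℤ, |k| ≤ (D : ℤ) ^ 2 → ((univ.filter fun ω => 2 * (1 / (4 * (D : ℝ))) ≤ ‖F k ω - av (F k)‖).card : ℝ) ≤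
      4 * Real.exp (-(1 / (128 * B ^ 2 * (D : ℝ) ^ 4)) / ρ) * (Fintype.card α : ℝ) ^ m := by
    intro k hk
    have h1 := mcdC m hm (F k) L hL0 (fun ω i v => by
      rw [hF]
      simp only
      rw [← av_sub]
      refine (norm_av_le _).trans ?_
      have h2 : ∀ n, ‖Complex.exp (Complex.I * (((k : ℝ) / D * Yn J E f r (Function.update ω i v) n : ℝ) : ℂ)) -
          Complex.exp (Complex.I * (((k : ℝ) / D * Yn J E f r ω n : ℝ) : ℂ))‖ ≤
          D * |Yn J E f r (Function.update ω i v) n - Yn J E f r ω n| := by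
        intro n
        refine (exp_dist _ _).trans ?_
        rw [← mul_sub, abs_mul]
        exact mul_le_mul_of_nonneg_right (hkD k hk) (abs_nonneg _)
      refine (av_mono h2).trans ?_
      rw [av_mul, hL, mul_comm (D : ℝ)]
      exact mul_le_mul_of_nonneg_right (hdiff ω i v) hD0.le) (1 / (4 * D)) (by positivity)
    refine h1.trans (le_of_eq ?_)
    congr 3
    rw [show 2 * (m : ℝ) * L ^ 2 = 2 * (m * L ^ 2) by ring, hmL]
    field_simp
    norm_num
  have hconH : ((univ.filter fun ω => 1 ≤ |H ω - av H|).card : ℝ) ≤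
      2 * Real.exp (-(1 / (128 * B ^ 2 * (D : ℝ) ^ 4)) / ρ) * (Fintype.card α : ℝ) ^ m := by
    have h1 := mcd m hm H L hL0 (fun ω i v => by
      rw [hH]
      simp only
      rw [← av_sub]
      refine (abs_av_le _).trans ?_
      have h2 : ∀ n, |(|Yn J E f r (Function.update ω i v) n| - |Yn J E f r ω n|)| ≤
          |Yn J E f r (Function.update ω i v) n - Yn J E f r ω n| := fun n => abs_abs_sub_abs_le _ _
      refine (av_mono h2).trans ((hdiff ω i v).trans ?_)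
      rw [hL]
      have : 0 ≤ 2 * B * √(ρ / m) := by positivity
      nlinarith) 1 (by norm_num)
    refine h1.trans ?_
    apply mul_le_mul_of_nonneg_right _ (by positivity)
    apply mul_le_mul_of_nonneg_left _ (by norm_num)
    apply Real.exp_le_exp.2
    rw [show 2 * (m : ℝ) * L ^ 2 = 2 * (m * L ^ 2) by ring, hmL]
    rw [one_pow, neg_div, neg_div, neg_le_neg_iff, div_div]
    apply one_div_le_one_div_of_le (by positivity)
    have h3 : (1 : ℝ) ≤ D ^ 2 := one_le_pow₀ hD1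
    have h4 : 0 < B ^ 2 * D ^ 2 * ρ := by positivity
    nlinarith
  -- the means
  have hZ : ∀ n ∈ J \ E, ∀ k : ℤ, |k| ≤ (D : ℤ) ^ 2 →
      ‖av (fun ω : Fin m → α => Complex.exp (Complex.I * (((k : ℝ) / D * ((∑ l, f n (ω l) - m * r n) / √(m * r n)) : ℝ) : ℂ))) -
        Complex.exp (-((((k : ℝ) / D) ^ 2 / 2 : ℝ) : ℂ))‖ ≤ 3 * (1 / (16 * D)) := by
    intro n hn k hk
    obtain ⟨r1, r2, r3⟩ := hr n hn
    have hr0 : 0 < r n := by linarith
    have hKr : K ≤ m * r n := hK.trans (mul_le_mul_of_nonneg_left r1 hm0.le)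
    have hs0 : 0 < √(m * r n) := Real.sqrt_pos.2 (by positivity)
    have ht := hkD k hk
    have ht2 : ((k : ℝ) / D) ^ 2 ≤ (D : ℝ) ^ 2 := by rw [← sq_abs]; exact pow_le_pow_left₀ (abs_nonneg _) ht 2
    have h1 := chr_Z (f n) (hf n) (r n) hr0 (by linarith) m hm ((k : ℝ) / D) (by linarith)
    refine h1.trans ?_
    have e1 : m * |av (f n) - r n| * |(k : ℝ) / D| / √(m * r n) ≤ 1 / (16 * D) := by
      rw [div_le_iff₀ hs0]
      calc m * |av (f n) - r n| * |(k : ℝ) / D| ≤ (η * √(m * r n)) * D := mul_le_mul r3 ht (abs_nonneg _) (by positivity)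
        _ = η * D * √(m * r n) := by ring
        _ ≤ 1 / (16 * D) * √(m * r n) := mul_le_mul_of_nonneg_right c7 hs0.le
    have e2 : |(k : ℝ) / D| ^ 3 / √(m * r n) ≤ 1 / (16 * D) := by
      rw [div_le_iff₀ hs0]
      calc |(k : ℝ) / D| ^ 3 ≤ (D : ℝ) ^ 3 := pow_le_pow_left₀ (abs_nonneg _) ht 3
        _ ≤ √K * (1 / (16 * D)) := c8
        _ ≤ √(m * r n) * (1 / (16 * D)) := mul_le_mul_of_nonneg_right (Real.sqrt_le_sqrt hKr) (by positivity)
        _ = 1 / (16 * D) * √(m * r n) := mul_comm _ _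
    have e3 : 3 * r n * ((k : ℝ) / D) ^ 2 ≤ 1 / (16 * D) := by
      refine le_trans ?_ c9
      apply mul_le_mul _ ht2 (sq_nonneg _) (by nlinarith)
      linarith
    linarith
  have hmeanF : ∀ k : ℤ, |k| ≤ (D : ℤ) ^ 2 →
      ‖av (F k) - Complex.exp (-((((k : ℝ) / D) ^ 2 / 2 : ℝ) : ℂ))‖ ≤ 3 * (1 / (16 * D)) + 2 * η := by
    intro k hk
    obtain ⟨g, hg⟩ : ∃ g : ℂ, g = Complex.exp (-((((k : ℝ) / D) ^ 2 / 2 : ℝ) : ℂ)) := ⟨_, rfl⟩
    have hg1 : ‖g‖ ≤ 1 := by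
      rw [hg, ← Complex.ofReal_neg, Complex.norm_exp, Complex.ofReal_re, Real.exp_le_one_iff]
      have : 0 ≤ ((k : ℝ) / D) ^ 2 / 2 := by positivity
      linarith
    rw [hF, av_comm, ← hg]
    have h1 : av (fun n : {n // n ∈ J} => av (fun ω : Fin m → α =>
        Complex.exp (Complex.I * (((k : ℝ) / D * Yn J E f r ω n : ℝ) : ℂ)))) - g =
        av (fun n : {n // n ∈ J} => av (fun ω : Fin m → α =>
        Complex.exp (Complex.I * (((k : ℝ) / D * Yn J E f r ω n : ℝ) : ℂ))) - g) := by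
      rw [av_sub, av_const]
    rw [h1]
    refine (norm_av_le _).trans ?_
    have h2 : ∀ n : {n // n ∈ J}, ‖av (fun ω : Fin m → α =>
        Complex.exp (Complex.I * (((k : ℝ) / D * Yn J E f r ω n : ℝ) : ℂ))) - g‖ ≤
        3 * (1 / (16 * D)) + (if n.1 ∈ E then 2 else 0) := by
      intro n
      by_cases h : n.1 ∈ E
      · rw [if_pos h]
        have h3 : (fun ω : Fin m → α => Complex.exp (Complex.I * (((k : ℝ) / D * Yn J E f r ω n : ℝ) : ℂ))) = fun _ => 1 := by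
          funext ω
          unfold Yn
          rw [if_pos h]
          simp
        rw [h3, av_const]
        refine (norm_sub_le _ _).trans ?_
        rw [norm_one]
        have : 0 ≤ 3 * (1 / (16 * (D : ℝ))) := by positivity
        linarith
      · rw [if_neg h, add_zero, hg]
        have h3 := hZ n.1 (mem_sdiff.2 ⟨n.2, h⟩) k hk
        have h4 : (fun ω : Fin m → α => Complex.exp (Complex.I * (((k : ℝ) / D * Yn J E f r ω n : ℝ) : ℂ))) =
            fun ω => Complex.exp (Complex.I * (((k : ℝ) / D * ((∑ l, f n.1 (ω l) - m * r n.1) / √(m * r n.1)) : ℝ) : ℂ)) := by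
          funext ω
          unfold Yn
          rw [if_neg h]
        rw [h4]
        exact h3
    refine (av_mono h2).trans ?_
    rw [av_add, av_const]
    have h3 : av (fun n : {n // n ∈ J} => if n.1 ∈ E then (2 : ℝ) else 0) ≤ 2 * η := by
      unfold av
      rw [Fintype.card_coe, sum_coe_sort J (fun n => if n ∈ E then (2 : ℝ) else 0), div_le_iff₀ hJ0, ← sum_filter,
        filter_mem_eq_inter, sum_const, nsmul_eq_mul]
      linarith
    linarith
  have hmeanH : av H ≤ 2 * Real.exp 3 := by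
    rw [hH, av_commR]
    have h2 : ∀ n : {n // n ∈ J}, av (fun ω : Fin m → α => |Yn J E f r ω n|) ≤ 2 * Real.exp 3 := by
      intro n
      by_cases h : n.1 ∈ E
      · have h3 : (fun ω : Fin m → α => |Yn J E f r ω n|) = fun _ => 0 := by
          funext ω
          unfold Yn
          rw [if_pos h, abs_zero]
        rw [h3, av_const]
        positivity
      · obtain ⟨r1, r2, r3⟩ := hr n.1 (mem_sdiff.2 ⟨n.2, h⟩)
        have hr0 : 0 < r n.1 := by linarith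
        have hKr : K ≤ m * r n.1 := hK.trans (mul_le_mul_of_nonneg_left r1 hm0.le)
        have h3 := mom_Z (f n.1) (hf n.1) (r n.1) hr0 m hm (c3.trans hKr) (r3.trans (by
          have := Real.sqrt_nonneg (m * r n.1)
          nlinarith))
        have h4 : (fun ω : Fin m → α => |Yn J E f r ω n|) =
            fun ω => |(∑ l, f n.1 (ω l) - m * r n.1) / √(m * r n.1)| := by
          funext ω
          unfold Yn
          rw [if_neg h]
        rw [h4]
        exact h3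
    refine (av_mono h2).trans (le_of_eq (av_const _))
  -- the good choices
  have hsub : (univ.filter fun ω : Fin m → α => ¬ ∀ u : ℝ,
      |((J.filter fun n => ∑ l, f n (ω l) ≤ m * r n + u * √(m * r n)).card : ℝ) / J.card - Phi u| ≤ ε) ⊆
      (Icc (-((D : ℤ) ^ 2)) ((D : ℤ) ^ 2)).biUnion (fun k => univ.filter fun ω => 2 * (1 / (4 * (D : ℝ))) ≤ ‖F k ω - av (F k)‖) ∪
        univ.filter fun ω => 1 ≤ |H ω - av H| := by
    intro ω hω
    rw [mem_filter] at hω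
    by_contra hcon
    rw [mem_union, not_or, mem_biUnion, mem_filter] at hcon
    obtain ⟨g1, g2⟩ := hcon
    apply hω.2
    have g1' : ∀ k : ℤ, |k| ≤ (D : ℤ) ^ 2 → ‖F k ω - av (F k)‖ ≤ 2 * (1 / (4 * (D : ℝ))) := by
      intro k hk
      by_contra h
      apply g1
      rw [not_le] at h
      exact ⟨k, mem_Icc.2 (abs_le.1 hk), mem_filter.2 ⟨mem_univ _, h.le⟩⟩
    have g2' : |H ω - av H| ≤ 1 := by
      by_contra h
      rw [not_le] at h
      exact g2 ⟨mem_univ _, h.le⟩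
    have h3 := hemp {n // n ∈ J} (fun n => Yn J E f r ω n) (fun k hk => by
      have a1 := g1' k hk
      have a2 := hmeanF k hk
      have a3 : av (fun n => Complex.exp (Complex.I * (((k : ℝ) / D * Yn J E f r ω n : ℝ) : ℂ))) = F k ω := by rw [hF]
      rw [a3]
      calc ‖F k ω - Complex.exp (-((((k : ℝ) / D) ^ 2 / 2 : ℝ) : ℂ))‖ =
          ‖(F k ω - av (F k)) + (av (F k) - Complex.exp (-((((k : ℝ) / D) ^ 2 / 2 : ℝ) : ℂ)))‖ := by congr 1; ring
        _ ≤ 2 * (1 / (4 * (D : ℝ))) + (3 * (1 / (16 * D)) + 2 * η) := (norm_add_le _ _).trans (add_le_add a1 a2)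
        _ ≤ 2 * (1 / (4 * (D : ℝ))) + (3 * (1 / (16 * D)) + 1 / (8 * D)) := by linarith
        _ = 13 / 16 * (1 / D) := by field_simp; norm_num
        _ ≤ 1 / D := by
          have : 0 < 1 / (D : ℝ) := by positivity
          linarith) (by
      have a3 : av (fun n => |Yn J E f r ω n|) = H ω := by rw [hH]
      rw [a3]
      have := (abs_le.1 g2').2
      linarith)
    intro u
    have h4 := h3 u
    rw [Fintype.card_coe] at h4
    -- compare the two counts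
    have h5 : |((J.filter fun n => ∑ l, f n (ω l) ≤ m * r n + u * √(m * r n)).card : ℝ) -
        ((univ.filter fun n : {n // n ∈ J} => Yn J E f r ω n ≤ u).card : ℝ)| ≤ (J ∩ E).card := by
      obtain ⟨G, hG⟩ : ∃ G : Finset ℕ, G = J.filter fun n => (if n ∈ E then (0 : ℝ) else (∑ l, f n (ω l) - m * r n) / √(m * r n)) ≤ u :=
        ⟨_, rfl⟩
      have e1 : (univ.filter fun n : {n // n ∈ J} => Yn J E f r ω n ≤ u).card = G.card := by
        rw [hG, card_filter, card_filter]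
        exact sum_coe_sort J (fun n => if (if n ∈ E then (0 : ℝ) else (∑ l, f n (ω l) - m * r n) / √(m * r n)) ≤ u then 1 else 0)
      rw [e1]
      obtain ⟨G', hG'⟩ : ∃ G' : Finset ℕ, G' = J.filter fun n => ∑ l, f n (ω l) ≤ m * r n + u * √(m * r n) := ⟨_, rfl⟩
      rw [← hG']
      have e2 : ∀ n ∈ J, n ∉ E → (n ∈ G ↔ n ∈ G') := by
        intro n hn hnE
        rw [hG, hG', mem_filter, mem_filter, if_neg hnE]
        obtain ⟨r1, r2, r3⟩ := hr n (mem_sdiff.2 ⟨hn, hnE⟩)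
        have hr0 : 0 < r n := by linarith
        have hs0 : 0 < √(m * r n) := Real.sqrt_pos.2 (by positivity)
        rw [div_le_iff₀ hs0]
        constructor
        · rintro ⟨h, h'⟩; exact ⟨h, by linarith⟩
        · rintro ⟨h, h'⟩; exact ⟨h, by linarith⟩
      have e3 : G ⊆ G' ∪ (J ∩ E) := by
        intro n hn
        have hnJ : n ∈ J := by rw [hG] at hn; exact (mem_filter.1 hn).1
        rw [mem_union, mem_inter]
        by_cases h : n ∈ E
        · exact Or.inr ⟨hnJ, h⟩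
        · exact Or.inl ((e2 n hnJ h).1 hn)
      have e4 : G' ⊆ G ∪ (J ∩ E) := by
        intro n hn
        have hnJ : n ∈ J := by rw [hG'] at hn; exact (mem_filter.1 hn).1
        rw [mem_union, mem_inter]
        by_cases h : n ∈ E
        · exact Or.inr ⟨hnJ, h⟩
        · exact Or.inl ((e2 n hnJ h).2 hn)
      have e5 : (G.card : ℝ) ≤ G'.card + (J ∩ E).card := by exact_mod_cast (card_le_card e3).trans (card_union_le _ _)
      have e6 : (G'.card : ℝ) ≤ G.card + (J ∩ E).card := by exact_mod_cast (card_le_card e4).trans (card_union_le _ _)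
      rw [abs_le]
      constructor <;> linarith
    obtain ⟨x, hx⟩ : ∃ x : ℝ, x = ((J.filter fun n => ∑ l, f n (ω l) ≤ m * r n + u * √(m * r n)).card : ℝ) := ⟨_, rfl⟩
    obtain ⟨y, hy⟩ : ∃ y : ℝ, y = ((univ.filter fun n : {n // n ∈ J} => Yn J E f r ω n ≤ u).card : ℝ) := ⟨_, rfl⟩
    rw [← hx, ← hy] at h5
    rw [← hx]
    have h4' : |y / J.card - Phi u| ≤ ε / 2 := by rw [hy]; exact h4
    have h6 : |x / J.card - y / J.card| ≤ ε / 2 := by
      rw [← sub_div, abs_div, abs_of_pos hJ0, div_le_iff₀ hJ0]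
      refine h5.trans (hE.trans ?_)
      apply mul_le_mul_of_nonneg_right _ hJ0.le
      linarith
    calc |x / J.card - Phi u| = |(x / J.card - y / J.card) + (y / J.card - Phi u)| := by congr 1; ring
      _ ≤ ε / 2 + ε / 2 := (abs_add_le _ _).trans (add_le_add h6 h4')
      _ = ε := by ring
  have hcard : ((univ.filter fun ω : Fin m → α => ¬ ∀ u : ℝ,
      |((J.filter fun n => ∑ l, f n (ω l) ≤ m * r n + u * √(m * r n)).card : ℝ) / J.card - Phi u| ≤ ε).card : ℝ) ≤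
      ∑ k ∈ Icc (-((D : ℤ) ^ 2)) ((D : ℤ) ^ 2), ((univ.filter fun ω => 2 * (1 / (4 * (D : ℝ))) ≤ ‖F k ω - av (F k)‖).card : ℝ) +
        ((univ.filter fun ω => 1 ≤ |H ω - av H|).card : ℝ) := by
    exact_mod_cast (card_le_card hsub).trans ((card_union_le _ _).trans (Nat.add_le_add_right card_biUnion_le _))
  refine hcard.trans ?_
  obtain ⟨x, hx⟩ : ∃ x : ℝ, x = Real.exp (-(1 / (128 * B ^ 2 * (D : ℝ) ^ 4)) / ρ) := ⟨_, rfl⟩
  obtain ⟨M, hM⟩ : ∃ M : ℝ, M = (Fintype.card α : ℝ) ^ m := ⟨_, rfl⟩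
  have hM0 : 0 ≤ M := by rw [hM]; positivity
  have h7 : ∑ k ∈ Icc (-((D : ℤ) ^ 2)) ((D : ℤ) ^ 2), ((univ.filter fun ω => 2 * (1 / (4 * (D : ℝ))) ≤ ‖F k ω - av (F k)‖).card : ℝ) ≤
      (2 * (D : ℝ) ^ 2 + 1) * (4 * x * M) := by
    have h8 : ∀ k ∈ Icc (-((D : ℤ) ^ 2)) ((D : ℤ) ^ 2),
        ((univ.filter fun ω => 2 * (1 / (4 * (D : ℝ))) ≤ ‖F k ω - av (F k)‖).card : ℝ) ≤ 4 * x * M := by
      intro k hk
      rw [hx, hM]
      exact hconF k (abs_le.2 (mem_Icc.1 hk))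
    refine (sum_le_sum h8).trans (le_of_eq ?_)
    rw [sum_const, nsmul_eq_mul]
    congr 1
    rw [Int.card_Icc]
    have h9 : ((((D : ℤ) ^ 2 + 1 - -((D : ℤ) ^ 2)).toNat : ℕ) : ℤ) = 2 * (D : ℤ) ^ 2 + 1 := by
      rw [Int.toNat_of_nonneg (by
        have := sq_nonneg (D : ℤ)
        linarith)]
      ring
    have h10 : ((((D : ℤ) ^ 2 + 1 - -((D : ℤ) ^ 2)).toNat : ℕ) : ℝ) = ((2 * (D : ℤ) ^ 2 + 1 : ℤ) : ℝ) := by
      rw [← h9]
      push_cast
      rfl
    rw [h10]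
    push_cast
    ring
  have h8 := c10 ρ hρ hρρ
  rw [← hx] at h8
  rw [← hx, ← hM] at hconH
  calc _ ≤ (2 * (D : ℝ) ^ 2 + 1) * (4 * x * M) + 2 * x * M := add_le_add h7 hconH
    _ = (4 * (2 * (D : ℝ) ^ 2 + 1) + 2) * x * M := by ring
    _ ≤ Real.exp (-δ / ρ) * M := mul_le_mul_of_nonneg_right h8 hM0
    _ = _ := by rw [hM]

end Pool.Agent.Run7.h524.MG
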