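import Pool.Agent.R460.SQ.Main
import Pool.Agent.Cov.PNT

/-!
# Prime constellations along random lists of primes: elementary lemmas
-/

set_option autoImplicit false

namespace Pool.Agent.Run7.h524.MG

open Finset Filter Polynomial Topology
open Pool.Agent.R460.SQ (thp)

lemma primes_card (X : ℕ) : ((Icc 1 X).filter Nat.Prime).card = Nat.primeCounting X := by
  rw [Nat.primeCounting, Nat.primeCounting', Nat.count_eq_card_filter_range]
  congr 1
  ext n
  simp only [mem_filter, mem_Icc, mem_range]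
  constructor
  · rintro ⟨h, hp⟩; exact ⟨by omega, hp⟩
  · rintro ⟨h, hp⟩; exact ⟨⟨hp.one_le, by omega⟩, hp⟩

lemma pnt (σ : ℝ) (hσ : 0 < σ) : ∃ X₁ : ℕ, ∀ x : ℕ, X₁ ≤ x →
    |((((Icc 1 x).filter Nat.Prime).card : ℕ) : ℝ) * Real.log x / x - 1| ≤ σ := by
  have h1 := Pool.Agent.Cov.PNT.pi_tendsto.comp (tendsto_natCast_atTop_atTop (R := ℝ))
  obtain ⟨X₁, h2⟩ := eventually_atTop.1 (Metric.tendsto_nhds.1 h1 σ hσ)
  refine ⟨X₁, fun x hx => ?_⟩
  have h3 := h2 x hx
  rw [Real.dist_eq] at h3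
  simp only [Function.comp_apply, Nat.floor_natCast] at h3
  rw [primes_card]
  exact h3.le

lemma one_add_pow_le (k : ℕ) (hk : 1 ≤ k) (σ : ℝ) (h0 : 0 < σ) (h1 : σ ≤ 1) : (1 + σ / (2 * k)) ^ k ≤ 1 + σ := by
  have hk0 : (0 : ℝ) < k := by exact_mod_cast hk
  have h2 : 1 + σ / (2 * k) ≤ Real.exp (σ / (2 * k)) := by
    have := Real.add_one_le_exp (σ / (2 * k))
    linarith
  have h3 : (1 + σ / (2 * k)) ^ k ≤ Real.exp (σ / 2) := by
    refine (pow_le_pow_left₀ (by positivity) h2 k).trans (le_of_eq ?_)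
    rw [← Real.exp_nat_mul]
    congr 1
    field_simp
  have h4 := Real.one_sub_le_exp_neg (σ / 2)
  have h5 : Real.exp (σ / 2) * Real.exp (-(σ / 2)) = 1 := by rw [← Real.exp_add, add_neg_cancel, Real.exp_zero]
  have h6 : 0 < Real.exp (σ / 2) := Real.exp_pos _
  have h7 : Real.exp (σ / 2) * (1 - σ / 2) ≤ 1 := (mul_le_mul_of_nonneg_left h4 h6.le).trans h5.le
  have h8 : Real.exp (σ / 2) ≤ 1 + σ := by
    by_contra hc
    push Not at hc
    nlinarith
  linarith

lemma one_sub_pow_ge (k : ℕ) (hk : 1 ≤ k) (σ : ℝ) (h1 : σ ≤ 1) : 1 - σ / 2 ≤ (1 - σ / (2 * k)) ^ k := by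
  have hk0 : (0 : ℝ) < k := by exact_mod_cast hk
  have hk1 : (1 : ℝ) ≤ k := by exact_mod_cast hk
  have h2 := one_add_mul_le_pow (show (-2 : ℝ) ≤ -(σ / (2 * k)) by
    have : σ / (2 * k) ≤ 1 := by
      rw [div_le_one (by positivity)]
      linarith
    linarith) k
  have h3 : 1 + (k : ℝ) * (-(σ / (2 * k))) = 1 - σ / 2 := by field_simp; ring
  rw [h3] at h2
  rw [sub_eq_add_neg 1 (σ / (2 * k))]
  exact h2

/-- products of logarithms -/
lemma prod_near {k : ℕ} (hk : 1 ≤ k) (σ : ℝ) (h0 : 0 < σ) (h1 : σ ≤ 1) (l M : Fin k → ℝ) (hM : ∀ i, 0 < M i)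
    (h : ∀ i, |l i - M i| ≤ σ / (2 * k) * M i) :
    (1 - σ / 2) * ∏ i, M i ≤ ∏ i, l i ∧ ∏ i, l i ≤ (1 + σ) * ∏ i, M i := by
  have hk0 : (0 : ℝ) < k := by exact_mod_cast hk
  have hk1 : (1 : ℝ) ≤ k := by exact_mod_cast hk
  have ht : σ / (2 * k) ≤ 1 / 2 := by
    rw [div_le_iff₀ (by positivity)]
    linarith
  have ht0 : 0 < σ / (2 * k) := by positivity
  have hP : 0 < ∏ i, M i := prod_pos fun i _ => hM i
  have hl : ∀ i, (1 - σ / (2 * k)) * M i ≤ l i ∧ l i ≤ (1 + σ / (2 * k)) * M i := by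
    intro i
    have := abs_le.1 (h i)
    constructor <;> linarith [this.1, this.2]
  constructor
  · calc (1 - σ / 2) * ∏ i, M i ≤ (1 - σ / (2 * k)) ^ k * ∏ i, M i :=
        mul_le_mul_of_nonneg_right (one_sub_pow_ge k hk σ h1) hP.le
      _ = ∏ i, ((1 - σ / (2 * k)) * M i) := by
        rw [prod_mul_distrib, prod_const, card_univ, Fintype.card_fin]
      _ ≤ ∏ i, l i := prod_le_prod (fun i _ => mul_nonneg (by linarith) (hM i).le) fun i _ => (hl i).1
  · calc ∏ i, l i ≤ ∏ i, ((1 + σ / (2 * k)) * M i) := prod_le_prod (fun i _ => by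
          have := hM i
          exact le_trans (mul_nonneg (by linarith) this.le) (hl i).1) fun i _ => (hl i).2
      _ = (1 + σ / (2 * k)) ^ k * ∏ i, M i := by
        rw [prod_mul_distrib, prod_const, card_univ, Fintype.card_fin]
      _ ≤ (1 + σ) * ∏ i, M i := mul_le_mul_of_nonneg_right (one_add_pow_le k hk σ h0 h1) hP.le

/-- from the weighted sum to the number -/
lemma count_bd (x : ℕ) (hx : 2 ≤ x) (T : Finset ℕ) (hT : ∀ p ∈ T, 1 ≤ p ∧ p ≤ x) (l : ℕ → ℝ) (M σ : ℝ) (hM : 0 < M)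
    (hσ : 0 < σ) (hσ1 : σ ≤ 1) (hl : ∀ p ∈ T, (1 - σ / 2) * M ≤ l p ∧ l p ≤ (1 + σ) * M) :
    ∑ p ∈ T, Real.log p * l p ≤ (1 + σ) * M * Real.log x * T.card ∧
    (1 - σ) * M * Real.log x * (T.card - (x : ℝ) ^ (1 - σ / 2)) ≤ ∑ p ∈ T, Real.log p * l p := by
  have hx0 : (0 : ℝ) < x := by exact_mod_cast (by omega : 0 < x)
  have hℓ : 0 < Real.log (x : ℝ) := Real.log_pos (by exact_mod_cast (by omega : 1 < x))
  have hlog0 : ∀ p ∈ T, 0 ≤ Real.log (p : ℝ) := fun p _ => Real.log_natCast_nonneg p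
  have hl0 : ∀ p ∈ T, 0 ≤ l p := fun p hp => le_trans (mul_nonneg (by linarith) hM.le) (hl p hp).1
  constructor
  · calc ∑ p ∈ T, Real.log p * l p ≤ ∑ _p ∈ T, Real.log x * ((1 + σ) * M) := sum_le_sum fun p hp =>
          mul_le_mul (Real.log_le_log (by exact_mod_cast (hT p hp).1) (by exact_mod_cast (hT p hp).2)) (hl p hp).2
            (hl0 p hp) hℓ.le
      _ = (1 + σ) * M * Real.log x * T.card := by rw [sum_const, nsmul_eq_mul]; ring
  · obtain ⟨y, hy⟩ : ∃ y : ℝ, y = (x : ℝ) ^ (1 - σ / 2) := ⟨_, rfl⟩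
    have hy0 : 0 < y := by rw [hy]; positivity
    rw [← hy]
    have h1 : ((T.filter fun p : ℕ => (p : ℝ) ≤ y).card : ℝ) ≤ y := by
      have h2 : (T.filter fun p : ℕ => (p : ℝ) ≤ y) ⊆ Icc 1 ⌊y⌋₊ := by
        intro p hp
        rw [mem_filter] at hp
        rw [mem_Icc]
        exact ⟨(hT p hp.1).1, Nat.le_floor hp.2⟩
      have h3 := card_le_card h2
      rw [Nat.card_Icc, Nat.add_sub_cancel] at h3
      exact (by exact_mod_cast h3 : ((T.filter fun p : ℕ => (p : ℝ) ≤ y).card : ℝ) ≤ (⌊y⌋₊ : ℝ)).trans (Nat.floor_le hy0.le)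
    have h4 : (T.card : ℝ) = ((T.filter fun p : ℕ => (p : ℝ) ≤ y).card : ℝ) + ((T.filter fun p : ℕ => ¬ (p : ℝ) ≤ y).card : ℝ) := by
      have := card_filter_add_card_filter_not (s := T) (fun p : ℕ => (p : ℝ) ≤ y)
      exact_mod_cast this.symm
    have h5 : ∑ p ∈ T.filter (fun p : ℕ => ¬ (p : ℝ) ≤ y), Real.log p * l p ≤ ∑ p ∈ T, Real.log p * l p :=
      sum_le_sum_of_subset_of_nonneg (filter_subset _ _) fun p hp _ => mul_nonneg (hlog0 p hp) (hl0 p hp)
    refine le_trans ?_ h5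
    have h6 : ∀ p ∈ T.filter (fun p : ℕ => ¬ (p : ℝ) ≤ y), (1 - σ) * M * Real.log x ≤ Real.log p * l p := by
      intro p hp
      rw [mem_filter, not_le] at hp
      have h7 : (1 - σ / 2) * Real.log x ≤ Real.log (p : ℝ) := by
        have h8 := Real.log_le_log hy0 hp.2.le
        rw [hy, Real.log_rpow hx0] at h8
        exact h8
      calc (1 - σ) * M * Real.log x ≤ ((1 - σ / 2) * Real.log x) * ((1 - σ / 2) * M) := by
            have h9 : 0 ≤ M * Real.log x := by positivity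
            nlinarith [sq_nonneg (σ / 2)]
        _ ≤ Real.log p * l p := mul_le_mul h7 (hl p hp.1).1 (mul_nonneg (by linarith) hM.le) (hlog0 p hp.1)
    calc (1 - σ) * M * Real.log x * (T.card - y) ≤ (1 - σ) * M * Real.log x * ((T.filter fun p : ℕ => ¬ (p : ℝ) ≤ y).card : ℝ) := by
          apply mul_le_mul_of_nonneg_left _ (mul_nonneg (mul_nonneg (by linarith) hM.le) hℓ.le)
          linarith
      _ = ∑ _p ∈ T.filter (fun p : ℕ => ¬ (p : ℝ) ≤ y), (1 - σ) * M * Real.log x := by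
          rw [sum_const, nsmul_eq_mul]; ring
      _ ≤ _ := sum_le_sum h6

/-- the proportion -/
lemma dens_bd (v w s D K u q σ : ℝ) (hv : 0 ≤ v) (hw : 0 ≤ w) (hu : 0 ≤ u) (hD : 0 ≤ D) (hDK : D ≤ K) (hσ : 0 < σ)
    (hσ1 : σ ≤ 1 / 4) (h1 : s ≤ (1 + σ) * v) (h2 : (1 - σ) * (v - w) ≤ s) (h3 : |s - D| ≤ u) (hq : |q - 1| ≤ σ) :
    |v / q - D| ≤ 4 * σ * K + 2 * u + 2 * w := by
  have h3' := abs_le.1 h3
  have hq' := abs_le.1 hq
  have hq0 : 0 < q := by linarith
  have hK : 0 ≤ K := hD.trans hDK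
  have hσK : σ * D ≤ σ * K := mul_le_mul_of_nonneg_left hDK hσ.le
  have hσK0 : 0 ≤ σ * K := by positivity
  rw [abs_le]
  constructor
  · have h4 : D - u - 2 * σ * D ≤ v / q := by
      rw [le_div_iff₀ hq0]
      by_cases h5 : D - u ≤ 0
      · have h6 : (D - u - 2 * σ * D) * q ≤ 0 := by
          apply mul_nonpos_of_nonpos_of_nonneg _ hq0.le
          have : 0 ≤ σ * D := by positivity
          linarith
        linarith
      · push Not at h5
        have h6 : D - u ≤ (1 + σ) * v := by linarith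
        have hq2 : q ≤ 1 + σ := by linarith
        -- `(D - u)(1 - 2σ) q ≤ (D - u)/(1+σ)`
        by_cases h7 : D - u - 2 * σ * D ≤ 0
        · have : (D - u - 2 * σ * D) * q ≤ 0 := mul_nonpos_of_nonpos_of_nonneg h7 hq0.le
          linarith
        · push Not at h7
          have h8 : (D - u - 2 * σ * D) * q ≤ (D - u - 2 * σ * D) * (1 + σ) := mul_le_mul_of_nonneg_left hq2 h7.le
          have h9 : (D - u - 2 * σ * D) * (1 + σ) * (1 + σ) ≤ D - u := by
            have e : (D - u - 2 * σ * D) ≤ (1 - 2 * σ) * (D - u) + 0 := by nlinarith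
            have h10 : (D - u - 2 * σ * D) * ((1 + σ) * (1 + σ)) ≤ ((1 - 2 * σ) * (D - u)) * ((1 + σ) * (1 + σ)) :=
              mul_le_mul_of_nonneg_right (by linarith) (by positivity)
            have h11 : (1 - 2 * σ) * ((1 + σ) * (1 + σ)) ≤ 1 := by nlinarith [sq_nonneg σ, mul_pos hσ hσ, mul_pos (mul_pos hσ hσ) hσ]
            calc (D - u - 2 * σ * D) * (1 + σ) * (1 + σ) = (D - u - 2 * σ * D) * ((1 + σ) * (1 + σ)) := by ring
              _ ≤ ((1 - 2 * σ) * (D - u)) * ((1 + σ) * (1 + σ)) := h10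
              _ = ((1 - 2 * σ) * ((1 + σ) * (1 + σ))) * (D - u) := by ring
              _ ≤ 1 * (D - u) := mul_le_mul_of_nonneg_right h11 h5.le
              _ = D - u := one_mul _
          have h12 : (D - u - 2 * σ * D) * (1 + σ) * (1 + σ) ≤ v * (1 + σ) := by linarith
          have h13 : (D - u - 2 * σ * D) * (1 + σ) ≤ v := le_of_mul_le_mul_right h12 (by linarith)
          linarith
    linarith
  · have h4 : v / q ≤ D + 4 * σ * D + 2 * u + 2 * w := by
      rw [div_le_iff₀ hq0]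
      have hq2 : 1 - σ ≤ q := by linarith
      have hR : 0 ≤ D + 4 * σ * D + 2 * u + 2 * w := by positivity
      have h5 : (D + 4 * σ * D + 2 * u + 2 * w) * (1 - σ) ≤ (D + 4 * σ * D + 2 * u + 2 * w) * q :=
        mul_le_mul_of_nonneg_left hq2 hR
      refine le_trans ?_ h5
      have h6 : (1 - σ) * (v - w) ≤ D + u := by linarith
      have h7 : v * (1 - σ) ≤ (D + 4 * σ * D + 2 * u + 2 * w) * (1 - σ) * (1 - σ) := by
        have a1 : D ≤ D * ((1 + 4 * σ) * ((1 - σ) * (1 - σ))) := by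
          have : 1 ≤ (1 + 4 * σ) * ((1 - σ) * (1 - σ)) := by nlinarith [sq_nonneg σ, mul_pos hσ hσ, mul_pos (mul_pos hσ hσ) hσ]
          nlinarith
        have a2 : u ≤ 2 * u * ((1 - σ) * (1 - σ)) := by
          have : 1 / 2 ≤ (1 - σ) * (1 - σ) := by nlinarith
          nlinarith
        have a3 : (1 - σ) * w ≤ 2 * w * ((1 - σ) * (1 - σ)) := by
          have : 1 / 2 ≤ 1 - σ := by linarith
          have : (1 - σ) * w * 1 ≤ (1 - σ) * w * (2 * (1 - σ)) := mul_le_mul_of_nonneg_left (by linarith) (mul_nonneg (by linarith) hw)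
          nlinarith
        nlinarith
      exact le_of_mul_le_mul_right (by linarith) (by linarith : (0 : ℝ) < 1 - σ)
    linarith

/-- the primes are rare: bound for the sum over the translates -/
lemma thp_sum (N : ℕ) (L : ℝ) (hL : L = Real.log N) (hL1 : 1 ≤ L) (b : ℤ) (hb : |(b : ℝ)| ≤ N)
    (hcard : (((Icc 1 N).filter fun n : ℕ => ((n : ℤ) + b).toNat.Prime).card : ℝ) ≤ 4 * N / L) (hN : 2 ≤ N) :
    ∑ n ∈ Icc 1 N, thp ((n : ℤ) + b).toNat ≤ 8 * N := by
  have hN0 : (0 : ℝ) < N := by exact_mod_cast (by omega : 0 < N)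
  have h1 : ∀ n ∈ Icc 1 N, thp ((n : ℤ) + b).toNat ≤ if ((n : ℤ) + b).toNat.Prime then 2 * L else 0 := by
    intro n hn
    rw [mem_Icc] at hn
    unfold Pool.Agent.R460.SQ.thp
    split_ifs with h
    · have h2 : (((n : ℤ) + b).toNat : ℝ) ≤ (N : ℝ) ^ 2 := by
        have hb2 : b ≤ N := by
          have := (abs_le.1 hb).2
          exact_mod_cast this
        have h3 : ((n : ℤ) + b).toNat ≤ 2 * N := by omega
        have h4 : (((n : ℤ) + b).toNat : ℝ) ≤ 2 * N := by exact_mod_cast h3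
        have h5 : (2 : ℝ) ≤ N := by exact_mod_cast hN
        nlinarith
      have h3 : Real.log (((n : ℤ) + b).toNat : ℝ) ≤ Real.log ((N : ℝ) ^ 2) :=
        Real.log_le_log (by exact_mod_cast h.pos) h2
      rw [Real.log_pow, ← hL] at h3
      push_cast at h3
      exact h3
    · exact le_refl _
  refine (sum_le_sum h1).trans ?_
  rw [← sum_filter, sum_const, nsmul_eq_mul]
  have hL0 : 0 < L := by linarith
  calc (((Icc 1 N).filter fun n : ℕ => ((n : ℤ) + b).toNat.Prime).card : ℝ) * (2 * L) ≤ (4 * N / L) * (2 * L) :=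
        mul_le_mul_of_nonneg_right hcard (by positivity)
    _ = 8 * N := by field_simp; ring

/-- few vectors with a small coordinate -/
lemma small_coord (k N : ℕ) (y : ℝ) (hy : 0 ≤ y) :
    (((Fintype.piFinset fun _ : Fin k => Icc 1 N).filter fun a => ∃ i, ((a i : ℕ) : ℝ) < y).card : ℝ) ≤
      k * (y * (N : ℝ) ^ (k - 1)) := by
  classical
  have h1 : ((Fintype.piFinset fun _ : Fin k => Icc 1 N).filter fun a => ∃ i, ((a i : ℕ) : ℝ) < y) ⊆
      univ.biUnion fun i : Fin k => Fintype.piFinset (Function.update (fun _ : Fin k => Icc 1 N) i (Icc 1 ⌊y⌋₊)) := by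
    intro a ha
    rw [mem_filter, Fintype.mem_piFinset] at ha
    obtain ⟨ha, i, hi⟩ := ha
    rw [mem_biUnion]
    refine ⟨i, mem_univ _, ?_⟩
    rw [Fintype.mem_piFinset]
    intro j
    by_cases hj : j = i
    · subst hj
      rw [Function.update_self, mem_Icc]
      exact ⟨(mem_Icc.1 (ha j)).1, Nat.le_floor hi.le⟩
    · rw [Function.update_of_ne hj]
      exact ha j
  have h2 : ∀ i : Fin k, ((Fintype.piFinset (Function.update (fun _ : Fin k => Icc 1 N) i (Icc 1 ⌊y⌋₊))).card : ℝ) ≤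
      y * (N : ℝ) ^ (k - 1) := by
    intro i
    rw [Fintype.card_piFinset]
    have h3 : ∏ j : Fin k, (Function.update (fun _ : Fin k => Icc 1 N) i (Icc 1 ⌊y⌋₊) j).card = ⌊y⌋₊ * N ^ (k - 1) := by
      rw [← mul_prod_erase univ _ (mem_univ i), Function.update_self, Nat.card_Icc, Nat.add_sub_cancel]
      congr 1
      rw [prod_congr rfl (fun j hj => by
        rw [Function.update_of_ne (ne_of_mem_erase hj), Nat.card_Icc, Nat.add_sub_cancel] :
        ∀ j ∈ univ.erase i, (Function.update (fun _ : Fin k => Icc 1 N) i (Icc 1 ⌊y⌋₊) j).card = N), prod_const,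
        card_erase_of_mem (mem_univ i), card_univ, Fintype.card_fin]
    rw [h3]
    push_cast
    exact mul_le_mul_of_nonneg_right (Nat.floor_le hy) (by positivity)
  calc (((Fintype.piFinset fun _ : Fin k => Icc 1 N).filter fun a => ∃ i, ((a i : ℕ) : ℝ) < y).card : ℝ) ≤
      ∑ i : Fin k, ((Fintype.piFinset (Function.update (fun _ : Fin k => Icc 1 N) i (Icc 1 ⌊y⌋₊))).card : ℝ) := by
        exact_mod_cast (card_le_card h1).trans card_biUnion_le
    _ ≤ ∑ _i : Fin k, y * (N : ℝ) ^ (k - 1) := sum_le_sum fun i _ => h2 i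
    _ = _ := by rw [sum_const, card_univ, Fintype.card_fin, nsmul_eq_mul]

end Pool.Agent.Run7.h524.MG
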