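import Pool.Agent.Run7.h524.MG.Arb
import Pool.Agent.Run7.h524.MG.ConA

/-!
# The Poisson law for the primes `p_{kn} ^ 2 + a`, `2k + 1` a prime
-/

set_option autoImplicit false

namespace Pool.Agent.Run7.h524.MG

open Finset Filter Polynomial
open Pool.Agent.H373R2.T7 (lamzI lamz Vz pz mem_pz)
open Pool.Agent.N384.MQ (ev_log_pow ev_log_ge)

/-- the integers `k ≤ K` for which `2 k + 1` is a prime -/
def KS (K : ℕ) : Finset ℕ := (Icc 1 K).filter fun k => (2 * k + 1).Prime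

/-- the `i`-th prime, `p_1 = 2` -/
noncomputable def pn (i : ℕ) : ℕ := Nat.nth Nat.Prime (i - 1)

lemma pn_prime (i : ℕ) : (pn i).Prime := Nat.prime_nth_prime _

lemma pn_le (M x : ℕ) (hM : 1 ≤ M) (h : M ≤ Nat.primeCounting x) : pn M ≤ x := by
  unfold pn
  have h1 : M - 1 < Nat.count Nat.Prime (x + 1) := by
    rw [Nat.primeCounting, Nat.primeCounting'] at h
    omega
  have := Nat.nth_lt_of_lt_count h1
  omega

lemma pn_inj (i j : ℕ) (hi : 1 ≤ i) (hj : 1 ≤ j) (h : pn i = pn j) : i = j := by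
  unfold pn at h
  have := Nat.nth_injective Nat.infinite_setOf_prime h
  omega

lemma KS_card (K : ℕ) : ((Icc 1 (2 * K + 1)).filter Nat.Prime).card ≤ (KS K).card + 1 := by
  have h1 : (((Icc 1 (2 * K + 1)).filter Nat.Prime).erase 2).card ≤ (KS K).card := by
    apply card_le_card_of_injOn (fun p => (p - 1) / 2)
    · intro p hp
      rw [mem_coe, mem_erase, mem_filter, mem_Icc] at hp
      obtain ⟨h2, ⟨h3, h4⟩, h5⟩ := hp
      have h6 : p % 2 = 1 := by
        rcases h5.eq_two_or_odd with h | h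
        · exact absurd h h2
        · exact h
      have h7 := h5.two_le
      rw [mem_coe]
      unfold KS
      rw [mem_filter, mem_Icc]
      have h8 : 2 * ((p - 1) / 2) + 1 = p := by omega
      refine ⟨⟨by show 1 ≤ (p - 1) / 2; omega, by show (p - 1) / 2 ≤ K; omega⟩, ?_⟩
      show (2 * ((p - 1) / 2) + 1).Prime
      rw [h8]
      exact h5
    · intro p hp q hq h
      rw [mem_coe, mem_erase, mem_filter, mem_Icc] at hp hq
      have h6 : p % 2 = 1 := by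
        rcases hp.2.2.eq_two_or_odd with h | h
        · exact absurd h hp.1
        · exact h
      have h7 : q % 2 = 1 := by
        rcases hq.2.2.eq_two_or_odd with h | h
        · exact absurd h hq.1
        · exact h
      simp only at h
      omega
  have h2 := pred_card_le_card_erase (a := 2) (s := (Icc 1 (2 * K + 1)).filter Nat.Prime)
  omega

open Classical in
theorem pois_idx (T B : ℕ) (hB : 1 ≤ B) (Λ : ℝ) (hΛ : 0 < Λ) (ε : ℝ) (hε : 0 < ε) :
    ∃ (C B₀ M₀ : ℕ) (δ : ℝ), 0 < δ ∧ ∀ E : ℕ, ∃ N₀ : ℕ, ∀ N : ℕ, N₀ ≤ N → ∀ z : ℕ,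
    Real.log N ^ B₀ ≤ z → (z : ℝ) ≤ Real.log N ^ E → ∀ K : ℕ,
    (N : ℝ) ^ (1 / 6 : ℝ) * Real.log N ^ C ≤ K → K * Real.log N ^ C ≤ (N : ℝ) ^ (1 / 2 : ℝ) →
    ∀ J : Finset ℕ, J ⊆ Icc 1 N → N ≤ B * J.card →
    ∀ m : ℕ, M₀ ≤ m → (m : ℝ) ≤ Λ * Real.log N →
    ((univ.filter fun k : Fin m → {s // s ∈ KS K} => ¬ ∀ n : ℕ, 1 ≤ n → (n : ℝ) ≤ Real.log N ^ T → ∀ j : ℕ,
      |((J.filter fun a : ℕ => (univ.filter fun l => (pn ((k l : ℕ) * n) ^ 2 + a).Prime).card = j).card : ℝ) -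
        ∑ a ∈ J, pw (m * (Gz (X ^ 2) (KS K) (fun s => pn (s * n)) z (a : ℤ) / Real.log a)) j| ≤ ε * J.card).card : ℝ) ≤
      (N : ℝ) ^ (-δ) * ((KS K).card : ℝ) ^ m := by
  obtain ⟨C, B₀, M₀, δ, hδ, h⟩ := pois_arb 2 (T + 3) (by norm_num) B hB Λ hΛ ε hε
  obtain ⟨X₁, hpnt⟩ := pnt (1 / 2) (by norm_num)
  obtain ⟨q, hq⟩ := exists_nat_gt (2 * T / δ)
  refine ⟨C + T + 2, B₀, M₀, δ / 2, by positivity, fun E => ?_⟩
  obtain ⟨N₁, h⟩ := h E
  obtain ⟨N₂, hN₂⟩ := eventually_atTop.1 ((ev_log_ge (8 + X₁)).and ((ev_log_pow q 1).and (eventually_ge_atTop 3)))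
  refine ⟨N₁ + N₂, fun N hN z hz1 hz2 K hK1 hK2 J hJ hJB m hm1 hm2 => ?_⟩
  obtain ⟨hbig, hpow, hN3⟩ := hN₂ N (by omega)
  have h := h N (by omega) z hz1 hz2 (X ^ 2) (by rw [natDegree_X_pow]; norm_num) (by rw [natDegree_X_pow])
  obtain ⟨L, hL⟩ : ∃ L, L = Real.log (N : ℝ) := ⟨_, rfl⟩
  rw [← hL] at hbig hpow hm2 hK1 hK2 h ⊢
  have hX1 : (0 : ℝ) ≤ X₁ := Nat.cast_nonneg _
  have hL8 : 8 ≤ L := by linarith
  have hL1 : 1 ≤ L := by linarith
  have hL0 : 0 < L := by linarith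
  have hN0 : (0 : ℝ) < N := by exact_mod_cast (by omega : 0 < N)
  have hN1 : (1 : ℝ) ≤ N := by exact_mod_cast (by omega : 1 ≤ N)
  have hN6 : (1 : ℝ) ≤ (N : ℝ) ^ (1 / 6 : ℝ) := Real.one_le_rpow hN1 (by norm_num)
  have hsq6 : ((N : ℝ) ^ (1 / 6 : ℝ)) ^ 2 = (N : ℝ) ^ (1 / 3 : ℝ) := by
    rw [← Real.rpow_natCast, ← Real.rpow_mul hN0.le]
    norm_num
  have hsq2 : ((N : ℝ) ^ (1 / 2 : ℝ)) ^ 2 = N := by
    rw [← Real.rpow_natCast, ← Real.rpow_mul hN0.le]
    norm_num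
  have hKL : L ^ (C + T + 2) ≤ K := le_trans (le_mul_of_one_le_left (by positivity) hN6) hK1
  have hKL1 : L ≤ K := by
    refine le_trans ?_ hKL
    calc L = L ^ 1 := (pow_one L).symm
      _ ≤ L ^ (C + T + 2) := pow_le_pow_right₀ hL1 (by omega)
  have hK0 : (0 : ℝ) < K := by linarith
  have hK0n : 1 ≤ K := by exact_mod_cast (by linarith : (1 : ℝ) ≤ K)
  have hKsq : (K : ℝ) ^ 2 * L ^ (2 * (C + T + 2)) ≤ N := by
    rw [mul_comm 2, pow_mul, ← mul_pow, ← hsq2]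
    exact pow_le_pow_left₀ (by positivity) hK2 2
  -- the number of the arguments
  have hKS : (K : ℝ) / L ≤ (KS K).card := by
    have h1 := hpnt (2 * K + 1) (by
      have : (X₁ : ℝ) ≤ ((2 * K + 1 : ℕ) : ℝ) := by
        push_cast
        linarith
      exact_mod_cast this)
    have h2 := (abs_le.1 h1).1
    have h3 : (((Icc 1 (2 * K + 1)).filter Nat.Prime).card : ℝ) ≤ (KS K).card + 1 := by exact_mod_cast KS_card K
    have hy : (0 : ℝ) < ((2 * K + 1 : ℕ) : ℝ) := by positivity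
    have hlogy : Real.log ((2 * K + 1 : ℕ) : ℝ) ≤ L / 2 := by
      have h4 : (((2 * K + 1 : ℕ) : ℝ)) ^ 2 ≤ N := by
        refine le_trans ?_ hKsq
        push_cast
        have h5 : (9 : ℝ) ≤ L ^ (2 * (C + T + 2)) := by
          calc (9 : ℝ) ≤ L ^ 2 := by nlinarith
            _ ≤ L ^ (2 * (C + T + 2)) := pow_le_pow_right₀ hL1 (by omega)
        have h6 : (2 * (K : ℝ) + 1) ^ 2 ≤ (3 * K) ^ 2 := by
          apply pow_le_pow_left₀ (by positivity)
          linarith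
        calc (2 * (K : ℝ) + 1) ^ 2 ≤ (3 * K) ^ 2 := h6
          _ = K ^ 2 * 9 := by ring
          _ ≤ K ^ 2 * L ^ (2 * (C + T + 2)) := mul_le_mul_of_nonneg_left h5 (by positivity)
      have h5 := Real.log_le_log (by positivity) h4
      rw [Real.log_pow, ← hL] at h5
      push_cast at h5 ⊢
      linarith
    have hlogy0 : 0 < Real.log ((2 * K + 1 : ℕ) : ℝ) := Real.log_pos (by push_cast; linarith)
    have h4 : ((2 * K + 1 : ℕ) : ℝ) * (1 / 2) ≤ (((Icc 1 (2 * K + 1)).filter Nat.Prime).card : ℝ) * Real.log ((2 * K + 1 : ℕ) : ℝ) := by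
      have h5 : 1 / 2 ≤ (((Icc 1 (2 * K + 1)).filter Nat.Prime).card : ℝ) * Real.log ((2 * K + 1 : ℕ) : ℝ) / ((2 * K + 1 : ℕ) : ℝ) := by
        linarith
      rw [le_div_iff₀ hy] at h5
      linarith
    have h5 : ((2 * K + 1 : ℕ) : ℝ) ≤ (((Icc 1 (2 * K + 1)).filter Nat.Prime).card : ℝ) * L := by
      have h6 : (((Icc 1 (2 * K + 1)).filter Nat.Prime).card : ℝ) * Real.log ((2 * K + 1 : ℕ) : ℝ) ≤
          (((Icc 1 (2 * K + 1)).filter Nat.Prime).card : ℝ) * (L / 2) := mul_le_mul_of_nonneg_left hlogy (Nat.cast_nonneg _)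
      linarith
    rw [div_le_iff₀ hL0]
    have h6 : (((Icc 1 (2 * K + 1)).filter Nat.Prime).card : ℝ) * L ≤ ((KS K).card + 1) * L := mul_le_mul_of_nonneg_right h3 hL0.le
    push_cast at h5
    linarith
  -- one value of `n`
  have hone : ∀ n : ℕ, 1 ≤ n → (n : ℝ) ≤ L ^ T →
      ((univ.filter fun k : Fin m → {s // s ∈ KS K} => ¬ ∀ j : ℕ,
        |((J.filter fun a : ℕ => (univ.filter fun l => (pn ((k l : ℕ) * n) ^ 2 + a).Prime).card = j).card : ℝ) -
          ∑ a ∈ J, pw (m * (Gz (X ^ 2) (KS K) (fun s => pn (s * n)) z (a : ℤ) / Real.log a)) j| ≤ ε * J.card).card : ℝ) ≤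
        (N : ℝ) ^ (-δ) * ((KS K).card : ℝ) ^ m := by
    intro n hn1 hnT
    obtain ⟨Lc, hLc⟩ : ∃ Lc : ℕ, Lc = ⌈L⌉₊ := ⟨_, rfl⟩
    have hLc1 : L ≤ Lc := by rw [hLc]; exact Nat.le_ceil _
    have hLc2 : (Lc : ℝ) ≤ 2 * L := by
      have := (Nat.ceil_lt_add_one hL0.le).le
      rw [hLc]
      linarith
    obtain ⟨x, hx⟩ : ∃ x : ℕ, x = K * n * Lc := ⟨_, rfl⟩
    have hn1r : (1 : ℝ) ≤ n := by exact_mod_cast hn1
    have hxr : (x : ℝ) = K * n * Lc := by rw [hx]; push_cast; ring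
    have hKx : (K : ℝ) ≤ x := by
      rw [hxr, mul_assoc]
      apply le_mul_of_one_le_right hK0.le
      nlinarith
    have hxu : (x : ℝ) ≤ K * L ^ T * (2 * L) := by
      rw [hxr]
      gcongr
    have hdeg : (X ^ 2 : ℤ[X]).natDegree = 2 := natDegree_X_pow 2
    have hx2 : (x : ℝ) ^ 2 * L ^ C ≤ N := by
      refine le_trans ?_ hKsq
      calc (x : ℝ) ^ 2 * L ^ C ≤ (K * L ^ T * (2 * L)) ^ 2 * L ^ C := by gcongr
        _ = K ^ 2 * (4 * L ^ (C + 2 * T + 2)) := by ring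
        _ ≤ K ^ 2 * (L ^ 2 * L ^ (C + 2 * T + 2)) := by
            gcongr
            nlinarith
        _ = K ^ 2 * L ^ (C + 2 * T + 4) := by ring
        _ ≤ K ^ 2 * L ^ (2 * (C + T + 2)) := by
            gcongr
            omega
    have hx1 : (N : ℝ) ^ (1 / 3 : ℝ) * L ^ C ≤ (x : ℝ) ^ 2 := by
      calc (N : ℝ) ^ (1 / 3 : ℝ) * L ^ C ≤ (N : ℝ) ^ (1 / 3 : ℝ) * L ^ (2 * (C + T + 2)) := by
            gcongr
            omega
        _ = ((N : ℝ) ^ (1 / 6 : ℝ) * L ^ (C + T + 2)) ^ 2 := by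
            rw [mul_pow, hsq6, ← pow_mul]
            congr 2
            ring
        _ ≤ (K : ℝ) ^ 2 := pow_le_pow_left₀ (by positivity) hK1 2
        _ ≤ (x : ℝ) ^ 2 := pow_le_pow_left₀ hK0.le hKx 2
    -- the primes
    have hpi : K * n ≤ Nat.primeCounting x := by
      have h1 := hpnt x (by
        have : (X₁ : ℝ) ≤ x := by linarith
        exact_mod_cast this)
      rw [primes_card] at h1
      have h2 := (abs_le.1 h1).1
      have hx0 : (0 : ℝ) < x := by linarith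
      have hlogx : Real.log (x : ℝ) ≤ L / 2 := by
        have h4 : (x : ℝ) ^ 2 ≤ N := le_trans (le_mul_of_one_le_right (by positivity) (one_le_pow₀ hL1)) hx2
        have h5 := Real.log_le_log (by positivity) h4
        rw [Real.log_pow, ← hL] at h5
        push_cast at h5
        linarith
      have h3 : 1 / 2 ≤ (Nat.primeCounting x : ℝ) * Real.log x / x := by linarith
      rw [le_div_iff₀ hx0] at h3
      have h4 : (Nat.primeCounting x : ℝ) * Real.log x ≤ (Nat.primeCounting x : ℝ) * (L / 2) :=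
        mul_le_mul_of_nonneg_left hlogx (Nat.cast_nonneg _)
      have h5 : (x : ℝ) ≤ (Nat.primeCounting x : ℝ) * L := by linarith
      have h6 : ((K * n : ℕ) : ℝ) * L ≤ (Nat.primeCounting x : ℝ) * L := by
        refine le_trans ?_ h5
        rw [hxr]
        push_cast
        exact mul_le_mul_of_nonneg_left hLc1 (by positivity)
      exact_mod_cast le_of_mul_le_mul_right h6 hL0
    have hmemKS : ∀ s ∈ KS K, 1 ≤ s ∧ s ≤ K := by
      intro s hs
      unfold KS at hs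
      rw [mem_filter, mem_Icc] at hs
      exact hs.1
    have hres := h (fun i => by
      rw [coeff_X_pow]
      split_ifs
      · rw [Int.cast_one, abs_one]
        exact one_le_pow₀ hL1
      · rw [Int.cast_zero, abs_zero]
        positivity) x (by rw [hdeg]; exact hx1) (by rw [hdeg]; exact hx2) (KS K) (fun s => pn (s * n)) (by
        intro s hs t ht hst
        rw [mem_coe] at hs ht
        have h1 := pn_inj _ _ (Nat.mul_pos (hmemKS s hs).1 hn1) (Nat.mul_pos (hmemKS t ht).1 hn1) hst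
        exact Nat.eq_of_mul_eq_mul_right hn1 h1) (by
        intro s hs
        rw [mem_Icc]
        refine ⟨(pn_prime _).one_le, pn_le _ _ (Nat.mul_pos (hmemKS s hs).1 hn1) ?_⟩
        exact le_trans (Nat.mul_le_mul_right n (hmemKS s hs).2) hpi) (by
        calc (x : ℝ) ≤ K * L ^ T * (2 * L) := hxu
          _ = (2 * L ^ (T + 2)) * (K / L) := by
              rw [pow_add]
              field_simp
          _ ≤ (L * L ^ (T + 2)) * (K / L) := by
              gcongr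
              linarith
          _ = L ^ (T + 3) * (K / L) := by ring
          _ ≤ L ^ (T + 3) * (KS K).card := mul_le_mul_of_nonneg_left hKS (by positivity)) J hJ hJB m hm1 hm2
    refine le_trans (le_of_eq ?_) hres
    congr 2
    refine filter_congr fun k _ => ?_
    have hval : ∀ (l : Fin m) (a : ℕ), (pn ((k l : ℕ) * n) ^ 2 + a).Prime ↔
        ((a : ℤ) + (X ^ 2 : ℤ[X]).eval ((pn ((k l : ℕ) * n) : ℕ) : ℤ)).toNat.Prime := by
      intro l a
      have e1 : ((a : ℤ) + (X ^ 2 : ℤ[X]).eval ((pn ((k l : ℕ) * n) : ℕ) : ℤ)).toNat = pn ((k l : ℕ) * n) ^ 2 + a := by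
        rw [eval_pow, eval_X]
        have : (a : ℤ) + ((pn ((k l : ℕ) * n) : ℕ) : ℤ) ^ 2 = ((pn ((k l : ℕ) * n) ^ 2 + a : ℕ) : ℤ) := by
          push_cast
          ring
        rw [this, Int.toNat_natCast]
      rw [e1]
    simp only [hval]
  -- all values of `n`
  have hun : (univ.filter fun k : Fin m → {s // s ∈ KS K} => ¬ ∀ n : ℕ, 1 ≤ n → (n : ℝ) ≤ L ^ T → ∀ j : ℕ,
      |((J.filter fun a : ℕ => (univ.filter fun l => (pn ((k l : ℕ) * n) ^ 2 + a).Prime).card = j).card : ℝ) -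
        ∑ a ∈ J, pw (m * (Gz (X ^ 2) (KS K) (fun s => pn (s * n)) z (a : ℤ) / Real.log a)) j| ≤ ε * J.card) ⊆
      (Icc 1 ⌊L ^ T⌋₊).biUnion fun n => univ.filter fun k : Fin m → {s // s ∈ KS K} => ¬ ∀ j : ℕ,
        |((J.filter fun a : ℕ => (univ.filter fun l => (pn ((k l : ℕ) * n) ^ 2 + a).Prime).card = j).card : ℝ) -
          ∑ a ∈ J, pw (m * (Gz (X ^ 2) (KS K) (fun s => pn (s * n)) z (a : ℤ) / Real.log a)) j| ≤ ε * J.card := by
    intro k hk
    rw [mem_filter] at hk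
    obtain ⟨-, hk⟩ := hk
    push Not at hk
    obtain ⟨n, hn1, hn2, j, hj⟩ := hk
    rw [mem_biUnion]
    refine ⟨n, mem_Icc.2 ⟨hn1, Nat.le_floor hn2⟩, mem_filter.2 ⟨mem_univ _, fun hc => ?_⟩⟩
    exact absurd (hc j) (not_le.2 hj)
  have hP0 : (0 : ℝ) ≤ (N : ℝ) ^ (-δ) * ((KS K).card : ℝ) ^ m := by positivity
  refine le_trans (Nat.cast_le.2 (card_le_card hun)) (le_trans (Nat.cast_le.2 card_biUnion_le) ?_)
  push_cast
  refine (sum_le_sum (g := fun _ => (N : ℝ) ^ (-δ) * ((KS K).card : ℝ) ^ m) fun n hn => ?_).trans ?_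
  · rw [mem_Icc] at hn
    refine hone n hn.1 (le_trans ?_ (Nat.floor_le (by positivity : (0 : ℝ) ≤ L ^ T)))
    exact_mod_cast hn.2
  · rw [sum_const, nsmul_eq_mul, Nat.card_Icc, Nat.add_sub_cancel]
    have h1 : ((⌊L ^ T⌋₊ : ℕ) : ℝ) ≤ L ^ T := Nat.floor_le (by positivity)
    have h2 : L ^ T ≤ (N : ℝ) ^ (δ / 2) := by
      have h3 := Real.log_le_log (by positivity) hpow
      rw [one_mul, Real.log_pow, ← hL] at h3
      have h4 : 0 ≤ Real.log L := Real.log_nonneg hL1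
      rw [Real.rpow_def_of_pos hN0, ← hL, ← Real.exp_log hL0, ← Real.exp_nat_mul, Real.exp_log hL0]
      apply Real.exp_le_exp.2
      have h5 : 2 * (T : ℝ) ≤ q * δ := by
        rw [div_lt_iff₀ hδ] at hq
        exact hq.le
      nlinarith
    calc ((⌊L ^ T⌋₊ : ℕ) : ℝ) * ((N : ℝ) ^ (-δ) * ((KS K).card : ℝ) ^ m) ≤ (N : ℝ) ^ (δ / 2) * ((N : ℝ) ^ (-δ) * ((KS K).card : ℝ) ^ m) := by
          apply mul_le_mul_of_nonneg_right (h1.trans h2) hP0
      _ = (N : ℝ) ^ (-(δ / 2)) * ((KS K).card : ℝ) ^ m := by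
          rw [← mul_assoc, ← Real.rpow_add hN0]
          congr 2
          ring

end Pool.Agent.Run7.h524.MG
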