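import Pool.Agent.Run7.h524.MG.Mul2
import Pool.Agent.Run7.h524.MG.Idx

/-!
# Systems of primes with different injections: applications
-/

set_option autoImplicit false

namespace Pool.Agent.Run7.h524.MG

open Finset Filter Polynomial
open Pool.Agent.H373R2.T7 (lamzI lamz Vz pz mem_pz Vz_pos)
open Pool.Agent.N384.MQ (ev_log_pow ev_log_ge)

/-- a bound for the `M`-th prime -/
lemma pn_le_of : ∃ X₁ : ℕ, ∀ (x M : ℕ) (L : ℝ), X₁ ≤ x → 2 ≤ x → 2 * Real.log x ≤ L → M * L ≤ x → 1 ≤ M → pn M ≤ x := by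
  obtain ⟨X₁, hpnt⟩ := pnt (1 / 2) (by norm_num)
  refine ⟨X₁, fun x M L hx hx2 hlog hM hM1 => pn_le M x hM1 ?_⟩
  have h1 := hpnt x hx
  rw [primes_card] at h1
  have h2 := (abs_le.1 h1).1
  have hx0 : (0 : ℝ) < x := by exact_mod_cast (by omega : 0 < x)
  have hlx : 0 < Real.log (x : ℝ) := Real.log_pos (by exact_mod_cast (by omega : 1 < x))
  have hL0 : 0 < L := by linarith
  have h3 : 1 / 2 ≤ (Nat.primeCounting x : ℝ) * Real.log x / x := by linarith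
  rw [le_div_iff₀ hx0] at h3
  have h4 : (Nat.primeCounting x : ℝ) * (2 * Real.log x) ≤ (Nat.primeCounting x : ℝ) * L :=
    mul_le_mul_of_nonneg_left hlog (Nat.cast_nonneg _)
  have h5 : (M : ℝ) * L ≤ (Nat.primeCounting x : ℝ) * L := by linarith
  exact_mod_cast le_of_mul_le_mul_right h5 hL0

open Classical in
/-- the proportion of the `s` for which no `v i s + a i` has a prime factor `≤ z`, divided by the expected one -/
noncomputable def sv {r : ℕ} (v : Fin r → ℕ → ℕ) (S : Finset ℕ) (z : ℕ) (a : Fin r → ℕ) : ℝ :=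
  ((S.filter fun s => ∀ i, ∀ q ≤ z, q.Prime → ¬ q ∣ v i s + a i).card : ℝ) / S.card /
    (∏ q ∈ (Icc 1 z).filter Nat.Prime, (1 - 1 / (q : ℝ))) ^ r

lemma Gm_eq {r : ℕ} (F : Fin r → ℤ[X]) (S : Finset ℕ) (g : Fin r → ℕ → ℕ) (v : Fin r → ℕ → ℕ)
    (hv : ∀ i s, (F i).eval ((g i s : ℕ) : ℤ) = (v i s : ℤ)) (z : ℕ) (a : Fin r → ℕ) (ha : ∀ i, 1 ≤ a i) :
    Gm F S g z a = sv v S z a := by
  classical
  unfold Gm sv
  have e1 : ∀ s : ℕ, ∏ i, lamzI z ((a i : ℤ) + (F i).eval ((g i s : ℕ) : ℤ)) =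
      if (∀ i, ∀ q ≤ z, q.Prime → ¬ q ∣ v i s + a i) then
        ((∏ q ∈ (Icc 1 z).filter Nat.Prime, (1 - 1 / (q : ℝ)))⁻¹) ^ r else 0 := by
    intro s
    have e2 : ∀ i, lamzI z ((a i : ℤ) + (F i).eval ((g i s : ℕ) : ℤ)) =
        if (∀ q ≤ z, q.Prime → ¬ q ∣ v i s + a i) then (∏ q ∈ (Icc 1 z).filter Nat.Prime, (1 - 1 / (q : ℝ)))⁻¹ else 0 := by
      intro i
      have e3 : (a i : ℤ) + (F i).eval ((g i s : ℕ) : ℤ) = ((v i s + a i : ℕ) : ℤ) := by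
        rw [hv]
        push_cast
        ring
      have e4 : 1 ≤ v i s + a i := by have := ha i; omega
      rw [e3]
      unfold Pool.Agent.H373R2.T7.lamzI Pool.Agent.H373R2.T7.lamz Pool.Agent.H373R2.T7.Vz
      rw [if_pos (by exact_mod_cast e4), Int.toNat_natCast]
      have e5 : (∀ q ∈ Pool.Agent.H373R2.T7.pz z, ¬ q ∣ v i s + a i) ↔ ∀ q ≤ z, q.Prime → ¬ q ∣ v i s + a i := by
        constructor
        · intro h q hq hqp
          exact h q (mem_pz.2 ⟨hq, hqp⟩)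
        · intro h q hq
          obtain ⟨h1, h2⟩ := mem_pz.1 hq
          exact h q h1 h2
      simp only [e5]
      rfl
    simp only [e2]
    rw [prod_ite_zero]
    simp only [mem_univ, true_imp_iff]
    rw [prod_const, card_univ, Fintype.card_fin]
  simp only [e1]
  rw [← sum_filter, sum_const, nsmul_eq_mul, inv_pow]
  rw [div_div, mul_comm (S.card : ℝ), ← div_div, div_eq_mul_inv _ ((∏ q ∈ (Icc 1 z).filter Nat.Prime, (1 - 1 / (q : ℝ))) ^ r)]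

lemma AllG_iff {r : ℕ} (F : Fin r → ℤ[X]) (g : Fin r → ℕ → ℕ) (v : Fin r → ℕ → ℕ)
    (hv : ∀ i s, (F i).eval ((g i s : ℕ) : ℤ) = (v i s : ℤ)) (a : Fin r → ℕ) (s : ℕ) :
    AllG F g a s ↔ ∀ i, (v i s + a i).Prime := by
  unfold AllG
  refine forall_congr' fun i => ?_
  have e3 : (a i : ℤ) + (F i).eval ((g i s : ℕ) : ℤ) = ((v i s + a i : ℕ) : ℤ) := by
    rw [hv]
    push_cast
    ring
  rw [e3, Int.toNat_natCast]

open Classical in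
/-- **The Poisson law in terms of the values.** -/
theorem pois_val (r d T : ℕ) (hr : 1 ≤ r) (hd : 1 ≤ d) (B : ℕ) (hB : 1 ≤ B) (Λ : ℝ) (hΛ : 0 < Λ) (ε : ℝ) (hε : 0 < ε) :
    ∃ (C B₀ M₀ : ℕ) (δ : ℝ), 0 < δ ∧ ∀ E : ℕ, ∃ N₀ : ℕ, ∀ N : ℕ, N₀ ≤ N → ∀ z : ℕ,
    Real.log N ^ B₀ ≤ z → (z : ℝ) ≤ Real.log N ^ E → ∀ F : Fin r → ℤ[X],
    (∀ i, 1 ≤ (F i).natDegree ∧ (F i).natDegree ≤ d ∧ ∀ j, |(((F i).coeff j : ℤ) : ℝ)| ≤ Real.log N ^ T) → ∀ x : Fin r → ℕ,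
    (∀ i, (N : ℝ) ^ (1 / 3 : ℝ) * Real.log N ^ C ≤ (x i : ℝ) ^ (F i).natDegree ∧
      (x i : ℝ) ^ (F i).natDegree * Real.log N ^ C ≤ N) →
    ∀ (S : Finset ℕ) (g : Fin r → ℕ → ℕ) (v : Fin r → ℕ → ℕ), (∀ i, Set.InjOn (g i) S) → (∀ i, ∀ s ∈ S, g i s ∈ Icc 1 (x i)) →
    (∀ i s, (F i).eval ((g i s : ℕ) : ℤ) = (v i s : ℤ)) → (∀ i, (x i : ℝ) ≤ Real.log N ^ T * S.card) →
    ∀ J : Finset (Fin r → ℕ), J ⊆ Fintype.piFinset (fun _ : Fin r => Icc 1 N) → N ^ r ≤ B * J.card →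
    ∀ m : ℕ, M₀ ≤ m → (m : ℝ) ≤ Λ * Real.log N ^ r →
    ((univ.filter fun k : Fin m → {s // s ∈ S} => ¬ ∀ j : ℕ,
      |((J.filter fun a => (univ.filter fun l => ∀ i, (v i (k l) + a i).Prime).card = j).card : ℝ) -
        ∑ a ∈ J, pw (m * (sv v S z a / ∏ i, Real.log (a i))) j| ≤ ε * J.card).card : ℝ) ≤
      Real.exp (-(δ * Real.log N ^ r)) * (S.card : ℝ) ^ m := by
  obtain ⟨C, B₀, M₀, δ, hδ, h⟩ := pois_mul r d T hr hd B hB Λ hΛ ε hε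
  refine ⟨C, B₀, M₀, δ, hδ, fun E => ?_⟩
  obtain ⟨N₀, h⟩ := h E
  refine ⟨N₀, fun N hN z hz1 hz2 F hF x hx S g v hg hgx hv hSx J hJ hJB m hm1 hm2 => ?_⟩
  refine le_trans (Nat.cast_le.2 (card_le_card fun k hk => ?_)) (h N hN z hz1 hz2 F hF x hx S g hg hgx hSx J hJ hJB m hm1 hm2)
  rw [mem_filter] at hk ⊢
  refine ⟨mem_univ _, fun h1 => hk.2 fun j => ?_⟩
  have h2 := h1 j
  have e1 : ∑ a ∈ J, pw (m * (Gm F S g z a / ∏ i, Real.log (a i))) j = ∑ a ∈ J, pw (m * (sv v S z a / ∏ i, Real.log (a i))) j := by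
    refine sum_congr rfl fun a ha => ?_
    rw [Gm_eq F S g v hv z a fun i => (mem_Icc.1 (Fintype.mem_piFinset.1 (hJ ha) i)).1]
  have e2 : (J.filter fun a => (univ.filter fun l => AllG F g a (k l)).card = j) =
      J.filter fun a => (univ.filter fun l => ∀ i, (v i (k l) + a i).Prime).card = j := by
    refine filter_congr fun a _ => ?_
    simp only [AllG_iff F g v hv]
  rw [e1, e2] at h2
  exact h2

/-! ### `p_k ^ 2`, `p_{n-k} ^ 2`, `p_{p_{n-k}} ^ 2` -/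

/-- the three numbers -/
noncomputable def v3 (n : ℕ) : Fin 3 → ℕ → ℕ := fun i k => (![pn k, pn (n - k), pn (pn (n - k))] i) ^ 2

open Classical in
theorem app_triples (T B : ℕ) (hB : 1 ≤ B) (Λ : ℝ) (hΛ : 0 < Λ) (ε : ℝ) (hε : 0 < ε) :
    ∃ (C B₀ M₀ : ℕ) (δ : ℝ), 0 < δ ∧ ∀ E : ℕ, ∃ N₀ : ℕ, ∀ N : ℕ, N₀ ≤ N → ∀ z : ℕ,
    Real.log N ^ B₀ ≤ z → (z : ℝ) ≤ Real.log N ^ E → ∀ n : ℕ,
    (N : ℝ) ^ (1 / 6 : ℝ) * Real.log N ^ C ≤ n → n * Real.log N ^ C ≤ (N : ℝ) ^ (1 / 2 : ℝ) →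
    ∀ S : Finset ℕ, S ⊆ Ico 1 n → (n : ℝ) ≤ Real.log N ^ T * S.card →
    ∀ J : Finset (Fin 3 → ℕ), J ⊆ Fintype.piFinset (fun _ : Fin 3 => Icc 1 N) → N ^ 3 ≤ B * J.card →
    ∀ m : ℕ, M₀ ≤ m → (m : ℝ) ≤ Λ * Real.log N ^ 3 →
    ((univ.filter fun k : Fin m → {s // s ∈ S} => ¬ ∀ j : ℕ,
      |((J.filter fun a => (univ.filter fun l => ∀ i, (v3 n i (k l) + a i).Prime).card = j).card : ℝ) -
        ∑ a ∈ J, pw (m * (sv (v3 n) S z a / ∏ i, Real.log (a i))) j| ≤ ε * J.card).card : ℝ) ≤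
      Real.exp (-(δ * Real.log N ^ 3)) * (S.card : ℝ) ^ m := by
  obtain ⟨C, B₀, M₀, δ, hδ, h⟩ := pois_val 3 2 (T + 6) (by norm_num) (by norm_num) B hB Λ hΛ ε hε
  obtain ⟨X₁, hpn⟩ := pn_le_of
  refine ⟨C + 12, B₀, M₀, δ, hδ, fun E => ?_⟩
  obtain ⟨N₁, h⟩ := h E
  obtain ⟨N₂, hN₂⟩ := eventually_atTop.1 ((ev_log_ge (16 + X₁)).and (eventually_ge_atTop 3))
  refine ⟨N₁ + N₂, fun N hN z hz1 hz2 n hn1 hn2 S hS hSn J hJ hJB m hm1 hm2 => ?_⟩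
  obtain ⟨hbig, hN3⟩ := hN₂ N (by omega)
  have hdeg : (X ^ 2 : ℤ[X]).natDegree = 2 := natDegree_X_pow 2
  obtain ⟨L, hL⟩ : ∃ L, L = Real.log (N : ℝ) := ⟨_, rfl⟩
  have hX1 : (0 : ℝ) ≤ X₁ := Nat.cast_nonneg _
  have hN0 : (0 : ℝ) < N := by exact_mod_cast (by omega : 0 < N)
  have hN1 : (1 : ℝ) ≤ N := by exact_mod_cast (by omega : 1 ≤ N)
  have hN6 : (1 : ℝ) ≤ (N : ℝ) ^ (1 / 6 : ℝ) := Real.one_le_rpow hN1 (by norm_num)
  have hsq6 : ((N : ℝ) ^ (1 / 6 : ℝ)) ^ 2 = (N : ℝ) ^ (1 / 3 : ℝ) := by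
    rw [← Real.rpow_natCast, ← Real.rpow_mul hN0.le]
    norm_num
  have hsq2 : ((N : ℝ) ^ (1 / 2 : ℝ)) ^ 2 = N := by
    rw [← Real.rpow_natCast, ← Real.rpow_mul hN0.le]
    norm_num
  obtain ⟨Lc, hLc⟩ : ∃ Lc : ℕ, Lc = ⌈L⌉₊ := ⟨_, rfl⟩
  obtain ⟨x, hx⟩ : ∃ x : Fin 3 → ℕ, x = ![n * Lc ^ 2, n * Lc ^ 2, n * Lc ^ 4] := ⟨_, rfl⟩
  have hL16 : 16 ≤ L := by rw [hL]; linarith
  have hL1 : 1 ≤ L := by linarith
  have hL0 : 0 < L := by linarith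
  have hLX : (X₁ : ℝ) ≤ L := by rw [hL]; linarith
  have hLc1 : L ≤ Lc := by rw [hLc]; exact Nat.le_ceil _
  have hLc2 : (Lc : ℝ) ≤ 2 * L := by
    have := (Nat.ceil_lt_add_one hL0.le).le
    rw [hLc]
    linarith
  have hLcr : (1 : ℝ) ≤ Lc := by linarith
  rw [← hL] at hn1 hn2
  have hnL : L ^ (C + 12) ≤ n := le_trans (le_mul_of_one_le_left (by positivity) hN6) hn1
  have hnL1 : L ≤ n := by
    refine le_trans ?_ hnL
    calc L = L ^ 1 := (pow_one L).symm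
      _ ≤ L ^ (C + 12) := pow_le_pow_right₀ hL1 (by omega)
  have hn0 : (0 : ℝ) < n := by linarith
  have hnsq : (n : ℝ) ^ 2 * L ^ (2 * (C + 12)) ≤ N := by
    rw [mul_comm 2, pow_mul, ← mul_pow, ← hsq2]
    exact pow_le_pow_left₀ (by positivity) hn2 2
  have hxr : ∀ i, (x i : ℝ) = n * Lc ^ (![2, 2, 4] i : ℕ) := by
    intro i
    rw [hx]
    fin_cases i <;> simp
  have he4 : ∀ i : Fin 3, (2 : ℕ) ≤ (![2, 2, 4] i : ℕ) ∧ (![2, 2, 4] i : ℕ) ≤ 4 := by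
    intro i
    fin_cases i <;> simp
  have hxlo : ∀ i, (n : ℝ) * Lc ^ 2 ≤ x i := by
    intro i
    rw [hxr]
    exact mul_le_mul_of_nonneg_left (pow_le_pow_right₀ hLcr (he4 i).1) hn0.le
  have hxup : ∀ i, (x i : ℝ) ≤ n * L ^ 6 := by
    intro i
    rw [hxr]
    apply mul_le_mul_of_nonneg_left _ hn0.le
    calc (Lc : ℝ) ^ (![2, 2, 4] i : ℕ) ≤ (Lc : ℝ) ^ 4 := pow_le_pow_right₀ hLcr (he4 i).2
      _ ≤ (2 * L) ^ 4 := pow_le_pow_left₀ (by positivity) hLc2 4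
      _ = 16 * L ^ 4 := by ring
      _ ≤ L ^ 2 * L ^ 4 := by
          apply mul_le_mul_of_nonneg_right _ (by positivity)
          nlinarith
      _ = L ^ 6 := by ring
  have hnx : ∀ i, (n : ℝ) ≤ x i := by
    intro i
    refine le_trans ?_ (hxlo i)
    exact le_mul_of_one_le_right hn0.le (one_le_pow₀ hLcr)
  have hxsq : ∀ i, (x i : ℝ) ^ 2 * L ^ C ≤ N := by
    intro i
    refine le_trans ?_ hnsq
    calc (x i : ℝ) ^ 2 * L ^ C ≤ (n * L ^ 6) ^ 2 * L ^ C := by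
          have := hxup i
          gcongr
      _ = n ^ 2 * L ^ (C + 12) := by ring
      _ ≤ n ^ 2 * L ^ (2 * (C + 12)) := by
          gcongr
          omega
  have hlogx : ∀ i, 2 * Real.log (x i : ℝ) ≤ L := by
    intro i
    have h4 : (x i : ℝ) ^ 2 ≤ N := le_trans (le_mul_of_one_le_right (by positivity) (one_le_pow₀ hL1)) (hxsq i)
    have hxp : (0 : ℝ) < x i := lt_of_lt_of_le hn0 (hnx i)
    have h5 := Real.log_le_log (by positivity) h4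
    rw [Real.log_pow, ← hL] at h5
    push_cast at h5
    exact h5
  have hxX : ∀ i, X₁ ≤ x i ∧ 2 ≤ x i := by
    intro i
    have h1 := hnx i
    constructor
    · exact_mod_cast (by linarith : (X₁ : ℝ) ≤ x i)
    · exact_mod_cast (by linarith : (2 : ℝ) ≤ x i)
  have hSm : ∀ k ∈ S, 1 ≤ k ∧ 1 ≤ n - k ∧ k ≤ n ∧ n - k ≤ n := by
    intro k hk
    have := mem_Ico.1 (hS hk)
    omega
  have hp0 : ∀ i M, 1 ≤ M → M ≤ n → pn M ≤ x i := by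
    intro i M hM1 hM2
    apply hpn (x i) M L (hxX i).1 (hxX i).2 (hlogx i) _ hM1
    refine le_trans ?_ (hxlo i)
    have h1 : (M : ℝ) ≤ n := by exact_mod_cast hM2
    have h2 : L ≤ (Lc : ℝ) ^ 2 := by nlinarith
    exact mul_le_mul h1 h2 hL0.le hn0.le
  have hp2 : ∀ M, 1 ≤ M → M ≤ n → pn (pn M) ≤ x 2 := by
    intro M hM1 hM2
    apply hpn (x 2) (pn M) L (hxX 2).1 (hxX 2).2 (hlogx 2) _ (pn_prime M).one_le
    have h1 : (pn M : ℝ) ≤ n * Lc ^ 2 := by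
      have h2 := hp0 0 M hM1 hM2
      have h3 : (x 0 : ℝ) = n * Lc ^ 2 := by rw [hxr]; simp
      rw [← h3]
      exact_mod_cast h2
    have h4 : (x 2 : ℝ) = n * Lc ^ 4 := by rw [hxr]; simp
    rw [h4]
    have h2 : L ≤ (Lc : ℝ) ^ 2 := by nlinarith
    calc (pn M : ℝ) * L ≤ (n * Lc ^ 2) * Lc ^ 2 := mul_le_mul h1 h2 hL0.le (by positivity)
      _ = n * Lc ^ 4 := by ring
  refine h N (by omega) z hz1 hz2 (fun _ => X ^ 2) (fun i => ⟨by rw [hdeg]; norm_num, by rw [hdeg], fun j => by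
      rw [coeff_X_pow, ← hL]
      split_ifs
      · rw [Int.cast_one, abs_one]
        exact one_le_pow₀ hL1
      · rw [Int.cast_zero, abs_zero]
        positivity⟩) x (fun i => ?_) S (fun i k => ![pn k, pn (n - k), pn (pn (n - k))] i) (v3 n) (fun i => ?_) (fun i k hk => ?_)
      (fun i k => ?_) (fun i => ?_) J hJ hJB m hm1 hm2
  · rw [hdeg, ← hL]
    refine ⟨?_, hxsq i⟩
    calc (N : ℝ) ^ (1 / 3 : ℝ) * L ^ C ≤ (N : ℝ) ^ (1 / 3 : ℝ) * L ^ (2 * (C + 12)) := by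
          gcongr
          omega
      _ = ((N : ℝ) ^ (1 / 6 : ℝ) * L ^ (C + 12)) ^ 2 := by
          rw [mul_pow, hsq6, ← pow_mul]
          congr 2
          ring
      _ ≤ (n : ℝ) ^ 2 := pow_le_pow_left₀ (by positivity) hn1 2
      _ ≤ (x i : ℝ) ^ 2 := pow_le_pow_left₀ hn0.le (hnx i) 2
  · intro s hs t ht hst
    rw [mem_coe] at hs ht
    obtain ⟨s1, s2, s3, s4⟩ := hSm s hs
    obtain ⟨t1, t2, t3, t4⟩ := hSm t ht
    have hsn := (mem_Ico.1 (hS hs)).2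
    have htn := (mem_Ico.1 (hS ht)).2
    fin_cases i
    · simp at hst
      exact pn_inj _ _ s1 t1 hst
    · simp at hst
      have := pn_inj _ _ s2 t2 hst
      omega
    · simp at hst
      have := pn_inj _ _ s2 t2 (pn_inj _ _ (pn_prime _).one_le (pn_prime _).one_le hst)
      omega
  · obtain ⟨s1, s2, s3, s4⟩ := hSm k hk
    rw [mem_Icc]
    fin_cases i
    · simp only [Fin.zero_eta, Matrix.cons_val_zero]
      exact ⟨(pn_prime _).one_le, hp0 0 k s1 s3⟩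
    · simp only [Fin.mk_one, Matrix.cons_val_one]
      exact ⟨(pn_prime _).one_le, hp0 1 (n - k) s2 s4⟩
    · exact ⟨(pn_prime _).one_le, hp2 (n - k) s2 s4⟩
  · unfold v3
    rw [eval_pow, eval_X]
    push_cast
    rfl
  · rw [← hL]
    calc (x i : ℝ) ≤ n * L ^ 6 := hxup i
      _ ≤ (L ^ T * S.card) * L ^ 6 := by
          rw [← hL] at hSn
          gcongr
      _ = L ^ (T + 6) * S.card := by ring

end Pool.Agent.Run7.h524.MG
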