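import Pool.Agent.Run7.h524.MG.App

/-!
# Index multiples and totient sums
-/

set_option autoImplicit false

namespace Pool.Agent.Run7.h524.MG

open Finset Filter Polynomial
open Pool.Agent.H373R2.T7 (lamzI lamz Vz pz mem_pz Vz_pos)
open Pool.Agent.N384.MQ (ev_log_pow ev_log_ge)

/-! ### `p_q - q + a`, `p_q - q + b` -/

/-- the two numbers -/
noncomputable def v2 : Fin 2 → ℕ → ℕ := fun _ q => pn q - q

lemma pn_strict : StrictMonoOn pn (Set.Ici 1) := by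
  intro a ha b hb hab
  have ha1 : 1 ≤ a := ha
  have hb1 : 1 ≤ b := hb
  exact (Nat.nth_strictMono Nat.infinite_setOf_prime) (by omega)

/-- `q < p_q`, and `p_q - q` increases strictly from `q = 2` on -/
lemma pn_gap (q : ℕ) (hq : 2 ≤ q) : q + 1 ≤ pn q ∧ pn q + 2 ≤ pn (q + 1) := by
  have h1 : ∀ q, 2 ≤ q → q + 1 ≤ pn q := by
    intro q hq
    induction q, hq using Nat.le_induction with
    | base =>
      have : pn 2 = 3 := by
        unfold pn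
        exact Nat.nth_prime_one_eq_three
      omega
    | succ n hn ih =>
      have := pn_strict (show n ∈ Set.Ici 1 from by simp; omega) (show n + 1 ∈ Set.Ici 1 from by simp) (by omega)
      omega
  refine ⟨h1 q hq, ?_⟩
  have h2 := pn_strict (show q ∈ Set.Ici 1 from by simp; omega) (show q + 1 ∈ Set.Ici 1 from by simp) (by omega)
  have h3 : pn q % 2 = 1 := by
    rcases (pn_prime q).eq_two_or_odd with h | h
    · have := h1 q hq; omega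
    · exact h
  have h4 : pn (q + 1) % 2 = 1 := by
    rcases (pn_prime (q + 1)).eq_two_or_odd with h | h
    · have := h1 (q + 1) (by omega); omega
    · exact h
  omega

lemma gap_strict {s t : ℕ} (hs : 2 ≤ s) (hst : s < t) : pn s - s < pn t - t := by
  induction t, hst using Nat.le_induction with
  | base =>
    have h1 := pn_gap s hs
    have h2 := pn_gap (s + 1) (by omega)
    rw [Nat.succ_eq_add_one]
    omega
  | succ n hn ih =>
    have hn' : s + 1 ≤ n := hn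
    have h1 := pn_gap n (by omega)
    have h2 := pn_gap (n + 1) (by omega)
    omega

open Classical in
theorem app_totient (T B : ℕ) (hB : 1 ≤ B) (Λ : ℝ) (hΛ : 0 < Λ) (ε : ℝ) (hε : 0 < ε) :
    ∃ (C B₀ M₀ : ℕ) (δ : ℝ), 0 < δ ∧ ∀ E : ℕ, ∃ N₀ : ℕ, ∀ N : ℕ, N₀ ≤ N → ∀ z : ℕ,
    Real.log N ^ B₀ ≤ z → (z : ℝ) ≤ Real.log N ^ E → ∀ n : ℕ,
    (N : ℝ) ^ (1 / 3 : ℝ) * Real.log N ^ C ≤ n → n * Real.log N ^ C ≤ N →
    ∀ S : Finset ℕ, S ⊆ Icc 2 n → (n : ℝ) ≤ Real.log N ^ T * S.card →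
    ∀ J : Finset (Fin 2 → ℕ), J ⊆ Fintype.piFinset (fun _ : Fin 2 => Icc 1 N) → N ^ 2 ≤ B * J.card →
    ∀ m : ℕ, M₀ ≤ m → (m : ℝ) ≤ Λ * Real.log N ^ 2 →
    ((univ.filter fun k : Fin m → {s // s ∈ S} => ¬ ∀ j : ℕ,
      |((J.filter fun a => (univ.filter fun l => ∀ i, (v2 i (k l) + a i).Prime).card = j).card : ℝ) -
        ∑ a ∈ J, pw (m * (sv v2 S z a / ∏ i, Real.log (a i))) j| ≤ ε * J.card).card : ℝ) ≤
      Real.exp (-(δ * Real.log N ^ 2)) * (S.card : ℝ) ^ m := by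
  obtain ⟨C, B₀, M₀, δ, hδ, h⟩ := pois_val 2 1 (T + 4) (by norm_num) (by norm_num) B hB Λ hΛ ε hε
  obtain ⟨X₁, hpn⟩ := pn_le_of
  refine ⟨C + 4, B₀, M₀, δ, hδ, fun E => ?_⟩
  obtain ⟨N₁, h⟩ := h E
  obtain ⟨N₂, hN₂⟩ := eventually_atTop.1 ((ev_log_ge (16 + X₁)).and (eventually_ge_atTop 3))
  refine ⟨N₁ + N₂, fun N hN z hz1 hz2 n hn1 hn2 S hS hSn J hJ hJB m hm1 hm2 => ?_⟩
  obtain ⟨hbig, hN3⟩ := hN₂ N (by omega)
  have hdeg : (X : ℤ[X]).natDegree = 1 := natDegree_X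
  obtain ⟨L, hL⟩ : ∃ L, L = Real.log (N : ℝ) := ⟨_, rfl⟩
  have hX1 : (0 : ℝ) ≤ X₁ := Nat.cast_nonneg _
  have hN0 : (0 : ℝ) < N := by exact_mod_cast (by omega : 0 < N)
  have hN1 : (1 : ℝ) ≤ N := by exact_mod_cast (by omega : 1 ≤ N)
  have hN6 : (1 : ℝ) ≤ (N : ℝ) ^ (1 / 3 : ℝ) := Real.one_le_rpow hN1 (by norm_num)
  obtain ⟨Lc, hLc⟩ : ∃ Lc : ℕ, Lc = ⌈L⌉₊ := ⟨_, rfl⟩
  obtain ⟨x, hx⟩ : ∃ x : ℕ, x = n * Lc ^ 2 := ⟨_, rfl⟩
  have hL16 : 16 ≤ L := by rw [hL]; linarith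
  have hL1 : 1 ≤ L := by linarith
  have hL0 : 0 < L := by linarith
  have hLX : (X₁ : ℝ) ≤ L := by rw [hL]; linarith
  have hLc1 : L ≤ Lc := by rw [hLc]; exact Nat.le_ceil _
  have hLc2 : (Lc : ℝ) ≤ 2 * L := by
    have := (Nat.ceil_lt_add_one hL0.le).le
    rw [hLc]
    linarith
  have hLcr : (1 : ℝ) ≤ Lc := by linarith
  rw [← hL] at hn1 hn2
  have hnL : L ^ (C + 4) ≤ n := le_trans (le_mul_of_one_le_left (by positivity) hN6) hn1
  have hnL1 : L ≤ n := by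
    refine le_trans ?_ hnL
    calc L = L ^ 1 := (pow_one L).symm
      _ ≤ L ^ (C + 4) := pow_le_pow_right₀ hL1 (by omega)
  have hn0 : (0 : ℝ) < n := by linarith
  have hxr : (x : ℝ) = n * Lc ^ 2 := by rw [hx]; push_cast; ring
  have hxup : (x : ℝ) ≤ n * L ^ 4 := by
    rw [hxr]
    apply mul_le_mul_of_nonneg_left _ hn0.le
    calc (Lc : ℝ) ^ 2 ≤ (2 * L) ^ 2 := pow_le_pow_left₀ (by positivity) hLc2 2
      _ = 4 * L ^ 2 := by ring
      _ ≤ L ^ 2 * L ^ 2 := by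
          apply mul_le_mul_of_nonneg_right _ (by positivity)
          nlinarith
      _ = L ^ 4 := by ring
  have hnx : (n : ℝ) ≤ x := by
    rw [hxr]
    exact le_mul_of_one_le_right hn0.le (one_le_pow₀ hLcr)
  have hxN : (x : ℝ) * L ^ C ≤ N := by
    refine le_trans ?_ hn2
    calc (x : ℝ) * L ^ C ≤ (n * L ^ 4) * L ^ C := by gcongr
      _ = n * L ^ (C + 4) := by ring
  have hxp : (0 : ℝ) < x := lt_of_lt_of_le hn0 hnx
  have hxX : X₁ ≤ x ∧ 2 ≤ x := by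
    constructor
    · exact_mod_cast (by linarith : (X₁ : ℝ) ≤ x)
    · exact_mod_cast (by linarith : (2 : ℝ) ≤ x)
  have hlogx : 2 * Real.log (x : ℝ) ≤ 2 * L := by
    have h4 : (x : ℝ) ≤ N := le_trans (le_mul_of_one_le_right (by positivity) (one_le_pow₀ hL1)) hxN
    have h5 := Real.log_le_log (by positivity) h4
    rw [← hL] at h5
    linarith
  have hSm : ∀ k ∈ S, 2 ≤ k ∧ k ≤ n := by
    intro k hk
    exact mem_Icc.1 (hS hk)
  have hp0 : ∀ M, 1 ≤ M → M ≤ n → pn M ≤ x := by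
    intro M hM1 hM2
    apply hpn x M (2 * L) hxX.1 hxX.2 hlogx _ hM1
    rw [hxr]
    have h1 : (M : ℝ) ≤ n := by exact_mod_cast hM2
    have h2 : 2 * L ≤ (Lc : ℝ) ^ 2 := by nlinarith
    exact mul_le_mul h1 h2 (by positivity) hn0.le
  refine h N (by omega) z hz1 hz2 (fun _ => X) (fun i => ⟨by rw [hdeg], by rw [hdeg], fun j => by
      rw [coeff_X, ← hL]
      split_ifs
      · rw [Int.cast_one, abs_one]
        exact one_le_pow₀ hL1
      · rw [Int.cast_zero, abs_zero]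
        positivity⟩) (fun _ => x) (fun i => ?_) S (fun _ k => pn k - k) v2 (fun i => ?_) (fun i k hk => ?_)
      (fun i k => ?_) (fun i => ?_) J hJ hJB m hm1 hm2
  · rw [hdeg, ← hL, pow_one]
    refine ⟨?_, hxN⟩
    calc (N : ℝ) ^ (1 / 3 : ℝ) * L ^ C ≤ (N : ℝ) ^ (1 / 3 : ℝ) * L ^ (C + 4) := by
          gcongr
          omega
      _ ≤ n := hn1
      _ ≤ x := hnx
  · intro s hs t ht hst
    rw [mem_coe] at hs ht
    have hs2 := (hSm s hs).1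
    have ht2 := (hSm t ht).1
    rcases lt_trichotomy s t with h1 | h1 | h1
    · exact absurd hst (gap_strict hs2 h1).ne
    · exact h1
    · exact absurd hst (gap_strict ht2 h1).ne'
  · obtain ⟨s1, s2⟩ := hSm k hk
    have h1 := hp0 k (by omega) s2
    have h2 := (pn_gap k s1).1
    rw [mem_Icc]
    omega
  · unfold v2
    rw [eval_X]
  · rw [← hL] at hSn ⊢
    calc (x : ℝ) ≤ n * L ^ 4 := hxup
      _ ≤ (L ^ T * S.card) * L ^ 4 := by gcongr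
      _ = L ^ (T + 4) * S.card := by ring

/-! ### `p_{kn} + a` -/

open Classical in
theorem app_index (T B : ℕ) (hB : 1 ≤ B) (Λ : ℝ) (hΛ : 0 < Λ) (ε : ℝ) (hε : 0 < ε) :
    ∃ (C B₀ M₀ : ℕ) (δ : ℝ), 0 < δ ∧ ∀ E : ℕ, ∃ N₀ : ℕ, ∀ N : ℕ, N₀ ≤ N → ∀ z : ℕ,
    Real.log N ^ B₀ ≤ z → (z : ℝ) ≤ Real.log N ^ E → ∀ K : ℕ,
    (N : ℝ) ^ (1 / 3 : ℝ) * Real.log N ^ C ≤ K → K * Real.log N ^ C ≤ N →
    ∀ S : Finset ℕ, S ⊆ Icc 1 K → (K : ℝ) ≤ Real.log N ^ T * S.card →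
    ∀ J : Finset ℕ, J ⊆ Icc 1 N → N ≤ B * J.card →
    ∀ m : ℕ, M₀ ≤ m → (m : ℝ) ≤ Λ * Real.log N →
    ((univ.filter fun k : Fin m → {s // s ∈ S} => ¬ ∀ n : ℕ, 1 ≤ n → (n : ℝ) ≤ Real.log N ^ T → ∀ j : ℕ,
      |((J.filter fun a : ℕ => (univ.filter fun l => (pn ((k l : ℕ) * n) + a).Prime).card = j).card : ℝ) -
        ∑ a ∈ J, pw (m * (Gz X S (fun s => pn (s * n)) z (a : ℤ) / Real.log a)) j| ≤ ε * J.card).card : ℝ) ≤
      (N : ℝ) ^ (-δ) * (S.card : ℝ) ^ m := by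
  obtain ⟨C, B₀, M₀, δ, hδ, h⟩ := pois_arb 1 (2 * T + 4) (by norm_num) B hB Λ hΛ ε hε
  obtain ⟨X₁, hpn⟩ := pn_le_of
  obtain ⟨q, hq⟩ := exists_nat_gt (2 * (T : ℝ) / δ)
  refine ⟨C + T + 4, B₀, M₀, δ / 2, by positivity, fun E => ?_⟩
  obtain ⟨N₁, h⟩ := h E
  obtain ⟨N₂, hN₂⟩ := eventually_atTop.1 ((ev_log_ge (16 + X₁)).and ((ev_log_pow q 1).and (eventually_ge_atTop 3)))
  refine ⟨N₁ + N₂, fun N hN z hz1 hz2 K hK1 hK2 S hS hSK J hJ hJB m hm1 hm2 => ?_⟩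
  obtain ⟨hbig, hpow, hN3⟩ := hN₂ N (by omega)
  have hdeg : (X : ℤ[X]).natDegree = 1 := natDegree_X
  have h := h N (by omega) z hz1 hz2 X (by rw [hdeg]) (by rw [hdeg])
  obtain ⟨L, hL⟩ : ∃ L, L = Real.log (N : ℝ) := ⟨_, rfl⟩
  rw [← hL] at hbig hpow hm2 hK1 hK2 hSK h ⊢
  have hX1 : (0 : ℝ) ≤ X₁ := Nat.cast_nonneg _
  have hL16 : 16 ≤ L := by linarith
  have hL1 : 1 ≤ L := by linarith
  have hL0 : 0 < L := by linarith
  have hLX : (X₁ : ℝ) ≤ L := by linarith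
  have hN0 : (0 : ℝ) < N := by exact_mod_cast (by omega : 0 < N)
  have hN1 : (1 : ℝ) ≤ N := by exact_mod_cast (by omega : 1 ≤ N)
  have hN6 : (1 : ℝ) ≤ (N : ℝ) ^ (1 / 3 : ℝ) := Real.one_le_rpow hN1 (by norm_num)
  obtain ⟨Lc, hLc⟩ : ∃ Lc : ℕ, Lc = ⌈L⌉₊ := ⟨_, rfl⟩
  have hLc1 : L ≤ Lc := by rw [hLc]; exact Nat.le_ceil _
  have hLc2 : (Lc : ℝ) ≤ 2 * L := by
    have := (Nat.ceil_lt_add_one hL0.le).le
    rw [hLc]
    linarith
  have hLcr : (1 : ℝ) ≤ Lc := by linarith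
  have hKL : L ^ (C + T + 4) ≤ K := le_trans (le_mul_of_one_le_left (by positivity) hN6) hK1
  have hKL1 : L ≤ K := by
    refine le_trans ?_ hKL
    calc L = L ^ 1 := (pow_one L).symm
      _ ≤ L ^ (C + T + 4) := pow_le_pow_right₀ hL1 (by omega)
  have hK0 : (0 : ℝ) < K := by linarith
  have hmem : ∀ s ∈ S, 1 ≤ s ∧ s ≤ K := fun s hs => mem_Icc.1 (hS hs)
  -- one value of `n`
  have hone : ∀ n : ℕ, 1 ≤ n → (n : ℝ) ≤ L ^ T →
      ((univ.filter fun k : Fin m → {s // s ∈ S} => ¬ ∀ j : ℕ,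
        |((J.filter fun a : ℕ => (univ.filter fun l => (pn ((k l : ℕ) * n) + a).Prime).card = j).card : ℝ) -
          ∑ a ∈ J, pw (m * (Gz X S (fun s => pn (s * n)) z (a : ℤ) / Real.log a)) j| ≤ ε * J.card).card : ℝ) ≤
        (N : ℝ) ^ (-δ) * (S.card : ℝ) ^ m := by
    intro n hn1 hnT
    obtain ⟨x, hx⟩ : ∃ x : ℕ, x = K * n * Lc ^ 2 := ⟨_, rfl⟩
    have hn1r : (1 : ℝ) ≤ n := by exact_mod_cast hn1
    have hxr : (x : ℝ) = K * n * Lc ^ 2 := by rw [hx]; push_cast; ring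
    have hKx : (K : ℝ) ≤ x := by
      rw [hxr, mul_assoc]
      apply le_mul_of_one_le_right hK0.le
      have : (1 : ℝ) ≤ (Lc : ℝ) ^ 2 := one_le_pow₀ hLcr
      nlinarith
    have hL4 : (Lc : ℝ) ^ 2 ≤ L ^ 4 := by
      calc (Lc : ℝ) ^ 2 ≤ (2 * L) ^ 2 := pow_le_pow_left₀ (by positivity) hLc2 2
        _ = 4 * L ^ 2 := by ring
        _ ≤ L ^ 2 * L ^ 2 := by
            apply mul_le_mul_of_nonneg_right _ (by positivity)
            nlinarith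
        _ = L ^ 4 := by ring
    have hxu : (x : ℝ) ≤ K * L ^ (T + 4) := by
      calc (x : ℝ) = K * n * Lc ^ 2 := hxr
        _ ≤ K * L ^ T * L ^ 4 := by gcongr
        _ = K * L ^ (T + 4) := by ring
    have hx2 : (x : ℝ) ^ 1 * L ^ C ≤ N := by
      refine le_trans ?_ hK2
      calc (x : ℝ) ^ 1 * L ^ C ≤ (K * L ^ (T + 4)) ^ 1 * L ^ C := by gcongr
        _ = K * L ^ (C + T + 4) := by ring
    have hx1 : (N : ℝ) ^ (1 / 3 : ℝ) * L ^ C ≤ (x : ℝ) ^ 1 := by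
      calc (N : ℝ) ^ (1 / 3 : ℝ) * L ^ C ≤ (N : ℝ) ^ (1 / 3 : ℝ) * L ^ (C + T + 4) := by
            gcongr
            omega
        _ ≤ K := hK1
        _ ≤ (x : ℝ) ^ 1 := by rw [pow_one]; exact hKx
    have hxp : (0 : ℝ) < x := lt_of_lt_of_le hK0 hKx
    have hxX : X₁ ≤ x ∧ 2 ≤ x := by
      constructor
      · exact_mod_cast (by linarith : (X₁ : ℝ) ≤ x)
      · exact_mod_cast (by linarith : (2 : ℝ) ≤ x)
    have hlogx : 2 * Real.log (x : ℝ) ≤ 2 * L := by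
      have h4 : (x : ℝ) ≤ N := le_trans (le_mul_of_one_le_right (by positivity) (one_le_pow₀ hL1)) (by rw [pow_one] at hx2; exact hx2)
      have h5 := Real.log_le_log (by positivity) h4
      rw [← hL] at h5
      linarith
    have hp0 : ∀ s ∈ S, pn (s * n) ≤ x := by
      intro s hs
      obtain ⟨s1, s2⟩ := hmem s hs
      apply hpn x (s * n) (2 * L) hxX.1 hxX.2 hlogx _ (Nat.mul_pos s1 hn1)
      rw [hxr]
      have h1 : ((s * n : ℕ) : ℝ) ≤ K * n := by exact_mod_cast Nat.mul_le_mul_right n s2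
      have h2 : 2 * L ≤ (Lc : ℝ) ^ 2 := by nlinarith
      exact mul_le_mul h1 h2 (by positivity) (by positivity)
    have hres := h (fun i => by
      rw [coeff_X]
      split_ifs
      · rw [Int.cast_one, abs_one]
        exact one_le_pow₀ hL1
      · rw [Int.cast_zero, abs_zero]
        positivity) x (by rw [hdeg]; exact hx1) (by rw [hdeg]; exact hx2) S (fun s => pn (s * n)) (by
        intro s hs t ht hst
        rw [mem_coe] at hs ht
        have h1 := pn_inj _ _ (Nat.mul_pos (hmem s hs).1 hn1) (Nat.mul_pos (hmem t ht).1 hn1) hst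
        exact Nat.eq_of_mul_eq_mul_right hn1 h1) (by
        intro s hs
        rw [mem_Icc]
        exact ⟨(pn_prime _).one_le, hp0 s hs⟩) (by
        calc (x : ℝ) ≤ K * L ^ (T + 4) := hxu
          _ ≤ (L ^ T * S.card) * L ^ (T + 4) := by gcongr
          _ = L ^ (2 * T + 4) * S.card := by ring) J hJ hJB m hm1 hm2
    refine le_trans (le_of_eq ?_) hres
    congr 2
    refine filter_congr fun k _ => ?_
    have hval : ∀ (l : Fin m) (a : ℕ), (pn ((k l : ℕ) * n) + a).Prime ↔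
        ((a : ℤ) + (X : ℤ[X]).eval ((pn ((k l : ℕ) * n) : ℕ) : ℤ)).toNat.Prime := by
      intro l a
      have e1 : ((a : ℤ) + (X : ℤ[X]).eval ((pn ((k l : ℕ) * n) : ℕ) : ℤ)).toNat = pn ((k l : ℕ) * n) + a := by
        rw [eval_X]
        have : (a : ℤ) + ((pn ((k l : ℕ) * n) : ℕ) : ℤ) = ((pn ((k l : ℕ) * n) + a : ℕ) : ℤ) := by
          push_cast
          ring
        rw [this, Int.toNat_natCast]
      rw [e1]
    simp only [hval]
  -- all values of `n`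
  have hun : (univ.filter fun k : Fin m → {s // s ∈ S} => ¬ ∀ n : ℕ, 1 ≤ n → (n : ℝ) ≤ L ^ T → ∀ j : ℕ,
      |((J.filter fun a : ℕ => (univ.filter fun l => (pn ((k l : ℕ) * n) + a).Prime).card = j).card : ℝ) -
        ∑ a ∈ J, pw (m * (Gz X S (fun s => pn (s * n)) z (a : ℤ) / Real.log a)) j| ≤ ε * J.card) ⊆
      (Icc 1 ⌊L ^ T⌋₊).biUnion fun n => univ.filter fun k : Fin m → {s // s ∈ S} => ¬ ∀ j : ℕ,
        |((J.filter fun a : ℕ => (univ.filter fun l => (pn ((k l : ℕ) * n) + a).Prime).card = j).card : ℝ) -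
          ∑ a ∈ J, pw (m * (Gz X S (fun s => pn (s * n)) z (a : ℤ) / Real.log a)) j| ≤ ε * J.card := by
    intro k hk
    rw [mem_filter] at hk
    obtain ⟨-, hk⟩ := hk
    push Not at hk
    obtain ⟨n, hn1, hn2, j, hj⟩ := hk
    rw [mem_biUnion]
    refine ⟨n, mem_Icc.2 ⟨hn1, Nat.le_floor hn2⟩, mem_filter.2 ⟨mem_univ _, fun hc => ?_⟩⟩
    exact absurd (hc j) (not_le.2 hj)
  have hP0 : (0 : ℝ) ≤ (N : ℝ) ^ (-δ) * (S.card : ℝ) ^ m := by positivity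
  refine le_trans (Nat.cast_le.2 (card_le_card hun)) (le_trans (Nat.cast_le.2 card_biUnion_le) ?_)
  push_cast
  refine (sum_le_sum (g := fun _ => (N : ℝ) ^ (-δ) * (S.card : ℝ) ^ m) fun n hn => ?_).trans ?_
  · rw [mem_Icc] at hn
    refine hone n hn.1 (le_trans ?_ (Nat.floor_le (by positivity : (0 : ℝ) ≤ L ^ T)))
    exact_mod_cast hn.2
  · rw [sum_const, nsmul_eq_mul, Nat.card_Icc, Nat.add_sub_cancel]
    have h1 : ((⌊L ^ T⌋₊ : ℕ) : ℝ) ≤ L ^ T := Nat.floor_le (by positivity)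
    have h2 : L ^ T ≤ (N : ℝ) ^ (δ / 2) := by
      have h3 := Real.log_le_log (by positivity) hpow
      rw [one_mul, Real.log_pow, ← hL] at h3
      have h4 : 0 ≤ Real.log L := Real.log_nonneg hL1
      rw [Real.rpow_def_of_pos hN0, ← hL, ← Real.exp_log hL0, ← Real.exp_nat_mul, Real.exp_log hL0]
      apply Real.exp_le_exp.2
      have h5 : 2 * (T : ℝ) ≤ q * δ := by
        rw [div_lt_iff₀ hδ] at hq
        exact hq.le
      nlinarith
    calc ((⌊L ^ T⌋₊ : ℕ) : ℝ) * ((N : ℝ) ^ (-δ) * (S.card : ℝ) ^ m) ≤ (N : ℝ) ^ (δ / 2) * ((N : ℝ) ^ (-δ) * (S.card : ℝ) ^ m) := by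
          apply mul_le_mul_of_nonneg_right (h1.trans h2) hP0
      _ = (N : ℝ) ^ (-(δ / 2)) * (S.card : ℝ) ^ m := by
          rw [← mul_assoc, ← Real.rpow_add hN0]
          congr 2
          ring

end Pool.Agent.Run7.h524.MG
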