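import Pool.Agent.Run7.h524.MG.Pol
import Pool.Agent.Run7.h524.MG.Pois2
import Pool.Agent.Run7.h18.MK.Arb4

/-!
# The Poisson law for the primes `n + f(g(s))`, `s` from an arbitrary set of arguments
-/

set_option autoImplicit false

namespace Pool.Agent.Run7.h524.MG

open Finset Filter Polynomial
open Pool.Agent.H373R2.T7 (lamzI lamzI_nonneg)
open Pool.Agent.R460.SQ (thp)
open Pool.Agent.N384.MQ (ev_log_pow ev_log_ge)
open Pool.Agent.Run7.h794.MK (cheb)
open Pool.Agent.Run7.h18.MK (arb_fin eval_le)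
open Q282.CL (av)

/-- the mean of the sieve model over the arguments `g(s)` -/
noncomputable def Gz (f : ℤ[X]) (S : Finset ℕ) (g : ℕ → ℕ) (z : ℕ) (n : ℤ) : ℝ :=
  (∑ s ∈ S, lamzI z (n + f.eval ((g s : ℕ) : ℤ))) / S.card

lemma Gz_nonneg (f : ℤ[X]) (S : Finset ℕ) (g : ℕ → ℕ) (z : ℕ) (n : ℤ) : 0 ≤ Gz f S g z n :=
  div_nonneg (sum_nonneg fun _ _ => lamzI_nonneg _ _) (Nat.cast_nonneg _)

open Classical in
/-- **the proportion of the primes `n + f(g(s))`** -/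
theorem prec_arb (d T A : ℕ) (hd : 1 ≤ d) : ∃ C B₀ : ℕ, ∀ E : ℕ, ∃ N₀ : ℕ, ∀ N : ℕ, N₀ ≤ N → ∀ z : ℕ,
    Real.log N ^ B₀ ≤ z → (z : ℝ) ≤ Real.log N ^ E → ∀ f : ℤ[X], 1 ≤ f.natDegree → f.natDegree ≤ d →
    (∀ i, |((f.coeff i : ℤ) : ℝ)| ≤ Real.log N ^ T) → ∀ x : ℕ,
    (N : ℝ) ^ (1 / 3 : ℝ) * Real.log N ^ C ≤ (x : ℝ) ^ f.natDegree → (x : ℝ) ^ f.natDegree * Real.log N ^ C ≤ N →
    ∀ (S : Finset ℕ) (g : ℕ → ℕ), Set.InjOn g S → (∀ s ∈ S, g s ∈ Icc 1 x) → (x : ℝ) ≤ Real.log N ^ T * S.card →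
    0 < S.card ∧ (∀ s ∈ S, |((f.eval ((g s : ℕ) : ℤ) : ℤ) : ℝ)| ≤ N) ∧
    ∃ Ex : Finset ℕ, (Ex.card : ℝ) ≤ N / Real.log N ∧ ∀ n ∈ Icc 1 N, n ∉ Ex → (N : ℝ) / Real.log N ^ 2 ≤ n ∧
      |((S.filter fun s : ℕ => ((n : ℤ) + f.eval ((g s : ℕ) : ℤ)).toNat.Prime).card : ℝ) / S.card - Gz f S g z n / Real.log n| ≤
        1 / Real.log N ^ A := by
  obtain ⟨C, B₀, h⟩ := arb_fin d T (A + T + 4) hd
  refine ⟨C + A + T + 8, B₀, fun E => ?_⟩
  obtain ⟨N₁, h⟩ := h E
  obtain ⟨N₂, hN₂⟩ := eventually_atTop.1 ((ev_log_ge (d + 8)).and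
    ((ev_log_pow 2 3).and (eventually_ge_atTop 3)))
  refine ⟨N₁ + N₂, fun N hN z hz1 hz2 f hf hfd hcoef x hx1 hx2 S g hg hgx hSx => ?_⟩
  obtain ⟨hbig, hpow, hN3⟩ := hN₂ N (by omega)
  obtain ⟨w, hw⟩ : ∃ w : ℕ → ℝ, w = fun k => if k ∈ S.image g then 1 else 0 := ⟨_, rfl⟩
  obtain ⟨Ex, hE1, hE2⟩ := h N (by omega) z hz1 hz2 w (fun k => by
    rw [hw]
    show |(if k ∈ S.image g then (1 : ℝ) else 0)| ≤ 1
    split_ifs <;> simp)
  obtain ⟨L, hL⟩ : ∃ L, L = Real.log (N : ℝ) := ⟨_, rfl⟩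
  rw [← hL] at hbig hpow hE1 hE2 hx1 hx2 hcoef hSx ⊢
  have hd0 : (1 : ℝ) ≤ d := by exact_mod_cast hd
  have hL8 : 8 ≤ L := by linarith
  have hL1 : 1 ≤ L := by linarith
  have hL0 : 0 < L := by linarith
  have hN0 : (0 : ℝ) < N := by exact_mod_cast (by omega : 0 < N)
  have hx1' : (N : ℝ) ^ (1 / 3 : ℝ) * L ^ C ≤ (x : ℝ) ^ f.natDegree :=
    le_trans (mul_le_mul_of_nonneg_left (pow_le_pow_right₀ hL1 (by omega)) (by positivity)) hx1
  have hx2' : (x : ℝ) ^ f.natDegree * L ^ C ≤ N :=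
    le_trans (mul_le_mul_of_nonneg_left (pow_le_pow_right₀ hL1 (by omega)) (by positivity)) hx2
  have hx0 : 1 ≤ x := by
    by_contra hc
    have hx : x = 0 := by omega
    rw [hx, Nat.cast_zero, zero_pow (by omega)] at hx1
    have : 0 < (N : ℝ) ^ (1 / 3 : ℝ) * L ^ (C + A + T + 8) := by positivity
    linarith
  have hxr : (1 : ℝ) ≤ x := by exact_mod_cast hx0
  have hS0 : 0 < S.card := by
    rcases Nat.eq_zero_or_pos S.card with h0 | h0
    · rw [h0, Nat.cast_zero, mul_zero] at hSx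
      linarith
    · exact h0
  have hSr : (0 : ℝ) < S.card := by exact_mod_cast hS0
  have hsmall : ∀ k ∈ Icc 1 x, |((f.eval (k : ℤ) : ℤ) : ℝ)| ≤ N / L ^ (A + 6) := by
    intro k hk
    have h1 := eval_le f f.natDegree le_rfl (L ^ T) hcoef x k hk
    refine h1.trans ?_
    rw [le_div_iff₀ (by positivity)]
    have h2 : (f.natDegree : ℝ) + 1 ≤ L := by
      have : (f.natDegree : ℝ) ≤ d := by exact_mod_cast hfd
      linarith
    calc ((f.natDegree : ℝ) + 1) * L ^ T * (x : ℝ) ^ f.natDegree * L ^ (A + 6)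
        ≤ L * L ^ T * (x : ℝ) ^ f.natDegree * L ^ (A + 6) := by gcongr
      _ = (x : ℝ) ^ f.natDegree * L ^ (A + T + 7) := by ring
      _ ≤ (x : ℝ) ^ f.natDegree * L ^ (C + A + T + 8) := by
          apply mul_le_mul_of_nonneg_left _ (by positivity)
          exact pow_le_pow_right₀ hL1 (by omega)
      _ ≤ N := hx2
  have hsmallS : ∀ s ∈ S, |((f.eval ((g s : ℕ) : ℤ) : ℤ) : ℝ)| ≤ N / L ^ (A + 6) := fun s hs => hsmall (g s) (hgx s hs)
  refine ⟨hS0, fun s hs => (hsmallS s hs).trans (div_le_self hN0.le (one_le_pow₀ hL1)),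
    Ex ∪ (Icc 1 N).filter (fun n : ℕ => (n : ℝ) < N / L ^ 2), ?_, fun n hn hnE => ?_⟩
  · have h1 : (((Icc 1 N).filter (fun n : ℕ => (n : ℝ) < N / L ^ 2)).card : ℝ) ≤ N / L ^ 2 := by
      have h2 : ((Icc 1 N).filter (fun n : ℕ => (n : ℝ) < N / L ^ 2)).card ≤ (Icc 1 ⌊(N : ℝ) / L ^ 2⌋₊).card := by
        apply card_le_card
        intro n hn
        rw [mem_filter, mem_Icc] at hn
        rw [mem_Icc]
        exact ⟨hn.1.1, Nat.le_floor hn.2.le⟩
      rw [Nat.card_Icc, Nat.add_sub_cancel] at h2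
      refine le_trans (by exact_mod_cast h2) (Nat.floor_le (by positivity))
    have h3 : ((Ex ∪ (Icc 1 N).filter (fun n : ℕ => (n : ℝ) < N / L ^ 2)).card : ℝ) ≤
        (Ex.card : ℝ) + (((Icc 1 N).filter (fun n : ℕ => (n : ℝ) < N / L ^ 2)).card : ℝ) := by
      exact_mod_cast card_union_le _ _
    refine h3.trans ((add_le_add hE1 h1).trans ?_)
    have h4 : (N : ℝ) / L ^ (A + T + 4) ≤ N / L ^ 2 :=
      div_le_div_of_nonneg_left hN0.le (by positivity) (pow_le_pow_right₀ hL1 (by omega))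
    have h5 : (N : ℝ) / L ^ 2 + N / L ^ 2 ≤ N / L := by
      rw [← add_div, div_le_div_iff₀ (by positivity) hL0]
      nlinarith [mul_pos hN0 hL0]
    linarith
  · rw [mem_union, not_or] at hnE
    have hnb : (N : ℝ) / L ^ 2 ≤ n := by
      by_contra hc
      push Not at hc
      exact hnE.2 (mem_filter.2 ⟨hn, hc⟩)
    refine ⟨hnb, ?_⟩
    have hn1 : (3 : ℝ) ≤ n := by
      refine le_trans ?_ hnb
      rw [le_div_iff₀ (by positivity)]
      linarith
    have hlogn : 1 ≤ Real.log (n : ℝ) := by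
      have := Real.log_le_log (Real.exp_pos 1) (show Real.exp 1 ≤ n by
        have := Real.exp_one_lt_d9
        linarith)
      rwa [Real.log_exp] at this
    obtain ⟨a3, a4⟩ := hE2 n hn hnE.1 f hf hfd hcoef x hx1' hx2'
    have hwsum : ∀ F : ℕ → ℝ, ∑ k ∈ Icc 1 x, w k * F k = ∑ s ∈ S, F (g s) := by
      intro F
      have e1 : ∑ k ∈ Icc 1 x, w k * F k = ∑ k ∈ S.image g, F k := by
        have e2 : S.image g ⊆ Icc 1 x := by
          intro k hk
          obtain ⟨s, hs, rfl⟩ := mem_image.1 hk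
          exact hgx s hs
        rw [← sum_subset e2 (fun k _ hk => by rw [hw]; simp only [if_neg hk, zero_mul])]
        refine sum_congr rfl fun k hk => ?_
        rw [hw]
        simp only [if_pos hk, one_mul]
      rw [e1, sum_image hg]
    rw [hwsum (fun k => thp ((n : ℤ) + f.eval (k : ℤ)).toNat), hwsum (fun k => lamzI z ((n : ℤ) + f.eval (k : ℤ)))] at a4
    have a5 : (x : ℝ) / L ^ (A + T + 4) ≤ S.card / L ^ (A + 4) := by
      rw [div_le_div_iff₀ (by positivity) (by positivity)]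
      calc (x : ℝ) * L ^ (A + 4) ≤ (L ^ T * S.card) * L ^ (A + 4) := by gcongr
        _ = S.card * L ^ (A + T + 4) := by ring
    obtain ⟨P, hP⟩ : ∃ P, P = S.filter fun s : ℕ => ((n : ℤ) + f.eval ((g s : ℕ) : ℤ)).toNat.Prime := ⟨_, rfl⟩
    rw [← hP]
    have hPx : (P.card : ℝ) ≤ S.card := by
      have h1 : P.card ≤ S.card := by
        rw [hP]
        exact card_filter_le _ _
      exact_mod_cast h1
    have hsum : ∑ s ∈ S, thp ((n : ℤ) + f.eval ((g s : ℕ) : ℤ)).toNat =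
        ∑ s ∈ P, Real.log (((n : ℤ) + f.eval ((g s : ℕ) : ℤ) : ℤ) : ℝ) := by
      rw [hP, sum_filter]
      refine sum_congr rfl fun s hs => ?_
      unfold thp
      have h5 := a3 (g s) (hgx s hs)
      have h6 : ((((n : ℤ) + f.eval ((g s : ℕ) : ℤ)).toNat : ℕ) : ℝ) = (((n : ℤ) + f.eval ((g s : ℕ) : ℤ) : ℤ) : ℝ) := by
        rw [← Int.cast_natCast, Int.toNat_of_nonneg (by omega)]
      rw [h6]
    have hlogs : |∑ s ∈ P, Real.log (((n : ℤ) + f.eval ((g s : ℕ) : ℤ) : ℤ) : ℝ) - P.card * Real.log n| ≤ S.card * (2 / L ^ (A + 4)) := by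
      have e1 : ∑ s ∈ P, Real.log (((n : ℤ) + f.eval ((g s : ℕ) : ℤ) : ℤ) : ℝ) - P.card * Real.log n =
          ∑ s ∈ P, (Real.log (((n : ℤ) + f.eval ((g s : ℕ) : ℤ) : ℤ) : ℝ) - Real.log (((n : ℤ) : ℤ) : ℝ)) := by
        rw [sum_sub_distrib, sum_const, nsmul_eq_mul, Int.cast_natCast]
      rw [e1]
      refine (abs_sum_le_sum_abs _ _).trans ?_
      have e2 : ∀ s ∈ P, |Real.log (((n : ℤ) + f.eval ((g s : ℕ) : ℤ) : ℤ) : ℝ) - Real.log (((n : ℤ) : ℤ) : ℝ)| ≤ 2 / L ^ (A + 4) := by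
        intro s hs
        rw [hP, mem_filter] at hs
        rw [show 2 / L ^ (A + 4) = 2 * (1 / L ^ (A + 4)) by ring]
        apply log_near
        · rw [Int.cast_natCast]
          linarith
        · rw [div_le_div_iff₀ (by positivity) two_pos, one_mul, one_mul]
          calc (2 : ℝ) ≤ L := by linarith
            _ = L ^ 1 := (pow_one L).symm
            _ ≤ L ^ (A + 4) := pow_le_pow_right₀ hL1 (by omega)
        · refine (hsmallS s hs.1).trans ?_
          rw [Int.cast_natCast, one_div_mul_eq_div, div_le_div_iff₀ (by positivity) (by positivity)]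
          rw [div_le_iff₀ (by positivity)] at hnb
          calc (N : ℝ) * L ^ (A + 4) ≤ (n * L ^ 2) * L ^ (A + 4) := by gcongr
            _ = n * L ^ (A + 6) := by ring
      refine (sum_le_sum e2).trans ?_
      rw [sum_const, nsmul_eq_mul]
      exact mul_le_mul_of_nonneg_right hPx (by positivity)
    rw [hsum] at a4
    have hG : ∑ s ∈ S, lamzI z ((n : ℤ) + f.eval ((g s : ℕ) : ℤ)) = S.card * Gz f S g z n := by
      unfold Gz
      field_simp
    rw [hG] at a4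
    have key : |(P.card : ℝ) * Real.log n - S.card * Gz f S g z n| ≤ S.card * (3 / L ^ (A + 4)) := by
      have e1 : (P.card : ℝ) * Real.log n - S.card * Gz f S g z n =
          (∑ s ∈ P, Real.log (((n : ℤ) + f.eval ((g s : ℕ) : ℤ) : ℤ) : ℝ) - S.card * Gz f S g z n) -
          (∑ s ∈ P, Real.log (((n : ℤ) + f.eval ((g s : ℕ) : ℤ) : ℤ) : ℝ) - P.card * Real.log n) := by ring
      rw [e1]
      refine (abs_sub _ _).trans ((add_le_add (a4.trans a5) hlogs).trans (le_of_eq ?_))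
      ring
    have e3 : (P.card : ℝ) / S.card - Gz f S g z n / Real.log n =
        ((P.card : ℝ) * Real.log n - S.card * Gz f S g z n) / (S.card * Real.log n) := by
      have : Real.log (n : ℝ) ≠ 0 := by linarith
      field_simp
    rw [e3, abs_div, abs_of_pos (show 0 < (S.card : ℝ) * Real.log n by positivity), div_le_div_iff₀ (by positivity) (by positivity),
      one_mul]
    calc |(P.card : ℝ) * Real.log n - S.card * Gz f S g z n| * L ^ A ≤ (S.card * (3 / L ^ (A + 4))) * L ^ A := by gcongr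
      _ = S.card * (3 / L ^ 4) := by
          rw [pow_add]
          field_simp
      _ ≤ S.card * 1 := by
          apply mul_le_mul_of_nonneg_left _ hSr.le
          rw [div_le_one (by positivity)]
          calc (3 : ℝ) ≤ L := by linarith
            _ = L ^ 1 := (pow_one L).symm
            _ ≤ L ^ 4 := pow_le_pow_right₀ hL1 (by norm_num)
      _ ≤ S.card * Real.log n := by gcongr

open Classical in
/-- **The Poisson law for arbitrary sets of arguments.** -/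
theorem pois_arb (d T : ℕ) (hd : 1 ≤ d) (B : ℕ) (hB : 1 ≤ B) (Λ : ℝ) (hΛ : 0 < Λ) (ε : ℝ) (hε : 0 < ε) :
    ∃ (C B₀ M₀ : ℕ) (δ : ℝ), 0 < δ ∧ ∀ E : ℕ, ∃ N₀ : ℕ, ∀ N : ℕ, N₀ ≤ N → ∀ z : ℕ,
    Real.log N ^ B₀ ≤ z → (z : ℝ) ≤ Real.log N ^ E → ∀ f : ℤ[X], 1 ≤ f.natDegree → f.natDegree ≤ d →
    (∀ i, |((f.coeff i : ℤ) : ℝ)| ≤ Real.log N ^ T) → ∀ x : ℕ,
    (N : ℝ) ^ (1 / 3 : ℝ) * Real.log N ^ C ≤ (x : ℝ) ^ f.natDegree → (x : ℝ) ^ f.natDegree * Real.log N ^ C ≤ N →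
    ∀ (S : Finset ℕ) (g : ℕ → ℕ), Set.InjOn g S → (∀ s ∈ S, g s ∈ Icc 1 x) → (x : ℝ) ≤ Real.log N ^ T * S.card →
    ∀ J : Finset ℕ, J ⊆ Icc 1 N → N ≤ B * J.card →
    ∀ m : ℕ, M₀ ≤ m → (m : ℝ) ≤ Λ * Real.log N →
    ((univ.filter fun k : Fin m → {s // s ∈ S} => ¬ ∀ j : ℕ,
      |((J.filter fun n : ℕ => (univ.filter fun l => ((n : ℤ) + f.eval ((g (k l : ℕ) : ℕ) : ℤ)).toNat.Prime).card = j).card : ℝ) -
        ∑ n ∈ J, pw (m * (Gz f S g z n / Real.log n)) j| ≤ ε * J.card).card : ℝ) ≤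
      (N : ℝ) ^ (-δ) * (S.card : ℝ) ^ m := by
  have hBr : (1 : ℝ) ≤ B := by exact_mod_cast hB
  obtain ⟨K, hK⟩ : ∃ K : ℝ, K = 64 * B / ε := ⟨_, rfl⟩
  have hK0 : 0 < K := by rw [hK]; positivity
  obtain ⟨η, δ, ρ₀, hη, hδ, hρ₀, M₀, hg⟩ := pois2 (K + 1) Λ (by linarith) hΛ ε hε
  obtain ⟨C, B₀, hpr⟩ := prec_arb d T 2 hd
  obtain ⟨X₀, hcheb⟩ := cheb
  refine ⟨C, B₀, M₀, δ / (16 * B ^ 2), by positivity, fun E => ?_⟩
  obtain ⟨N₁, hpr⟩ := hpr E
  obtain ⟨N₂, hN₂⟩ := eventually_atTop.1 ((ev_log_ge (8 + Λ / η + 16 * B / ε + 16 * B ^ 2 / ρ₀)).and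
    ((ev_log_pow 8 1).and (eventually_ge_atTop 3)))
  refine ⟨N₁ + N₂ + X₀ + 3, fun N hN z hz1 hz2 f hf hfd hcoef x hx1 hx2 S g hginj hgx hSx J hJ hJB m hm1 hm2 => ?_⟩
  obtain ⟨hbig, hpow8, hN3⟩ := hN₂ N (by omega)
  obtain ⟨hS0, hfN, Ex, hEx1, hEx2⟩ := hpr N (by omega) z hz1 hz2 f hf hfd hcoef x hx1 hx2 S g hginj hgx hSx
  obtain ⟨L, hL⟩ : ∃ L, L = Real.log (N : ℝ) := ⟨_, rfl⟩
  rw [← hL] at hbig hpow8 hm2
  have t1 : 0 < Λ / η := by positivity
  have t2 : 0 < 16 * B / ε := by positivity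
  have t3 : 0 < 16 * (B : ℝ) ^ 2 / ρ₀ := by positivity
  have hL8 : 8 ≤ L := by linarith
  have hL1 : 1 ≤ L := by linarith
  have hL0 : 0 < L := by linarith
  have hN0 : (0 : ℝ) < N := by exact_mod_cast (by omega : 0 < N)
  have hJ0 : 0 < J.card := by
    rcases Nat.eq_zero_or_pos J.card with h | h
    · rw [h, mul_zero] at hJB
      omega
    · exact h
  have hJr : (N : ℝ) ≤ B * J.card := by exact_mod_cast hJB
  have hJc : (0 : ℝ) < J.card := by exact_mod_cast hJ0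
  have hSr : (0 : ℝ) < S.card := by exact_mod_cast hS0
  obtain ⟨ρ, hρ⟩ : ∃ ρ : ℝ, ρ = 1 / L := ⟨_, rfl⟩
  have hρ0 : 0 < ρ := by rw [hρ]; positivity
  have : Nonempty {s // s ∈ S} := by
    obtain ⟨s, hs⟩ := card_pos.1 hS0
    exact ⟨⟨s, hs⟩⟩
  have hav : ∀ n : ℕ, av (fun k : {s // s ∈ S} => (((if ((n : ℤ) + f.eval ((g (k : ℕ) : ℕ) : ℤ)).toNat.Prime then 1 else 0 : ℕ)) : ℝ)) =
      ((S.filter fun s : ℕ => ((n : ℤ) + f.eval ((g s : ℕ) : ℤ)).toNat.Prime).card : ℝ) / S.card := by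
    intro n
    unfold av
    rw [Fintype.card_coe, ← sum_boole, ← sum_coe_sort S]
    congr 1
    refine sum_congr rfl fun k _ => ?_
    push_cast
    rfl
  -- the integers with too many primes
  obtain ⟨pr, hprn⟩ : ∃ pr : ℕ → ℝ, pr = fun n : ℕ => ((S.filter fun s : ℕ => ((n : ℤ) + f.eval ((g s : ℕ) : ℤ)).toNat.Prime).card : ℝ) / S.card :=
    ⟨_, rfl⟩
  obtain ⟨E₁, hE₁⟩ : ∃ E₁, E₁ = (Icc 1 N).filter (fun n => K / L < pr n) := ⟨_, rfl⟩
  have hcol : ∀ s ∈ S, (((Icc 1 N).filter fun n : ℕ => ((n : ℤ) + f.eval ((g s : ℕ) : ℤ)).toNat.Prime).card : ℝ) ≤ 4 * N / L := by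
    intro s hs
    have := card_primes_int N X₀ hcheb (by omega) (by omega) (f.eval ((g s : ℕ) : ℤ)) (hfN s hs) (Icc 1 N) (Subset.refl _)
    rwa [← hL] at this
  have hsumpr : ∑ n ∈ Icc 1 N, pr n ≤ 4 * N / L := by
    have e1 : ∑ n ∈ Icc 1 N, pr n = (∑ s ∈ S, (((Icc 1 N).filter fun n : ℕ => ((n : ℤ) + f.eval ((g s : ℕ) : ℤ)).toNat.Prime).card : ℝ)) / S.card := by
      rw [hprn, ← sum_div]
      congr 1
      simp only [← sum_boole]
      exact sum_comm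
    rw [e1, div_le_iff₀ hSr]
    refine (sum_le_sum hcol).trans ?_
    rw [sum_const, nsmul_eq_mul, mul_comm]
  have hE₁c : (E₁.card : ℝ) ≤ ε / 16 * J.card := by
    have e1 : (E₁.card : ℝ) * (K / L) ≤ 4 * N / L := by
      refine le_trans ?_ hsumpr
      have e2 : (E₁.card : ℝ) * (K / L) ≤ ∑ n ∈ E₁, pr n := by
        rw [← nsmul_eq_mul]
        apply card_nsmul_le_sum
        intro n hn
        rw [hE₁, mem_filter] at hn
        exact hn.2.le
      refine e2.trans (sum_le_sum_of_subset_of_nonneg (by rw [hE₁]; exact filter_subset _ _) fun n _ _ => ?_)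
      rw [hprn]
      positivity
    have e3 : (E₁.card : ℝ) * K ≤ 4 * N := by
      rw [mul_div_assoc', div_le_div_iff_of_pos_right hL0] at e1
      exact e1
    have e4 : (E₁.card : ℝ) * K ≤ (ε / 16 * J.card) * K := by
      refine e3.trans ?_
      rw [hK]
      calc 4 * (N : ℝ) ≤ 4 * (B * J.card) := by linarith
        _ = ε / 16 * J.card * (64 * B / ε) := by field_simp; ring
    exact le_of_mul_le_mul_right e4 hK0
  have hlogn : ∀ n ∈ Icc 1 N, n ∉ Ex → 0 < Real.log (n : ℝ) := by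
    intro n hn hnE
    obtain ⟨a1, -⟩ := hEx2 n hn hnE
    rw [← hL] at a1
    have h1 := Real.log_le_log (by positivity) a1
    rw [Real.log_div (by positivity) (by positivity), Real.log_pow, ← hL] at h1
    have h2 : Real.log L * 4 ≤ L := by
      have h3 := Real.log_le_log (by positivity) hpow8
      rw [Real.log_mul (by norm_num) (by positivity), Real.log_one, zero_add, Real.log_pow, ← hL] at h3
      push_cast at h3
      have h4 : 0 ≤ Real.log L := Real.log_nonneg hL1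
      linarith
    push_cast at h1
    linarith
  have hres := hg {s // s ∈ S} ℕ J (E₁ ∪ Ex) (fun n k => if ((n : ℤ) + f.eval ((g (k : ℕ) : ℕ) : ℤ)).toNat.Prime then 1 else 0)
    (fun n => Gz f S g z n / Real.log n) ρ (4 * B) m (card_pos.1 hJ0) (fun n a => by
    split_ifs
    · exact Or.inr rfl
    · exact Or.inl rfl) hρ0 (by linarith) (by
    rw [hρ, mul_one_div, div_le_iff₀ hL0]
    have h1 : 16 * (B : ℝ) ^ 2 / ρ₀ ≤ L := by linarith
    rw [div_le_iff₀ hρ₀] at h1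
    linarith) hm1 (by
    rw [hρ, mul_one_div, div_le_iff₀ hL0]
    exact hm2) (by
    have h1 : ((J ∩ (E₁ ∪ Ex)).card : ℝ) ≤ E₁.card + Ex.card := by
      exact_mod_cast (card_le_card inter_subset_right).trans (card_union_le _ _)
    refine h1.trans ((add_le_add hE₁c hEx1).trans ?_)
    rw [← hL]
    have h2 : 16 * B / ε ≤ L := by linarith
    rw [div_le_iff₀ hε] at h2
    have h3 : (N : ℝ) / L ≤ ε / 16 * J.card := by
      rw [div_le_iff₀ hL0]
      calc (N : ℝ) ≤ B * J.card := hJr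
        _ = (16 * B) / 16 * J.card := by ring
        _ ≤ (L * ε) / 16 * J.card := by gcongr
        _ = ε / 16 * J.card * L := by ring
    linarith) (fun n _ => div_nonneg (Gz_nonneg f S g z n) (Real.log_natCast_nonneg n)) (fun n hn => by
    rw [Finset.mem_sdiff, mem_union, not_or] at hn
    obtain ⟨hn1, hn2, hn3⟩ := hn
    obtain ⟨-, a2⟩ := hEx2 n (hJ hn1) hn3
    rw [← hL] at a2
    have b1 : pr n ≤ K / L := by
      by_contra hc
      push Not at hc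
      exact hn2 (by rw [hE₁]; exact mem_filter.2 ⟨hJ hn1, hc⟩)
    have b2 : pr n = ((S.filter fun s : ℕ => ((n : ℤ) + f.eval ((g s : ℕ) : ℤ)).toNat.Prime).card : ℝ) / S.card := by rw [hprn]
    rw [← b2] at a2
    constructor
    · have b3 := (abs_le.1 a2).1
      have b4 : 1 / L ^ 2 ≤ 1 / L := by
        apply one_div_le_one_div_of_le hL0
        nlinarith
      have b5 : (K + 1) * ρ = K / L + 1 / L := by rw [hρ]; ring
      rw [b5]
      linarith
    · rw [hav, ← b2]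
      calc m * |pr n - Gz f S g z n / Real.log n|
          ≤ (Λ * L) * (1 / L ^ 2) := mul_le_mul hm2 a2 (abs_nonneg _) (by positivity)
        _ = Λ / L := by field_simp
        _ ≤ η := by
          rw [div_le_iff₀ hL0]
          have h2 : Λ / η ≤ L := by linarith
          rw [div_le_iff₀ hη] at h2
          linarith) (fun a => by
    have h1 : ∑ n ∈ J \ (E₁ ∪ Ex), (((if ((n : ℤ) + f.eval ((g (a : ℕ) : ℕ) : ℤ)).toNat.Prime then 1 else 0 : ℕ)) : ℝ) ≤
        (((Icc 1 N).filter fun n : ℕ => ((n : ℤ) + f.eval ((g (a : ℕ) : ℕ) : ℤ)).toNat.Prime).card : ℝ) := by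
      have h2 : ∀ n : ℕ, (((if ((n : ℤ) + f.eval ((g (a : ℕ) : ℕ) : ℤ)).toNat.Prime then 1 else 0 : ℕ)) : ℝ) =
          if ((n : ℤ) + f.eval ((g (a : ℕ) : ℕ) : ℤ)).toNat.Prime then (1 : ℝ) else 0 := by
        intro n
        split_ifs <;> simp
      simp only [h2]
      rw [sum_boole]
      exact_mod_cast card_le_card (filter_subset_filter _ (sdiff_subset.trans hJ))
    refine h1.trans ((hcol a a.2).trans ?_)
    rw [hρ, div_le_iff₀ hL0, show 4 * (B : ℝ) * (1 / L) * J.card * L = 4 * (B * J.card) by field_simp]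
    linarith)
  have hsum : ∀ (k : Fin m → {s // s ∈ S}) (n : ℕ), ∑ l, (if ((n : ℤ) + f.eval ((g (k l : ℕ) : ℕ) : ℤ)).toNat.Prime then 1 else 0) =
      (univ.filter fun l => ((n : ℤ) + f.eval ((g (k l : ℕ) : ℕ) : ℤ)).toNat.Prime).card := by
    intro k n
    rw [sum_boole]
    rfl
  simp only [hsum] at hres
  refine hres.trans (le_of_eq ?_)
  rw [Fintype.card_coe, hρ, Real.rpow_def_of_pos hN0, ← hL]
  congr 2
  field_simp
  norm_num

end Pool.Agent.Run7.h524.MG
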