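import Mathlib
import Pool.Agent.Q282.CL.Abs

/-!
# The inequality of McDiarmid for functions on finite powers (weak constant)

The proof is the one of the starting file `Pool/Agent/Helper949/AC/McD.lean`, for plain tuples.
-/

set_option autoImplicit false

namespace Pool.Agent.Run7.h524.MG

open Finset
open Q282.CL (av)

theorem mcd_one {α : Type} [Fintype α] [Nonempty α] (X : α → ℝ) (L : ℝ) (hL : 0 < L)
    (h0 : ∑ v, X v = 0) (h : ∀ v v', |X v - X v'| ≤ L) (s : ℝ) :
    ∑ v, Real.exp (s * X v) ≤ (Fintype.card α : ℝ) * Real.exp (s ^ 2 * L ^ 2 / 2) := by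
  have hc : 0 < (Fintype.card α : ℝ) := by exact_mod_cast Fintype.card_pos
  have hX : ∀ v, |X v| ≤ L := by
    intro v
    have h1 : (Fintype.card α : ℝ) * X v = ∑ v', (X v - X v') := by
      rw [Finset.sum_sub_distrib, h0, Finset.sum_const, Finset.card_univ, nsmul_eq_mul, sub_zero]
    have h2 : |(Fintype.card α : ℝ) * X v| ≤ (Fintype.card α : ℝ) * L := by
      rw [h1]
      refine (Finset.abs_sum_le_sum_abs _ _).trans ?_
      refine (Finset.sum_le_sum fun v' _ => h v v').trans (le_of_eq ?_)
      rw [Finset.sum_const, Finset.card_univ, nsmul_eq_mul]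
    rw [abs_mul, abs_of_pos hc] at h2
    exact le_of_mul_le_mul_left h2 hc
  have hpt : ∀ v, Real.exp (s * X v) ≤ (L + X v) / (2 * L) * Real.exp (s * L) +
      (L - X v) / (2 * L) * Real.exp (-(s * L)) := by
    intro v
    have h1 := abs_le.mp (hX v)
    have ha : 0 ≤ (L + X v) / (2 * L) := div_nonneg (by linarith) (by linarith)
    have hb : 0 ≤ (L - X v) / (2 * L) := div_nonneg (by linarith) (by linarith)
    have hab : (L + X v) / (2 * L) + (L - X v) / (2 * L) = 1 := by
      field_simp
      ring
    have h2 := convexOn_exp.2 (Set.mem_univ (s * L)) (Set.mem_univ (-(s * L))) ha hb hab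
    simp only [smul_eq_mul] at h2
    have h3 : (L + X v) / (2 * L) * (s * L) + (L - X v) / (2 * L) * (-(s * L)) = s * X v := by
      field_simp
      ring
    rw [h3] at h2
    exact h2
  calc ∑ v, Real.exp (s * X v) ≤ ∑ v, ((L + X v) / (2 * L) * Real.exp (s * L) +
      (L - X v) / (2 * L) * Real.exp (-(s * L))) := Finset.sum_le_sum fun v _ => hpt v
    _ = ∑ v, ((Real.exp (s * L) + Real.exp (-(s * L))) / 2 +
        (Real.exp (s * L) - Real.exp (-(s * L))) / (2 * L) * X v) := by
        apply Finset.sum_congr rfl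
        intro v _
        field_simp
        ring
    _ = (Fintype.card α : ℝ) * Real.cosh (s * L) := by
        rw [Finset.sum_add_distrib, ← Finset.mul_sum, h0, mul_zero, add_zero, Finset.sum_const,
          Finset.card_univ, nsmul_eq_mul, Real.cosh_eq]
    _ ≤ (Fintype.card α : ℝ) * Real.exp (s ^ 2 * L ^ 2 / 2) := by
        apply mul_le_mul_of_nonneg_left _ hc.le
        refine (Real.cosh_le_exp_half_sq _).trans (le_of_eq ?_)
        congr 1
        ring

theorem mcd_fin {α : Type} [Fintype α] [Nonempty α] (L : ℝ) (hL : 0 < L) (s : ℝ) :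
    ∀ (n : ℕ) (f : (Fin n → α) → ℝ), (∀ w i v, |f (Function.update w i v) - f w| ≤ L) →
      ∑ w, Real.exp (s * (f w - (∑ w', f w') / (Fintype.card α : ℝ) ^ n)) ≤
        (Fintype.card α : ℝ) ^ n * Real.exp (s ^ 2 * (n : ℝ) * L ^ 2 / 2) := by
  intro n
  have hc : 0 < (Fintype.card α : ℝ) := by exact_mod_cast Fintype.card_pos
  induction n with
  | zero =>
    intro f _
    simp
  | succ n ih =>
    intro f hf
    set c : ℝ := (Fintype.card α : ℝ) with hcdef
    let g : (Fin n → α) → ℝ := fun w => (∑ a, f (Fin.cons a w)) / c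
    have hsum : ∀ F : (Fin (n + 1) → α) → ℝ, ∑ w, F w = ∑ w : Fin n → α, ∑ a, F (Fin.cons a w) := by
      intro F
      rw [← (Fin.consEquiv (fun _ : Fin (n + 1) => α)).sum_comp, Fintype.sum_prod_type,
        Finset.sum_comm]
      rfl
    have hg : (∑ w', f w') / c ^ (n + 1) = (∑ w', g w') / c ^ n := by
      rw [hsum f]
      simp only [g]
      rw [← Finset.sum_div, pow_succ, div_div, mul_comm]
    have hgd : ∀ w i v, |g (Function.update w i v) - g w| ≤ L := by
      intro w i v
      simp only [g]
      rw [← sub_div, ← Finset.sum_sub_distrib, abs_div, abs_of_pos hc, div_le_iff₀ hc]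
      refine (Finset.abs_sum_le_sum_abs _ _).trans ?_
      calc ∑ a, |f (Fin.cons a (Function.update w i v)) - f (Fin.cons a w)|
          ≤ ∑ _a : α, L := by
            apply Finset.sum_le_sum
            intro a _
            rw [Fin.cons_update]
            exact hf _ _ _
        _ = L * c := by
            rw [Finset.sum_const, Finset.card_univ, nsmul_eq_mul, hcdef]
            ring
    have hone : ∀ w : Fin n → α, ∑ a, Real.exp (s * (f (Fin.cons a w) - g w)) ≤
        c * Real.exp (s ^ 2 * L ^ 2 / 2) := by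
      intro w
      apply mcd_one (fun a => f (Fin.cons a w) - g w) L hL
      · rw [Finset.sum_sub_distrib, Finset.sum_const, Finset.card_univ, nsmul_eq_mul]
        simp only [g]
        rw [← hcdef]
        field_simp
        ring
      · intro v v'
        have h1 := hf (Fin.cons v' w) 0 v
        rw [Fin.update_cons_zero] at h1
        have h2 : f (Fin.cons v w) - g w - (f (Fin.cons v' w) - g w) =
          f (Fin.cons v w) - f (Fin.cons v' w) := by ring
        rw [h2]
        exact h1
    rw [hsum, hg]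
    calc ∑ w : Fin n → α, ∑ a, Real.exp (s * (f (Fin.cons a w) - (∑ w', g w') / c ^ n))
        = ∑ w : Fin n → α, Real.exp (s * (g w - (∑ w', g w') / c ^ n)) *
            ∑ a, Real.exp (s * (f (Fin.cons a w) - g w)) := by
          apply Finset.sum_congr rfl
          intro w _
          rw [Finset.mul_sum]
          apply Finset.sum_congr rfl
          intro a _
          rw [← Real.exp_add]
          congr 1
          ring
      _ ≤ ∑ w : Fin n → α, Real.exp (s * (g w - (∑ w', g w') / c ^ n)) *
            (c * Real.exp (s ^ 2 * L ^ 2 / 2)) :=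
          Finset.sum_le_sum fun w _ => mul_le_mul_of_nonneg_left (hone w) (Real.exp_pos _).le
      _ = (∑ w : Fin n → α, Real.exp (s * (g w - (∑ w', g w') / c ^ n))) *
            (c * Real.exp (s ^ 2 * L ^ 2 / 2)) := by rw [Finset.sum_mul]
      _ ≤ (c ^ n * Real.exp (s ^ 2 * (n : ℝ) * L ^ 2 / 2)) *
            (c * Real.exp (s ^ 2 * L ^ 2 / 2)) := by
          apply mul_le_mul_of_nonneg_right (ih g hgd)
          exact mul_nonneg hc.le (Real.exp_pos _).le
      _ = c ^ (n + 1) * (Real.exp (s ^ 2 * (n : ℝ) * L ^ 2 / 2) * Real.exp (s ^ 2 * L ^ 2 / 2)) := by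
          ring
      _ = c ^ (n + 1) * Real.exp (s ^ 2 * ((n + 1 : ℕ) : ℝ) * L ^ 2 / 2) := by
          rw [← Real.exp_add]
          congr 2
          push_cast
          ring

lemma av_fin {α : Type} [Fintype α] (m : ℕ) (F : (Fin m → α) → ℝ) :
    av F = (∑ w, F w) / (Fintype.card α : ℝ) ^ m := by
  unfold av
  rw [Fintype.card_fun, Fintype.card_fin, Nat.cast_pow]

/-- one side -/
theorem mcd_side {α : Type} [Fintype α] [Nonempty α] (m : ℕ) (hm : 0 < m) (F : (Fin m → α) → ℝ) (L : ℝ) (hL : 0 < L)
    (h : ∀ w i v, |F (Function.update w i v) - F w| ≤ L) (t : ℝ) (ht : 0 ≤ t) :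
    ((univ.filter (fun w => t ≤ F w - av F)).card : ℝ) ≤
      Real.exp (-(t ^ 2) / (2 * m * L ^ 2)) * (Fintype.card α : ℝ) ^ m := by
  have hm0 : (0 : ℝ) < m := by exact_mod_cast hm
  set s := t / (m * L ^ 2) with hs
  have hL2 : 0 < L ^ 2 := by positivity
  have hs0 : 0 ≤ s := by rw [hs]; positivity
  have h1 := mcd_fin L hL s m F h
  have h2 : (((univ.filter (fun w => t ≤ F w - av F)).card : ℝ)) *
      Real.exp (s * t) ≤ ∑ w, Real.exp (s * (F w - av F)) := by
    calc (((univ.filter (fun w => t ≤ F w - av F)).card : ℝ)) * Real.exp (s * t)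
        = ∑ w ∈ univ.filter (fun w => t ≤ F w - av F), Real.exp (s * t) := by
          rw [Finset.sum_const, nsmul_eq_mul]
      _ ≤ ∑ w ∈ univ.filter (fun w => t ≤ F w - av F), Real.exp (s * (F w - av F)) := by
          apply Finset.sum_le_sum
          intro w hw
          have := (Finset.mem_filter.mp hw).2
          exact Real.exp_le_exp.mpr (mul_le_mul_of_nonneg_left this hs0)
      _ ≤ _ := Finset.sum_le_sum_of_subset_of_nonneg (Finset.filter_subset _ _)
            (fun w _ _ => (Real.exp_pos _).le)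
  simp only [av_fin] at h2 ⊢
  have h3 := h2.trans h1
  have h4 : Real.exp (s ^ 2 * m * L ^ 2 / 2) =
      Real.exp (-(t ^ 2) / (2 * m * L ^ 2)) * Real.exp (s * t) := by
    rw [← Real.exp_add]
    congr 1
    rw [hs]
    field_simp
    ring
  rw [h4, ← mul_assoc] at h3
  have h5 := le_of_mul_le_mul_right h3 (Real.exp_pos (s * t))
  rw [mul_comm]
  exact h5

/-- **McDiarmid.** -/
theorem mcd {α : Type} [Fintype α] [Nonempty α] (m : ℕ) (hm : 0 < m) (F : (Fin m → α) → ℝ) (L : ℝ) (hL : 0 < L)
    (h : ∀ w i v, |F (Function.update w i v) - F w| ≤ L) (t : ℝ) (ht : 0 ≤ t) :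
    ((univ.filter (fun w => t ≤ |F w - av F|)).card : ℝ) ≤
      2 * Real.exp (-(t ^ 2) / (2 * m * L ^ 2)) * (Fintype.card α : ℝ) ^ m := by
  classical
  have h1 := mcd_side m hm F L hL h t ht
  have h2 := mcd_side m hm (fun w => -F w) L hL (fun w i v => by
    rw [← abs_neg]
    have : -(-F (Function.update w i v) - -F w) = F (Function.update w i v) - F w := by ring
    rw [this]
    exact h w i v) t ht
  have h3 : univ.filter (fun w => t ≤ |F w - av F|) ⊆
      univ.filter (fun w => t ≤ F w - av F) ∪ univ.filter (fun w => t ≤ -F w - av (fun w => -F w)) := by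
    intro w hw
    rw [mem_filter] at hw
    rw [mem_union, mem_filter, mem_filter]
    have e : av (fun w => -F w) = -av F := by
      have := Q282.CL.av_mul (-1 : ℝ) F
      simpa using this
    rcases le_abs.1 hw.2 with h4 | h4
    · exact Or.inl ⟨mem_univ _, h4⟩
    · right
      refine ⟨mem_univ _, ?_⟩
      rw [e]
      linarith
  have h4 : ((univ.filter (fun w => t ≤ |F w - av F|)).card : ℝ) ≤
      (univ.filter (fun w => t ≤ F w - av F)).card + (univ.filter (fun w => t ≤ -F w - av (fun w => -F w))).card := by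
    exact_mod_cast (card_le_card h3).trans (card_union_le _ _)
  linarith

/-- complex valued functions -/
theorem mcdC {α : Type} [Fintype α] [Nonempty α] (m : ℕ) (hm : 0 < m) (F : (Fin m → α) → ℂ) (L : ℝ) (hL : 0 < L)
    (h : ∀ w i v, ‖F (Function.update w i v) - F w‖ ≤ L) (t : ℝ) (ht : 0 ≤ t) :
    ((univ.filter (fun w => 2 * t ≤ ‖F w - av F‖)).card : ℝ) ≤
      4 * Real.exp (-(t ^ 2) / (2 * m * L ^ 2)) * (Fintype.card α : ℝ) ^ m := by
  classical
  have h1 := mcd m hm (fun w => (F w).re) L hL (fun w i v => by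
    rw [← Complex.sub_re]
    exact (Complex.abs_re_le_norm _).trans (h w i v)) t ht
  have h2 := mcd m hm (fun w => (F w).im) L hL (fun w i v => by
    rw [← Complex.sub_im]
    exact (Complex.abs_im_le_norm _).trans (h w i v)) t ht
  have er : (av F).re = av (fun w => (F w).re) := by
    unfold av
    rw [← Complex.re_sum, show ((Fintype.card (Fin m → α) : ℕ) : ℂ) = (((Fintype.card (Fin m → α) : ℕ) : ℝ) : ℂ) by simp,
      Complex.div_ofReal_re]
  have ei : (av F).im = av (fun w => (F w).im) := by
    unfold av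
    rw [← Complex.im_sum, show ((Fintype.card (Fin m → α) : ℕ) : ℂ) = (((Fintype.card (Fin m → α) : ℕ) : ℝ) : ℂ) by simp,
      Complex.div_ofReal_im]
  have h3 : univ.filter (fun w => 2 * t ≤ ‖F w - av F‖) ⊆
      univ.filter (fun w => t ≤ |(F w).re - av (fun w => (F w).re)|) ∪
        univ.filter (fun w => t ≤ |(F w).im - av (fun w => (F w).im)|) := by
    intro w hw
    rw [mem_filter] at hw
    rw [mem_union, mem_filter, mem_filter]
    by_contra hcon
    rw [not_or, not_and, not_and] at hcon
    have a1 := hcon.1 (mem_univ _)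
    have a2 := hcon.2 (mem_univ _)
    rw [not_le, ← er, ← Complex.sub_re] at a1
    rw [not_le, ← ei, ← Complex.sub_im] at a2
    have := Complex.norm_le_abs_re_add_abs_im (F w - av F)
    linarith [hw.2]
  have h4 : ((univ.filter (fun w => 2 * t ≤ ‖F w - av F‖)).card : ℝ) ≤
      (univ.filter (fun w => t ≤ |(F w).re - av (fun w => (F w).re)|)).card +
        (univ.filter (fun w => t ≤ |(F w).im - av (fun w => (F w).im)|)).card := by
    exact_mod_cast (card_le_card h3).trans (card_union_le _ _)
  linarith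

end Pool.Agent.Run7.h524.MG
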