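import Mathlib
import Pool.Agent.H442R2.KF.Diag
import Pool.Agent.Run7.h524.MG.Mcd
import Pool.Agent.Run7.h524.MG.Arb

/-!
# Pairs of representations by two diagonal forms in four variables

This is a copy of parts of `Run7.h17.FourSq` and `Run7.h17.FourSq2` (helper17), without their other imports.
-/

set_option autoImplicit false
set_option maxHeartbeats 4000000

namespace Pool.Agent.Run7.h524.MG.Fsq


open Finset

/-- the integers up to `s` in absolute value -/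
noncomputable def W (s : ℕ) : Finset ℤ := Icc (-(s : ℤ)) s

/-- the number of the `(p, q)` with `p ^ 2 - q ^ 2 = m` -/
noncomputable def T (s : ℕ) (m : ℤ) : ℕ := ((W s ×ˢ W s).filter (fun v => v.1 ^ 2 - v.2 ^ 2 = m)).card

lemma T_bd (s : ℕ) (m : ℤ) (hm : m ≠ 0) : T s m ≤ 2 * m.natAbs.divisors.card := by
  classical
  unfold T
  have h1 : ((W s ×ˢ W s).filter (fun v => v.1 ^ 2 - v.2 ^ 2 = m)).card ≤
      ((m.natAbs.divisors.image (fun d : ℕ => (d : ℤ))) ∪ (m.natAbs.divisors.image (fun d : ℕ => -(d : ℤ)))).card := by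
    apply card_le_card_of_injOn (fun v => v.1 - v.2)
    · intro v hv
      have hv' := (mem_filter.mp (mem_coe.mp hv)).2
      have e1 : (v.1 - v.2) * (v.1 + v.2) = m := by rw [← hv']; ring
      have e2 : (v.1 - v.2).natAbs ∈ m.natAbs.divisors := by
        rw [Nat.mem_divisors]
        refine ⟨?_, by simpa using hm⟩
        rw [← e1, Int.natAbs_mul]
        exact dvd_mul_right _ _
      rw [mem_coe, mem_union, mem_image, mem_image]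
      rcases le_or_gt 0 (v.1 - v.2) with h | h
      · left
        exact ⟨_, e2, by simp only; omega⟩
      · right
        exact ⟨_, e2, by simp only; omega⟩
    · intro v hv w hw h
      have hv' := (mem_filter.mp (mem_coe.mp hv)).2
      have hw' := (mem_filter.mp (mem_coe.mp hw)).2
      simp only at h
      have e1 : (v.1 - v.2) * (v.1 + v.2) = m := by rw [← hv']; ring
      have e2 : (w.1 - w.2) * (w.1 + w.2) = m := by rw [← hw']; ring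
      have e3 : v.1 - v.2 ≠ 0 := by
        intro h0
        rw [h0, zero_mul] at e1
        exact hm e1.symm
      have e4 : v.1 + v.2 = w.1 + w.2 := by
        apply mul_left_cancel₀ e3
        rw [e1, h, e2]
      ext
      · omega
      · omega
  refine h1.trans ((card_union_le _ _).trans ?_)
  have h2 := card_image_le (s := m.natAbs.divisors) (f := fun d : ℕ => (d : ℤ))
  have h3 := card_image_le (s := m.natAbs.divisors) (f := fun d : ℕ => -(d : ℤ))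
  omega

lemma card_W (s : ℕ) : (W s).card = 2 * s + 1 := by
  unfold W
  rw [Int.card_Icc]
  omega

lemma T_zero (s : ℕ) : T s 0 ≤ 2 * (2 * s + 1) := by
  classical
  unfold T
  have h1 : (W s ×ˢ W s).filter (fun v => v.1 ^ 2 - v.2 ^ 2 = 0) ⊆
      (W s).image (fun q => (q, q)) ∪ (W s).image (fun q => (-q, q)) := by
    intro v hv
    rw [mem_filter, mem_product] at hv
    have e1 : v.1 ^ 2 = v.2 ^ 2 := by linarith [hv.2]
    rw [sq_eq_sq_iff_eq_or_eq_neg] at e1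
    rw [mem_union, mem_image, mem_image]
    rcases e1 with h | h
    · left
      exact ⟨v.2, hv.1.2, by ext <;> simp [h]⟩
    · right
      exact ⟨v.2, hv.1.2, by ext <;> simp [h]⟩
  refine (card_le_card h1).trans ((card_union_le _ _).trans ?_)
  have h2 := card_image_le (s := W s) (f := fun q : ℤ => (q, q))
  have h3 := card_image_le (s := W s) (f := fun q : ℤ => (-q, q))
  rw [card_W] at h2 h3
  omega

/-- the differences of two squares -/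
noncomputable def J (s : ℕ) : Finset ℤ := Icc (-((s ^ 2 : ℕ) : ℤ)) ((s ^ 2 : ℕ) : ℤ)

lemma W_sq (s : ℕ) (x : ℤ) (hx : x ∈ W s) : 0 ≤ x ^ 2 ∧ x ^ 2 ≤ ((s ^ 2 : ℕ) : ℤ) := by
  unfold W at hx
  rw [mem_Icc] at hx
  refine ⟨sq_nonneg _, ?_⟩
  push_cast
  exact sq_le_sq' hx.1 hx.2

lemma diff_mem (s : ℕ) (v : ℤ × ℤ) (hv : v ∈ W s ×ˢ W s) : v.1 ^ 2 - v.2 ^ 2 ∈ J s := by
  rw [mem_product] at hv
  have h1 := W_sq s v.1 hv.1
  have h2 := W_sq s v.2 hv.2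
  unfold J
  rw [mem_Icc]
  constructor <;> linarith [h1.1, h1.2, h2.1, h2.2]

lemma T_supp (s : ℕ) (m : ℤ) (hm : m ∉ J s) : T s m = 0 := by
  unfold T
  rw [card_eq_zero, filter_eq_empty_iff]
  intro v hv h
  exact hm (h ▸ diff_mem s v hv)

/-- the second moment -/
noncomputable def S2 (s : ℕ) : ℝ := ∑ m ∈ J s, (T s m : ℝ) ^ 2

lemma S2_bd (s : ℕ) : S2 s ≤ 4 * (2 * s + 1) ^ 2 + 8 * ((s ^ 2 : ℕ) * (1 + Real.log ((s ^ 2 : ℕ) : ℝ)) ^ 3) := by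
  classical
  unfold S2
  have h0 : (0 : ℤ) ∈ J s := by
    unfold J
    rw [mem_Icc]
    constructor
    · have : (0 : ℤ) ≤ ((s ^ 2 : ℕ) : ℤ) := Nat.cast_nonneg _
      omega
    · exact Nat.cast_nonneg _
  rw [← add_sum_erase _ _ h0]
  apply add_le_add
  · have h1 : (T s 0 : ℝ) ≤ 2 * (2 * s + 1) := by exact_mod_cast T_zero s
    calc (T s 0 : ℝ) ^ 2 ≤ (2 * (2 * s + 1)) ^ 2 := pow_le_pow_left₀ (Nat.cast_nonneg _) h1 _
      _ = _ := by ring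
  · have h2 : (J s).erase 0 ⊆ (Icc 1 (s ^ 2)).image (fun d : ℕ => (d : ℤ)) ∪ (Icc 1 (s ^ 2)).image (fun d : ℕ => -(d : ℤ)) := by
      intro m hm
      rw [mem_erase] at hm
      unfold J at hm
      rw [mem_Icc] at hm
      rw [mem_union, mem_image, mem_image]
      rcases lt_or_gt_of_ne hm.1 with h | h
      · right
        exact ⟨m.natAbs, by rw [mem_Icc]; omega, by omega⟩
      · left
        exact ⟨m.natAbs, by rw [mem_Icc]; omega, by omega⟩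
    have h3 : ∀ d ∈ Icc 1 (s ^ 2), (T s ((d : ℕ) : ℤ) : ℝ) ^ 2 ≤ 4 * (Pool.Agent.H442R2.KF.tau d) ^ 2 ∧
        (T s (-((d : ℕ) : ℤ)) : ℝ) ^ 2 ≤ 4 * (Pool.Agent.H442R2.KF.tau d) ^ 2 := by
      intro d hd
      rw [mem_Icc] at hd
      have e1 := T_bd s (d : ℤ) (by omega)
      have e2 := T_bd s (-(d : ℤ)) (by omega)
      rw [Int.natAbs_natCast] at e1
      rw [Int.natAbs_neg, Int.natAbs_natCast] at e2
      unfold Pool.Agent.H442R2.KF.tau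
      have e3 : (T s ((d : ℕ) : ℤ) : ℝ) ≤ 2 * (d.divisors.card : ℝ) := by exact_mod_cast e1
      have e4 : (T s (-((d : ℕ) : ℤ)) : ℝ) ≤ 2 * (d.divisors.card : ℝ) := by exact_mod_cast e2
      constructor
      · calc (T s ((d : ℕ) : ℤ) : ℝ) ^ 2 ≤ (2 * (d.divisors.card : ℝ)) ^ 2 := pow_le_pow_left₀ (Nat.cast_nonneg _) e3 _
          _ = _ := by ring
      · calc (T s (-((d : ℕ) : ℤ)) : ℝ) ^ 2 ≤ (2 * (d.divisors.card : ℝ)) ^ 2 := pow_le_pow_left₀ (Nat.cast_nonneg _) e4 _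
          _ = _ := by ring
    have h4 := Pool.Agent.H442R2.KF.TaskP.sum_tau_sq (s ^ 2)
    have h5 : Disjoint ((Icc 1 (s ^ 2)).image (fun d : ℕ => (d : ℤ))) ((Icc 1 (s ^ 2)).image (fun d : ℕ => -(d : ℤ))) := by
      rw [disjoint_left]
      intro m hm hm2
      rw [mem_image] at hm hm2
      obtain ⟨d, hd, hd2⟩ := hm
      obtain ⟨e, he, he2⟩ := hm2
      rw [mem_Icc] at hd he
      omega
    calc ∑ m ∈ (J s).erase 0, (T s m : ℝ) ^ 2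
        ≤ ∑ m ∈ (Icc 1 (s ^ 2)).image (fun d : ℕ => (d : ℤ)) ∪ (Icc 1 (s ^ 2)).image (fun d : ℕ => -(d : ℤ)), (T s m : ℝ) ^ 2 :=
          sum_le_sum_of_subset_of_nonneg h2 fun _ _ _ => sq_nonneg _
      _ = ∑ d ∈ Icc 1 (s ^ 2), (T s (d : ℤ) : ℝ) ^ 2 + ∑ d ∈ Icc 1 (s ^ 2), (T s (-(d : ℤ)) : ℝ) ^ 2 := by
          rw [sum_union h5, sum_image (fun a _ b _ h => by have h' : (a : ℤ) = b := h; omega),
            sum_image (fun a _ b _ h => by have h' : -(a : ℤ) = -b := h; omega)]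
      _ ≤ ∑ d ∈ Icc 1 (s ^ 2), 4 * (Pool.Agent.H442R2.KF.tau d) ^ 2 + ∑ d ∈ Icc 1 (s ^ 2), 4 * (Pool.Agent.H442R2.KF.tau d) ^ 2 :=
          add_le_add (sum_le_sum fun d hd => (h3 d hd).1) (sum_le_sum fun d hd => (h3 d hd).2)
      _ = 8 * ∑ d ∈ Icc 1 (s ^ 2), (Pool.Agent.H442R2.KF.tau d) ^ 2 := by
          rw [← mul_sum]
          ring
      _ ≤ _ := mul_le_mul_of_nonneg_left h4 (by norm_num)

lemma sum_diff (s : ℕ) (f : ℤ → ℝ) : ∑ v ∈ W s ×ˢ W s, f (v.1 ^ 2 - v.2 ^ 2) = ∑ m ∈ J s, (T s m : ℝ) * f m := by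
  classical
  rw [← sum_fiberwise_of_maps_to (s := W s ×ˢ W s) (t := J s) (g := fun v => v.1 ^ 2 - v.2 ^ 2) (fun v hv => diff_mem s v hv)]
  refine sum_congr rfl fun m _ => ?_
  unfold T
  rw [← nsmul_eq_mul, ← sum_const]
  refine sum_congr rfl fun v hv => ?_
  rw [(mem_filter.mp hv).2]

lemma count_diff (s : ℕ) (m : ℤ) : ∑ v ∈ W s ×ˢ W s, (if v.1 ^ 2 - v.2 ^ 2 = m then (1 : ℝ) else 0) = T s m := by
  unfold T
  rw [card_filter]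
  push_cast
  rfl

lemma am (a b : ℝ) : a * b ≤ (a ^ 2 + b ^ 2) / 2 := by nlinarith [sq_nonneg (a - b)]

/-- pairs of pairs of pairs -/
noncomputable def N8 (s : ℕ) : ℝ := ∑ z ∈ W s ×ˢ W s, ∑ w ∈ W s ×ˢ W s, ∑ x ∈ W s ×ˢ W s, ∑ y ∈ W s ×ˢ W s,
  if (x.1 ^ 2 - x.2 ^ 2) + (y.1 ^ 2 - y.2 ^ 2) + (z.1 ^ 2 - z.2 ^ 2) + (w.1 ^ 2 - w.2 ^ 2) = 0 ∧
    (x.1 ^ 2 - x.2 ^ 2) + 3 * (y.1 ^ 2 - y.2 ^ 2) + 5 * (z.1 ^ 2 - z.2 ^ 2) + 7 * (w.1 ^ 2 - w.2 ^ 2) = 0 then (1 : ℝ) else 0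

lemma N8_bd (s : ℕ) : N8 s ≤ S2 s ^ 2 := by
  classical
  have h1 : N8 s = ∑ c ∈ J s, ∑ e ∈ J s, ((T s c : ℝ) * T s e) * ((T s (c + 2 * e) : ℝ) * T s (-2 * c - 3 * e)) := by
    unfold N8
    have e1 : ∀ z w : ℤ × ℤ, (∑ x ∈ W s ×ˢ W s, ∑ y ∈ W s ×ˢ W s,
        if (x.1 ^ 2 - x.2 ^ 2) + (y.1 ^ 2 - y.2 ^ 2) + (z.1 ^ 2 - z.2 ^ 2) + (w.1 ^ 2 - w.2 ^ 2) = 0 ∧
          (x.1 ^ 2 - x.2 ^ 2) + 3 * (y.1 ^ 2 - y.2 ^ 2) + 5 * (z.1 ^ 2 - z.2 ^ 2) + 7 * (w.1 ^ 2 - w.2 ^ 2) = 0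
          then (1 : ℝ) else 0) =
        (T s ((z.1 ^ 2 - z.2 ^ 2) + 2 * (w.1 ^ 2 - w.2 ^ 2)) : ℝ) * T s (-2 * (z.1 ^ 2 - z.2 ^ 2) - 3 * (w.1 ^ 2 - w.2 ^ 2)) := by
      intro z w
      rw [← count_diff, ← count_diff, sum_mul_sum]
      refine sum_congr rfl fun x _ => sum_congr rfl fun y _ => ?_
      by_cases hx : x.1 ^ 2 - x.2 ^ 2 = (z.1 ^ 2 - z.2 ^ 2) + 2 * (w.1 ^ 2 - w.2 ^ 2)
      · by_cases hy : y.1 ^ 2 - y.2 ^ 2 = -2 * (z.1 ^ 2 - z.2 ^ 2) - 3 * (w.1 ^ 2 - w.2 ^ 2)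
        · rw [if_pos hx, if_pos hy, if_pos ⟨by linarith, by linarith⟩]
          norm_num
        · rw [if_neg hy, mul_zero, if_neg]
          rintro ⟨h1, h2⟩
          apply hy
          linarith
      · rw [if_neg hx, zero_mul, if_neg]
        rintro ⟨h1, h2⟩
        apply hx
        linarith
    rw [sum_congr rfl fun z _ => sum_congr rfl fun w _ => e1 z w]
    rw [sum_congr rfl fun z _ => sum_diff s (fun e => (T s ((z.1 ^ 2 - z.2 ^ 2) + 2 * e) : ℝ) * T s (-2 * (z.1 ^ 2 - z.2 ^ 2) - 3 * e))]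
    rw [sum_diff s (fun c => ∑ e ∈ J s, (T s e : ℝ) * ((T s (c + 2 * e) : ℝ) * T s (-2 * c - 3 * e)))]
    refine sum_congr rfl fun c _ => ?_
    rw [mul_sum]
    refine sum_congr rfl fun e _ => ?_
    ring
  rw [h1]
  have h2 : ∑ c ∈ J s, ∑ e ∈ J s, ((T s c : ℝ) * T s e) ^ 2 = S2 s ^ 2 := by
    unfold S2
    rw [sq, sum_mul_sum]
    refine sum_congr rfl fun c _ => sum_congr rfl fun e _ => ?_
    ring
  have h3 : ∑ c ∈ J s, ∑ e ∈ J s, ((T s (c + 2 * e) : ℝ) * T s (-2 * c - 3 * e)) ^ 2 ≤ S2 s ^ 2 := by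
    rw [← h2, ← sum_product', ← sum_product']
    have e1 : ∑ p ∈ J s ×ˢ J s, ((T s (p.1 + 2 * p.2) : ℝ) * T s (-2 * p.1 - 3 * p.2)) ^ 2 =
        ∑ p ∈ (J s ×ˢ J s).filter (fun p => (p.1 + 2 * p.2, -2 * p.1 - 3 * p.2) ∈ J s ×ˢ J s),
          ((T s (p.1 + 2 * p.2) : ℝ) * T s (-2 * p.1 - 3 * p.2)) ^ 2 := by
      rw [sum_filter]
      refine sum_congr rfl fun p _ => ?_
      by_cases hp : (p.1 + 2 * p.2, -2 * p.1 - 3 * p.2) ∈ J s ×ˢ J s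
      · rw [if_pos hp]
      · rw [if_neg hp]
        rw [mem_product, not_and_or] at hp
        rcases hp with h | h
        · rw [T_supp s _ h]; simp
        · rw [T_supp s _ h]; simp
    rw [e1]
    rw [← sum_image (s := (J s ×ˢ J s).filter (fun p => (p.1 + 2 * p.2, -2 * p.1 - 3 * p.2) ∈ J s ×ˢ J s))
      (g := fun p : ℤ × ℤ => (p.1 + 2 * p.2, -2 * p.1 - 3 * p.2)) (f := fun q : ℤ × ℤ => ((T s q.1 : ℝ) * T s q.2) ^ 2)
      (by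
        intro a _ b _ h
        simp only [Prod.mk.injEq] at h
        ext <;> omega)]
    refine sum_le_sum_of_subset_of_nonneg ?_ fun _ _ _ => sq_nonneg _
    intro q hq
    rw [mem_image] at hq
    obtain ⟨p, hp, rfl⟩ := hq
    exact (mem_filter.mp hp).2
  have h4 : ∀ c e : ℤ, ((T s c : ℝ) * T s e) * ((T s (c + 2 * e) : ℝ) * T s (-2 * c - 3 * e)) ≤
      (((T s c : ℝ) * T s e) ^ 2 + ((T s (c + 2 * e) : ℝ) * T s (-2 * c - 3 * e)) ^ 2) / 2 := by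
    intro c e
    exact am _ _
  calc ∑ c ∈ J s, ∑ e ∈ J s, ((T s c : ℝ) * T s e) * ((T s (c + 2 * e) : ℝ) * T s (-2 * c - 3 * e))
      ≤ ∑ c ∈ J s, ∑ e ∈ J s, (((T s c : ℝ) * T s e) ^ 2 + ((T s (c + 2 * e) : ℝ) * T s (-2 * c - 3 * e)) ^ 2) / 2 :=
        sum_le_sum fun c _ => sum_le_sum fun e _ => h4 c e
    _ = (∑ c ∈ J s, ∑ e ∈ J s, ((T s c : ℝ) * T s e) ^ 2 +
          ∑ c ∈ J s, ∑ e ∈ J s, ((T s (c + 2 * e) : ℝ) * T s (-2 * c - 3 * e)) ^ 2) / 2 := by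
        rw [← sum_add_distrib, sum_div]
        refine sum_congr rfl fun c _ => ?_
        rw [← sum_add_distrib, sum_div]
    _ ≤ S2 s ^ 2 := by rw [h2]; linarith

/-- the quadruples of integers of absolute value at most `n` with the sum `n` of the squares -/
noncomputable def reps (n : ℕ) : Finset (ℤ × ℤ × ℤ × ℤ) :=
  (W n ×ˢ W n ×ˢ W n ×ˢ W n).filter (fun v => v.1 ^ 2 + v.2.1 ^ 2 + v.2.2.1 ^ 2 + v.2.2.2 ^ 2 = n)

/-- the second form -/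
noncomputable def form (v : ℤ × ℤ × ℤ × ℤ) : ℤ := v.1 ^ 2 + 3 * v.2.1 ^ 2 + 5 * v.2.2.1 ^ 2 + 7 * v.2.2.2 ^ 2

/-- the number of the representations with a given value of the second form -/
noncomputable def rho (n : ℕ) (t : ℤ) : ℕ := ((reps n).filter (fun v => form v = t)).card

lemma mem_W_of_sq (s : ℕ) (x : ℤ) (R : ℕ) (hs : s = Nat.sqrt R) (hx : x ^ 2 ≤ R) : x ∈ W s := by
  unfold W
  have h1 : x.natAbs ≤ s := by
    rw [hs, Nat.le_sqrt']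
    have : ((x.natAbs ^ 2 : ℕ) : ℤ) ≤ R := by
      push_cast
      rw [sq_abs]
      exact hx
    exact_mod_cast this
  rw [mem_Icc]
  omega

lemma rho_moment (R x : ℕ) : ∑ n ∈ Icc 1 R, ∑ t ∈ Icc 1 x, (rho n (t : ℤ) : ℝ) ^ 2 ≤ N8 (Nat.sqrt R) := by
  classical
  obtain ⟨s, hs⟩ : ∃ s, s = Nat.sqrt R := ⟨_, rfl⟩
  rw [← hs]
  -- the pairs
  obtain ⟨Q, hQ⟩ : ∃ Q : Finset ((ℤ × ℤ × ℤ × ℤ) × (ℤ × ℤ × ℤ × ℤ)), Q =
      ((W s ×ˢ W s ×ˢ W s ×ˢ W s) ×ˢ (W s ×ˢ W s ×ˢ W s ×ˢ W s)).filter (fun p =>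
        p.1.1 ^ 2 + p.1.2.1 ^ 2 + p.1.2.2.1 ^ 2 + p.1.2.2.2 ^ 2 = p.2.1 ^ 2 + p.2.2.1 ^ 2 + p.2.2.2.1 ^ 2 + p.2.2.2.2 ^ 2 ∧
        form p.1 = form p.2) := ⟨_, rfl⟩
  have h1 : ∀ n ∈ Icc 1 R, ∀ t ∈ Icc 1 x, (rho n (t : ℤ) : ℝ) ^ 2 ≤
      ((Q.filter (fun p => ((p.1.1 ^ 2 + p.1.2.1 ^ 2 + p.1.2.2.1 ^ 2 + p.1.2.2.2 ^ 2).toNat, (form p.1).toNat) = (n, t))).card : ℝ) := by
    intro n hn t ht
    rw [mem_Icc] at hn ht
    unfold rho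
    rw [sq]
    rw [← Nat.cast_mul, ← card_product]
    apply Nat.cast_le.mpr
    apply card_le_card
    intro p hp
    rw [mem_product, mem_filter, mem_filter] at hp
    obtain ⟨⟨hp1, hp2⟩, hp3, hp4⟩ := hp
    unfold reps at hp1 hp3
    rw [mem_filter] at hp1 hp3
    have hsub : ∀ v : ℤ × ℤ × ℤ × ℤ, v.1 ^ 2 + v.2.1 ^ 2 + v.2.2.1 ^ 2 + v.2.2.2 ^ 2 = n →
        v ∈ W s ×ˢ W s ×ˢ W s ×ˢ W s := by
      intro v hv
      have hnR : (n : ℤ) ≤ R := by exact_mod_cast hn.2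
      have q1 := sq_nonneg v.1
      have q2 := sq_nonneg v.2.1
      have q3 := sq_nonneg v.2.2.1
      have q4 := sq_nonneg v.2.2.2
      rw [mem_product, mem_product, mem_product]
      exact ⟨mem_W_of_sq s _ R hs (by linarith), mem_W_of_sq s _ R hs (by linarith), mem_W_of_sq s _ R hs (by linarith),
        mem_W_of_sq s _ R hs (by linarith)⟩
    rw [mem_filter, hQ, mem_filter, mem_product]
    refine ⟨⟨⟨hsub _ hp1.2, hsub _ hp3.2⟩, by rw [hp1.2, hp3.2], by rw [hp2, hp4]⟩, ?_⟩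
    rw [hp1.2, hp2]
    simp
  obtain ⟨φ, hφ⟩ : ∃ φ : (ℤ × ℤ × ℤ × ℤ) × (ℤ × ℤ × ℤ × ℤ) → ℕ × ℕ, φ = fun p =>
      ((p.1.1 ^ 2 + p.1.2.1 ^ 2 + p.1.2.2.1 ^ 2 + p.1.2.2.2 ^ 2).toNat, (form p.1).toNat) := ⟨_, rfl⟩
  have h1' : ∀ n ∈ Icc 1 R, ∀ t ∈ Icc 1 x, (rho n (t : ℤ) : ℝ) ^ 2 ≤ ((Q.filter (fun p => φ p = (n, t))).card : ℝ) := by
    intro n hn t ht
    rw [hφ]
    exact h1 n hn t ht
  have h2a : ∑ b ∈ Icc 1 R ×ˢ Icc 1 x, (Q.filter (fun p => φ p = b)).card ≤ Q.card := by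
    rw [sum_card_fiberwise_eq_card_filter]
    exact card_le_card (filter_subset _ _)
  have h2b : ∑ n ∈ Icc 1 R, ∑ t ∈ Icc 1 x, ((Q.filter (fun p => φ p = (n, t))).card : ℝ) =
      ((∑ b ∈ Icc 1 R ×ˢ Icc 1 x, (Q.filter (fun p => φ p = b)).card : ℕ) : ℝ) := by
    rw [sum_product, Nat.cast_sum]
    refine sum_congr rfl fun n _ => ?_
    rw [Nat.cast_sum]
  have h2 : ∑ n ∈ Icc 1 R, ∑ t ∈ Icc 1 x, (rho n (t : ℤ) : ℝ) ^ 2 ≤ (Q.card : ℝ) := by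
    have e1 : ∑ n ∈ Icc 1 R, ∑ t ∈ Icc 1 x, (rho n (t : ℤ) : ℝ) ^ 2 ≤
        ∑ n ∈ Icc 1 R, ∑ t ∈ Icc 1 x, ((Q.filter (fun p => φ p = (n, t))).card : ℝ) :=
      sum_le_sum fun n hn => sum_le_sum fun t ht => h1' n hn t ht
    rw [h2b] at e1
    exact e1.trans (Nat.cast_le.mpr h2a)
  refine h2.trans ?_
  have h3 : (Q.card : ℝ) ≤ (((((W s ×ˢ W s) ×ˢ (W s ×ˢ W s)) ×ˢ ((W s ×ˢ W s) ×ˢ (W s ×ˢ W s))).filter
      (fun p : ((ℤ × ℤ) × (ℤ × ℤ)) × ((ℤ × ℤ) × (ℤ × ℤ)) =>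
      (p.2.1.1 ^ 2 - p.2.1.2 ^ 2) + (p.2.2.1 ^ 2 - p.2.2.2 ^ 2) + (p.1.1.1 ^ 2 - p.1.1.2 ^ 2) + (p.1.2.1 ^ 2 - p.1.2.2 ^ 2) = 0 ∧
      (p.2.1.1 ^ 2 - p.2.1.2 ^ 2) + 3 * (p.2.2.1 ^ 2 - p.2.2.2 ^ 2) + 5 * (p.1.1.1 ^ 2 - p.1.1.2 ^ 2) +
        7 * (p.1.2.1 ^ 2 - p.1.2.2 ^ 2) = 0)).card : ℝ) := by
    apply Nat.cast_le.mpr
    apply card_le_card_of_injOn (fun p => (((p.1.2.2.1, p.2.2.2.1), (p.1.2.2.2, p.2.2.2.2)), ((p.1.1, p.2.1), (p.1.2.1, p.2.2.1))))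
    · intro p hp
      rw [mem_coe, hQ, mem_filter] at hp
      obtain ⟨hp1, hp2, hp3⟩ := hp
      simp only [mem_product] at hp1
      obtain ⟨⟨a1, a2, a3, a4⟩, b1, b2, b3, b4⟩ := hp1
      unfold form at hp3
      rw [mem_coe, mem_filter]
      simp only [mem_product]
      refine ⟨⟨⟨⟨a3, b3⟩, a4, b4⟩, ⟨a1, b1⟩, a2, b2⟩, ?_, ?_⟩
      · linarith
      · linarith
    · intro p _ q _ h
      simp only [Prod.mk.injEq] at h
      obtain ⟨⟨⟨h1, h2⟩, h3, h4⟩, ⟨h5, h6⟩, h7, h8⟩ := h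
      ext
      · exact h5
      · exact h7
      · exact h1
      · exact h3
      · exact h6
      · exact h8
      · exact h2
      · exact h4
  refine h3.trans (le_of_eq ?_)
  rw [card_filter]
  push_cast
  rw [sum_product, sum_product]
  unfold N8
  refine sum_congr rfl fun z _ => sum_congr rfl fun w _ => ?_
  rw [sum_product]

open Pool.Agent.H373R2.T7 (ev_L')

lemma S2_small : ∃ x0 : ℕ, ∀ x : ℕ, x0 ≤ x → N8 (Nat.sqrt (x / 7)) ≤ (x : ℝ) ^ 2 * Real.log x ^ 8 := by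
  obtain ⟨n2, h2⟩ := ev_L' 100
  refine ⟨n2 + 49, fun x hx => ?_⟩
  have hL := h2 x (by omega)
  have hL0 : 0 < Real.log x := by linarith
  have hL1 : 1 ≤ Real.log x := by linarith
  have hx0 : (0 : ℝ) < x := by exact_mod_cast (by omega : 0 < x)
  obtain ⟨s, hs⟩ : ∃ s, s = Nat.sqrt (x / 7) := ⟨_, rfl⟩
  rw [← hs]
  have hs1 : s ^ 2 ≤ x / 7 := by rw [hs]; exact Nat.sqrt_le' _
  have hs2 : s ^ 2 ≤ x := hs1.trans (Nat.div_le_self _ _)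
  have hs3 : 1 ≤ s := by
    rw [hs, Nat.le_sqrt']
    omega
  have hsr : ((s ^ 2 : ℕ) : ℝ) ≤ x := by exact_mod_cast hs2
  have hs3r : (1 : ℝ) ≤ s := by exact_mod_cast hs3
  have hs4 : (1 : ℝ) ≤ ((s ^ 2 : ℕ) : ℝ) := by exact_mod_cast Nat.one_le_pow 2 s hs3
  have hlog : Real.log ((s ^ 2 : ℕ) : ℝ) ≤ Real.log x := Real.log_le_log (by linarith) hsr
  have hlog0 : 0 ≤ Real.log ((s ^ 2 : ℕ) : ℝ) := Real.log_nonneg hs4
  have e1 := S2_bd s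
  have e2 : S2 s ≤ x * Real.log x ^ 4 := by
    refine e1.trans ?_
    have f1 : (2 * (s : ℝ) + 1) ^ 2 ≤ 9 * x := by
      have : ((s ^ 2 : ℕ) : ℝ) = (s : ℝ) ^ 2 := by push_cast; ring
      rw [this] at hsr
      nlinarith
    have f2 : (1 + Real.log ((s ^ 2 : ℕ) : ℝ)) ^ 3 ≤ 8 * Real.log x ^ 3 := by
      calc (1 + Real.log ((s ^ 2 : ℕ) : ℝ)) ^ 3 ≤ (2 * Real.log x) ^ 3 :=
            pow_le_pow_left₀ (by linarith) (by linarith) _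
        _ = _ := by ring
    have f3 : ((s ^ 2 : ℕ) : ℝ) * (1 + Real.log ((s ^ 2 : ℕ) : ℝ)) ^ 3 ≤ x * (8 * Real.log x ^ 3) :=
      mul_le_mul hsr f2 (by positivity) hx0.le
    have f4 : 1 ≤ Real.log x ^ 3 := one_le_pow₀ hL1
    calc 4 * (2 * (s : ℝ) + 1) ^ 2 + 8 * (((s ^ 2 : ℕ) : ℝ) * (1 + Real.log ((s ^ 2 : ℕ) : ℝ)) ^ 3)
        ≤ 4 * (9 * x) + 8 * (x * (8 * Real.log x ^ 3)) := by linarith
      _ = x * (36 + 64 * Real.log x ^ 3) := by ring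
      _ ≤ x * (Real.log x * Real.log x ^ 3) := by
          apply mul_le_mul_of_nonneg_left _ hx0.le
          nlinarith
      _ = _ := by ring
  have e3 : 0 ≤ S2 s := sum_nonneg fun _ _ => sq_nonneg _
  calc N8 s ≤ S2 s ^ 2 := N8_bd s
    _ ≤ (x * Real.log x ^ 4) ^ 2 := pow_le_pow_left₀ e3 e2 _
    _ = _ := by ring

lemma form_mem (x n : ℕ) (hn : n ∈ Icc 1 (x / 7)) (v : ℤ × ℤ × ℤ × ℤ) (hv : v ∈ reps n) :
    (form v).toNat ∈ Icc 1 x ∧ ((form v).toNat : ℤ) = form v := by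
  unfold reps at hv
  have h := (mem_filter.mp hv).2
  rw [mem_Icc] at hn
  have q1 := sq_nonneg v.1
  have q2 := sq_nonneg v.2.1
  have q3 := sq_nonneg v.2.2.1
  have q4 := sq_nonneg v.2.2.2
  have h1 : (n : ℤ) ≤ form v := by
    unfold form
    linarith
  have h2 : form v ≤ 7 * n := by
    unfold form
    linarith
  rw [mem_Icc]
  omega

end Pool.Agent.Run7.h524.MG.Fsq
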