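import Pool.Agent.Run7.h524.MG.App
import Pool.Agent.Run7.h524.MG.Fsq

/-!
# Values of a quadratic form at the representations by four squares
-/

set_option autoImplicit false

namespace Pool.Agent.Run7.h524.MG

open Finset Filter Polynomial
open Pool.Agent.N384.MQ (ev_log_pow ev_log_ge)
open Pool.Agent.Run7.h524.MG.Fsq (reps form rho N8 rho_moment S2_small form_mem)

/-- the values of the second form -/
noncomputable def fvals (R : Finset (ℤ × ℤ × ℤ × ℤ)) : Finset ℕ := R.image fun v => (form v).toNat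

lemma fvals_card (n X : ℕ) (hn : n ∈ Icc 1 X) (R : Finset (ℤ × ℤ × ℤ × ℤ)) (hR : R ⊆ reps n) :
    (R.card : ℝ) ^ 2 ≤ (fvals R).card * ∑ t ∈ Icc 1 (7 * X), (rho n (t : ℤ) : ℝ) ^ 2 := by
  classical
  have hn' : n ∈ Icc 1 (7 * X / 7) := by
    rw [Nat.mul_div_cancel_left X (by norm_num)]
    exact hn
  have h1 : R.card = ∑ t ∈ fvals R, (R.filter fun v => (form v).toNat = t).card :=
    card_eq_sum_card_fiberwise fun v hv => mem_image_of_mem _ hv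
  have h2 : ∀ t ∈ fvals R, ((R.filter fun v => (form v).toNat = t).card : ℝ) ≤ rho n (t : ℤ) := by
    intro t _
    unfold rho
    apply Nat.cast_le.2
    apply card_le_card
    intro v hv
    rw [mem_filter] at hv ⊢
    refine ⟨hR hv.1, ?_⟩
    rw [← hv.2]
    exact (form_mem (7 * X) n hn' v (hR hv.1)).2.symm
  have h3 : (R.card : ℝ) ≤ ∑ t ∈ fvals R, (rho n (t : ℤ) : ℝ) := by
    rw [h1]
    push_cast
    exact sum_le_sum h2
  have h4 : fvals R ⊆ Icc 1 (7 * X) := by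
    intro t ht
    unfold fvals at ht
    rw [mem_image] at ht
    obtain ⟨v, hv, rfl⟩ := ht
    exact (form_mem (7 * X) n hn' v (hR hv)).1
  calc (R.card : ℝ) ^ 2 ≤ (∑ t ∈ fvals R, (rho n (t : ℤ) : ℝ)) ^ 2 := pow_le_pow_left₀ (Nat.cast_nonneg _) h3 2
    _ ≤ (fvals R).card * ∑ t ∈ fvals R, (rho n (t : ℤ) : ℝ) ^ 2 := sq_sum_le_card_mul_sum_sq
    _ ≤ (fvals R).card * ∑ t ∈ Icc 1 (7 * X), (rho n (t : ℤ) : ℝ) ^ 2 := by
        apply mul_le_mul_of_nonneg_left _ (Nat.cast_nonneg _)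
        exact sum_le_sum_of_subset_of_nonneg h4 fun _ _ _ => sq_nonneg _

open Classical in
theorem app_four (T U B : ℕ) (hB : 1 ≤ B) (Λ : ℝ) (hΛ : 0 < Λ) (ε : ℝ) (hε : 0 < ε) :
    ∃ (C B₀ M₀ : ℕ) (δ : ℝ), 0 < δ ∧ ∀ E : ℕ, ∃ N₀ : ℕ, ∀ N : ℕ, N₀ ≤ N → ∀ X : ℕ,
    (N : ℝ) ^ (1 / 3 : ℝ) * Real.log N ^ C ≤ X → X * Real.log N ^ C ≤ N →
    ∃ D : Finset ℕ, D ⊆ Icc 1 X ∧ D.card * Real.log N ^ U ≤ X ∧ ∀ n ∈ Icc 1 X, n ∉ D →
    ∀ R : Finset (ℤ × ℤ × ℤ × ℤ), R ⊆ reps n → (X : ℝ) ≤ Real.log N ^ T * R.card → ∀ z : ℕ,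
    Real.log N ^ B₀ ≤ z → (z : ℝ) ≤ Real.log N ^ E →
    ∀ J : Finset (Fin 2 → ℕ), J ⊆ Fintype.piFinset (fun _ : Fin 2 => Icc 1 N) → N ^ 2 ≤ B * J.card →
    ∀ m : ℕ, M₀ ≤ m → (m : ℝ) ≤ Λ * Real.log N ^ 2 →
    ((univ.filter fun k : Fin m → {s // s ∈ fvals R} => ¬ ∀ j : ℕ,
      |((J.filter fun a => (univ.filter fun l => ∀ i, ((k l : ℕ) + a i).Prime).card = j).card : ℝ) -
        ∑ a ∈ J, pw (m * (sv (fun (_ : Fin 2) (s : ℕ) => s) (fvals R) z a / ∏ i, Real.log (a i))) j| ≤ ε * J.card).card : ℝ) ≤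
      Real.exp (-(δ * Real.log N ^ 2)) * ((fvals R).card : ℝ) ^ m := by
  obtain ⟨C, B₀, M₀, δ, hδ, h⟩ := pois_val 2 1 (2 * T + U + 10) (by norm_num) (by norm_num) B hB Λ hΛ ε hε
  obtain ⟨x₀, hS2⟩ := S2_small
  refine ⟨C + 1, B₀, M₀, δ, hδ, fun E => ?_⟩
  obtain ⟨N₁, h⟩ := h E
  obtain ⟨N₂, hN₂⟩ := eventually_atTop.1 ((ev_log_ge (49 + x₀)).and (eventually_ge_atTop 3))
  refine ⟨N₁ + N₂, fun N hN Y hY1 hY2 => ?_⟩
  obtain ⟨hbig, hN3⟩ := hN₂ N (by omega)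
  have hdeg : (X : ℤ[X]).natDegree = 1 := natDegree_X
  obtain ⟨L, hL⟩ : ∃ L, L = Real.log (N : ℝ) := ⟨_, rfl⟩
  have hx₀ : (0 : ℝ) ≤ x₀ := Nat.cast_nonneg _
  have hN0 : (0 : ℝ) < N := by exact_mod_cast (by omega : 0 < N)
  have hN1 : (1 : ℝ) ≤ N := by exact_mod_cast (by omega : 1 ≤ N)
  have hN6 : (1 : ℝ) ≤ (N : ℝ) ^ (1 / 3 : ℝ) := Real.one_le_rpow hN1 (by norm_num)
  have hL49 : 49 ≤ L := by rw [hL]; linarith
  have hL1 : 1 ≤ L := by linarith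
  have hL0 : 0 < L := by linarith
  have hLx : (x₀ : ℝ) ≤ L := by rw [hL]; linarith
  rw [← hL] at hY1 hY2 ⊢
  have hYL : L ^ (C + 1) ≤ Y := le_trans (le_mul_of_one_le_left (by positivity) hN6) hY1
  have hYL1 : L ≤ Y := by
    refine le_trans ?_ hYL
    calc L = L ^ 1 := (pow_one L).symm
      _ ≤ L ^ (C + 1) := pow_le_pow_right₀ hL1 (by omega)
  have hY0 : (0 : ℝ) < Y := by linarith
  have h7Y : 7 * (Y : ℝ) * L ^ C ≤ N := by
    refine le_trans ?_ hY2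
    calc 7 * (Y : ℝ) * L ^ C ≤ L * Y * L ^ C := by gcongr; linarith
      _ = Y * L ^ (C + 1) := by ring
  have h7YN : 7 * (Y : ℝ) ≤ N := le_trans (le_mul_of_one_le_right (by positivity) (one_le_pow₀ hL1)) h7Y
  have hlog7 : Real.log ((7 * Y : ℕ) : ℝ) ≤ L := by
    rw [hL]
    apply Real.log_le_log (by push_cast; positivity)
    push_cast
    exact h7YN
  have hlog70 : 0 ≤ Real.log ((7 * Y : ℕ) : ℝ) := Real.log_nonneg (by push_cast; linarith)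
  have hmom : ∑ n ∈ Icc 1 Y, ∑ t ∈ Icc 1 (7 * Y), (rho n (t : ℤ) : ℝ) ^ 2 ≤ (Y : ℝ) ^ 2 * L ^ 9 := by
    have h1 := hS2 (7 * Y) (by
      have : (x₀ : ℝ) ≤ ((7 * Y : ℕ) : ℝ) := by push_cast; linarith
      exact_mod_cast this)
    rw [Nat.mul_div_cancel_left Y (by norm_num)] at h1
    refine (rho_moment Y (7 * Y)).trans (h1.trans ?_)
    calc ((7 * Y : ℕ) : ℝ) ^ 2 * Real.log ((7 * Y : ℕ) : ℝ) ^ 8 ≤ ((7 * Y : ℕ) : ℝ) ^ 2 * L ^ 8 := by gcongr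
      _ = 49 * ((Y : ℝ) ^ 2 * L ^ 8) := by push_cast; ring
      _ ≤ L * ((Y : ℝ) ^ 2 * L ^ 8) := mul_le_mul_of_nonneg_right hL49 (by positivity)
      _ = (Y : ℝ) ^ 2 * L ^ 9 := by ring
  obtain ⟨D, hD⟩ : ∃ D : Finset ℕ, D = (Icc 1 Y).filter fun n => (Y : ℝ) * L ^ (U + 9) < ∑ t ∈ Icc 1 (7 * Y), (rho n (t : ℤ) : ℝ) ^ 2 :=
    ⟨_, rfl⟩
  refine ⟨D, by rw [hD]; exact filter_subset _ _, ?_, fun n hn hnD R hR hRX z hz1 hz2 J hJ hJB m hm1 hm2 => ?_⟩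
  · have h1 : (D.card : ℝ) * ((Y : ℝ) * L ^ (U + 9)) ≤ (Y : ℝ) ^ 2 * L ^ 9 := by
      calc (D.card : ℝ) * ((Y : ℝ) * L ^ (U + 9)) = ∑ n ∈ D, (Y : ℝ) * L ^ (U + 9) := by rw [sum_const, nsmul_eq_mul]
        _ ≤ ∑ n ∈ D, ∑ t ∈ Icc 1 (7 * Y), (rho n (t : ℤ) : ℝ) ^ 2 := by
            apply sum_le_sum
            intro n hn
            rw [hD, mem_filter] at hn
            exact hn.2.le
        _ ≤ ∑ n ∈ Icc 1 Y, ∑ t ∈ Icc 1 (7 * Y), (rho n (t : ℤ) : ℝ) ^ 2 := by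
            apply sum_le_sum_of_subset_of_nonneg
            · rw [hD]
              exact filter_subset _ _
            · intro n _ _
              exact sum_nonneg fun _ _ => sq_nonneg _
        _ ≤ (Y : ℝ) ^ 2 * L ^ 9 := hmom
    have h2 : (D.card * L ^ U) * (Y * L ^ 9) ≤ (Y : ℝ) * (Y * L ^ 9) := by
      calc (D.card * L ^ U) * (Y * L ^ 9) = (D.card : ℝ) * ((Y : ℝ) * L ^ (U + 9)) := by rw [pow_add]; ring
        _ ≤ (Y : ℝ) ^ 2 * L ^ 9 := h1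
        _ = (Y : ℝ) * (Y * L ^ 9) := by ring
    exact le_of_mul_le_mul_right h2 (by positivity)
  · have hsmall : ∑ t ∈ Icc 1 (7 * Y), (rho n (t : ℤ) : ℝ) ^ 2 ≤ (Y : ℝ) * L ^ (U + 9) := by
      by_contra hc
      rw [not_le] at hc
      exact hnD (by rw [hD, mem_filter]; exact ⟨hn, hc⟩)
    have hc := fvals_card n Y hn R hR
    have hR2 : (Y : ℝ) ^ 2 ≤ L ^ (2 * T) * (R.card : ℝ) ^ 2 := by
      calc (Y : ℝ) ^ 2 ≤ (L ^ T * R.card) ^ 2 := pow_le_pow_left₀ hY0.le hRX 2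
        _ = L ^ (2 * T) * (R.card : ℝ) ^ 2 := by rw [mul_pow, ← pow_mul, mul_comm T 2]
    have hden : (Y : ℝ) ≤ L ^ (2 * T + U + 9) * (fvals R).card := by
      have h1 : (Y : ℝ) * Y ≤ (L ^ (2 * T + U + 9) * (fvals R).card) * Y := by
        calc (Y : ℝ) * Y = (Y : ℝ) ^ 2 := by ring
          _ ≤ L ^ (2 * T) * (R.card : ℝ) ^ 2 := hR2
          _ ≤ L ^ (2 * T) * ((fvals R).card * (Y * L ^ (U + 9))) := by
              apply mul_le_mul_of_nonneg_left _ (by positivity)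
              exact hc.trans (mul_le_mul_of_nonneg_left hsmall (Nat.cast_nonneg _))
          _ = (L ^ (2 * T + U + 9) * (fvals R).card) * Y := by ring
      exact le_of_mul_le_mul_right h1 hY0
    have hn' : n ∈ Icc 1 (7 * Y / 7) := by
      rw [Nat.mul_div_cancel_left Y (by norm_num)]
      exact hn
    have hmem : ∀ s ∈ fvals R, s ∈ Icc 1 (7 * Y) := by
      intro t ht
      unfold fvals at ht
      rw [mem_image] at ht
      obtain ⟨v, hv, rfl⟩ := ht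
      exact (form_mem (7 * Y) n hn' v (hR hv)).1
    have h1 := h N (by omega)
    rw [← hL] at h1
    refine h1 z hz1 hz2 (fun _ => X) (fun i => ⟨by rw [hdeg], by rw [hdeg], fun j => by
        rw [coeff_X]
        split_ifs
        · rw [Int.cast_one, abs_one]
          exact one_le_pow₀ hL1
        · rw [Int.cast_zero, abs_zero]
          positivity⟩) (fun _ => 7 * Y) (fun i => ?_) (fvals R) (fun _ s => s) (fun _ s => s)
        (fun i => fun a _ b _ hab => hab) (fun i s hs => hmem s hs) (fun i s => by rw [eval_X]) (fun i => ?_) J hJ hJB m hm1 hm2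
    · rw [hdeg, pow_one]
      push_cast
      refine ⟨?_, h7Y⟩
      calc (N : ℝ) ^ (1 / 3 : ℝ) * L ^ C ≤ (N : ℝ) ^ (1 / 3 : ℝ) * L ^ (C + 1) := by
            gcongr
            omega
        _ ≤ Y := hY1
        _ ≤ 7 * Y := by linarith
    · push_cast
      calc 7 * (Y : ℝ) ≤ L * (L ^ (2 * T + U + 9) * (fvals R).card) := by
            apply mul_le_mul _ hden hY0.le hL0.le
            linarith
        _ = L ^ (2 * T + U + 10) * (fvals R).card := by ring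

end Pool.Agent.Run7.h524.MG
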