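import Mathlib

/-!
# The singular series of `n + f` for almost all `n`

For a nonconstant integer polynomial `f` the product over the primes `p ≤ z` of `(1 - ν(p)/p)/(1 - 1/p)`,
`ν(p)` the number of the residues `r` modulo `p` with `p ∣ n + f(r)`, is between two positive constants for all but a
small proportion of the `n` for which `n + f` has no fixed prime divisor.
-/

set_option autoImplicit false

namespace Pool.Agent.Run7.h524.MG

open Finset Polynomial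

/-- the number of the residues `r` modulo `p` with `p ∣ n + f(r)` -/
noncomputable def nu (f : ℤ[X]) (n : ℤ) (p : ℕ) : ℕ :=
  ((range p).filter (fun r : ℕ => (p : ℤ) ∣ n + f.eval (r : ℤ))).card

/-- the singular series, truncated at `z` -/
noncomputable def dens (f : ℤ[X]) (n : ℤ) (z : ℕ) : ℝ :=
  ∏ p ∈ (Icc 1 z).filter Nat.Prime, (1 - (nu f n p : ℝ) / p) / (1 - 1 / (p : ℝ))

lemma nu_le (f : ℤ[X]) (n : ℤ) (p : ℕ) : nu f n p ≤ p := by
  unfold nu
  exact (card_filter_le _ _).trans (by rw [card_range])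

lemma nu_lt (f : ℤ[X]) (n : ℤ) (p : ℕ) (hp : p.Prime) (h : ∃ m : ℤ, ¬ (p : ℤ) ∣ n + f.eval m) : nu f n p < p := by
  obtain ⟨m, hm⟩ := h
  have hp0 : (0 : ℤ) < p := by exact_mod_cast hp.pos
  obtain ⟨r, hr⟩ : ∃ r : ℕ, (r : ℤ) = m % p := ⟨(m % p).toNat, Int.toNat_of_nonneg (Int.emod_nonneg _ hp0.ne')⟩
  have hr2 : r ∈ range p := by
    rw [mem_range]
    have := Int.emod_lt_of_pos m hp0
    omega
  have h6 : (m - (r : ℤ)) ∣ f.eval m - f.eval (r : ℤ) := sub_dvd_eval_sub _ _ _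
  have h7 : (p : ℤ) ∣ m - (r : ℤ) := by
    rw [hr]
    exact Int.dvd_self_sub_emod
  have h8 : ¬ (p : ℤ) ∣ n + f.eval (r : ℤ) := by
    intro h5
    apply hm
    have h9 : n + f.eval m = (n + f.eval (r : ℤ)) + (f.eval m - f.eval (r : ℤ)) := by ring
    rw [h9]
    exact dvd_add h5 (h7.trans h6)
  unfold nu
  calc ((range p).filter (fun r : ℕ => (p : ℤ) ∣ n + f.eval (r : ℤ))).card < (range p).card := by
        apply card_lt_card
        rw [filter_ssubset]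
        exact ⟨r, hr2, h8⟩
    _ = p := card_range p

lemma nu_le_deg (f : ℤ[X]) (n : ℤ) (p : ℕ) (hp : p.Prime) (hf : 1 ≤ f.natDegree) (hl : ¬ (p : ℤ) ∣ f.leadingCoeff) :
    nu f n p ≤ f.natDegree := by
  classical
  have := Fact.mk hp
  obtain ⟨Q, hQ⟩ : ∃ Q : (ZMod p)[X], Q = (C n + f).map (Int.castRingHom (ZMod p)) := ⟨_, rfl⟩
  have hev : ∀ r : ℕ, eval (r : ZMod p) Q = ((n + f.eval (r : ℤ) : ℤ) : ZMod p) := by
    intro r
    rw [hQ]
    simp
  have hQ0 : Q ≠ 0 := by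
    intro h
    have h1 : Q.coeff f.natDegree = ((f.leadingCoeff : ℤ) : ZMod p) := by
      rw [hQ, coeff_map, coeff_add, coeff_C, if_neg (by omega), zero_add]
      rfl
    rw [h, coeff_zero] at h1
    exact hl ((ZMod.intCast_zmod_eq_zero_iff_dvd _ _).1 h1.symm)
  unfold nu
  have h1 : ((range p).filter (fun r : ℕ => (p : ℤ) ∣ n + f.eval (r : ℤ))).card ≤ Q.roots.toFinset.card := by
    apply card_le_card_of_injOn (fun r : ℕ => (r : ZMod p))
    · intro r hr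
      rw [mem_coe, mem_filter] at hr
      rw [mem_coe, Multiset.mem_toFinset, mem_roots hQ0, IsRoot.def, hev]
      exact (ZMod.intCast_zmod_eq_zero_iff_dvd _ _).2 hr.2
    · intro r hr s hs hrs
      rw [mem_coe, mem_filter, mem_range] at hr hs
      have := (ZMod.natCast_eq_natCast_iff' r s p).1 hrs
      rwa [Nat.mod_eq_of_lt hr.1, Nat.mod_eq_of_lt hs.1] at this
  refine h1.trans ((Multiset.toFinset_card_le _).trans ((card_roots' Q).trans ?_))
  rw [hQ]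
  refine natDegree_map_le.trans ((natDegree_add_le _ _).trans ?_)
  rw [natDegree_C]
  exact max_le (by omega) le_rfl

/-- counting a residue class -/
lemma count_cong (N m : ℕ) (hm : 0 < m) (v : ℤ) :
    |(((Icc 1 N).filter (fun n : ℕ => (m : ℤ) ∣ (n : ℤ) - v)).card : ℝ) - N / m| ≤ 1 := by
  have h1 : ((Icc 1 N).filter (fun n : ℕ => (m : ℤ) ∣ (n : ℤ) - v)).card =
      ((Ioc (0 : ℤ) (N : ℤ)).filter (fun x => x ≡ v [ZMOD (m : ℤ)])).card := by
    apply card_bij (fun (n : ℕ) _ => (n : ℤ))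
    · intro n hn
      rw [mem_filter, mem_Icc] at hn
      rw [mem_filter, mem_Ioc]
      refine ⟨⟨by omega, by omega⟩, ?_⟩
      exact (Int.modEq_iff_dvd.2 (by
        have := hn.2
        rw [← dvd_neg] at this
        have h2 : v - (n : ℤ) = -((n : ℤ) - v) := by ring
        rw [h2]
        exact this))
    · intro a _ b _ h
      exact_mod_cast h
    · intro x hx
      rw [mem_filter, mem_Ioc] at hx
      refine ⟨x.toNat, ?_, Int.toNat_of_nonneg (by omega)⟩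
      rw [mem_filter, mem_Icc]
      have h3 : ((x.toNat : ℕ) : ℤ) = x := Int.toNat_of_nonneg (by omega)
      refine ⟨⟨by omega, by omega⟩, ?_⟩
      rw [h3]
      have h4 := Int.modEq_iff_dvd.1 hx.2
      rw [← dvd_neg] at h4
      have h2 : x - v = -(v - x) := by ring
      rw [h2]
      exact h4
  have hmz : (0 : ℤ) < m := by exact_mod_cast hm
  have h2 := Int.Ioc_filter_modEq_card (0 : ℤ) (N : ℤ) hmz v
  have hm0 : (0 : ℝ) < m := by exact_mod_cast hm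
  obtain ⟨a, ha⟩ : ∃ a : ℚ, a = (((N : ℤ) : ℚ) - v) / ((m : ℤ) : ℚ) := ⟨_, rfl⟩
  obtain ⟨b, hb⟩ : ∃ b : ℚ, b = (((0 : ℤ) : ℚ) - v) / ((m : ℤ) : ℚ) := ⟨_, rfl⟩
  rw [← ha, ← hb] at h2
  have hab : a - b = (N : ℚ) / m := by
    rw [ha, hb]
    push_cast
    ring
  have hab2 : b ≤ a := by
    have : (0 : ℚ) ≤ (N : ℚ) / m := by positivity
    linarith
  have h3 : ⌊b⌋ ≤ ⌊a⌋ := Int.floor_le_floor hab2
  rw [max_eq_left (by omega)] at h2
  have h4 : ((((Icc 1 N).filter (fun n : ℕ => (m : ℤ) ∣ (n : ℤ) - v)).card : ℕ) : ℚ) = (⌊a⌋ : ℚ) - (⌊b⌋ : ℚ) := by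
    rw [h1]
    exact_mod_cast h2
  have h5 : |((((Icc 1 N).filter (fun n : ℕ => (m : ℤ) ∣ (n : ℤ) - v)).card : ℕ) : ℚ) - (N : ℚ) / m| ≤ 1 := by
    rw [h4, ← hab]
    have e1 := Int.floor_le a
    have e2 := Int.lt_floor_add_one a
    have e3 := Int.floor_le b
    have e4 := Int.lt_floor_add_one b
    rw [abs_le]
    constructor <;> linarith
  have h6 := (Rat.cast_le (K := ℝ)).2 h5
  push_cast at h6
  exact h6

/-- counting two residue classes -/
lemma count_two (N p q : ℕ) (hp : 0 < p) (hq : 0 < q) (hpq : IsCoprime (p : ℤ) (q : ℤ)) (a b : ℤ) :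
    |(((Icc 1 N).filter (fun n : ℕ => (p : ℤ) ∣ (n : ℤ) + a ∧ (q : ℤ) ∣ (n : ℤ) + b)).card : ℝ) - N / (p * q)| ≤ 1 := by
  obtain ⟨s, t, hst⟩ := hpq
  obtain ⟨v, hv⟩ : ∃ v : ℤ, v = -(a * (t * q)) - b * (s * p) := ⟨_, rfl⟩
  have h1 : (p : ℤ) ∣ v + a := ⟨s * (a - b), by
    rw [hv]
    linear_combination (-a) * hst⟩
  have h2 : (q : ℤ) ∣ v + b := ⟨t * (b - a), by
    rw [hv]
    linear_combination (-b) * hst⟩
  have h3 := count_cong N (p * q) (Nat.mul_pos hp hq) v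
  have h4 : (Icc 1 N).filter (fun n : ℕ => (p : ℤ) ∣ (n : ℤ) + a ∧ (q : ℤ) ∣ (n : ℤ) + b) =
      (Icc 1 N).filter (fun n : ℕ => ((p * q : ℕ) : ℤ) ∣ (n : ℤ) - v) := by
    apply filter_congr
    intro n _
    have e1 : ((p : ℤ) ∣ (n : ℤ) + a) ↔ (p : ℤ) ∣ (n : ℤ) - v := by
      have : (n : ℤ) + a = ((n : ℤ) - v) + (v + a) := by ring
      rw [this]
      exact dvd_add_left h1
    have e2 : ((q : ℤ) ∣ (n : ℤ) + b) ↔ (q : ℤ) ∣ (n : ℤ) - v := by
      have : (n : ℤ) + b = ((n : ℤ) - v) + (v + b) := by ring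
      rw [this]
      exact dvd_add_left h2
    rw [e1, e2]
    push_cast
    constructor
    · rintro ⟨h5, h6⟩
      exact IsCoprime.mul_dvd ⟨s, t, hst⟩ h5 h6
    · intro h5
      exact ⟨(dvd_mul_right _ _).trans h5, (dvd_mul_left _ _).trans h5⟩
  rw [h4]
  push_cast at h3
  exact h3

lemma nu_sum (f : ℤ[X]) (n : ℤ) (p : ℕ) :
    (nu f n p : ℝ) = ∑ r ∈ range p, if (p : ℤ) ∣ n + f.eval (r : ℤ) then (1 : ℝ) else 0 := by
  unfold nu
  rw [sum_boole]

lemma sum_nu (f : ℤ[X]) (N p : ℕ) (hp : 0 < p) : |∑ n ∈ Icc 1 N, (nu f n p : ℝ) - N| ≤ p := by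
  have hp0 : (0 : ℝ) < p := by exact_mod_cast hp
  have h1 : ∑ n ∈ Icc 1 N, (nu f n p : ℝ) - N = ∑ r ∈ range p,
      ((((Icc 1 N).filter (fun n : ℕ => (p : ℤ) ∣ (n : ℤ) - (-(f.eval (r : ℤ))))).card : ℝ) - N / p) := by
    rw [sum_sub_distrib, sum_const, card_range, nsmul_eq_mul, mul_div_cancel₀ _ hp0.ne']
    congr 1
    simp only [nu_sum]
    rw [sum_comm]
    refine sum_congr rfl fun r _ => ?_
    rw [sum_boole]
    simp only [sub_neg_eq_add]
  rw [h1]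
  refine (abs_sum_le_sum_abs _ _).trans ((sum_le_sum fun r _ => count_cong N p hp _).trans ?_)
  rw [sum_const, card_range, nsmul_eq_mul, mul_one]

lemma sum_nu_nu (f : ℤ[X]) (N p q : ℕ) (hp : p.Prime) (hq : q.Prime) (hpq : p ≠ q) :
    |∑ n ∈ Icc 1 N, (nu f n p : ℝ) * nu f n q - N| ≤ p * q := by
  have hp0 : (0 : ℝ) < p := by exact_mod_cast hp.pos
  have hq0 : (0 : ℝ) < q := by exact_mod_cast hq.pos
  have hcop : IsCoprime (p : ℤ) (q : ℤ) := Nat.isCoprime_iff_coprime.2 ((Nat.coprime_primes hp hq).2 hpq)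
  have h1 : ∑ n ∈ Icc 1 N, (nu f n p : ℝ) * nu f n q - N = ∑ r ∈ range p, ∑ s ∈ range q,
      ((((Icc 1 N).filter (fun n : ℕ => (p : ℤ) ∣ (n : ℤ) + f.eval (r : ℤ) ∧ (q : ℤ) ∣ (n : ℤ) + f.eval (s : ℤ))).card : ℝ)
        - N / (p * q)) := by
    simp only [sum_sub_distrib, sum_const, card_range, nsmul_eq_mul]
    rw [show (p : ℝ) * ((q : ℝ) * ((N : ℝ) / (p * q))) = N by field_simp]
    congr 1
    simp only [nu_sum]
    have e1 : ∀ n : ℕ, (∑ r ∈ range p, if (p : ℤ) ∣ (n : ℤ) + f.eval (r : ℤ) then (1 : ℝ) else 0) *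
        (∑ s ∈ range q, if (q : ℤ) ∣ (n : ℤ) + f.eval (s : ℤ) then (1 : ℝ) else 0) =
        ∑ r ∈ range p, ∑ s ∈ range q,
          if (p : ℤ) ∣ (n : ℤ) + f.eval (r : ℤ) ∧ (q : ℤ) ∣ (n : ℤ) + f.eval (s : ℤ) then (1 : ℝ) else 0 := by
      intro n
      rw [sum_mul_sum]
      refine sum_congr rfl fun r _ => sum_congr rfl fun s _ => ?_
      by_cases c1 : (p : ℤ) ∣ (n : ℤ) + f.eval (r : ℤ)
      · by_cases c2 : (q : ℤ) ∣ (n : ℤ) + f.eval (s : ℤ)
        · rw [if_pos c1, if_pos c2, if_pos ⟨c1, c2⟩, mul_one]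
        · rw [if_pos c1, if_neg c2, if_neg (fun h => c2 h.2), mul_zero]
      · rw [if_neg c1, zero_mul, if_neg (fun h => c1 h.1)]
    simp only [e1]
    rw [sum_comm]
    refine sum_congr rfl fun r _ => ?_
    rw [sum_comm]
    refine sum_congr rfl fun s _ => ?_
    rw [sum_boole]
  rw [h1]
  refine (abs_sum_le_sum_abs _ _).trans ((sum_le_sum fun r _ => (abs_sum_le_sum_abs _ _).trans
    (sum_le_sum fun s _ => count_two N p q hp.pos hq.pos hcop _ _)).trans ?_)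
  simp only [sum_const, card_range, nsmul_eq_mul, mul_one]
  exact le_rfl

lemma cross (f : ℤ[X]) (N p q : ℕ) (hp : p.Prime) (hq : q.Prime) (hpq : p ≠ q) :
    |∑ n ∈ Icc 1 N, ((nu f n p : ℝ) - 1) * ((nu f n q : ℝ) - 1)| ≤ 3 * (p * q) := by
  have h1 : ∑ n ∈ Icc 1 N, ((nu f n p : ℝ) - 1) * ((nu f n q : ℝ) - 1) =
      (∑ n ∈ Icc 1 N, (nu f n p : ℝ) * nu f n q - N) - (∑ n ∈ Icc 1 N, (nu f n p : ℝ) - N) -
        (∑ n ∈ Icc 1 N, (nu f n q : ℝ) - N) := by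
    have e : ∀ n : ℕ, ((nu f n p : ℝ) - 1) * ((nu f n q : ℝ) - 1) =
        (nu f n p : ℝ) * nu f n q - nu f n p - nu f n q + 1 := fun n => by ring
    simp only [e, sum_add_distrib, sum_sub_distrib, sum_const, Nat.card_Icc, nsmul_eq_mul, mul_one,
      Nat.add_sub_cancel]
    ring
  have a1 := sum_nu_nu f N p q hp hq hpq
  have a2 := sum_nu f N p hp.pos
  have a3 := sum_nu f N q hq.pos
  have hp1 : (1 : ℝ) ≤ p := by exact_mod_cast hp.pos
  have hq1 : (1 : ℝ) ≤ q := by exact_mod_cast hq.pos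
  rw [h1]
  rw [abs_le] at a1 a2 a3 ⊢
  constructor <;> nlinarith

/-- the linear statistic -/
noncomputable def S1 (f : ℤ[X]) (w z : ℕ) (n : ℕ) : ℝ := ∑ p ∈ (Ioc w z).filter Nat.Prime, ((nu f n p : ℝ) - 1) / p

lemma second (f : ℤ[X]) (hf : 1 ≤ f.natDegree) (w z N : ℕ) (hw : 1 ≤ w) (hwz : w ≤ z)
    (hlc : ∀ p, p.Prime → w < p → ¬ (p : ℤ) ∣ f.leadingCoeff) :
    ∑ n ∈ Icc 1 N, S1 f w z n ^ 2 ≤ N * (f.natDegree : ℝ) ^ 2 / w + 3 * (z : ℝ) ^ 2 := by
  obtain ⟨P, hP⟩ : ∃ P, P = (Ioc w z).filter Nat.Prime := ⟨_, rfl⟩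
  have hPm : ∀ p ∈ P, p.Prime ∧ w < p ∧ p ≤ z := by
    intro p hp
    rw [hP, mem_filter, mem_Ioc] at hp
    exact ⟨hp.2, hp.1.1, hp.1.2⟩
  have hd : (1 : ℝ) ≤ f.natDegree := by exact_mod_cast hf
  have h1 : ∑ n ∈ Icc 1 N, S1 f w z n ^ 2 = ∑ p ∈ P, ∑ q ∈ P, (1 / ((p : ℝ) * q)) *
      ∑ n ∈ Icc 1 N, ((nu f n p : ℝ) - 1) * ((nu f n q : ℝ) - 1) := by
    unfold S1
    rw [← hP]
    have e : ∀ n : ℕ, (∑ p ∈ P, ((nu f n p : ℝ) - 1) / p) ^ 2 = ∑ p ∈ P, ∑ q ∈ P, (1 / ((p : ℝ) * q)) *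
        (((nu f n p : ℝ) - 1) * ((nu f n q : ℝ) - 1)) := by
      intro n
      rw [sq, sum_mul_sum]
      refine sum_congr rfl fun p _ => sum_congr rfl fun q _ => ?_
      ring
    simp only [e]
    rw [sum_comm]
    refine sum_congr rfl fun p _ => ?_
    rw [sum_comm]
    refine sum_congr rfl fun q _ => ?_
    rw [mul_sum]
  have h2 : ∀ p ∈ P, ∀ q ∈ P, (1 / ((p : ℝ) * q)) * ∑ n ∈ Icc 1 N, ((nu f n p : ℝ) - 1) * ((nu f n q : ℝ) - 1) ≤
      (if p = q then N * (f.natDegree : ℝ) ^ 2 * ((p : ℝ) ^ 2)⁻¹ else 0) + 3 := by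
    intro p hp q hq
    obtain ⟨p1, p2, p3⟩ := hPm p hp
    obtain ⟨q1, q2, q3⟩ := hPm q hq
    have hp0 : (0 : ℝ) < p := by exact_mod_cast p1.pos
    have hq0 : (0 : ℝ) < q := by exact_mod_cast q1.pos
    split_ifs with hpq
    · subst hpq
      have e1 : ∑ n ∈ Icc 1 N, ((nu f n p : ℝ) - 1) * ((nu f n p : ℝ) - 1) ≤ N * (f.natDegree : ℝ) ^ 2 := by
        have e2 : ∀ n ∈ Icc 1 N, ((nu f n p : ℝ) - 1) * ((nu f n p : ℝ) - 1) ≤ (f.natDegree : ℝ) ^ 2 := by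
          intro n _
          have e3 : (nu f n p : ℝ) ≤ f.natDegree := by exact_mod_cast nu_le_deg f n p p1 hf (hlc p p1 p2)
          have e4 : (0 : ℝ) ≤ nu f n p := Nat.cast_nonneg _
          nlinarith
        refine (sum_le_sum e2).trans ?_
        rw [sum_const, Nat.card_Icc, nsmul_eq_mul, Nat.add_sub_cancel]
      have e5 : 0 ≤ (1 / ((p : ℝ) * p)) := by positivity
      calc (1 / ((p : ℝ) * p)) * ∑ n ∈ Icc 1 N, ((nu f n p : ℝ) - 1) * ((nu f n p : ℝ) - 1)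
          ≤ (1 / ((p : ℝ) * p)) * (N * (f.natDegree : ℝ) ^ 2) := mul_le_mul_of_nonneg_left e1 e5
        _ = N * (f.natDegree : ℝ) ^ 2 * ((p : ℝ) ^ 2)⁻¹ := by
            rw [sq (p : ℝ), one_div]
            ring
        _ ≤ _ := by linarith
    · rw [zero_add]
      have e1 := (le_abs_self _).trans (cross f N p q p1 q1 hpq)
      rw [one_div_mul_eq_div, div_le_iff₀ (by positivity)]
      exact e1
  rw [h1]
  refine (sum_le_sum fun p hp => sum_le_sum fun q hq => h2 p hp q hq).trans ?_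
  simp only [sum_add_distrib, sum_const, nsmul_eq_mul]
  have h3 : ∑ p ∈ P, ∑ q ∈ P, (if p = q then N * (f.natDegree : ℝ) ^ 2 * ((p : ℝ) ^ 2)⁻¹ else 0) ≤
      N * (f.natDegree : ℝ) ^ 2 / w := by
    have e1 : ∀ p ∈ P, ∑ q ∈ P, (if p = q then N * (f.natDegree : ℝ) ^ 2 * ((p : ℝ) ^ 2)⁻¹ else 0) =
        N * (f.natDegree : ℝ) ^ 2 * ((p : ℝ) ^ 2)⁻¹ := by
      intro p hp
      rw [sum_ite_eq, if_pos hp]
    rw [sum_congr rfl e1, ← mul_sum, div_eq_mul_inv]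
    apply mul_le_mul_of_nonneg_left _ (by positivity)
    have e2 : ∑ p ∈ P, ((p : ℝ) ^ 2)⁻¹ ≤ ∑ i ∈ Ioc w z, ((i : ℝ) ^ 2)⁻¹ := by
      apply sum_le_sum_of_subset_of_nonneg
      · rw [hP]
        exact filter_subset _ _
      · intros
        positivity
    refine e2.trans ((sum_Ioc_inv_sq_le_sub (by omega) hwz).trans ?_)
    have : (0 : ℝ) ≤ (z : ℝ)⁻¹ := by positivity
    linarith
  have h4 : (P.card : ℝ) ≤ z := by
    have e1 : P.card ≤ z := by
      rw [hP]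
      refine (card_filter_le _ _).trans ?_
      rw [Nat.card_Ioc]
      omega
    exact_mod_cast e1
  have h5 : (P.card : ℝ) * ((P.card : ℝ) * 3) ≤ 3 * (z : ℝ) ^ 2 := by
    have : (0 : ℝ) ≤ P.card := Nat.cast_nonneg _
    nlinarith
  linarith

/-- one local factor -/
lemma local_bd (d ν p : ℝ) (hd : 1 ≤ d) (hν : 0 ≤ ν) (hνd : ν ≤ d) (hp : 2 * d ≤ p) :
    Real.exp (-((ν - 1) / p) - 2 * d ^ 2 * (p ^ 2)⁻¹) ≤ (1 - ν / p) / (1 - 1 / p) ∧
    (1 - ν / p) / (1 - 1 / p) ≤ Real.exp (-((ν - 1) / p) + 2 * d ^ 2 * (p ^ 2)⁻¹) := by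
  have hp0 : 0 < p := by linarith
  have key : ∀ t : ℝ, 0 ≤ t → t ≤ 1 / 2 → Real.exp (-t - 2 * t ^ 2) ≤ 1 - t ∧ 1 - t ≤ Real.exp (-t) := by
    intro t h0 h1
    constructor
    · have h2 : -t - 2 * t ^ 2 ≤ Real.log (1 - t) := by
        have h3 := Real.one_sub_inv_le_log_of_pos (show 0 < 1 - t by linarith)
        refine le_trans ?_ h3
        have h4 : (1 - t)⁻¹ ≤ 1 + t + 2 * t ^ 2 := by
          rw [inv_le_iff_one_le_mul₀ (by linarith)]
          nlinarith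
        linarith
      calc Real.exp (-t - 2 * t ^ 2) ≤ Real.exp (Real.log (1 - t)) := Real.exp_le_exp.2 h2
        _ = 1 - t := Real.exp_log (by linarith)
    · have := Real.add_one_le_exp (-t)
      linarith
  have ha : ν / p ≤ 1 / 2 := by
    rw [div_le_iff₀ hp0]
    linarith
  have hb : 1 / p ≤ 1 / 2 := by
    rw [div_le_iff₀ hp0]
    linarith
  obtain ⟨a1, a2⟩ := key (ν / p) (by positivity) ha
  obtain ⟨b1, b2⟩ := key (1 / p) (by positivity) hb
  have hden : 0 < 1 - 1 / p := by linarith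
  have hi : 0 < (p ^ 2)⁻¹ := by positivity
  constructor
  · rw [le_div_iff₀ hden]
    calc Real.exp (-((ν - 1) / p) - 2 * d ^ 2 * (p ^ 2)⁻¹) * (1 - 1 / p)
        ≤ Real.exp (-((ν - 1) / p) - 2 * d ^ 2 * (p ^ 2)⁻¹) * Real.exp (-(1 / p)) :=
          mul_le_mul_of_nonneg_left b2 (Real.exp_pos _).le
      _ = Real.exp (-(ν / p) - 2 * d ^ 2 * (p ^ 2)⁻¹) := by
          rw [← Real.exp_add]
          congr 1
          ring
      _ ≤ Real.exp (-(ν / p) - 2 * (ν / p) ^ 2) := by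
          apply Real.exp_le_exp.2
          have : (ν / p) ^ 2 ≤ d ^ 2 * (p ^ 2)⁻¹ := by
            rw [div_pow, div_eq_mul_inv]
            apply mul_le_mul_of_nonneg_right _ hi.le
            nlinarith
          linarith
      _ ≤ 1 - ν / p := a1
  · rw [div_le_iff₀ hden]
    calc 1 - ν / p ≤ Real.exp (-(ν / p)) := a2
      _ ≤ Real.exp (-(ν / p) + 2 * d ^ 2 * (p ^ 2)⁻¹ - 2 * (1 / p) ^ 2) := by
          apply Real.exp_le_exp.2
          have : (1 / p) ^ 2 ≤ d ^ 2 * (p ^ 2)⁻¹ := by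
            rw [div_pow, one_pow, one_div]
            exact le_mul_of_one_le_left hi.le (one_le_pow₀ hd)
          linarith
      _ = Real.exp (-((ν - 1) / p) + 2 * d ^ 2 * (p ^ 2)⁻¹) * Real.exp (-(1 / p) - 2 * (1 / p) ^ 2) := by
          rw [← Real.exp_add]
          congr 1
          ring
      _ ≤ _ := mul_le_mul_of_nonneg_left b1 (Real.exp_pos _).le

open Classical in
/-- **the singular series for almost all `n`** -/
theorem dens_typ (f : ℤ[X]) (hf : 1 ≤ f.natDegree) (η : ℝ) (hη : 0 < η) : ∃ (w : ℕ) (c K : ℝ), 0 < c ∧ 0 < K ∧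
    ∀ N z : ℕ, w ≤ z → 6 * (z : ℝ) ^ 2 ≤ η * N → ∃ E : Finset ℕ, (E.card : ℝ) ≤ η * N ∧ ∀ n ∈ Icc 1 N, n ∉ E →
      dens f n z ≤ K ∧ ((∀ p : ℕ, p.Prime → ∃ m : ℤ, ¬ (p : ℤ) ∣ (n : ℤ) + f.eval m) → c ≤ dens f n z) := by
  obtain ⟨d, hd⟩ : ∃ d : ℝ, d = f.natDegree := ⟨_, rfl⟩
  have hd1 : 1 ≤ d := by rw [hd]; exact_mod_cast hf
  obtain ⟨w, hw⟩ := exists_nat_gt (2 * d ^ 2 / η + 2 * d ^ 2 + 2 * d + f.leadingCoeff.natAbs + 1)
  have hη' : 0 < 2 * d ^ 2 / η := by positivity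
  have hlc0 : (0 : ℝ) ≤ (f.leadingCoeff.natAbs : ℝ) := Nat.cast_nonneg _
  have hd2 : 0 < 2 * d ^ 2 := by positivity
  have hw1 : (1 : ℝ) < w := by linarith
  have hw0 : 1 ≤ w := by
    have : 1 < w := by exact_mod_cast hw1
    omega
  obtain ⟨Pw, hPw⟩ : ∃ Pw, Pw = (Icc 1 w).filter Nat.Prime := ⟨_, rfl⟩
  have hlc : ∀ p, p.Prime → w < p → ¬ (p : ℤ) ∣ f.leadingCoeff := by
    intro p hp hwp hdvd
    have hne : f.leadingCoeff ≠ 0 := by
      rw [Ne, leadingCoeff_eq_zero]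
      intro h0
      rw [h0, natDegree_zero] at hf
      omega
    have h1 : p ≤ f.leadingCoeff.natAbs := Nat.le_of_dvd (Int.natAbs_pos.2 hne) (Int.natCast_dvd.1 hdvd)
    have h2 : (f.leadingCoeff.natAbs : ℝ) < w := by linarith
    have h3 : f.leadingCoeff.natAbs < w := by exact_mod_cast h2
    omega
  refine ⟨w, Real.exp (-2) * ∏ p ∈ Pw, (1 / (p : ℝ)), Real.exp 2 * ∏ p ∈ Pw, (2 : ℝ), ?_, by positivity, ?_⟩
  · apply mul_pos (Real.exp_pos _)
    apply prod_pos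
    intro p hp
    rw [hPw, mem_filter] at hp
    have : (0 : ℝ) < p := by exact_mod_cast hp.2.pos
    positivity
  intro N z hwz hzN
  refine ⟨(Icc 1 N).filter (fun n => 1 < |S1 f w z n|), ?_, fun n hn hnE => ?_⟩
  · have h1 := second f hf w z N hw0 hwz hlc
    have h2 : (((Icc 1 N).filter (fun n => 1 < |S1 f w z n|)).card : ℝ) ≤ ∑ n ∈ Icc 1 N, S1 f w z n ^ 2 := by
      calc (((Icc 1 N).filter (fun n => 1 < |S1 f w z n|)).card : ℝ) = ∑ n ∈ (Icc 1 N).filter (fun n => 1 < |S1 f w z n|), (1 : ℝ) := by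
            rw [sum_const, nsmul_eq_mul, mul_one]
        _ ≤ ∑ n ∈ (Icc 1 N).filter (fun n => 1 < |S1 f w z n|), S1 f w z n ^ 2 := by
            refine sum_le_sum fun n hn => ?_
            rw [mem_filter] at hn
            rw [← sq_abs]
            nlinarith [hn.2]
        _ ≤ _ := sum_le_sum_of_subset_of_nonneg (filter_subset _ _) fun _ _ _ => sq_nonneg _
    refine h2.trans (h1.trans ?_)
    rw [← hd]
    have h3 : (N : ℝ) * d ^ 2 / w ≤ η / 2 * N := by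
      rw [div_le_iff₀ (by linarith)]
      have h4 : 2 * d ^ 2 / η ≤ w := by linarith
      rw [div_le_iff₀ hη] at h4
      have hN : (0 : ℝ) ≤ N := Nat.cast_nonneg _
      calc (N : ℝ) * d ^ 2 = N * (2 * d ^ 2) / 2 := by ring
        _ ≤ N * (w * η) / 2 := by gcongr
        _ = η / 2 * N * w := by ring
    linarith
  · have hS : |S1 f w z n| ≤ 1 := by
      by_contra hc
      push Not at hc
      exact hnE (mem_filter.2 ⟨hn, hc⟩)
    obtain ⟨P, hP⟩ : ∃ P, P = (Ioc w z).filter Nat.Prime := ⟨_, rfl⟩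
    have hsplit : dens f n z = (∏ p ∈ Pw, (1 - (nu f n p : ℝ) / p) / (1 - 1 / (p : ℝ))) *
        ∏ p ∈ P, (1 - (nu f n p : ℝ) / p) / (1 - 1 / (p : ℝ)) := by
      unfold dens
      have h1 : (Icc 1 z).filter Nat.Prime = Pw ∪ P := by
        rw [hPw, hP, ← filter_union]
        congr 1
        ext x
        simp only [mem_Icc, mem_union, mem_Ioc]
        omega
      rw [h1, prod_union]
      rw [hPw, hP]
      apply disjoint_filter_filter
      rw [disjoint_left]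
      intro x hx hx2
      rw [mem_Icc] at hx
      rw [mem_Ioc] at hx2
      omega
    have hPw2 : ∀ p ∈ Pw, 0 ≤ (1 - (nu f n p : ℝ) / p) / (1 - 1 / (p : ℝ)) ∧
        (1 - (nu f n p : ℝ) / p) / (1 - 1 / (p : ℝ)) ≤ 2 := by
      intro p hp
      rw [hPw, mem_filter] at hp
      have hp2 : (2 : ℝ) ≤ p := by exact_mod_cast hp.2.two_le
      have hp0 : (0 : ℝ) < p := by linarith
      have hb : 1 / (p : ℝ) ≤ 1 / 2 := by
        rw [div_le_iff₀ hp0]
        linarith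
      have h1 : (nu f n p : ℝ) ≤ p := by exact_mod_cast nu_le f n p
      have h2 : (nu f n p : ℝ) / p ≤ 1 := by
        rw [div_le_one hp0]
        exact h1
      have h3 : (0 : ℝ) ≤ (nu f n p : ℝ) / p := by positivity
      constructor
      · exact div_nonneg (by linarith) (by linarith)
      · rw [div_le_iff₀ (by linarith)]
        linarith
    have hPw3 : (∀ p : ℕ, p.Prime → ∃ m : ℤ, ¬ (p : ℤ) ∣ (n : ℤ) + f.eval m) → ∀ p ∈ Pw,
        1 / (p : ℝ) ≤ (1 - (nu f n p : ℝ) / p) / (1 - 1 / (p : ℝ)) := by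
      intro hfix p hp
      rw [hPw, mem_filter] at hp
      have hp2 : (2 : ℝ) ≤ p := by exact_mod_cast hp.2.two_le
      have hp0 : (0 : ℝ) < p := by linarith
      have hb : 1 / (p : ℝ) ≤ 1 / 2 := by
        rw [div_le_iff₀ hp0]
        linarith
      have hb0 : 0 < 1 / (p : ℝ) := by positivity
      have hlt := nu_lt f n p hp.2 (hfix p hp.2)
      have h1 : (nu f n p : ℝ) + 1 ≤ p := by exact_mod_cast hlt
      have h2 : 1 / (p : ℝ) ≤ 1 - (nu f n p : ℝ) / p := by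
        rw [le_sub_iff_add_le, ← add_div, div_le_one hp0]
        linarith
      rw [le_div_iff₀ (by linarith)]
      nlinarith
    have hPp : ∀ p ∈ P, p.Prime ∧ w < p := by
      intro p hp
      rw [hP, mem_filter, mem_Ioc] at hp
      exact ⟨hp.2, hp.1.1⟩
    have hloc : ∀ p ∈ P, Real.exp (-(((nu f n p : ℝ) - 1) / p) - 2 * d ^ 2 * ((p : ℝ) ^ 2)⁻¹) ≤
        (1 - (nu f n p : ℝ) / p) / (1 - 1 / (p : ℝ)) ∧
        (1 - (nu f n p : ℝ) / p) / (1 - 1 / (p : ℝ)) ≤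
          Real.exp (-(((nu f n p : ℝ) - 1) / p) + 2 * d ^ 2 * ((p : ℝ) ^ 2)⁻¹) := by
      intro p hp
      obtain ⟨p1, p2⟩ := hPp p hp
      have e1 : (nu f n p : ℝ) ≤ d := by
        rw [hd]
        exact_mod_cast nu_le_deg f n p p1 hf (hlc p p1 p2)
      have e2 : (w : ℝ) < p := by exact_mod_cast p2
      exact local_bd d _ _ hd1 (Nat.cast_nonneg _) e1 (by linarith)
    have hsq : ∑ p ∈ P, 2 * d ^ 2 * ((p : ℝ) ^ 2)⁻¹ ≤ 1 := by
      rw [← mul_sum]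
      have e2 : ∑ p ∈ P, ((p : ℝ) ^ 2)⁻¹ ≤ (w : ℝ)⁻¹ := by
        have e3 : ∑ p ∈ P, ((p : ℝ) ^ 2)⁻¹ ≤ ∑ i ∈ Ioc w z, ((i : ℝ) ^ 2)⁻¹ := by
          apply sum_le_sum_of_subset_of_nonneg
          · rw [hP]
            exact filter_subset _ _
          · intros
            positivity
        refine e3.trans ((sum_Ioc_inv_sq_le_sub (by omega) hwz).trans ?_)
        have : (0 : ℝ) ≤ (z : ℝ)⁻¹ := by positivity
        linarith
      calc 2 * d ^ 2 * ∑ p ∈ P, ((p : ℝ) ^ 2)⁻¹ ≤ 2 * d ^ 2 * (w : ℝ)⁻¹ := mul_le_mul_of_nonneg_left e2 hd2.le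
        _ ≤ 1 := by
            rw [← div_eq_mul_inv, div_le_one (by linarith)]
            linarith
    have hprodlow : Real.exp (-2) ≤ ∏ p ∈ P, (1 - (nu f n p : ℝ) / p) / (1 - 1 / (p : ℝ)) := by
      calc Real.exp (-2) ≤ Real.exp (∑ p ∈ P, (-(((nu f n p : ℝ) - 1) / p) - 2 * d ^ 2 * ((p : ℝ) ^ 2)⁻¹)) := by
            apply Real.exp_le_exp.2
            rw [sum_sub_distrib, sum_neg_distrib]
            have : ∑ p ∈ P, ((nu f n p : ℝ) - 1) / p = S1 f w z n := by rw [S1, hP]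
            rw [this]
            have := (abs_le.1 hS).2
            linarith
        _ = ∏ p ∈ P, Real.exp (-(((nu f n p : ℝ) - 1) / p) - 2 * d ^ 2 * ((p : ℝ) ^ 2)⁻¹) := Real.exp_sum _ _
        _ ≤ _ := prod_le_prod (fun _ _ => (Real.exp_pos _).le) fun p hp => (hloc p hp).1
    have hprodup : ∏ p ∈ P, (1 - (nu f n p : ℝ) / p) / (1 - 1 / (p : ℝ)) ≤ Real.exp 2 := by
      calc ∏ p ∈ P, (1 - (nu f n p : ℝ) / p) / (1 - 1 / (p : ℝ))
          ≤ ∏ p ∈ P, Real.exp (-(((nu f n p : ℝ) - 1) / p) + 2 * d ^ 2 * ((p : ℝ) ^ 2)⁻¹) :=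
            prod_le_prod (fun p hp => (Real.exp_pos _).le.trans (hloc p hp).1) fun p hp => (hloc p hp).2
        _ = Real.exp (∑ p ∈ P, (-(((nu f n p : ℝ) - 1) / p) + 2 * d ^ 2 * ((p : ℝ) ^ 2)⁻¹)) := (Real.exp_sum _ _).symm
        _ ≤ Real.exp 2 := by
            apply Real.exp_le_exp.2
            rw [sum_add_distrib, sum_neg_distrib]
            have : ∑ p ∈ P, ((nu f n p : ℝ) - 1) / p = S1 f w z n := by rw [S1, hP]
            rw [this]
            have := (abs_le.1 hS).1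
            linarith
    have hup0 : ∏ p ∈ Pw, (1 - (nu f n p : ℝ) / p) / (1 - 1 / (p : ℝ)) ≤ ∏ p ∈ Pw, (2 : ℝ) :=
      prod_le_prod (fun p hp => (hPw2 p hp).1) fun p hp => (hPw2 p hp).2
    have hz0 : 0 ≤ ∏ p ∈ Pw, (1 / (p : ℝ)) := prod_nonneg fun p _ => by positivity
    rw [hsplit]
    constructor
    · rw [mul_comm (Real.exp 2)]
      exact mul_le_mul hup0 hprodup ((Real.exp_pos _).le.trans hprodlow) (by positivity)
    · intro hfix
      have hlow0 : ∏ p ∈ Pw, (1 / (p : ℝ)) ≤ ∏ p ∈ Pw, (1 - (nu f n p : ℝ) / p) / (1 - 1 / (p : ℝ)) :=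
        prod_le_prod (fun p _ => by positivity) fun p hp => hPw3 hfix p hp
      rw [mul_comm]
      exact mul_le_mul hlow0 hprodlow (Real.exp_pos _).le (hz0.trans hlow0)

/-- the singular series is not negative -/
lemma dens_nonneg (f : ℤ[X]) (n : ℤ) (z : ℕ) : 0 ≤ dens f n z := by
  unfold dens
  apply prod_nonneg
  intro p hp
  rw [mem_filter] at hp
  have hp2 : (2 : ℝ) ≤ p := by exact_mod_cast hp.2.two_le
  have hp0 : (0 : ℝ) < p := by linarith
  have hb : 1 / (p : ℝ) ≤ 1 / 2 := by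
    rw [div_le_iff₀ hp0]
    linarith
  have h2 : (nu f n p : ℝ) / p ≤ 1 := by
    rw [div_le_one hp0]
    exact_mod_cast nu_le f n p
  exact div_nonneg (by linarith) (by linarith)

end Pool.Agent.Run7.h524.MG
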