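import Pool.Agent.Run7.h524.MG.Abs
import Pool.Agent.Run7.h524.MG.Sgt
import Pool.Agent.Run7.h18.MK.Poly4
import Pool.Agent.Run7.h794.MK.Poi2

/-!
# The Gaussian law for the primes along almost all sparse subsequences of polynomial sequences
-/

set_option autoImplicit false

namespace Pool.Agent.Run7.h524.MG

open Finset Filter Polynomial
open Pool.Agent.Run7.h18.MK (Rt Sg poly_fin eval_le)
open Pool.Agent.H373R2.T7 (Vz pz nuB)
open Pool.Agent.R460.SQ (thp)
open Pool.Agent.N384.MQ (ev_log_pow ev_log_ge)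
open Pool.Agent.Run7.h794.MK (cheb)
open Q282.CL (av)

lemma dens_eq (f : ℤ[X]) (n : ℤ) (z : ℕ) : dens f n z = Sg f n z := by
  have hroot : ∀ p : ℕ, nu f n p = nuB (Rt f n) p := by
    intro p
    unfold nu nuB Rt
    congr!
  unfold dens Sg Vz pz
  rw [prod_div_distrib, div_eq_inv_mul]
  congr 1
  exact prod_congr rfl fun p _ => by rw [hroot]

/-- the logarithm of a nearby number -/
lemma log_near (n b : ℤ) (t : ℝ) (hn : (1 : ℝ) ≤ n) (ht : t ≤ 1 / 2) (hb : |(b : ℝ)| ≤ t * n) :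
    |Real.log ((n + b : ℤ) : ℝ) - Real.log (n : ℝ)| ≤ 2 * t := by
  have hn0 : (0 : ℝ) < n := by linarith
  have h1 := abs_le.1 hb
  have hpos : (0 : ℝ) < (n : ℝ) + b := by nlinarith [h1.1]
  push_cast
  rw [abs_le]
  have h2 := Real.log_le_sub_one_of_pos (div_pos hpos hn0)
  have h3 := Real.one_sub_inv_le_log_of_pos (div_pos hpos hn0)
  rw [Real.log_div hpos.ne' hn0.ne'] at h2 h3
  have h4 : ((n : ℝ) + b) / n ≤ 1 + t := by
    rw [div_le_iff₀ hn0]
    nlinarith [h1.2]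
  have h5 : 1 - t ≤ ((n : ℝ) + b) / n := by
    rw [le_div_iff₀ hn0]
    nlinarith [h1.1]
  have ht0 : 0 ≤ t := by
    by_contra hc
    push Not at hc
    have := abs_nonneg (b : ℝ)
    nlinarith
  constructor
  · have h6 : (((n : ℝ) + b) / n)⁻¹ ≤ 1 + 2 * t := by
      rw [inv_le_iff_one_le_mul₀ (by positivity)]
      nlinarith
    linarith
  · linarith

open Classical in
/-- **the proportion of the primes `n + f(k)`** -/
theorem prec_poly (f : ℤ[X]) (hf : 1 ≤ f.natDegree) (A : ℕ) : ∃ C B₀ : ℕ, ∀ E : ℕ, ∃ N₀ : ℕ, ∀ N : ℕ, N₀ ≤ N → ∀ z : ℕ,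
    Real.log N ^ B₀ ≤ z → (z : ℝ) ≤ Real.log N ^ E → ∀ x : ℕ,
    (N : ℝ) ^ (1 / 3 : ℝ) * Real.log N ^ C ≤ (x : ℝ) ^ f.natDegree → (x : ℝ) ^ f.natDegree * Real.log N ^ C ≤ N →
    1 ≤ x ∧ (∀ k ∈ Icc 1 x, |((f.eval (k : ℤ) : ℤ) : ℝ)| ≤ N) ∧
    ∃ Ex : Finset ℕ, (Ex.card : ℝ) ≤ N / Real.log N ∧ ∀ n ∈ Icc 1 N, n ∉ Ex → (N : ℝ) / Real.log N ^ 2 ≤ n ∧
      |(((Icc 1 x).filter fun k : ℕ => ((n : ℤ) + f.eval (k : ℤ)).toNat.Prime).card : ℝ) / x - dens f n z / Real.log n| ≤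
        1 / Real.log N ^ A := by
  obtain ⟨C, B₀, h⟩ := poly_fin f.natDegree 1 (A + 4) hf
  refine ⟨C + A + 8, B₀, fun E => ?_⟩
  obtain ⟨N₁, h⟩ := h E
  obtain ⟨F, hF⟩ : ∃ F : ℝ, F = ∑ i ∈ range (f.natDegree + 1), |((f.coeff i : ℤ) : ℝ)| := ⟨_, rfl⟩
  obtain ⟨N₂, hN₂⟩ := eventually_atTop.1 ((ev_log_ge (F + f.natDegree + 8)).and
    ((ev_log_pow 2 3).and (eventually_ge_atTop 3)))
  refine ⟨N₁ + N₂, fun N hN z hz1 hz2 x hx1 hx2 => ?_⟩
  obtain ⟨hbig, hpow, hN3⟩ := hN₂ N (by omega)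
  obtain ⟨Ex, hE1, hE2⟩ := h N (by omega) z hz1 hz2
  obtain ⟨L, hL⟩ : ∃ L, L = Real.log (N : ℝ) := ⟨_, rfl⟩
  rw [← hL] at hbig hpow hE1 hE2 hx1 hx2 ⊢
  have hF0 : 0 ≤ F := by rw [hF]; exact sum_nonneg fun _ _ => abs_nonneg _
  have hd0 : (1 : ℝ) ≤ f.natDegree := by exact_mod_cast hf
  have hL8 : 8 ≤ L := by linarith
  have hL1 : 1 ≤ L := by linarith
  have hL0 : 0 < L := by linarith
  have hN0 : (0 : ℝ) < N := by exact_mod_cast (by omega : 0 < N)
  have hcoef : ∀ i, |((f.coeff i : ℤ) : ℝ)| ≤ L ^ 1 := by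
    intro i
    rw [pow_one]
    by_cases hi : i ∈ range (f.natDegree + 1)
    · have h1 : |((f.coeff i : ℤ) : ℝ)| ≤ F := by
        rw [hF]
        exact single_le_sum (f := fun i => |((f.coeff i : ℤ) : ℝ)|) (fun _ _ => abs_nonneg _) hi
      linarith
    · rw [mem_range] at hi
      rw [coeff_eq_zero_of_natDegree_lt (by omega), Int.cast_zero, abs_zero]
      exact hL0.le
  have hx1' : (N : ℝ) ^ (1 / 3 : ℝ) * L ^ C ≤ (x : ℝ) ^ f.natDegree :=
    le_trans (mul_le_mul_of_nonneg_left (pow_le_pow_right₀ hL1 (by omega)) (by positivity)) hx1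
  have hx2' : (x : ℝ) ^ f.natDegree * L ^ C ≤ N :=
    le_trans (mul_le_mul_of_nonneg_left (pow_le_pow_right₀ hL1 (by omega)) (by positivity)) hx2
  have hx0 : 1 ≤ x := by
    by_contra hc
    have hx : x = 0 := by omega
    rw [hx, Nat.cast_zero, zero_pow (by omega)] at hx1
    have : 0 < (N : ℝ) ^ (1 / 3 : ℝ) * L ^ (C + A + 8) := by positivity
    linarith
  have hxr : (1 : ℝ) ≤ x := by exact_mod_cast hx0
  have hsmall : ∀ k ∈ Icc 1 x, |((f.eval (k : ℤ) : ℤ) : ℝ)| ≤ N / L ^ (A + 6) := by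
    intro k hk
    have h1 := eval_le f f.natDegree le_rfl (L ^ 1) hcoef x k hk
    refine h1.trans ?_
    rw [le_div_iff₀ (by positivity), pow_one]
    have h2 : (f.natDegree : ℝ) + 1 ≤ L := by linarith
    calc ((f.natDegree : ℝ) + 1) * L * (x : ℝ) ^ f.natDegree * L ^ (A + 6)
        ≤ L * L * (x : ℝ) ^ f.natDegree * L ^ (A + 6) := by gcongr
      _ = (x : ℝ) ^ f.natDegree * L ^ (A + 8) := by ring
      _ ≤ (x : ℝ) ^ f.natDegree * L ^ (C + A + 8) := by
          apply mul_le_mul_of_nonneg_left _ (by positivity)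
          exact pow_le_pow_right₀ hL1 (by omega)
      _ ≤ N := hx2
  refine ⟨hx0, fun k hk => (hsmall k hk).trans (div_le_self hN0.le (one_le_pow₀ hL1)),
    Ex ∪ (Icc 1 N).filter (fun n : ℕ => (n : ℝ) < N / L ^ 2), ?_, fun n hn hnE => ?_⟩
  · have h1 : (((Icc 1 N).filter (fun n : ℕ => (n : ℝ) < N / L ^ 2)).card : ℝ) ≤ N / L ^ 2 := by
      have h2 : ((Icc 1 N).filter (fun n : ℕ => (n : ℝ) < N / L ^ 2)).card ≤ (Icc 1 ⌊(N : ℝ) / L ^ 2⌋₊).card := by
        apply card_le_card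
        intro n hn
        rw [mem_filter, mem_Icc] at hn
        rw [mem_Icc]
        exact ⟨hn.1.1, Nat.le_floor hn.2.le⟩
      rw [Nat.card_Icc, Nat.add_sub_cancel] at h2
      refine le_trans (by exact_mod_cast h2) (Nat.floor_le (by positivity))
    have h3 : ((Ex ∪ (Icc 1 N).filter (fun n : ℕ => (n : ℝ) < N / L ^ 2)).card : ℝ) ≤
        (Ex.card : ℝ) + (((Icc 1 N).filter (fun n : ℕ => (n : ℝ) < N / L ^ 2)).card : ℝ) := by
      exact_mod_cast card_union_le _ _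
    refine h3.trans ((add_le_add hE1 h1).trans ?_)
    have h4 : (N : ℝ) / L ^ (A + 4) ≤ N / L ^ 2 :=
      div_le_div_of_nonneg_left hN0.le (by positivity) (pow_le_pow_right₀ hL1 (by omega))
    have h5 : (N : ℝ) / L ^ 2 + N / L ^ 2 ≤ N / L := by
      rw [← add_div, div_le_div_iff₀ (by positivity) hL0]
      nlinarith [mul_pos hN0 hL0]
    linarith
  · rw [mem_union, not_or] at hnE
    have hnb : (N : ℝ) / L ^ 2 ≤ n := by
      by_contra hc
      push Not at hc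
      exact hnE.2 (mem_filter.2 ⟨hn, hc⟩)
    refine ⟨hnb, ?_⟩
    have hn1 : (3 : ℝ) ≤ n := by
      refine le_trans ?_ hnb
      rw [le_div_iff₀ (by positivity)]
      linarith
    have hlogn : 1 ≤ Real.log (n : ℝ) := by
      have := Real.log_le_log (Real.exp_pos 1) (show Real.exp 1 ≤ n by
        have := Real.exp_one_lt_d9
        linarith)
      rwa [Real.log_exp] at this
    obtain ⟨-, a2⟩ := hE2 n hn hnE.1 f hf le_rfl hcoef
    obtain ⟨a3, a4⟩ := a2 x hx1' hx2'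
    obtain ⟨P, hP⟩ : ∃ P, P = (Icc 1 x).filter fun k : ℕ => ((n : ℤ) + f.eval (k : ℤ)).toNat.Prime := ⟨_, rfl⟩
    rw [← hP, dens_eq]
    have hPx : (P.card : ℝ) ≤ x := by
      have h1 : P.card ≤ x := by
        rw [hP]
        refine (card_filter_le _ _).trans ?_
        rw [Nat.card_Icc, Nat.add_sub_cancel]
      exact_mod_cast h1
    have hsum : ∑ k ∈ Icc 1 x, thp ((n : ℤ) + f.eval (k : ℤ)).toNat = ∑ k ∈ P, Real.log (((n : ℤ) + f.eval (k : ℤ) : ℤ) : ℝ) := by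
      rw [hP, sum_filter]
      refine sum_congr rfl fun k hk => ?_
      unfold thp
      have h5 := a3 k hk
      have h6 : ((((n : ℤ) + f.eval (k : ℤ)).toNat : ℕ) : ℝ) = (((n : ℤ) + f.eval (k : ℤ) : ℤ) : ℝ) := by
        rw [← Int.cast_natCast, Int.toNat_of_nonneg (by omega)]
      rw [h6]
    have hlogs : |∑ k ∈ P, Real.log (((n : ℤ) + f.eval (k : ℤ) : ℤ) : ℝ) - P.card * Real.log n| ≤ x * (2 / L ^ (A + 4)) := by
      have e1 : ∑ k ∈ P, Real.log (((n : ℤ) + f.eval (k : ℤ) : ℤ) : ℝ) - P.card * Real.log n =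
          ∑ k ∈ P, (Real.log (((n : ℤ) + f.eval (k : ℤ) : ℤ) : ℝ) - Real.log (((n : ℤ) : ℤ) : ℝ)) := by
        rw [sum_sub_distrib, sum_const, nsmul_eq_mul, Int.cast_natCast]
      rw [e1]
      refine (abs_sum_le_sum_abs _ _).trans ?_
      have e2 : ∀ k ∈ P, |Real.log (((n : ℤ) + f.eval (k : ℤ) : ℤ) : ℝ) - Real.log (((n : ℤ) : ℤ) : ℝ)| ≤ 2 / L ^ (A + 4) := by
        intro k hk
        rw [hP, mem_filter] at hk
        rw [show 2 / L ^ (A + 4) = 2 * (1 / L ^ (A + 4)) by ring]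
        apply log_near
        · rw [Int.cast_natCast]
          linarith
        · rw [div_le_div_iff₀ (by positivity) two_pos, one_mul, one_mul]
          calc (2 : ℝ) ≤ L := by linarith
            _ = L ^ 1 := (pow_one L).symm
            _ ≤ L ^ (A + 4) := pow_le_pow_right₀ hL1 (by omega)
        · refine (hsmall k hk.1).trans ?_
          rw [Int.cast_natCast, one_div_mul_eq_div, div_le_div_iff₀ (by positivity) (by positivity)]
          rw [div_le_iff₀ (by positivity)] at hnb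
          calc (N : ℝ) * L ^ (A + 4) ≤ (n * L ^ 2) * L ^ (A + 4) := by gcongr
            _ = n * L ^ (A + 6) := by ring
      refine (sum_le_sum e2).trans ?_
      rw [sum_const, nsmul_eq_mul]
      exact mul_le_mul_of_nonneg_right hPx (by positivity)
    rw [hsum] at a4
    have hx0r : (0 : ℝ) < x := by linarith
    have key : |(P.card : ℝ) * Real.log n - x * Sg f n z| ≤ x * (3 / L ^ (A + 4)) := by
      have e1 : (P.card : ℝ) * Real.log n - x * Sg f n z = (∑ k ∈ P, Real.log (((n : ℤ) + f.eval (k : ℤ) : ℤ) : ℝ) - x * Sg f n z) -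
          (∑ k ∈ P, Real.log (((n : ℤ) + f.eval (k : ℤ) : ℤ) : ℝ) - P.card * Real.log n) := by ring
      rw [e1]
      refine (abs_sub _ _).trans ((add_le_add a4 hlogs).trans (le_of_eq ?_))
      ring
    have e3 : (P.card : ℝ) / x - Sg f n z / Real.log n = ((P.card : ℝ) * Real.log n - x * Sg f n z) / (x * Real.log n) := by
      have : Real.log (n : ℝ) ≠ 0 := by linarith
      field_simp
    rw [e3, abs_div, abs_of_pos (show 0 < (x : ℝ) * Real.log n by positivity), div_le_div_iff₀ (by positivity) (by positivity),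
      one_mul]
    calc |(P.card : ℝ) * Real.log n - x * Sg f n z| * L ^ A ≤ (x * (3 / L ^ (A + 4))) * L ^ A := by gcongr
      _ = x * (3 / L ^ 4) := by
          rw [pow_add]
          field_simp
      _ ≤ x * 1 := by
          apply mul_le_mul_of_nonneg_left _ hx0r.le
          rw [div_le_one (by positivity)]
          calc (3 : ℝ) ≤ L := by linarith
            _ = L ^ 1 := (pow_one L).symm
            _ ≤ L ^ 4 := pow_le_pow_right₀ hL1 (by norm_num)
      _ ≤ x * Real.log n := by gcongr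

open Classical in
lemma card_primes_int (N X₀ : ℕ) (hcheb : ∀ X : ℕ, X₀ ≤ X → ((((Icc 1 X).filter Nat.Prime).card : ℕ) : ℝ) ≤ 2 * X / Real.log X)
    (hN : X₀ ≤ N) (hN2 : 3 ≤ N) (b : ℤ) (hb : |(b : ℝ)| ≤ N) (J : Finset ℕ) (hJ : J ⊆ Icc 1 N) :
    ((J.filter fun n : ℕ => ((n : ℤ) + b).toNat.Prime).card : ℝ) ≤ 4 * N / Real.log N := by
  have hN0 : (0 : ℝ) < N := by exact_mod_cast (by omega : 0 < N)
  have hL : 0 < Real.log (N : ℝ) := Real.log_pos (by exact_mod_cast (by omega : 1 < N))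
  have hb2 : b ≤ N := by
    have := (abs_le.1 hb).2
    exact_mod_cast this
  have h1 : (J.filter fun n : ℕ => ((n : ℤ) + b).toNat.Prime).card ≤ ((Icc 1 (2 * N)).filter Nat.Prime).card := by
    apply card_le_card_of_injOn (fun n : ℕ => ((n : ℤ) + b).toNat)
    · intro n hn
      rw [mem_coe, mem_filter] at hn
      rw [mem_coe, mem_filter, mem_Icc]
      have h2 := mem_Icc.1 (hJ hn.1)
      have h3 := hn.2.pos
      refine ⟨⟨h3, ?_⟩, hn.2⟩
      show ((n : ℤ) + b).toNat ≤ 2 * N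
      omega
    · intro a ha b' hb' h
      rw [mem_coe, mem_filter] at ha hb'
      have h3 := ha.2.pos
      have h4 := hb'.2.pos
      simp only at h
      omega
  have h2 := hcheb (2 * N) (by omega)
  have h3 : Real.log (N : ℝ) ≤ Real.log ((2 * N : ℕ) : ℝ) := Real.log_le_log hN0 (by exact_mod_cast (by omega : N ≤ 2 * N))
  calc ((J.filter fun n : ℕ => ((n : ℤ) + b).toNat.Prime).card : ℝ) ≤ (((Icc 1 (2 * N)).filter Nat.Prime).card : ℝ) := by exact_mod_cast h1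
    _ ≤ 2 * ((2 * N : ℕ) : ℝ) / Real.log ((2 * N : ℕ) : ℝ) := h2
    _ ≤ 2 * ((2 * N : ℕ) : ℝ) / Real.log N := div_le_div_of_nonneg_left (by positivity) hL h3
    _ = 4 * N / Real.log N := by push_cast; ring

/-- removing a few elements changes proportions little -/
lemma transfer (J J' : Finset ℕ) (Q : ℕ → Prop) [DecidablePred Q] (θ : ℝ) (hsub : J' ⊆ J) (hJ' : 0 < J'.card)
    (hθ : ((J \ J').card : ℝ) ≤ θ * J.card) :
    |((J.filter Q).card : ℝ) / J.card - ((J'.filter Q).card : ℝ) / J'.card| ≤ θ := by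
  have hJ0 : 0 < J.card := lt_of_lt_of_le hJ' (card_le_card hsub)
  have a1 : (0 : ℝ) < J.card := by exact_mod_cast hJ0
  have a2 : (0 : ℝ) < J'.card := by exact_mod_cast hJ'
  obtain ⟨r, hr⟩ : ∃ r : ℝ, r = (((J \ J').filter Q).card : ℝ) := ⟨_, rfl⟩
  have h1 : ((J.filter Q).card : ℝ) = ((J'.filter Q).card : ℝ) + r := by
    rw [hr]
    have h2 : J.filter Q = J'.filter Q ∪ (J \ J').filter Q := by
      rw [← filter_union, union_sdiff_of_subset hsub]
    rw [h2, card_union_of_disjoint (disjoint_filter_filter disjoint_sdiff)]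
    push_cast
    rfl
  have h2 : (J.card : ℝ) = (J'.card : ℝ) + ((J \ J').card : ℝ) := by
    have := card_sdiff_add_card_eq_card hsub
    have h3 : J.card = J'.card + (J \ J').card := by omega
    exact_mod_cast h3
  have hr0 : 0 ≤ r := by rw [hr]; positivity
  have hr1 : r ≤ ((J \ J').card : ℝ) := by rw [hr]; exact_mod_cast card_filter_le _ _
  have hq : ((J'.filter Q).card : ℝ) ≤ J'.card := by exact_mod_cast card_filter_le _ _
  have hq0 : (0 : ℝ) ≤ ((J'.filter Q).card : ℝ) := Nat.cast_nonneg _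
  have he0 : (0 : ℝ) ≤ ((J \ J').card : ℝ) := Nat.cast_nonneg _
  have key : ((J.filter Q).card : ℝ) / J.card - ((J'.filter Q).card : ℝ) / J'.card =
      (r - ((J'.filter Q).card : ℝ) / J'.card * ((J \ J').card : ℝ)) / J.card := by
    rw [h1, h2]
    field_simp
    ring
  have hp0 : 0 ≤ ((J'.filter Q).card : ℝ) / J'.card := by positivity
  have hp1 : ((J'.filter Q).card : ℝ) / J'.card ≤ 1 := by
    rw [div_le_one a2]
    exact hq
  rw [key, abs_div, abs_of_pos a1, div_le_iff₀ a1]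
  refine le_trans ?_ hθ
  rw [abs_le]
  constructor <;> nlinarith

open Classical in
/-- **The Gaussian law along polynomial sequences.** -/
theorem gau_poly (f : ℤ[X]) (hf : 1 ≤ f.natDegree) (A B : ℕ) (hB : 1 ≤ B) (ε : ℝ) (hε : 0 < ε) :
    ∃ (C B₀ K : ℕ) (δ : ℝ), 0 < δ ∧ ∀ E : ℕ, ∃ N₀ : ℕ, ∀ N : ℕ, N₀ ≤ N → ∀ z : ℕ,
    Real.log N ^ B₀ ≤ z → (z : ℝ) ≤ Real.log N ^ E → ∀ x : ℕ,
    (N : ℝ) ^ (1 / 3 : ℝ) * Real.log N ^ C ≤ (x : ℝ) ^ f.natDegree → (x : ℝ) ^ f.natDegree * Real.log N ^ C ≤ N →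
    ∀ J : Finset ℕ, J ⊆ Icc 1 N → N ≤ B * J.card →
    (∀ n ∈ J, ∀ p : ℕ, p.Prime → ∃ k : ℤ, ¬ (p : ℤ) ∣ (n : ℤ) + f.eval k) →
    ∀ m : ℕ, K * Real.log N ≤ m → (m : ℝ) ≤ Real.log N ^ A →
    ((univ.filter fun k : Fin m → Fin x => ¬ ∀ u : ℝ,
      |((J.filter fun n : ℕ => ((univ.filter fun l => ((n : ℤ) + f.eval (((k l : ℕ) : ℤ) + 1)).toNat.Prime).card : ℝ) ≤
        m * (dens f n z / Real.log n) + u * √(m * (dens f n z / Real.log n))).card : ℝ) / J.card - Phi u| ≤ ε).card : ℝ) ≤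
      (N : ℝ) ^ (-δ) * (x : ℝ) ^ m := by
  have hBr : (1 : ℝ) ≤ B := by exact_mod_cast hB
  obtain ⟨ε₁, hε₁⟩ : ∃ ε₁ : ℝ, ε₁ = min (ε / 2) (1 / 2) := ⟨_, rfl⟩
  have hε₁0 : 0 < ε₁ := by rw [hε₁]; positivity
  have hε₁a : ε₁ ≤ ε / 2 := by rw [hε₁]; exact min_le_left _ _
  have hε₁b : ε₁ ≤ 1 / 2 := by rw [hε₁]; exact min_le_right _ _
  obtain ⟨w, c, Kd, hc, hKd, htyp⟩ := dens_typ f hf (ε₁ / B) (by positivity)
  obtain ⟨B', hB'⟩ : ∃ B' : ℝ, B' = (2 * Kd + 16 * B + c) / c := ⟨_, rfl⟩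
  have hB'1 : 1 ≤ B' := by
    rw [hB', le_div_iff₀ hc]
    linarith
  obtain ⟨η, K, δ, ρ₀, hη, hδ, hρ₀, hg⟩ := gauss B' hB'1 (ε / 2) (by positivity)
  obtain ⟨C, B₀, hpr⟩ := prec_poly f hf (A + 1)
  obtain ⟨X₀, hcheb⟩ := cheb
  obtain ⟨K', hK'⟩ := exists_nat_gt (max K 1 / c)
  refine ⟨C, B₀ + 1, K', δ / c, by positivity, fun E => ?_⟩
  obtain ⟨N₁, hpr⟩ := hpr E
  obtain ⟨N₂, hN₂⟩ := eventually_atTop.1 ((ev_log_ge (8 + w + 1 / η + 2 * B / η + c / ρ₀ + 6 * B / ε₁)).and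
    ((ev_log_pow (2 * E + 1) 1).and ((ev_log_pow 8 1).and (eventually_ge_atTop 3))))
  refine ⟨N₁ + N₂ + X₀ + 3, fun N hN z hz1 hz2 x hx1 hx2 J hJ hJB hfix m hm1 hm2 => ?_⟩
  obtain ⟨hbig, hpow, hpow8, hN3⟩ := hN₂ N (by omega)
  obtain ⟨L, hL⟩ : ∃ L, L = Real.log (N : ℝ) := ⟨_, rfl⟩
  rw [← hL] at hbig hpow hpow8
  have t1 : 0 < 1 / η := by positivity
  have t2 : 0 < 2 * B / η := by positivity
  have t3 : 0 < c / ρ₀ := by positivity
  have t4 : 0 < 6 * B / ε₁ := by positivity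
  have t5 : (0 : ℝ) ≤ w := Nat.cast_nonneg _
  have hL8 : 8 ≤ L := by linarith
  have hL1 : 1 ≤ L := by linarith
  have hL0 : 0 < L := by linarith
  have hN0 : (0 : ℝ) < N := by exact_mod_cast (by omega : 0 < N)
  have hz1' : Real.log N ^ B₀ ≤ z := le_trans (pow_le_pow_right₀ (by rw [← hL]; exact hL1) (by omega)) hz1
  obtain ⟨hx0, hfN, Ex, hEx1, hEx2⟩ := hpr N (by omega) z hz1' hz2 x hx1 hx2
  have hwz : w ≤ z := by
    have h1 : (w : ℝ) ≤ z := by
      refine le_trans ?_ hz1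
      rw [← hL]
      calc (w : ℝ) ≤ L := by linarith
        _ = L ^ 1 := (pow_one L).symm
        _ ≤ L ^ (B₀ + 1) := pow_le_pow_right₀ hL1 (by omega)
    exact_mod_cast h1
  obtain ⟨E₀, hE₀1, hE₀2⟩ := htyp N z hwz (by
    have hz0 : (0 : ℝ) ≤ z := Nat.cast_nonneg _
    have h1 : (z : ℝ) ^ 2 ≤ L ^ (2 * E) := by
      rw [mul_comm 2 E, pow_mul]
      exact pow_le_pow_left₀ hz0 (by rw [hL]; exact hz2) 2
    have h2 : 6 * B / ε₁ ≤ L := by linarith
    rw [div_le_iff₀ hε₁0] at h2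
    rw [div_mul_eq_mul_div, le_div_iff₀ (by positivity)]
    calc 6 * (z : ℝ) ^ 2 * B ≤ 6 * L ^ (2 * E) * B := by gcongr
      _ = (6 * B) * L ^ (2 * E) := by ring
      _ ≤ (L * ε₁) * L ^ (2 * E) := by gcongr
      _ = ε₁ * (1 * L ^ (2 * E + 1)) := by ring
      _ ≤ ε₁ * N := by
          apply mul_le_mul_of_nonneg_left _ hε₁0.le
          exact hpow)
  have hJ0 : 0 < J.card := by
    rcases Nat.eq_zero_or_pos J.card with h | h
    · rw [h, mul_zero] at hJB
      omega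
    · exact h
  have hJr : (N : ℝ) ≤ B * J.card := by exact_mod_cast hJB
  have hJc : (0 : ℝ) < J.card := by exact_mod_cast hJ0
  -- the good part
  obtain ⟨J', hJ'⟩ : ∃ J', J' = J \ E₀ := ⟨_, rfl⟩
  have hsub : J' ⊆ J := by rw [hJ']; exact sdiff_subset
  have hrem : ((J \ J').card : ℝ) ≤ ε₁ * J.card := by
    have h1 : J \ J' ⊆ E₀ := by
      intro n hn
      rw [hJ', Finset.mem_sdiff, Finset.mem_sdiff] at hn
      by_contra hc2
      exact hn.2 ⟨hn.1, hc2⟩
    have h2 : ((J \ J').card : ℝ) ≤ E₀.card := by exact_mod_cast card_le_card h1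
    refine h2.trans (hE₀1.trans ?_)
    rw [div_mul_eq_mul_div, div_le_iff₀ (by positivity)]
    calc ε₁ * N ≤ ε₁ * (B * J.card) := mul_le_mul_of_nonneg_left hJr hε₁0.le
      _ = ε₁ * J.card * B := by ring
  have hcard' : (J.card : ℝ) ≤ 2 * J'.card := by
    have h3 : J.card = J'.card + (J \ J').card := by
      have := card_sdiff_add_card_eq_card hsub
      omega
    have h4 : (J.card : ℝ) = (J'.card : ℝ) + ((J \ J').card : ℝ) := by exact_mod_cast h3
    nlinarith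
  have hJ'0 : 0 < J'.card := by
    have : (0 : ℝ) < J'.card := by linarith
    exact_mod_cast this
  have hJ'r : (N : ℝ) ≤ 2 * B * J'.card := by nlinarith
  obtain ⟨ρ, hρ⟩ : ∃ ρ : ℝ, ρ = c / L := ⟨_, rfl⟩
  have hρ0 : 0 < ρ := by rw [hρ]; positivity
  have hmρ : max K 1 ≤ m * ρ := by
    rw [hρ, mul_div_assoc', le_div_iff₀ hL0]
    rw [div_lt_iff₀ hc] at hK'
    calc max K 1 * L ≤ (K' * c) * L := mul_le_mul_of_nonneg_right hK'.le hL0.le
      _ = (K' * L) * c := by ring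
      _ ≤ m * c := mul_le_mul_of_nonneg_right (by rw [hL]; exact hm1) hc.le
  have : Nonempty (Fin x) := ⟨⟨0, by omega⟩⟩
  have hav : ∀ n : ℕ, av (fun k : Fin x => if ((n : ℤ) + f.eval (((k : ℕ) : ℤ) + 1)).toNat.Prime then (1 : ℝ) else 0) =
      (((Icc 1 x).filter fun k : ℕ => ((n : ℤ) + f.eval (k : ℤ)).toNat.Prime).card : ℝ) / x := by
    intro n
    unfold av
    rw [Fintype.card_fin]
    have e1 : ∑ k : Fin x, (if ((n : ℤ) + f.eval (((k : ℕ) : ℤ) + 1)).toNat.Prime then (1 : ℝ) else 0) =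
        (((Icc 1 x).filter fun k : ℕ => ((n : ℤ) + f.eval (k : ℤ)).toNat.Prime).card : ℝ) := by
      have e2 : Icc 1 x = Ico (0 + 1) (x + 1) := by
        ext k
        simp only [mem_Icc, mem_Ico]
        omega
      rw [← sum_boole, e2, ← sum_Ico_add' (fun k : ℕ => if ((n : ℤ) + f.eval (k : ℤ)).toNat.Prime then (1 : ℝ) else 0) 0 x 1,
        ← range_eq_Ico, Fin.sum_univ_eq_sum_range (fun k : ℕ => if ((n : ℤ) + f.eval ((k : ℤ) + 1)).toNat.Prime then (1 : ℝ) else 0) x]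
      refine sum_congr rfl fun k _ => ?_
      push_cast
      rfl
    rw [e1]
  have hres := hg (Fin x) J' Ex (fun n k => if ((n : ℤ) + f.eval (((k : ℕ) : ℤ) + 1)).toNat.Prime then (1 : ℝ) else 0)
    (fun n => dens f n z / Real.log n) ρ m (card_pos.1 hJ'0) (fun n a => by
    split_ifs
    · exact Or.inr rfl
    · exact Or.inl rfl) hρ0 (by
    rw [hρ, div_le_iff₀ hL0]
    have h1 : c / ρ₀ ≤ L := by linarith
    rw [div_le_iff₀ hρ₀] at h1
    linarith) ((le_max_left _ _).trans hmρ) (by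
    have h1 : ((J' ∩ Ex).card : ℝ) ≤ Ex.card := by exact_mod_cast card_le_card inter_subset_right
    refine h1.trans (hEx1.trans ?_)
    rw [← hL, div_le_iff₀ hL0]
    have h2 : 2 * B / η ≤ L := by linarith
    rw [div_le_iff₀ hη] at h2
    have h3 : (0 : ℝ) < J'.card := by exact_mod_cast hJ'0
    calc (N : ℝ) ≤ 2 * B * J'.card := hJ'r
      _ ≤ (L * η) * J'.card := mul_le_mul_of_nonneg_right h2 h3.le
      _ = η * J'.card * L := by ring) (fun n hn => by
    rw [Finset.mem_sdiff, hJ', Finset.mem_sdiff] at hn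
    obtain ⟨⟨hn1, hn2⟩, hn3⟩ := hn
    obtain ⟨a1, a2⟩ := hEx2 n (hJ hn1) hn3
    obtain ⟨b2, b1⟩ := hE₀2 n (hJ hn1) hn2
    have b1 := b1 (hfix n hn1)
    have hnI := mem_Icc.1 (hJ hn1)
    rw [← hL] at a1 a2
    have hlogup : Real.log (n : ℝ) ≤ L := by
      rw [hL]
      exact Real.log_le_log (by exact_mod_cast hnI.1) (by exact_mod_cast hnI.2)
    have hloglo : L / 2 ≤ Real.log (n : ℝ) := by
      have h1 := Real.log_le_log (by positivity) a1
      rw [Real.log_div (by positivity) (by positivity), Real.log_pow, ← hL] at h1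
      have h2 : Real.log L * 4 ≤ L := by
        have h3 := Real.log_le_log (by positivity) hpow8
        rw [Real.log_mul (by norm_num) (by positivity), Real.log_one, zero_add, Real.log_pow, ← hL] at h3
        push_cast at h3
        have h4 : 0 ≤ Real.log L := Real.log_nonneg hL1
        linarith
      push_cast at h1
      linarith
    have hlog0 : 0 < Real.log (n : ℝ) := by linarith
    have hρr : ρ ≤ dens f n z / Real.log n := by
      rw [hρ, div_le_div_iff₀ hL0 hlog0]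
      exact mul_le_mul b1 hlogup hlog0.le (hc.le.trans b1)
    have hmr : 1 ≤ m * (dens f n z / Real.log n) :=
      ((le_max_right _ _).trans hmρ).trans (mul_le_mul_of_nonneg_left hρr (Nat.cast_nonneg _))
    refine ⟨hρr, ?_, ?_⟩
    · rw [div_le_iff₀ hlog0, hρ, hB', show (2 * Kd + 16 * B + c) / c * (c / L) * Real.log n =
        (2 * Kd + 16 * B + c) * (Real.log n / L) by field_simp]
      have h5 : 1 / 2 ≤ Real.log n / L := by
        rw [le_div_iff₀ hL0]
        linarith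
      calc dens f n z ≤ Kd := b2
        _ ≤ (2 * Kd + 16 * B + c) * (1 / 2) := by linarith
        _ ≤ _ := mul_le_mul_of_nonneg_left h5 (by positivity)
    · rw [hav]
      calc m * |(((Icc 1 x).filter fun k : ℕ => ((n : ℤ) + f.eval (k : ℤ)).toNat.Prime).card : ℝ) / x - dens f n z / Real.log n|
          ≤ L ^ A * (1 / L ^ (A + 1)) := mul_le_mul (by rw [hL]; exact hm2) a2 (abs_nonneg _) (by positivity)
        _ = 1 / L := by rw [pow_succ]; field_simp
        _ ≤ η := by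
          rw [div_le_iff₀ hL0]
          have h2 : 1 / η ≤ L := by linarith
          rw [div_le_iff₀ hη] at h2
          linarith
        _ ≤ η * √(m * (dens f n z / Real.log n)) := le_mul_of_one_le_right hη.le (Real.one_le_sqrt.2 hmr)) (fun a => by
    have h1 : ∑ n ∈ J' \ Ex, (if ((n : ℤ) + f.eval (((a : ℕ) : ℤ) + 1)).toNat.Prime then (1 : ℝ) else 0) ≤
        ((J'.filter fun n : ℕ => ((n : ℤ) + f.eval (((a : ℕ) : ℤ) + 1)).toNat.Prime).card : ℝ) := by
      rw [sum_boole]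
      exact_mod_cast card_le_card (filter_subset_filter _ sdiff_subset)
    refine h1.trans ((card_primes_int N X₀ hcheb (by omega) (by omega) (f.eval (((a : ℕ) : ℤ) + 1)) ?_ J' (hsub.trans hJ)).trans ?_)
    · have h2 := hfN ((a : ℕ) + 1) (mem_Icc.2 ⟨by omega, by have := a.2; omega⟩)
      push_cast at h2
      exact h2
    · rw [← hL, hρ, hB', div_le_iff₀ hL0, show (2 * Kd + 16 * B + c) / c * (c / L) * J'.card * L =
        (2 * Kd + 16 * B + c) * J'.card by field_simp]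
      have h3 : (0 : ℝ) < J'.card := by exact_mod_cast hJ'0
      have h4 : 0 ≤ (2 * Kd + c) * J'.card := by positivity
      nlinarith)
  refine le_trans ?_ (hres.trans (le_of_eq ?_))
  · have h1 : (univ.filter fun k : Fin m → Fin x => ¬ ∀ u : ℝ,
        |((J.filter fun n : ℕ => ((univ.filter fun l => ((n : ℤ) + f.eval (((k l : ℕ) : ℤ) + 1)).toNat.Prime).card : ℝ) ≤
          m * (dens f n z / Real.log n) + u * √(m * (dens f n z / Real.log n))).card : ℝ) / J.card - Phi u| ≤ ε) ⊆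
        (univ.filter fun ω : Fin m → Fin x => ¬ ∀ u : ℝ,
          |((J'.filter fun n : ℕ => ∑ l, (if ((n : ℤ) + f.eval (((ω l : ℕ) : ℤ) + 1)).toNat.Prime then (1 : ℝ) else 0) ≤
            m * (dens f n z / Real.log n) + u * √(m * (dens f n z / Real.log n))).card : ℝ) / J'.card - Phi u| ≤ ε / 2) := by
      intro k hk
      rw [mem_filter] at hk ⊢
      refine ⟨hk.1, fun hcon => hk.2 fun u => ?_⟩
      have h2 := hcon u
      simp only [sum_boole] at h2
      have h3 := transfer J J' (fun n => ((univ.filter fun l => ((n : ℤ) + f.eval (((k l : ℕ) : ℤ) + 1)).toNat.Prime).card : ℝ) ≤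
          m * (dens f n z / Real.log n) + u * √(m * (dens f n z / Real.log n))) ε₁ hsub hJ'0 hrem
      calc _ ≤ _ := abs_sub_le _ (((J'.filter fun n : ℕ =>
            ((univ.filter fun l => ((n : ℤ) + f.eval (((k l : ℕ) : ℤ) + 1)).toNat.Prime).card : ℝ) ≤
            m * (dens f n z / Real.log n) + u * √(m * (dens f n z / Real.log n))).card : ℝ) / J'.card) _
        _ ≤ ε₁ + ε / 2 := add_le_add h3 h2
        _ ≤ ε := by linarith
    exact_mod_cast card_le_card h1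
  · rw [Fintype.card_fin, hρ, Real.rpow_def_of_pos hN0, ← hL]
    congr 2
    field_simp

end Pool.Agent.Run7.h524.MG
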