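import Pool.Agent.Run7.h524.MG.ConA
import Pool.Agent.Run7.h524.MG.Pois2
import Pool.Agent.Run7.h524.MG.Pol
import Pool.Agent.Run7.h18.MK.Sys4

/-!
# The Poisson law for prime constellations along random lists of primes
-/

set_option autoImplicit false

namespace Pool.Agent.Run7.h524.MG

open Finset Filter Polynomial Topology
open Pool.Agent.R460.SQ (thp)
open Pool.Agent.Run7.h18.MK (gP gP_eval sysp_fin eval_le)
open Pool.Agent.H373R2.T7 (Vz pz mem_pz Vz_pos nuB nuB_le)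
open Pool.Agent.N384.MQ (ev_log_pow ev_log_ge)
open Pool.Agent.Run7.h794.MK (cheb)
open Q282.CL (av)

/-- all values are primes -/
def AllP {k : ℕ} (F : Fin k → ℤ[X]) (a : Fin k → ℕ) (p : ℕ) : Prop := ∀ i, ((a i : ℤ) + (F i).eval (p : ℤ)).toNat.Prime

lemma sdens_nonneg (g : ℤ[X]) (j z : ℕ) : 0 ≤ Pool.Agent.Run7.h18.MK.dens g j z := by
  unfold Pool.Agent.Run7.h18.MK.dens
  apply mul_nonneg
  · exact pow_nonneg (inv_nonneg.2 (Vz_pos z).le) _
  · apply prod_nonneg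
    intro p hp
    have hp0 : (0 : ℝ) < p := by exact_mod_cast (mem_pz.1 hp).2.pos
    rw [sub_nonneg, div_le_one hp0]
    exact_mod_cast nuB_le _ _

/-- bounded coefficients -/
lemma coeff_bd {k : ℕ} (F : Fin k → ℤ[X]) : ∃ Kc : ℝ, 0 ≤ Kc ∧ ∀ i j, |(((F i).coeff j : ℤ) : ℝ)| ≤ Kc := by
  refine ⟨∑ i, ∑ j ∈ (F i).support, |(((F i).coeff j : ℤ) : ℝ)|, sum_nonneg fun i _ => sum_nonneg fun j _ => abs_nonneg _,
    fun i j => ?_⟩
  have h1 : ∑ j ∈ (F i).support, |(((F i).coeff j : ℤ) : ℝ)| ≤ ∑ i, ∑ j ∈ (F i).support, |(((F i).coeff j : ℤ) : ℝ)| :=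
    single_le_sum (f := fun i => ∑ j ∈ (F i).support, |(((F i).coeff j : ℤ) : ℝ)|)
      (fun i _ => sum_nonneg fun j _ => abs_nonneg _) (mem_univ i)
  refine le_trans ?_ h1
  by_cases hj : j ∈ (F i).support
  · exact single_le_sum (f := fun j => |(((F i).coeff j : ℤ) : ℝ)|) (fun j _ => abs_nonneg _) hj
  · rw [notMem_support_iff.1 hj]
    simp only [Int.cast_zero, abs_zero]
    exact sum_nonneg fun j _ => abs_nonneg _

/-- the total of the weighted sums -/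
lemma total {k : ℕ} (F : Fin k → ℤ[X]) (N x : ℕ) (hN : 0 ≤ (N : ℝ)) (X0 : ℝ) (hx : ∑ m ∈ Icc 1 x, thp m ≤ X0)
    (h : ∀ i, ∀ m ∈ Icc 1 x, ∑ n ∈ Icc 1 N, thp ((n : ℤ) + (F i).eval (m : ℤ)).toNat ≤ 8 * N) :
    ∑ a ∈ Fintype.piFinset (fun _ : Fin k => Icc 1 N), ∑ m ∈ Icc 1 x, thp m * ∏ i, thp ((a i : ℤ) + (F i).eval (m : ℤ)).toNat ≤
      X0 * (8 * N) ^ k := by
  have hthp : ∀ n : ℕ, 0 ≤ thp n := by
    intro n
    unfold Pool.Agent.R460.SQ.thp
    split_ifs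
    · exact Real.log_natCast_nonneg n
    · exact le_refl _
  rw [sum_comm]
  have h1 : ∀ m ∈ Icc 1 x, ∑ a ∈ Fintype.piFinset (fun _ : Fin k => Icc 1 N), thp m * ∏ i, thp ((a i : ℤ) + (F i).eval (m : ℤ)).toNat ≤
      thp m * (8 * N) ^ k := by
    intro m hm
    rw [← mul_sum]
    apply mul_le_mul_of_nonneg_left _ (hthp m)
    rw [← prod_univ_sum (fun _ : Fin k => Icc 1 N) (fun i n => thp ((n : ℤ) + (F i).eval (m : ℤ)).toNat)]
    refine (prod_le_prod (fun i _ => sum_nonneg fun n _ => hthp _) fun i _ => h i m hm).trans (le_of_eq ?_)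
    rw [prod_const, card_univ, Fintype.card_fin]
  refine (sum_le_sum h1).trans ?_
  rw [← sum_mul]
  exact mul_le_mul_of_nonneg_right hx (by positivity)

lemma ev_exp (n : ℕ) (c κ : ℝ) (hc : 0 < c) (hκ : 0 < κ) : ∀ᶠ N : ℕ in atTop, Real.log N ^ n * Real.exp (-(c * Real.log N)) ≤ κ := by
  have h1 := (Real.tendsto_pow_mul_exp_neg_atTop_nhds_zero n)
  have h2 : Tendsto (fun N : ℕ => c * Real.log N) atTop atTop :=
    (Real.tendsto_log_atTop.comp tendsto_natCast_atTop_atTop).const_mul_atTop hc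
  have h3 := h1.comp h2
  have h4 := h3.eventually (gt_mem_nhds (show (0 : ℝ) < κ * c ^ n by positivity))
  filter_upwards [h4] with N hN
  simp only [Function.comp_apply] at hN
  rw [mul_pow] at hN
  have hcn : 0 < c ^ n := by positivity
  have h5 : c ^ n * (Real.log N ^ n * Real.exp (-(c * Real.log N))) ≤ c ^ n * κ := by linarith
  exact le_of_mul_le_mul_left h5 hcn

/-- **one vector** -/
lemma one_vec {k : ℕ} (hk : 1 ≤ k) (F : Fin k → ℤ[X]) (a : Fin k → ℕ) (N x : ℕ) (L : ℝ) (hLN : L = Real.log N) (hL8 : 8 ≤ L) (hx : 2 ≤ x)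
    (σ : ℝ) (hσ : 0 < σ) (hσ1 : σ ≤ 1 / 4) (hLσ : 8 * k / σ ≤ L) (ha : ∀ i, (N : ℝ) / L ^ 2 ≤ (a i : ℝ)) (haN : ∀ i, a i ≤ N)
    (hlog8 : L ^ 8 ≤ (N : ℝ)) (hFb : ∀ i, ∀ p ∈ Icc 1 x, |(((F i).eval (p : ℤ) : ℤ) : ℝ)| ≤ N / L ^ 4)
    (D Kd u : ℝ) (hu : 0 ≤ u) (hD : 0 ≤ D) (hDK : D ≤ Kd)
    (hS : |∑ m ∈ Icc 1 x, thp m * ∏ i, thp ((a i : ℤ) + (F i).eval (m : ℤ)).toNat - x * D| ≤ x * u)
    (hQ : |((((Icc 1 x).filter Nat.Prime).card : ℕ) : ℝ) * Real.log x / x - 1| ≤ σ) (hxN : x ≤ N) [DecidablePred (AllP F a)] :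
    |((((Icc 1 x).filter Nat.Prime).filter (AllP F a)).card : ℝ) / (((Icc 1 x).filter Nat.Prime).card : ℝ) -
      D / ∏ i, Real.log (a i)| ≤ (4 * σ * Kd + 2 * u + 2 * ((x : ℝ) ^ (-(σ / 2)) * L ^ (k + 1))) * (2 / L) ^ k := by
  have hk0 : (0 : ℝ) < k := by exact_mod_cast hk
  have hk1 : (1 : ℝ) ≤ k := by exact_mod_cast hk
  have hL0 : 0 < L := by linarith
  have hL1 : 1 ≤ L := by linarith
  have hx0 : (0 : ℝ) < x := by exact_mod_cast (by omega : 0 < x)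
  have hℓ : 0 < Real.log (x : ℝ) := Real.log_pos (by exact_mod_cast (by omega : 1 < x))
  have hN0 : (0 : ℝ) < N := lt_of_lt_of_le (by positivity) hlog8
  have ha0 : ∀ i, (0 : ℝ) < (a i : ℝ) := fun i => lt_of_lt_of_le (by positivity) (ha i)
  have hloga : ∀ i, L / 2 ≤ Real.log (a i : ℝ) := by
    intro i
    have h1 := Real.log_le_log (by positivity) (ha i)
    rw [Real.log_div (by positivity) (by positivity), Real.log_pow, ← hLN] at h1
    have h2 : Real.log L * 8 ≤ L := by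
      have h3 := Real.log_le_log (by positivity) hlog8
      rw [Real.log_pow, ← hLN] at h3
      push_cast at h3
      linarith
    push_cast at h1
    have h4 : 0 ≤ Real.log L := Real.log_nonneg hL1
    linarith
  have hlogaN : ∀ i, Real.log (a i : ℝ) ≤ L := by
    intro i
    rw [hLN]
    exact Real.log_le_log (ha0 i) (by exact_mod_cast haN i)
  have hloga0 : ∀ i, 0 < Real.log (a i : ℝ) := fun i => by have := hloga i; linarith
  obtain ⟨M, hM⟩ : ∃ M : ℝ, M = ∏ i, Real.log (a i : ℝ) := ⟨_, rfl⟩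
  have hM0 : 0 < M := by rw [hM]; exact prod_pos fun i _ => hloga0 i
  have hML : M ≤ L ^ k := by
    rw [hM]
    refine (prod_le_prod (fun i _ => (hloga0 i).le) fun i _ => hlogaN i).trans (le_of_eq ?_)
    rw [prod_const, card_univ, Fintype.card_fin]
  have hLM : (L / 2) ^ k ≤ M := by
    rw [hM]
    refine le_trans (le_of_eq ?_) (prod_le_prod (fun i _ => by positivity) fun i _ => hloga i)
    rw [prod_const, card_univ, Fintype.card_fin]
  -- the logarithms of the values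
  have hnear : ∀ p ∈ Icc 1 x, (1 - σ / 2) * M ≤ ∏ i, Real.log (((a i : ℤ) + (F i).eval (p : ℤ)).toNat : ℝ) ∧
      ∏ i, Real.log (((a i : ℤ) + (F i).eval (p : ℤ)).toNat : ℝ) ≤ (1 + σ) * M := by
    intro p hp
    rw [hM]
    apply prod_near hk σ hσ (by linarith) _ _ hloga0
    intro i
    have h1 : |(((F i).eval (p : ℤ) : ℤ) : ℝ)| ≤ 1 / L ^ 2 * ((a i : ℤ) : ℝ) := by
      refine (hFb i p hp).trans ?_
      rw [Int.cast_natCast]
      calc (N : ℝ) / L ^ 4 = 1 / L ^ 2 * (N / L ^ 2) := by field_simp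
        _ ≤ _ := mul_le_mul_of_nonneg_left (ha i) (by positivity)
    have h2 := log_near (a i : ℤ) ((F i).eval (p : ℤ)) (1 / L ^ 2) (by
      rw [Int.cast_natCast]
      refine le_trans ?_ (ha i)
      rw [le_div_iff₀ (by positivity), one_mul]
      exact (pow_le_pow_right₀ hL1 (by norm_num)).trans hlog8) (by
      rw [div_le_div_iff₀ (by positivity) (by norm_num)]
      nlinarith) h1
    have h3 : 1 ≤ (a i : ℤ) + (F i).eval (p : ℤ) := by
      have h4 : (0 : ℝ) < (a i : ℝ) + (((F i).eval (p : ℤ) : ℤ) : ℝ) := by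
        have h5 := (abs_le.1 h1).1
        rw [Int.cast_natCast] at h5
        have h6 : 1 / L ^ 2 * (a i : ℝ) ≤ 1 / 2 * (a i : ℝ) := by
          apply mul_le_mul_of_nonneg_right _ (ha0 i).le
          rw [div_le_div_iff₀ (by positivity) (by norm_num)]
          nlinarith
        have := ha0 i
        linarith
      have h7 : (0 : ℝ) < (((a i : ℤ) + (F i).eval (p : ℤ) : ℤ) : ℝ) := by push_cast; exact h4
      have h8 : 0 < (a i : ℤ) + (F i).eval (p : ℤ) := by exact_mod_cast h7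
      omega
    have h4 : ((((a i : ℤ) + (F i).eval (p : ℤ)).toNat : ℕ) : ℝ) = (((a i : ℤ) + (F i).eval (p : ℤ) : ℤ) : ℝ) := by
      rw [← Int.cast_natCast, Int.toNat_of_nonneg (by omega)]
    rw [h4]
    have h5 : Real.log ((a i : ℤ) : ℝ) = Real.log (a i : ℝ) := by rw [Int.cast_natCast]
    rw [h5] at h2
    refine h2.trans ?_
    have h6 : σ / (2 * k) * (L / 2) ≤ σ / (2 * k) * Real.log (a i : ℝ) := mul_le_mul_of_nonneg_left (hloga i) (by positivity)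
    refine le_trans ?_ h6
    rw [div_le_iff₀ hσ] at hLσ
    rw [show 2 * (1 / L ^ 2) = 2 / L ^ 2 by ring, div_mul_div_comm, div_le_div_iff₀ (by positivity) (by positivity)]
    have h7 : 8 * (k : ℝ) ≤ L * σ := hLσ
    have h8 : (1 : ℝ) ≤ L ^ 2 := one_le_pow₀ hL1
    calc 2 * (2 * (k : ℝ) * 2) = 8 * k * 1 := by ring
      _ ≤ (L * σ) * L ^ 2 := mul_le_mul h7 h8 (by norm_num) (by positivity)
      _ = σ * L * L ^ 2 := by ring
  -- the sum over the constellations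
  obtain ⟨T, hT⟩ : ∃ T, T = ((Icc 1 x).filter Nat.Prime).filter (AllP F a) := ⟨_, rfl⟩
  have hSe : ∑ m ∈ Icc 1 x, thp m * ∏ i, thp ((a i : ℤ) + (F i).eval (m : ℤ)).toNat =
      ∑ p ∈ T, Real.log p * ∏ i, Real.log (((a i : ℤ) + (F i).eval (p : ℤ)).toNat : ℝ) := by
    rw [hT, filter_filter, sum_filter]
    refine sum_congr rfl fun m hm => ?_
    unfold Pool.Agent.R460.SQ.thp
    rw [prod_ite_zero]
    simp only [mem_univ, true_imp_iff]
    by_cases h7 : m.Prime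
    · by_cases h8 : ∀ i, ((a i : ℤ) + (F i).eval (m : ℤ)).toNat.Prime
      · rw [if_pos h7, if_pos h8, if_pos ⟨h7, h8⟩]
      · rw [if_neg h8, mul_zero, if_neg (fun h => h8 h.2)]
    · rw [if_neg h7, zero_mul, if_neg (fun h => h7 h.1)]
  rw [hSe] at hS
  obtain ⟨b1, b2⟩ := count_bd x hx T (fun p hp => by
    rw [hT, mem_filter, mem_filter, mem_Icc] at hp
    exact hp.1.1) (fun p => ∏ i, Real.log (((a i : ℤ) + (F i).eval (p : ℤ)).toNat : ℝ)) M σ hM0 hσ (by linarith) (fun p hp => by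
    rw [hT, mem_filter, mem_filter] at hp
    exact hnear p hp.1.1)
  obtain ⟨Q, hQd⟩ : ∃ Q : ℝ, Q = ((((Icc 1 x).filter Nat.Prime).card : ℕ) : ℝ) := ⟨_, rfl⟩
  rw [← hQd] at hQ ⊢
  rw [← hT, ← hM]
  have hQ0 : 0 < Q := by
    have h1 := (abs_le.1 hQ).1
    have h2 : 0 < Q * Real.log x / x := by linarith
    by_contra hc
    push Not at hc
    have : Q * Real.log x / x ≤ 0 := div_nonpos_of_nonpos_of_nonneg (mul_nonpos_of_nonpos_of_nonneg hc hℓ.le) hx0.le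
    linarith
  obtain ⟨S, hSd⟩ : ∃ S : ℝ, S = ∑ p ∈ T, Real.log p * ∏ i, Real.log (((a i : ℤ) + (F i).eval (p : ℤ)).toNat : ℝ) := ⟨_, rfl⟩
  rw [← hSd] at hS b1 b2
  obtain ⟨y, hy⟩ : ∃ y : ℝ, y = (x : ℝ) ^ (1 - σ / 2) := ⟨_, rfl⟩
  rw [← hy] at b2
  have hy0 : 0 < y := by rw [hy]; positivity
  have hyx : y / x = (x : ℝ) ^ (-(σ / 2)) := by
    rw [hy, show 1 - σ / 2 = 1 + -(σ / 2) by ring, Real.rpow_add hx0, Real.rpow_one]
    field_simp
  obtain ⟨v, hv⟩ : ∃ v : ℝ, v = T.card * M * Real.log x / x := ⟨_, rfl⟩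
  obtain ⟨w, hw⟩ : ∃ w : ℝ, w = M * Real.log x * (y / x) := ⟨_, rfl⟩
  have hv0 : 0 ≤ v := by rw [hv]; positivity
  have hw0 : 0 ≤ w := by rw [hw]; positivity
  have hmain := dens_bd v w (S / x) D Kd u (Q * Real.log x / x) σ hv0 hw0 hu hD hDK hσ hσ1 (by
    rw [hv, div_le_iff₀ hx0]
    calc S ≤ (1 + σ) * M * Real.log x * T.card := b1
      _ = (1 + σ) * (T.card * M * Real.log x / x) * x := by field_simp) (by
    rw [hv, hw, le_div_iff₀ hx0]
    calc (1 - σ) * (T.card * M * Real.log x / x - M * Real.log x * (y / x)) * x =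
        (1 - σ) * M * Real.log x * (T.card - y) := by field_simp
      _ ≤ S := b2) (by
    rw [show S / x - D = (S - x * D) / x by field_simp, abs_div, abs_of_pos hx0, div_le_iff₀ hx0]
    linarith) hQ
  have hvq : v / (Q * Real.log x / x) = T.card / Q * M := by
    rw [hv]
    field_simp
  rw [hvq] at hmain
  have hw1 : w ≤ (x : ℝ) ^ (-(σ / 2)) * L ^ (k + 1) := by
    rw [hw, hyx]
    have h1 : Real.log (x : ℝ) ≤ L := by
      rw [hLN]
      exact Real.log_le_log hx0 (by exact_mod_cast hxN)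
    calc M * Real.log x * (x : ℝ) ^ (-(σ / 2)) ≤ L ^ k * L * (x : ℝ) ^ (-(σ / 2)) := by gcongr
      _ = _ := by ring
  have e : (T.card : ℝ) / Q - D / M = (T.card / Q * M - D) / M := by field_simp
  rw [e, abs_div, abs_of_pos hM0, div_le_iff₀ hM0]
  refine hmain.trans ?_
  have h9 : 1 ≤ (2 / L) ^ k * M := by
    calc (1 : ℝ) = (2 / L) ^ k * (L / 2) ^ k := by rw [← mul_pow]; field_simp; norm_num
      _ ≤ _ := mul_le_mul_of_nonneg_left hLM (by positivity)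
  have h10 : 0 ≤ 4 * σ * Kd + 2 * u + 2 * ((x : ℝ) ^ (-(σ / 2)) * L ^ (k + 1)) := by
    have : 0 ≤ Kd := hD.trans hDK
    positivity
  calc 4 * σ * Kd + 2 * u + 2 * w ≤ (4 * σ * Kd + 2 * u + 2 * ((x : ℝ) ^ (-(σ / 2)) * L ^ (k + 1))) * 1 := by linarith
    _ ≤ (4 * σ * Kd + 2 * u + 2 * ((x : ℝ) ^ (-(σ / 2)) * L ^ (k + 1))) * ((2 / L) ^ k * M) := mul_le_mul_of_nonneg_left h9 h10
    _ = _ := by ring

end Pool.Agent.Run7.h524.MG
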