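import Pool.Agent.Q282.CL.Dist

/-!
# Empirical laws whose characteristic functions are close to the one of the normal law
-/

set_option autoImplicit false

namespace Pool.Agent.Run7.h524.MG

open Finset MeasureTheory ProbabilityTheory Filter
open Q282.CL (av lw levy lw_real chr_lw av_sub norm_av_le av_mono av_mul)
open scoped Topology ENNReal NNReal

/-- the distribution function of the standard normal law -/
noncomputable def Phi (u : ℝ) : ℝ := (gaussianReal 0 1).real (Set.Iic u)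

lemma inner_R (a b : ℝ) : (inner ℝ a b : ℝ) = a * b := by
  rw [RCLike.inner_apply]
  simp [mul_comm]

lemma Phi_mono : Monotone Phi := fun _ _ h => measureReal_mono (Set.Iic_subset_Iic.2 h)

lemma Phi_nonneg (u : ℝ) : 0 ≤ Phi u := measureReal_nonneg

lemma Phi_le_one (u : ℝ) : Phi u ≤ 1 := measureReal_le_one

lemma Phi_lip {a b : ℝ} (h : a ≤ b) : Phi b - Phi a ≤ b - a := by
  have h1 : (gaussianReal 0 1).real (Set.Iic b) = (gaussianReal 0 1).real (Set.Iic a) + (gaussianReal 0 1).real (Set.Ioc a b) := by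
    rw [← measureReal_union (by
      rw [Set.disjoint_left]
      intro x hx hx2
      exact absurd hx2.1 (not_lt.2 hx)) measurableSet_Ioc, Set.Iic_union_Ioc_eq_Iic h]
  have h2 : (gaussianReal 0 1).real (Set.Ioc a b) ≤ b - a := by
    rw [measureReal_def, gaussianReal_apply_eq_integral 0 (by norm_num)]
    rw [ENNReal.toReal_ofReal (setIntegral_nonneg measurableSet_Ioc fun x _ => gaussianPDFReal_nonneg _ _ _)]
    have h3 : ∀ x ∈ Set.Ioc a b, ‖gaussianPDFReal 0 1 x‖ ≤ 1 := by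
      intro x _
      rw [Real.norm_of_nonneg (gaussianPDFReal_nonneg _ _ _), gaussianPDFReal]
      have e1 : Real.exp (-(x - 0) ^ 2 / (2 * ((1 : ℝ≥0) : ℝ))) ≤ 1 := by
        rw [Real.exp_le_one_iff]
        have := sq_nonneg (x - 0)
        rw [NNReal.coe_one]
        linarith
      have e2 : (√(2 * Real.pi * ((1 : ℝ≥0) : ℝ)))⁻¹ ≤ 1 := by
        apply inv_le_one_of_one_le₀
        rw [Real.one_le_sqrt, NNReal.coe_one]
        linarith [Real.pi_gt_three]
      calc (√(2 * Real.pi * ((1 : ℝ≥0) : ℝ)))⁻¹ * Real.exp (-(x - 0) ^ 2 / (2 * ((1 : ℝ≥0) : ℝ))) ≤ 1 * 1 :=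
            mul_le_mul e2 e1 (Real.exp_pos _).le zero_le_one
        _ = 1 := one_mul 1
    have h4 := norm_setIntegral_le_of_norm_le_const (μ := volume) (s := Set.Ioc a b) (by
      rw [Real.volume_Ioc]; exact ENNReal.ofReal_lt_top) h3
    rw [Real.norm_of_nonneg (setIntegral_nonneg measurableSet_Ioc fun x _ => gaussianPDFReal_nonneg _ _ _), one_mul] at h4
    refine h4.trans (le_of_eq ?_)
    rw [measureReal_def, Real.volume_Ioc, ENNReal.toReal_ofReal (by linarith)]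
  unfold Phi
  linarith

lemma Phi_frontier (u : ℝ) : (gaussianReal 0 1) (frontier (Set.Iic u)) = 0 := by
  rw [frontier_Iic]
  have : NullSingletonClass (gaussianReal 0 1) := nullSingletonClass_gaussianReal (by norm_num)
  exact measure_singleton u

lemma Phi_top : Tendsto Phi atTop (𝓝 1) := by
  have h := tendsto_cdf_atTop (gaussianReal 0 1)
  refine h.congr fun u => ?_
  rw [cdf_eq_real]
  rfl

lemma Phi_bot : Tendsto Phi atBot (𝓝 0) := by
  have h := tendsto_cdf_atBot (gaussianReal 0 1)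
  refine h.congr fun u => ?_
  rw [cdf_eq_real]
  rfl

/-- a finite grid is enough -/
theorem grid (ε : ℝ) (hε : 0 < ε) : ∃ T : Finset ℝ, ∀ F : ℝ → ℝ, Monotone F → (∀ u, 0 ≤ F u ∧ F u ≤ 1) →
    (∀ u ∈ T, |F u - Phi u| ≤ ε) → ∀ u, |F u - Phi u| ≤ 3 * ε := by
  obtain ⟨M₁, hM₁⟩ := (Phi_top.eventually (eventually_ge_nhds (show 1 - ε < 1 by linarith))).exists_forall_of_atTop
  obtain ⟨M₂, hM₂⟩ := (Phi_bot.eventually (eventually_le_nhds (show 0 < ε by linarith))).exists_forall_of_atBot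
  obtain ⟨K, hK⟩ := exists_nat_gt ((max |M₁| |M₂|) / ε + 1)
  refine ⟨(Icc (-(K : ℤ)) K).image (fun k : ℤ => (k : ℝ) * ε), fun F hF h01 hT u => ?_⟩
  have hT' : ∀ k : ℤ, -(K : ℤ) ≤ k → k ≤ K → |F (k * ε) - Phi (k * ε)| ≤ ε := fun k h1 h2 =>
    hT _ (mem_image.2 ⟨k, mem_Icc.2 ⟨h1, h2⟩, rfl⟩)
  have hKε : max |M₁| |M₂| ≤ (K : ℝ) * ε := by
    have h1 : (max |M₁| |M₂|) / ε ≤ K := by linarith
    rwa [div_le_iff₀ hε] at h1
  have hK1 : M₁ ≤ K * ε := (le_abs_self _).trans ((le_max_left _ _).trans hKε)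
  have hK2 : -(K * ε) ≤ M₂ := by
    have := (neg_abs_le M₂)
    have := (le_max_right |M₁| |M₂|).trans hKε
    linarith
  obtain ⟨k, hk⟩ : ∃ k : ℤ, k = ⌊u / ε⌋ := ⟨_, rfl⟩
  have k1 : (k : ℝ) * ε ≤ u := by
    have := Int.floor_le (u / ε)
    rw [← hk, le_div_iff₀ hε] at this
    exact this
  have k2 : u ≤ ((k + 1 : ℤ) : ℝ) * ε := by
    have := (Int.lt_floor_add_one (u / ε)).le
    rw [← hk, div_le_iff₀ hε] at this
    push_cast
    exact this
  rcases le_or_gt (-(K : ℤ)) k with h1 | h1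
  · rcases lt_or_ge k (K : ℤ) with h2 | h2
    · have a1 := abs_le.1 (hT' k h1 h2.le)
      have a2 := abs_le.1 (hT' (k + 1) (by omega) (by omega))
      have b1 := hF k1
      have b2 := hF k2
      have c1 := Phi_mono k1
      have c2 := Phi_mono k2
      have c3 := Phi_lip (k1.trans k2)
      have c4 : ((k + 1 : ℤ) : ℝ) * ε - k * ε = ε := by push_cast; ring
      rw [c4] at c3
      rw [abs_le]
      constructor <;> linarith
    · have a1 := abs_le.1 (hT' K (by omega) le_rfl)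
      have e1 : ((K : ℤ) : ℝ) * ε ≤ u := by
        refine le_trans ?_ k1
        exact mul_le_mul_of_nonneg_right (by exact_mod_cast h2) hε.le
      have b1 := hF e1
      have c1 := Phi_mono e1
      have c2 := hM₁ (((K : ℤ) : ℝ) * ε) (by push_cast; exact hK1)
      have c3 := Phi_le_one u
      have c4 := (h01 u).2
      rw [abs_le]
      constructor <;> linarith
  · have a1 := abs_le.1 (hT' (-(K : ℤ)) le_rfl (by omega))
    have e1 : u ≤ ((-(K : ℤ) : ℤ) : ℝ) * ε := by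
      refine k2.trans ?_
      exact mul_le_mul_of_nonneg_right (by exact_mod_cast (by omega : k + 1 ≤ -(K : ℤ))) hε.le
    have b1 := hF e1
    have c1 := Phi_mono e1
    have c2 := hM₂ (((-(K : ℤ) : ℤ) : ℝ) * ε) (by push_cast; linarith)
    have c3 := Phi_nonneg u
    have c4 := (h01 u).1
    rw [abs_le]
    constructor <;> linarith

/-- the quality of the approximation by the normal law -/
def Qual (R : ℝ) (μ : ProbabilityMeasure ℝ) (D : ℕ) : Prop :=
  1 ≤ D ∧ (∀ k : ℤ, |k| ≤ (D : ℤ) ^ 2 → ‖charFun (μ : Measure ℝ) ((k : ℝ) / D) -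
    Complex.exp (-((((k : ℝ) / D) ^ 2 / 2 : ℝ) : ℂ))‖ ≤ 1 / D) ∧
  ∀ x y : ℝ, ‖charFun (μ : Measure ℝ) x - charFun (μ : Measure ℝ) y‖ ≤ R * |x - y|

lemma chr_gauss (t : ℝ) : charFun (gaussianReal 0 1) t = Complex.exp (-((t ^ 2 / 2 : ℝ) : ℂ)) := by
  rw [charFun_gaussianReal]
  congr 1
  push_cast
  ring

lemma gauss_cont (x : ℝ) (ε : ℝ) (hε : 0 < ε) : ∃ δ : ℝ, 0 < δ ∧ ∀ y, |y - x| ≤ δ →
    ‖Complex.exp (-((y ^ 2 / 2 : ℝ) : ℂ)) - Complex.exp (-((x ^ 2 / 2 : ℝ) : ℂ))‖ ≤ ε := by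
  have hc : Continuous fun y : ℝ => Complex.exp (-((y ^ 2 / 2 : ℝ) : ℂ)) := by fun_prop
  obtain ⟨δ, hδ, h⟩ := Metric.continuous_iff.1 hc x ε hε
  refine ⟨δ / 2, by positivity, fun y hy => ?_⟩
  have := h y (by rw [Real.dist_eq]; linarith)
  rw [dist_eq_norm] at this
  exact this.le

theorem qual_unif (R : ℝ) (hR : 0 ≤ R) (u : ℝ) (ε : ℝ) (hε : 0 < ε) : ∃ D₀ : ℕ, ∀ (μ : ProbabilityMeasure ℝ) (D : ℕ),
    D₀ ≤ D → Qual R μ D → |((μ : Measure ℝ) (Set.Iic u)).toReal - Phi u| ≤ ε := by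
  obtain ⟨X₁, h1⟩ := levy (E := ℝ) (β := {b : ProbabilityMeasure ℝ × ℕ // Qual R b.1 b.2}) (fun b => b.1.2) (fun b => b.1.1)
    (⟨gaussianReal 0 1, inferInstance⟩ : ProbabilityMeasure ℝ) (fun x ε hε => by
      obtain ⟨δ, hδ, hc⟩ := gauss_cont x (ε / 3) (by positivity)
      obtain ⟨D₀, hD₀⟩ := exists_nat_gt (|x| + 3 / ε + 3 * R / ε + 1 / δ + 2)
      refine ⟨D₀, fun b hb => ?_⟩
      obtain ⟨⟨μ, D⟩, hD1, hq1, hq2⟩ := b
      simp only at hb hD1 hq1 hq2 ⊢
      have hDr : |x| + 3 / ε + 3 * R / ε + 1 / δ + 2 < D := hD₀.trans_le (by exact_mod_cast hb)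
      have p1 : 0 ≤ |x| := abs_nonneg x
      have p2 : 0 < 3 / ε := by positivity
      have p3 : 0 ≤ 3 * R / ε := by positivity
      have p4 : 0 < 1 / δ := by positivity
      have hD0 : (0 : ℝ) < D := by linarith
      obtain ⟨k, hk⟩ : ∃ k : ℤ, k = round (x * D) := ⟨_, rfl⟩
      have hk1 : |x - k / D| ≤ 1 / D := by
        have h2 := abs_sub_round (x * D)
        rw [← hk] at h2
        have h3 : x - k / D = (x * D - k) / D := by field_simp
        rw [h3, abs_div, abs_of_pos hD0]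
        exact div_le_div_of_nonneg_right (by linarith) hD0.le
      have hk2 : |k| ≤ (D : ℤ) ^ 2 := by
        have h2 := abs_sub_round (x * D)
        rw [← hk] at h2
        have h3 : |(k : ℝ)| ≤ |x * D| + 1 / 2 := by
          have := abs_sub_abs_le_abs_sub (k : ℝ) (x * D)
          rw [abs_sub_comm] at this
          linarith
        rw [abs_mul, abs_of_pos hD0] at h3
        have h4 : |(k : ℝ)| ≤ (D : ℝ) ^ 2 := by nlinarith
        have h5 : ((|k| : ℤ) : ℝ) ≤ (((D : ℤ) ^ 2 : ℤ) : ℝ) := by push_cast; exact h4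
        exact_mod_cast h5
      have e1 : (1 : ℝ) / D ≤ ε / 3 := by
        rw [div_le_div_iff₀ hD0 (by norm_num)]
        have : 3 / ε < D := by linarith
        rw [div_lt_iff₀ hε] at this
        linarith
      have e2 : R * (1 / D) ≤ ε / 3 := by
        rw [mul_one_div, div_le_div_iff₀ hD0 (by norm_num)]
        have : 3 * R / ε < D := by linarith
        rw [div_lt_iff₀ hε] at this
        linarith
      have e3 : (1 : ℝ) / D ≤ δ := by
        rw [div_le_iff₀ hD0]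
        have : 1 / δ < D := by linarith
        rw [div_lt_iff₀ hδ] at this
        linarith
      have a1 := hq2 x (k / D)
      have a2 := hq1 k hk2
      have a3 := hc (k / D) (by rw [abs_sub_comm]; exact hk1.trans e3)
      have a4 : R * |x - k / D| ≤ ε / 3 := (mul_le_mul_of_nonneg_left hk1 hR).trans e2
      show ‖charFun (μ : Measure ℝ) x - charFun (gaussianReal 0 1) x‖ ≤ ε
      rw [chr_gauss]
      calc ‖charFun (μ : Measure ℝ) x - Complex.exp (-((x ^ 2 / 2 : ℝ) : ℂ))‖ =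
          ‖(charFun (μ : Measure ℝ) x - charFun (μ : Measure ℝ) (k / D)) + (charFun (μ : Measure ℝ) (k / D) -
            Complex.exp (-((((k : ℝ) / D) ^ 2 / 2 : ℝ) : ℂ))) + (Complex.exp (-((((k : ℝ) / D) ^ 2 / 2 : ℝ) : ℂ)) -
              Complex.exp (-((x ^ 2 / 2 : ℝ) : ℂ)))‖ := by congr 1; ring
        _ ≤ ‖charFun (μ : Measure ℝ) x - charFun (μ : Measure ℝ) (k / D)‖ + ‖charFun (μ : Measure ℝ) (k / D) -
            Complex.exp (-((((k : ℝ) / D) ^ 2 / 2 : ℝ) : ℂ))‖ + ‖Complex.exp (-((((k : ℝ) / D) ^ 2 / 2 : ℝ) : ℂ)) -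
              Complex.exp (-((x ^ 2 / 2 : ℝ) : ℂ))‖ := norm_add₃_le
        _ ≤ ε := by linarith) (S := Set.Iic u) (Phi_frontier u) hε
  exact ⟨X₁, fun μ D hD hQ => h1 ⟨(μ, D), hQ⟩ hD⟩

/-- the characteristic function of an empirical law is Lipschitz -/
lemma chr_lip {α : Type} [Fintype α] [Nonempty α] (Y : α → ℝ) (x y : ℝ) :
    ‖charFun (lw Y : Measure ℝ) x - charFun (lw Y : Measure ℝ) y‖ ≤ av (fun a => |Y a|) * |x - y| := by
  rw [chr_lw, chr_lw, ← av_sub]
  refine (norm_av_le _).trans ?_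
  rw [mul_comm, ← av_mul]
  refine av_mono fun a => ?_
  have h1 : ∀ z : ℝ, (((inner ℝ (Y a) z : ℝ) : ℂ) * Complex.I) = Complex.I * ((Y a * z : ℝ) : ℂ) := by
    intro z
    rw [inner_R]
    ring
  rw [h1, h1]
  have h2 := Real.norm_exp_I_mul_ofReal_sub_one_le (x := Y a * x - Y a * y)
  have h3 : Complex.exp (Complex.I * ((Y a * x : ℝ) : ℂ)) - Complex.exp (Complex.I * ((Y a * y : ℝ) : ℂ)) =
      Complex.exp (Complex.I * ((Y a * y : ℝ) : ℂ)) * (Complex.exp (Complex.I * ((Y a * x - Y a * y : ℝ) : ℂ)) - 1) := by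
    rw [mul_sub, ← Complex.exp_add, mul_one]
    congr 2
    push_cast
    ring
  rw [h3, norm_mul, Complex.norm_exp_I_mul_ofReal, one_mul]
  refine h2.trans (le_of_eq ?_)
  rw [Real.norm_eq_abs, ← mul_sub, abs_mul, mul_comm]

open Classical in
/-- **empirical laws** -/
theorem emp (R : ℝ) (hR : 0 ≤ R) (ε : ℝ) (hε : 0 < ε) : ∃ D : ℕ, 1 ≤ D ∧ ∀ (α : Type) [Fintype α] [Nonempty α] (Y : α → ℝ),
    (∀ k : ℤ, |k| ≤ (D : ℤ) ^ 2 → ‖av (fun a => Complex.exp (Complex.I * (((k : ℝ) / D * Y a : ℝ) : ℂ))) -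
      Complex.exp (-((((k : ℝ) / D) ^ 2 / 2 : ℝ) : ℂ))‖ ≤ 1 / D) →
    av (fun a => |Y a|) ≤ R → ∀ u : ℝ, |((univ.filter fun a => Y a ≤ u).card : ℝ) / Fintype.card α - Phi u| ≤ ε := by
  obtain ⟨T, hT⟩ := grid (ε / 3) (by positivity)
  choose D₀ hD₀ using fun u : ℝ => qual_unif R hR u (ε / 3) (by positivity)
  refine ⟨∑ u ∈ T, D₀ u + 1, by omega, fun α _ _ Y h1 h2 u => ?_⟩
  have hQ : Qual R (lw Y) (∑ u ∈ T, D₀ u + 1) := by
    refine ⟨by omega, fun k hk => ?_, fun x y => ?_⟩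
    · have h3 := h1 k hk
      rw [chr_lw]
      have h4 : (fun a => Complex.exp (((inner ℝ (Y a) ((k : ℝ) / ((∑ u ∈ T, D₀ u + 1 : ℕ) : ℝ)) : ℝ) : ℂ) * Complex.I)) =
          fun a => Complex.exp (Complex.I * (((k : ℝ) / ((∑ u ∈ T, D₀ u + 1 : ℕ) : ℝ) * Y a : ℝ) : ℂ)) := by
        funext a
        rw [inner_R, mul_comm (Y a), mul_comm Complex.I]
      rw [h4]
      exact h3
    · exact (chr_lip Y x y).trans (mul_le_mul_of_nonneg_right h2 (abs_nonneg _))
  have h3 : ∀ v ∈ T, |((univ.filter fun a => Y a ≤ v).card : ℝ) / Fintype.card α - Phi v| ≤ ε / 3 := by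
    intro v hv
    have h4 := hD₀ v (lw Y) (∑ u ∈ T, D₀ u + 1) ((single_le_sum (fun _ _ => Nat.zero_le _) hv).trans (Nat.le_succ _)) hQ
    rw [lw_real Y measurableSet_Iic] at h4
    exact h4
  have h5 := hT (fun u => ((univ.filter fun a => Y a ≤ u).card : ℝ) / Fintype.card α) (fun a b hab => by
    apply div_le_div_of_nonneg_right _ (Nat.cast_nonneg _)
    exact_mod_cast card_le_card (fun x hx => by
      rw [mem_filter] at hx ⊢
      exact ⟨hx.1, hx.2.trans hab⟩)) (fun u => ⟨by positivity, by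
        rw [div_le_one (by exact_mod_cast Fintype.card_pos)]
        exact_mod_cast (card_filter_le _ _)⟩) h3 u
  linarith

end Pool.Agent.Run7.h524.MG
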