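import Pool.Agent.Run7.h931.MK.Ev

/-!
# The proportion of primes in short sparse windows, up to a power of the logarithm
-/

set_option autoImplicit false

namespace Pool.Agent.Run7.h524.MG

open Finset Filter
open Pool.Agent.H373R2.T7 (lamI lamI_nonneg)
open Pool.Agent.Run7.h794.MK
open Pool.Agent.Run7.h931.MK (cnt det pp_inner card_markov card_small)
open Pool.Agent.N384.MQ (Sm Flat ev_log_pow ev_log_ge)

/-- conditions for large `N` -/
lemma ev_prec (A B : ℕ) : ∀ᶠ N : ℕ in atTop, (B : ℝ) + 4 ≤ Real.log N ∧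
    2 * √(2 * ((B : ℝ) + 2) * N) * Real.log (2 * ((B : ℝ) + 2) * N) * Real.log N ^ (A + 3) ≤ N / Real.log N ^ 2 ∧
    Real.exp 1 ≤ N / Real.log N ^ 2 ∧ 1 ≤ N := by
  obtain ⟨b, hb⟩ : ∃ b : ℝ, b = 2 * ((B : ℝ) + 2) := ⟨_, rfl⟩
  have hb1 : 1 ≤ b := by rw [hb]; have : (0 : ℝ) ≤ B := Nat.cast_nonneg _; linarith
  filter_upwards [ev_log_ge (B + 4), ev_log_ge (Real.log b), ev_log_pow (2 * (A + 6)) (16 * b), ev_log_pow 2 3,
    eventually_ge_atTop 1] with N h1 h2 h3 h4 h5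
  have hN : (1 : ℝ) ≤ N := by exact_mod_cast h5
  have hB0 : (0 : ℝ) ≤ B := Nat.cast_nonneg _
  have hL : 0 < Real.log N := by linarith
  refine ⟨h1, ?_, ?_, h5⟩
  · rw [← hb]
    obtain ⟨L, hLd⟩ : ∃ L, L = Real.log (N : ℝ) := ⟨_, rfl⟩
    rw [← hLd] at h1 h2 h3 h4 hL ⊢
    have e1 : Real.log (b * N) ≤ 2 * L := by
      rw [Real.log_mul (by positivity) (by positivity), ← hLd]
      linarith
    have e0 : 0 ≤ Real.log (b * N) := Real.log_nonneg (by nlinarith)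
    have e2 : √(b * N) ≤ N / (4 * L ^ (A + 6)) := by
      apply Real.sqrt_le_iff.2
      refine ⟨by positivity, ?_⟩
      rw [div_pow, le_div_iff₀ (by positivity)]
      calc b * N * (4 * L ^ (A + 6)) ^ 2 = (16 * b * L ^ (2 * (A + 6))) * N := by
            rw [mul_pow, ← pow_mul, mul_comm (A + 6) 2]
            ring
        _ ≤ (N : ℝ) * N := mul_le_mul_of_nonneg_right h3 (by positivity)
        _ = (N : ℝ) ^ 2 := by ring
    calc 2 * √(b * N) * Real.log (b * N) * L ^ (A + 3) ≤ 2 * (N / (4 * L ^ (A + 6))) * (2 * L) * L ^ (A + 3) := by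
          gcongr
      _ = N / L ^ 2 := by
          rw [show A + 6 = (A + 3) + 1 + 2 by ring, pow_add L (A + 3 + 1) 2, pow_succ L (A + 3)]
          field_simp
          ring
  · rw [le_div_iff₀ (by positivity)]
    have := Real.exp_one_lt_d9
    have h6 : 0 < Real.log (N : ℝ) ^ 2 := by positivity
    nlinarith

/-- **the proportion of primes** -/
theorem prec (h31 : S_T31) (A B : ℕ) : ∃ V C N₀ : ℕ, ∀ N : ℕ, N₀ ≤ N →
    ∀ (q : ℕ) (p : ℕ → ℝ), Msh V C 1 N q p → (q : ℝ) * Real.log N ^ C ≤ N → ∀ κ c : ℕ, 1 ≤ κ → κ ≤ B → c ≤ B * N →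
    ∃ E : Finset ℕ, (E.card : ℝ) ≤ N / Real.log N ∧ ∀ n : ℕ, 1 ≤ n → n ≤ N → n ∉ E → (n + c).Coprime κ →
      (N : ℝ) / Real.log N ^ 2 ≤ ((n + c : ℕ) : ℝ) ∧
      |cnt q p κ c n - κ / (Nat.totient κ : ℝ) / Real.log ((n + c : ℕ) : ℝ)| ≤ 1 / Real.log N ^ A := by
  classical
  obtain ⟨V, C, N₀, h31'⟩ := h31 1 1 (2 * A + 8)
  obtain ⟨N₁, hev⟩ := eventually_atTop.1 (ev_prec A B)
  refine ⟨V, C + A + 7, max N₀ N₁, fun N hN q p hM hqC κ c hκ1 hκB hc => ?_⟩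
  obtain ⟨e1, e2, e3, e4⟩ := hev N (le_trans (le_max_right _ _) hN)
  have hN1 : (1 : ℝ) ≤ N := by exact_mod_cast e4
  have hB0 : (0 : ℝ) ≤ B := Nat.cast_nonneg _
  have hκr : (κ : ℝ) ≤ B := by exact_mod_cast hκB
  have hκ1r : (1 : ℝ) ≤ κ := by exact_mod_cast hκ1
  have hcr : (c : ℝ) ≤ B * N := by exact_mod_cast hc
  obtain ⟨hq1, hq2, hp0, hp1, hsm⟩ := hM
  have hL4 : 4 ≤ Real.log N := by linarith
  have hM' : Msh V C 1 N q p := ⟨le_trans (mul_le_mul_of_nonneg_left (pow_le_pow_right₀ (by linarith) (by omega)) (by positivity)) hq1,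
    hq2, hp0, hp1, hsm⟩
  have h1 := h31' N (le_trans (le_max_left _ _) hN) q p hM' (κ : ℤ) (by exact_mod_cast (by omega : κ ≠ 0)) (by
    rw [Int.natAbs_natCast, pow_one]
    linarith) (c : ℤ) (by
    rw [pow_one]
    push_cast
    rw [abs_of_nonneg (by positivity)]
    nlinarith)
  obtain ⟨L, hL⟩ : ∃ L, L = Real.log N := ⟨_, rfl⟩
  rw [← hL] at e1 e2 e3 h1 hqC hL4 ⊢
  have hL0 : 0 < L := by linarith
  obtain ⟨δ, hδ⟩ : ∃ δ : ℝ, δ = 1 / L ^ (A + 3) := ⟨_, rfl⟩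
  have hδ0 : 0 < δ := by rw [hδ]; positivity
  have hδ1 : δ ≤ 1 := by
    rw [hδ, div_le_one (by positivity)]
    exact one_le_pow₀ (by linarith)
  obtain ⟨X, hX⟩ : ∃ X : ℝ, X = 2 * ((B : ℝ) + 2) * N := ⟨_, rfl⟩
  rw [← hX] at e2
  have hX1 : 1 ≤ X := by rw [hX]; nlinarith
  -- the size of `κ q`
  have hqN : (q : ℝ) * L ^ (A + 7) ≤ N := by
    refine le_trans ?_ hqC
    apply mul_le_mul_of_nonneg_left _ (Nat.cast_nonneg _)
    exact pow_le_pow_right₀ (by linarith) (by omega)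
  have hκq : (κ : ℝ) * q ≤ δ * (N / L ^ 2) := by
    have h2 : (κ : ℝ) ≤ L := by linarith
    rw [hδ, one_div, inv_mul_eq_div, div_div, le_div_iff₀ (by positivity)]
    calc (κ : ℝ) * q * (L ^ 2 * L ^ (A + 3)) ≤ L * q * (L ^ 2 * L ^ (A + 3)) := by
          gcongr
      _ = q * L ^ (A + 6) := by ring
      _ ≤ q * L ^ (A + 7) := by
          apply mul_le_mul_of_nonneg_left _ (Nat.cast_nonneg _)
          exact pow_le_pow_right₀ (by linarith) (by omega)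
      _ ≤ N := hqN
  have hNL : (N : ℝ) / L ^ 2 ≤ N := div_le_self (by linarith) (one_le_pow₀ (by linarith))
  have hNL0 : 0 < (N : ℝ) / L ^ 2 := by positivity
  have hκqN : (κ : ℝ) * q ≤ N := by
    refine hκq.trans ?_
    nlinarith
  have hup : ∀ n ∈ Icc 1 N, ∀ v ∈ range q, (((n : ℤ) + ((c : ℤ) + (κ : ℤ) * (v : ℕ)) : ℤ) : ℝ) ≤ X := by
    intro n hn v hv
    rw [mem_Icc] at hn
    rw [mem_range] at hv
    have h3 : (n : ℝ) ≤ N := by exact_mod_cast hn.2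
    have h4 : (κ : ℝ) * v ≤ κ * q := mul_le_mul_of_nonneg_left (by exact_mod_cast hv.le) (by linarith)
    push_cast
    rw [hX]
    nlinarith
  -- the bad sets
  obtain ⟨F, hF⟩ : ∃ F : ℕ → ℝ, F = fun n : ℕ => ∑ v ∈ range q, p v *
      (lamI ((n : ℤ) + ((c : ℤ) + (κ : ℤ) * (v : ℕ))) - mkI (κ : ℤ).natAbs ((n : ℤ) + ((c : ℤ) + (κ : ℤ) * (v : ℕ)))) := ⟨_, rfl⟩
  obtain ⟨G, hG⟩ : ∃ G : ℕ → ℝ, G = fun n : ℕ => ∑ v ∈ range q, p v *
      (if ((n : ℤ) + ((c : ℤ) + (κ : ℤ) * (v : ℕ))).toNat.Prime then 0 else lamI ((n : ℤ) + ((c : ℤ) + (κ : ℤ) * (v : ℕ)))) := ⟨_, rfl⟩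
  have hFs : ∑ n ∈ Icc 1 N, F n ^ 2 ≤ N / L ^ (2 * A + 8) := by rw [hF]; exact h1
  have hG0 : ∀ n, 0 ≤ G n := by
    intro n
    rw [hG]
    apply sum_nonneg
    intro v _
    apply mul_nonneg (hp0 v)
    split_ifs
    · exact le_rfl
    · exact lamI_nonneg _
  have hGs : ∑ n ∈ Icc 1 N, G n ≤ 2 * √X * Real.log X := by
    rw [hG]
    rw [sum_comm]
    calc ∑ v ∈ range q, ∑ n ∈ Icc 1 N, p v *
        (if ((n : ℤ) + ((c : ℤ) + (κ : ℤ) * (v : ℕ))).toNat.Prime then 0 else lamI ((n : ℤ) + ((c : ℤ) + (κ : ℤ) * (v : ℕ)))) ≤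
        ∑ v ∈ range q, p v * (2 * √X * Real.log X) := by
          apply sum_le_sum
          intro v hv
          rw [← mul_sum]
          exact mul_le_mul_of_nonneg_left (pp_inner N _ X hX1 fun n hn => hup n hn v hv) (hp0 v)
      _ = 2 * √X * Real.log X := by rw [← sum_mul, hp1, one_mul]
  obtain ⟨B1, hB1⟩ : ∃ B : Finset ℕ, B = (Icc 1 N).filter (fun n => δ ^ 2 < F n ^ 2) := ⟨_, rfl⟩
  obtain ⟨B2, hB2⟩ : ∃ B : Finset ℕ, B = (Icc 1 N).filter (fun n => δ < G n) := ⟨_, rfl⟩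
  obtain ⟨B3, hB3⟩ : ∃ B : Finset ℕ, B = (Icc 1 N).filter
      (fun n : ℕ => 0 < (n : ℤ) + c ∧ (((n : ℤ) + c : ℤ) : ℝ) < N / L ^ 2) := ⟨_, rfl⟩
  have c1 : (B1.card : ℝ) ≤ N / L ^ 2 := by
    rw [hB1]
    refine (card_markov _ (fun n => F n ^ 2) (fun i _ => sq_nonneg _) (δ ^ 2) _ (by positivity) hFs).trans (le_of_eq ?_)
    rw [hδ, show 2 * A + 8 = (A + 3) * 2 + 2 by ring, pow_add, pow_mul]
    field_simp
  have c2 : (B2.card : ℝ) ≤ N / L ^ 2 := by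
    rw [hB2]
    refine (card_markov _ G (fun i _ => hG0 i) δ _ hδ0 hGs).trans (le_trans (le_of_eq ?_) e2)
    rw [hδ, div_div_eq_mul_div, div_one]
  have c3 : (B3.card : ℝ) ≤ N / L ^ 2 := by
    rw [hB3]
    exact card_small N c _ (by positivity)
  refine ⟨B1 ∪ B2 ∪ B3, ?_, fun n hn1 hnN hnE hcop => ?_⟩
  · have h2 : ((B1 ∪ B2 ∪ B3).card : ℝ) ≤ B1.card + B2.card + B3.card := by
      exact_mod_cast (card_union_le _ _).trans (Nat.add_le_add_right (card_union_le _ _) _)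
    have h3 : 3 * ((N : ℝ) / L ^ 2) ≤ N / L := by
      rw [mul_div_assoc', div_le_div_iff₀ (by positivity) hL0]
      nlinarith [mul_nonneg (by positivity : (0 : ℝ) ≤ (N : ℝ) * L) (by linarith : (0 : ℝ) ≤ L - 3)]
    linarith
  · have hnI : n ∈ Icc 1 N := mem_Icc.2 ⟨hn1, hnN⟩
    rw [mem_union, mem_union, not_or, not_or] at hnE
    obtain ⟨⟨n1, n2⟩, n3⟩ := hnE
    rw [hB1, mem_filter, not_and] at n1
    rw [hB2, mem_filter, not_and] at n2
    rw [hB3, mem_filter, not_and] at n3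
    have n1' := n1 hnI
    have n2' := n2 hnI
    have n3' := n3 hnI
    rw [not_and] at n3'
    have n3'' := n3' (by omega)
    rw [not_lt] at n1' n2' n3''
    have hFb : |F n| ≤ δ := abs_le_of_sq_le_sq n1' hδ0.le
    obtain ⟨R, hR⟩ : ∃ R : ℝ, R = ((n + c : ℕ) : ℝ) := ⟨_, rfl⟩
    have hRN : (N : ℝ) / L ^ 2 ≤ R := by rw [hR]; push_cast at n3'' ⊢; exact n3''
    rw [← hR]
    refine ⟨hRN, ?_⟩
    have hRe : Real.exp 1 ≤ R := e3.trans hRN
    have hR1 : 1 < R := lt_of_lt_of_le (by have := Real.add_one_lt_exp (show (1 : ℝ) ≠ 0 by norm_num); linarith) hRe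
    have hR0 : 0 < R := by linarith
    have hℓ : 1 ≤ Real.log R := by rw [Real.le_log_iff_exp_le hR0]; exact hRe
    obtain ⟨X', hX'⟩ : ∃ X' : ℝ, X' = R + κ * q := ⟨_, rfl⟩
    have hlow : ∀ v ∈ range q, R ≤ (((n : ℤ) + ((c : ℤ) + (κ : ℤ) * (v : ℕ)) : ℤ) : ℝ) ∧
        (((n : ℤ) + ((c : ℤ) + (κ : ℤ) * (v : ℕ)) : ℤ) : ℝ) ≤ X' := by
      intro v hv
      rw [mem_range] at hv
      have h4 : (κ : ℝ) * v ≤ κ * q := mul_le_mul_of_nonneg_left (by exact_mod_cast hv.le) (by linarith)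
      have h5 : 0 ≤ (κ : ℝ) * v := by positivity
      rw [hX', hR]
      push_cast
      constructor <;> linarith
    obtain ⟨d1, d2⟩ := det q p hp0 κ c n R X' hR1 hlow
    obtain ⟨g, hg⟩ : ∃ g : ℝ, g = κ / (Nat.totient κ : ℝ) := ⟨_, rfl⟩
    have hφ : (1 : ℝ) ≤ Nat.totient κ := by exact_mod_cast Nat.totient_pos.2 hκ1
    have hg0 : 0 ≤ g := by rw [hg]; positivity
    have hgB : g ≤ B := by
      rw [hg]
      exact (div_le_self (by linarith) hφ).trans hκr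
    have hmk : ∀ v ∈ range q, mkI (κ : ℤ).natAbs ((n : ℤ) + ((c : ℤ) + (κ : ℤ) * (v : ℕ))) = g := by
      intro v hv
      have h30 : (0 : ℤ) ≤ (c : ℤ) + (κ : ℤ) * (v : ℕ) := by positivity
      have h31 : (1 : ℤ) ≤ (n : ℤ) := by exact_mod_cast hn1
      have h3 : 1 ≤ (n : ℤ) + ((c : ℤ) + (κ : ℤ) * (v : ℕ)) := by linarith
      rw [Int.natAbs_natCast]
      unfold mkI Pool.Agent.Run7.h794.MK.mk
      have h5 : ((n : ℤ) + ((c : ℤ) + (κ : ℤ) * (v : ℕ))).toNat = n + c + κ * v := by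
        have : (n : ℤ) + ((c : ℤ) + (κ : ℤ) * (v : ℕ)) = ((n + c + κ * v : ℕ) : ℤ) := by push_cast; ring
        rw [this, Int.toNat_natCast]
      rw [if_pos h3, h5, if_pos, hg]
      exact (Nat.coprime_add_mul_left_left _ _ _).2 hcop
    have hFn : F n = ∑ v ∈ range q, p v * lamI ((n : ℤ) + ((c : ℤ) + (κ : ℤ) * (v : ℕ))) - g := by
      rw [hF]
      have h2 : ∑ v ∈ range q, p v * (lamI ((n : ℤ) + ((c : ℤ) + (κ : ℤ) * (v : ℕ))) - mkI (κ : ℤ).natAbs ((n : ℤ) + ((c : ℤ) + (κ : ℤ) * (v : ℕ)))) =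
          ∑ v ∈ range q, (p v * lamI ((n : ℤ) + ((c : ℤ) + (κ : ℤ) * (v : ℕ))) - p v * g) := by
        refine sum_congr rfl fun v hv => ?_
        rw [hmk v hv]
        ring
      simp only
      rw [h2, sum_sub_distrib, ← sum_mul, hp1, one_mul]
    have hGn : G n = ∑ v ∈ range q, p v *
      (if ((n : ℤ) + ((c : ℤ) + (κ : ℤ) * (v : ℕ))).toNat.Prime then 0 else lamI ((n : ℤ) + ((c : ℤ) + (κ : ℤ) * (v : ℕ)))) := by rw [hG]
    rw [← hGn] at d2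
    obtain ⟨S, hS⟩ : ∃ S : ℝ, S = ∑ v ∈ range q, p v * lamI ((n : ℤ) + ((c : ℤ) + (κ : ℤ) * (v : ℕ))) := ⟨_, rfl⟩
    rw [← hS] at d1 d2 hFn
    obtain ⟨x, hx⟩ : ∃ x : ℝ, x = cnt q p κ c n := ⟨_, rfl⟩
    rw [← hx] at d1 d2 ⊢
    rw [← hg]
    have hx0 : 0 ≤ x := by
      rw [hx]
      unfold cnt
      apply sum_nonneg
      intro v _
      apply mul_nonneg (hp0 v)
      split_ifs <;> norm_num
    obtain ⟨ℓ, hℓd⟩ : ∃ ℓ, ℓ = Real.log R := ⟨_, rfl⟩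
    rw [← hℓd] at hℓ d1 ⊢
    have hℓ0 : 0 < ℓ := by linarith
    have hXℓ : Real.log X' ≤ ℓ + δ := by
      have h2 : X' = R * (1 + κ * q / R) := by
        rw [hX']
        field_simp
      have h3 : 0 ≤ κ * q / R := by positivity
      rw [h2, Real.log_mul hR0.ne' (by positivity), ← hℓd]
      have h4 := Real.log_le_sub_one_of_pos (show 0 < 1 + κ * q / R by positivity)
      have h5 : κ * q / R ≤ δ := by
        rw [div_le_iff₀ hR0]
        exact hκq.trans (mul_le_mul_of_nonneg_left hRN hδ0.le)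
      linarith
    have hFb' := abs_le.1 hFb
    have hfin : (2 + g) * δ ≤ 1 / L ^ A := by
      rw [hδ, pow_add, mul_one_div, div_le_div_iff₀ (by positivity) (by positivity), one_mul]
      have h2 : 2 + g ≤ L ^ 3 := by nlinarith [sq_nonneg L, pow_pos hL0 3, mul_nonneg hL0.le hL0.le]
      calc (2 + g) * L ^ A ≤ L ^ 3 * L ^ A := mul_le_mul_of_nonneg_right h2 (by positivity)
        _ = L ^ A * L ^ 3 := mul_comm _ _
    refine le_trans ?_ hfin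
    rw [abs_le]
    constructor
    · -- lower bound
      have h2 : g - 2 * δ ≤ (ℓ + δ) * x := by
        calc g - 2 * δ ≤ S - G n := by linarith
          _ ≤ Real.log X' * x := by linarith
          _ ≤ (ℓ + δ) * x := mul_le_mul_of_nonneg_right hXℓ hx0
      have h3 : ℓ * (g / ℓ - (2 + g) * δ) ≤ ℓ * x := by
        have h4 : ℓ * (g / ℓ) = g := by field_simp
        have h5 : x * ℓ ≤ g + δ := by linarith
        have h6 : x ≤ g + δ := by nlinarith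
        rw [mul_sub, h4]
        nlinarith [mul_nonneg hδ0.le hg0, mul_nonneg hδ0.le hδ0.le, mul_nonneg (mul_nonneg hδ0.le hg0) (by linarith : (0 : ℝ) ≤ ℓ - 1),
          mul_nonneg hδ0.le (by linarith : (0 : ℝ) ≤ ℓ - 1)]
      have h7 := le_of_mul_le_mul_left h3 hℓ0
      linarith
    · have h5 : x * ℓ ≤ g + δ := by linarith
      have h6 : x ≤ (g + δ) / ℓ := by rw [le_div_iff₀ hℓ0]; exact h5
      have h7 : (g + δ) / ℓ = g / ℓ + δ / ℓ := add_div _ _ _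
      have h8 : δ / ℓ ≤ δ := div_le_self hδ0.le hℓ
      have h9 : 0 ≤ g * δ := mul_nonneg hg0 hδ0.le
      linarith

end Pool.Agent.Run7.h524.MG
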