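import Pool.Agent.Run7.h524.MG.Abs
import Pool.Agent.Run7.h524.MG.Prm
import Pool.Agent.Run7.h794.MK.Poi2

/-!
# The Gaussian law for the primes in almost all sparse windows
-/

set_option autoImplicit false

namespace Pool.Agent.Run7.h524.MG

open Finset Filter
open Pool.Agent.Run7.h794.MK
open Pool.Agent.Run7.h931.MK (cnt)
open Pool.Agent.N384.MQ (Sm Flat dis sm_dis dis_nonneg dis_sum_real ev_log_pow ev_log_ge)
open Q282.CL (av)

/-- the density of the primes `n + c + κ y` -/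
noncomputable def rr (κ c n : ℕ) : ℝ := κ / (Nat.totient κ : ℝ) / Real.log ((n + c : ℕ) : ℝ)

/-- the indicator function of the primes -/
noncomputable def ff {ι : Type} {q : ℕ} (s : Finset ι) (y : ι → ZMod q) (κ c n : ℕ) (i : s) : ℝ :=
  if (n + c + κ * (y i.1).val).Prime then 1 else 0

lemma av_ff {ι : Type} {q : ℕ} [NeZero q] (s : Finset ι) (y : ι → ZMod q) (κ c n : ℕ) :
    av (ff s y κ c n) = cnt q (dis s y) κ c n := by
  unfold av ff cnt
  rw [dis_sum_real s y q le_rfl (fun v => if ((n : ℤ) + ((c : ℤ) + (κ : ℤ) * (v : ℕ))).toNat.Prime then (1 : ℝ) else 0)]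
  rw [Fintype.card_coe, sum_coe_sort s (fun i => if (n + c + κ * (y i).val).Prime then (1 : ℝ) else 0)]
  congr 1
  refine sum_congr rfl fun i _ => ?_
  have h : ((n : ℤ) + ((c : ℤ) + (κ : ℤ) * ((y i).val : ℕ))).toNat = n + c + κ * (y i).val := by
    have : (n : ℤ) + ((c : ℤ) + (κ : ℤ) * ((y i).val : ℕ)) = ((n + c + κ * (y i).val : ℕ) : ℤ) := by push_cast; ring
    rw [this, Int.toNat_natCast]
  rw [h]

lemma card_primes (N B X₀ : ℕ) (hcheb : ∀ X : ℕ, X₀ ≤ X → ((((Icc 1 X).filter Nat.Prime).card : ℕ) : ℝ) ≤ 2 * X / Real.log X)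
    (hN : X₀ ≤ N) (hN2 : 3 ≤ N) (b : ℕ) (hb : b ≤ (B + 1) * N) (J : Finset ℕ) (hJ : J ⊆ Icc 1 N) :
    ((J.filter fun n => (n + b).Prime).card : ℝ) ≤ 2 * ((B + 2 : ℕ) : ℝ) * N / Real.log N := by
  have hN0 : (0 : ℝ) < N := by exact_mod_cast (by omega : 0 < N)
  have hL : 0 < Real.log (N : ℝ) := Real.log_pos (by exact_mod_cast (by omega : 1 < N))
  obtain ⟨X, hX⟩ : ∃ X, X = (B + 2) * N := ⟨_, rfl⟩
  have hNX : N ≤ X := by rw [hX]; exact Nat.le_mul_of_pos_left _ (by omega)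
  have h1 : (J.filter fun n => (n + b).Prime).card ≤ ((Icc 1 X).filter Nat.Prime).card := by
    apply card_le_card_of_injOn (fun n => n + b)
    · intro n hn
      rw [mem_coe, mem_filter] at hn
      rw [mem_coe, mem_filter, mem_Icc]
      have h2 := mem_Icc.1 (hJ hn.1)
      refine ⟨⟨(by show 1 ≤ n + b; omega), ?_⟩, hn.2⟩
      show n + b ≤ X
      rw [hX]
      have : (B + 2) * N = (B + 1) * N + N := by ring
      omega
    · intro a _ b' _ h
      simpa using h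
  have h2 := hcheb X (by omega)
  have h3 : Real.log (N : ℝ) ≤ Real.log (X : ℝ) := Real.log_le_log hN0 (by exact_mod_cast hNX)
  calc ((J.filter fun n => (n + b).Prime).card : ℝ) ≤ (((Icc 1 X).filter Nat.Prime).card : ℝ) := by exact_mod_cast h1
    _ ≤ 2 * X / Real.log X := h2
    _ ≤ 2 * X / Real.log N := div_le_div_of_nonneg_left (by positivity) hL h3
    _ = 2 * ((B + 2 : ℕ) : ℝ) * N / Real.log N := by rw [hX]; push_cast; ring

/-- bounds for the density -/
lemma rr_bounds (B κ c n N : ℕ) (hκ : 1 ≤ κ) (hκB : κ ≤ B) (hn : n ≤ N) (hc : c ≤ B * N)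
    (hL1 : Real.log ((B : ℝ) + 1) ≤ Real.log N) (hL2 : 4 * Real.log (Real.log N) ≤ Real.log N) (hL3 : 4 ≤ Real.log N)
    (h : (N : ℝ) / Real.log N ^ 2 ≤ ((n + c : ℕ) : ℝ)) :
    1 / (2 * Real.log N) ≤ rr κ c n ∧ rr κ c n ≤ 2 * B / Real.log N := by
  obtain ⟨L, hL⟩ : ∃ L, L = Real.log (N : ℝ) := ⟨_, rfl⟩
  rw [← hL] at hL1 hL2 hL3 h ⊢
  have hL0 : 0 < L := by linarith
  have hN0 : (0 : ℝ) < N := by
    rcases Nat.eq_zero_or_pos N with h0 | h0
    · rw [h0, Nat.cast_zero, Real.log_zero] at hL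
      linarith
    · exact_mod_cast h0
  have hB0 : (0 : ℝ) ≤ B := Nat.cast_nonneg _
  have hR0 : (0 : ℝ) < ((n + c : ℕ) : ℝ) := lt_of_lt_of_le (by positivity) h
  have hup : Real.log ((n + c : ℕ) : ℝ) ≤ 2 * L := by
    have h1 : ((n + c : ℕ) : ℝ) ≤ ((B : ℝ) + 1) * N := by
      have h2 : n + c ≤ (B + 1) * N := by
        have : (B + 1) * N = B * N + N := by ring
        omega
      exact_mod_cast h2
    have h2 := Real.log_le_log hR0 h1
    rw [Real.log_mul (by positivity) (by positivity), ← hL] at h2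
    linarith
  have hlo : L / 2 ≤ Real.log ((n + c : ℕ) : ℝ) := by
    have h2 := Real.log_le_log (by positivity) h
    rw [Real.log_div (by positivity) (by positivity), Real.log_pow, ← hL] at h2
    push_cast at h2 ⊢
    linarith
  have hφ : (1 : ℝ) ≤ Nat.totient κ := by exact_mod_cast Nat.totient_pos.2 hκ
  have hκr : (κ : ℝ) ≤ B := by exact_mod_cast hκB
  have hκ1 : (1 : ℝ) ≤ κ := by exact_mod_cast hκ
  have hg1 : 1 ≤ κ / (Nat.totient κ : ℝ) := by
    rw [le_div_iff₀ (by linarith), one_mul]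
    exact_mod_cast Nat.totient_le κ
  have hgB : κ / (Nat.totient κ : ℝ) ≤ B := (div_le_self (by linarith) hφ).trans hκr
  have hlog0 : 0 < Real.log ((n + c : ℕ) : ℝ) := by linarith
  unfold rr
  constructor
  · rw [div_le_div_iff₀ (by positivity) hlog0]
    nlinarith
  · rw [div_le_div_iff₀ hlog0 hL0]
    nlinarith

open Classical in
/-- **The Gaussian law.** -/
theorem gau (h31 : S_T31) (A B : ℕ) (hB : 1 ≤ B) (ε : ℝ) (hε : 0 < ε) : ∃ (V C K : ℕ) (δ : ℝ), 0 < δ ∧ ∃ N₀ : ℕ, ∀ N : ℕ, N₀ ≤ N →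
    ∀ (q : ℕ) [NeZero q], (N : ℝ) ^ (1 / 3 : ℝ) * Real.log N ^ C ≤ q → (q : ℝ) * Real.log N ^ C ≤ N →
    ∀ {ι : Type} (s : Finset ι) (y : ι → ZMod q), s.Nonempty → Flat q (1 / Real.log N ^ V) s y →
    ∀ κ c : ℕ, 1 ≤ κ → κ ≤ B → c ≤ B * N → ∀ J : Finset ℕ, J ⊆ Icc 1 N → N ≤ B * J.card → (∀ n ∈ J, (n + c).Coprime κ) →
    ∀ m : ℕ, K * Real.log N ≤ m → (m : ℝ) ≤ Real.log N ^ A →
    ((univ.filter fun ω : Fin m → s => ¬ ∀ u : ℝ,
      |((J.filter fun n => ((univ.filter fun l => (n + c + κ * (y (ω l)).val).Prime).card : ℝ) ≤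
        m * rr κ c n + u * √(m * rr κ c n)).card : ℝ) / J.card - Phi u| ≤ ε).card : ℝ) ≤
      (N : ℝ) ^ (-δ) * (s.card : ℝ) ^ m := by
  obtain ⟨B', hB'⟩ : ∃ B' : ℝ, B' = 16 * ((B : ℝ) + 1) ^ 2 := ⟨_, rfl⟩
  have hBr : (1 : ℝ) ≤ B := by exact_mod_cast hB
  have hB'1 : 1 ≤ B' := by rw [hB']; nlinarith
  obtain ⟨η, K, δ, ρ₀, hη, hδ, hρ₀, hg⟩ := gauss B' hB'1 ε hε
  obtain ⟨V, C, N₁, hpr⟩ := prec h31 (A + 1) B
  obtain ⟨X₀, hcheb⟩ := cheb
  obtain ⟨K', hK'⟩ := exists_nat_gt (2 * max K 1)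
  have hll : ∀ᶠ N : ℕ in atTop, 4 * Real.log (Real.log N) ≤ Real.log N := by
    have h := Pool.Agent.Run7.h931.MK.ev_sub 4 0 1 one_pos
    filter_upwards [h] with N hN
    push_cast at hN
    linarith
  obtain ⟨N₂, hN₂⟩ := eventually_atTop.1 ((ev_log_ge (4 + Real.log ((B : ℝ) + 1) + 1 / η + B / η + 1 / (2 * ρ₀))).and
    (hll.and (eventually_ge_atTop 3)))
  refine ⟨V, C, K', 2 * δ, by positivity, N₁ + N₂ + X₀ + 3, fun N hN q _ hq1 hq2 ι s y hs hf κ c hκ hκB hc J hJ hJB hcop m hm1 hm2 => ?_⟩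
  obtain ⟨hbig, hll', hN3⟩ := hN₂ N (by omega)
  have hN0 : (0 : ℝ) < N := by exact_mod_cast (by omega : 0 < N)
  have t1 : 0 ≤ Real.log ((B : ℝ) + 1) := Real.log_nonneg (by linarith)
  have t2 : 0 < 1 / η := by positivity
  have t3 : 0 < B / η := by positivity
  have t4 : 0 < 1 / (2 * ρ₀) := by positivity
  obtain ⟨L, hL⟩ : ∃ L, L = Real.log (N : ℝ) := ⟨_, rfl⟩
  have hL4 : 4 ≤ L := by rw [hL]; linarith
  have hL0 : 0 < L := by linarith
  have : Nonempty s := hs.to_subtype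
  have hJ0 : 0 < J.card := by
    rcases Nat.eq_zero_or_pos J.card with h | h
    · rw [h, mul_zero] at hJB
      omega
    · exact h
  have hJr : (N : ℝ) ≤ B * J.card := by exact_mod_cast hJB
  -- the exceptional set
  have hM : Msh V C 1 N q (dis s y) := by
    refine ⟨hq1, ?_, fun v => dis_nonneg s y v, ?_, sm_dis hs hf⟩
    · rw [one_mul]
      have h1 : (q : ℝ) ≤ N := by
        refine le_trans ?_ hq2
        exact le_mul_of_one_le_right (Nat.cast_nonneg _) (one_le_pow₀ (by rw [← hL]; linarith))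
      exact_mod_cast h1
    · have h1 := dis_sum_real s y q le_rfl (fun _ => 1)
      simp only [mul_one, sum_const, nsmul_eq_mul] at h1
      rw [h1, div_self]
      exact_mod_cast hs.card_pos.ne'
  obtain ⟨E, hE1, hE2⟩ := hpr N (by omega) q (dis s y) hM hq2 κ c hκ hκB hc
  obtain ⟨ρ, hρ⟩ : ∃ ρ : ℝ, ρ = 1 / (2 * L) := ⟨_, rfl⟩
  have hρ0 : 0 < ρ := by rw [hρ]; positivity
  have hmρ : max K 1 ≤ m * ρ := by
    rw [hρ, mul_one_div, le_div_iff₀ (by positivity)]
    calc max K 1 * (2 * L) = (2 * max K 1) * L := by ring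
      _ ≤ K' * L := mul_le_mul_of_nonneg_right hK'.le hL0.le
      _ ≤ m := by rw [hL]; exact hm1
  have hqN : (q : ℝ) ≤ N := by
    refine le_trans ?_ hq2
    exact le_mul_of_one_le_right (Nat.cast_nonneg _) (one_le_pow₀ (by rw [← hL]; linarith))
  have hres := hg s J E (ff s y κ c) (rr κ c) ρ m (card_pos.1 hJ0) (fun n a => by
    unfold ff
    split_ifs
    · exact Or.inr rfl
    · exact Or.inl rfl) hρ0 (by
    rw [hρ, div_le_iff₀ (by positivity)]
    have h1 : 1 / (2 * ρ₀) ≤ L := by rw [hL]; linarith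
    rw [div_le_iff₀ (by positivity)] at h1
    linarith) ((le_max_left _ _).trans hmρ) (by
    have h1 : ((J ∩ E).card : ℝ) ≤ E.card := by exact_mod_cast card_le_card inter_subset_right
    refine h1.trans (hE1.trans ?_)
    rw [← hL, div_le_iff₀ hL0]
    have h2 : B / η ≤ L := by rw [hL]; linarith
    rw [div_le_iff₀ hη] at h2
    have h3 : (0 : ℝ) < J.card := by exact_mod_cast hJ0
    calc (N : ℝ) ≤ B * J.card := hJr
      _ ≤ (L * η) * J.card := mul_le_mul_of_nonneg_right h2 h3.le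
      _ = η * J.card * L := by ring) (fun n hn => by
    rw [Finset.mem_sdiff] at hn
    have hnI := mem_Icc.1 (hJ hn.1)
    obtain ⟨a1, a2⟩ := hE2 n hnI.1 hnI.2 hn.2 (hcop n hn.1)
    obtain ⟨b1, b2⟩ := rr_bounds B κ c n N hκ hκB hnI.2 hc (by linarith) hll' (by rw [← hL]; linarith) a1
    rw [← hL] at b1 b2
    have hρr : ρ ≤ rr κ c n := by rw [hρ]; exact b1
    have hmr : 1 ≤ m * rr κ c n := ((le_max_right _ _).trans hmρ).trans (mul_le_mul_of_nonneg_left hρr (Nat.cast_nonneg _))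
    refine ⟨hρr, ?_, ?_⟩
    · refine b2.trans ?_
      rw [hρ, hB', mul_one_div, div_le_div_iff₀ hL0 (by positivity)]
      have h9 : 2 * (B : ℝ) * (2 * L) ≤ 16 * ((B : ℝ) + 1) ^ 2 * L := by
        have : 2 * (B : ℝ) * 2 ≤ 16 * ((B : ℝ) + 1) ^ 2 := by nlinarith
        nlinarith
      linarith
    · rw [av_ff]
      have h1 : |cnt q (dis s y) κ c n - rr κ c n| ≤ 1 / L ^ (A + 1) := by
        rw [hL]
        exact a2
      calc m * |cnt q (dis s y) κ c n - rr κ c n| ≤ L ^ A * (1 / L ^ (A + 1)) :=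
            mul_le_mul (by rw [hL]; exact hm2) h1 (abs_nonneg _) (by positivity)
        _ = 1 / L := by rw [pow_succ]; field_simp
        _ ≤ η := by
          rw [div_le_iff₀ hL0]
          have h2 : 1 / η ≤ L := by rw [hL]; linarith
          rw [div_le_iff₀ hη] at h2
          linarith
        _ ≤ η * √(m * rr κ c n) := le_mul_of_one_le_right hη.le (Real.one_le_sqrt.2 hmr)) (fun a => by
    have h1 : ∑ n ∈ J \ E, ff s y κ c n a ≤ ((J.filter fun n => (n + (c + κ * (y a.1).val)).Prime).card : ℝ) := by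
      unfold ff
      rw [← sum_filter, sum_const, nsmul_eq_mul, mul_one]
      exact_mod_cast card_le_card fun n hn => by
        rw [mem_filter, Finset.mem_sdiff] at hn
        rw [mem_filter]
        exact ⟨hn.1.1, by rw [← add_assoc]; exact hn.2⟩
    refine h1.trans ((card_primes N (2 * B) X₀ hcheb (by omega) (by omega) (c + κ * (y a.1).val) ?_ J hJ).trans ?_)
    · have h2 : (y a.1).val ≤ N := by
        have h3 : (y a.1).val < q := ZMod.val_lt _
        have h4 : q ≤ N := by exact_mod_cast hqN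
        omega
      calc c + κ * (y a.1).val ≤ B * N + B * N := Nat.add_le_add hc (Nat.mul_le_mul hκB h2)
        _ ≤ (2 * B + 1) * N := by nlinarith
    · rw [← hL, hρ, hB', div_le_iff₀ hL0]
      push_cast
      have h3 : (0 : ℝ) < J.card := by exact_mod_cast hJ0
      have h4 : 2 * (2 * (B : ℝ) + 2) * N ≤ 2 * (2 * (B : ℝ) + 2) * (B * J.card) := mul_le_mul_of_nonneg_left hJr (by positivity)
      have h5 : 16 * ((B : ℝ) + 1) ^ 2 * (1 / (2 * L)) * J.card * L = 8 * ((B : ℝ) + 1) ^ 2 * J.card := by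
        field_simp
        norm_num
      rw [h5]
      have h6 : 0 ≤ (B : ℝ) * J.card := by positivity
      have h7 : 0 ≤ (B : ℝ) * B * J.card := by positivity
      nlinarith)
  have hff : ∀ (ω : Fin m → s) (n : ℕ), ∑ l, ff s y κ c n (ω l) =
      ((univ.filter fun l => (n + c + κ * (y (ω l)).val).Prime).card : ℝ) := by
    intro ω n
    unfold ff
    rw [sum_boole]
  simp only [hff] at hres
  refine hres.trans (le_of_eq ?_)
  rw [Fintype.card_coe, hρ, Real.rpow_def_of_pos hN0, ← hL]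
  congr 2
  field_simp

/-- the flatness in terms of `log q` (as `Run7.h794.MK.flat_log`) -/
lemma flat_log (V : ℕ) : ∃ N₀ : ℕ, ∀ N : ℕ, N₀ ≤ N → ∀ (q : ℕ) [NeZero q] (C : ℕ), (N : ℝ) ^ (1 / 3 : ℝ) * Real.log N ^ C ≤ q →
    ∀ {ι : Type} (s : Finset ι) (y : ι → ZMod q), Flat q (1 / Real.log q ^ (V + 1)) s y → Flat q (1 / Real.log N ^ V) s y := by
  obtain ⟨N₁, hN₁⟩ := eventually_atTop.1 (ev_log_ge (3 ^ (V + 1)))
  refine ⟨N₁ + 1, fun N hN q _ C hq ι s y hf => ?_⟩
  have hkey : 1 / Real.log q ^ (V + 1) ≤ 1 / Real.log N ^ V := by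
    have h1 := hN₁ N (by omega)
    have hN0 : (0 : ℝ) < N := by exact_mod_cast (by omega : 0 < N)
    have hL1 : 1 ≤ Real.log N := le_trans (one_le_pow₀ (by norm_num)) h1
    have hq1 : (N : ℝ) ^ (1 / 3 : ℝ) ≤ q := by
      refine le_trans ?_ hq
      exact le_mul_of_one_le_right (by positivity) (one_le_pow₀ hL1)
    have hlq : Real.log N / 3 ≤ Real.log q := by
      have h2 := Real.log_le_log (by positivity) hq1
      rw [Real.log_rpow hN0] at h2
      linarith
    have hpos : 0 < Real.log N / 3 := by positivity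
    apply one_div_le_one_div_of_le (by positivity)
    calc Real.log N ^ V = Real.log N ^ V * 1 := (mul_one _).symm
      _ ≤ Real.log N ^ V * (Real.log N / 3 ^ (V + 1)) := by
          apply mul_le_mul_of_nonneg_left _ (by positivity)
          rw [le_div_iff₀ (by positivity)]; linarith
      _ = (Real.log N / 3) ^ (V + 1) := by rw [div_pow, pow_succ (Real.log (N : ℝ))]; ring
      _ ≤ Real.log q ^ (V + 1) := pow_le_pow_left₀ hpos.le hlq _
  intro h hh
  exact (hf h hh).trans (mul_le_mul_of_nonneg_right hkey (Nat.cast_nonneg _))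

end Pool.Agent.Run7.h524.MG
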