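import Pool.Agent.Run7.h18.MK.T31G
import Pool.Agent.Run7.h777.MK.Maj
import Pool.Agent.Run7.h18.MK.Arc0
import Pool.Agent.Run7.h794.MK.SiaAll

/-!
# Bounded functions with additive characters in almost all short intervals, and sparse windows in mean square

Everything of project MK which needs the major arcs only, for an arbitrary function `g` with `|g| ≤ 1` in place of
`Λ - λ_z` (adapted from `Run7.h777.MK.t_MAJ0`, `Run7.h18.MK.t_ARC0`, `Run7.h18.MK.t_T31G`). Application: the Möbius function.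
-/

set_option autoImplicit false

namespace Pool.Agent.Run7.h524.MG

open Finset
open Pool.Agent.Run7.h794.MK
open Pool.Agent.Run7.h777.MK (ms_short e_eq_ee)
open Pool.Agent.H807R2.Dav (ee norm_ee ee_add ee_zero ee_int ee_add_int ee_pow)
open Pool.Agent.H373R2.T7 (ev_L' ev_log')
open Pool.Agent.Run7.h27.MK (gI)
open Pool.Agent.Run7.h18.MK (core Gam GamA GamA_card farA Gam_card)
open _root_.Run7.h477.MK

/-- the function `g` with the characters of small denominators in almost all short intervals -/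
def S_RAT (g : ℕ → ℝ) : Prop := ∀ B U : ℕ, ∃ C X₀ : ℕ, ∀ x : ℕ, X₀ ≤ x → ∀ q : ℕ, 1 ≤ q → (q : ℝ) ≤ Real.log x ^ B →
  ∀ (a : ℤ) (Y : ℕ), (x : ℝ) ^ (1 / 3 : ℝ) * Real.log x ^ C ≤ Y → Y ≤ x →
  ∑ m ∈ Ioc x (2 * x), ‖W g ((a : ℝ) / q) m Y‖ ^ 2 ≤ x * (Y : ℝ) ^ 2 / Real.log x ^ U

/-- the function `g` on the major arcs -/
def S_MAJf (g : ℕ → ℝ) : Prop := ∀ B U : ℕ, ∃ C X₀ : ℕ, ∀ x : ℕ, X₀ ≤ x → ∀ q : ℕ, 1 ≤ q →
  (q : ℝ) ≤ Real.log x ^ B → ∀ Y : ℕ,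
  (x : ℝ) ^ (1 / 3 : ℝ) * Real.log x ^ C ≤ Y → (Y : ℝ) * Real.log x ^ C ≤ x →
  ∀ (a : ℤ) (α : ℝ), |α - a / q| ≤ Real.log x ^ B / Y → MS g α x Y ≤ x * (Y : ℝ) ^ 2 / Real.log x ^ U

/-- the major arcs in mean square -/
def S_ARCf (g : ℕ → ℝ) : Prop := ∀ B U : ℕ, ∃ C X₀ : ℕ, ∀ X : ℕ, X₀ ≤ X → ∀ q : ℕ, 1 ≤ q →
  (q : ℝ) ≤ Real.log X ^ B → ∀ M : ℕ, 2 * X ≤ M → ∀ (r : ℤ) (H : ℕ),
  (X : ℝ) ^ (1 / 3 : ℝ) * Real.log X ^ C ≤ H → ∀ a : ℤ, |(r : ℝ) / M - a / q| ≤ Real.log X ^ B / H →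
  ∑ s ∈ Icc (-((M / H : ℕ) : ℤ)) ((M / H : ℕ) : ℤ), ‖DF g X M (r + s)‖ ^ 2 ≤ M * X / Real.log X ^ U

/-- the sums of `g` over the translates of a law of shifts with major arcs, in mean square -/
def S_T31f (g : ℕ → ℝ) : Prop := ∀ Bc U : ℕ, ∃ V : ℕ, ∀ T D : ℕ, ∃ C N₀ : ℕ, ∀ N : ℕ, N₀ ≤ N →
  ∀ (ι : Type) (Ω : Finset ι) (p : ι → ℝ) (Yv : ι → ℤ), (∀ ω ∈ Ω, 0 ≤ p ω) → ∑ ω ∈ Ω, p ω ≤ 1 →
  (∀ ω ∈ Ω, |Yv ω| ≤ Bc * N) → ∀ H : ℕ, (N : ℝ) ^ (1 / 3 : ℝ) * Real.log N ^ C ≤ H → H ≤ N →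
  (∀ α : ℝ, (∀ k : ℕ, 1 ≤ k → (k : ℝ) ≤ Real.log N ^ T → ∀ a : ℤ, Real.log N ^ D / H < |α - a / k|) →
    ‖∑ ω ∈ Ω, ((p ω : ℝ) : ℂ) * ee ((Yv ω : ℝ) * α)‖ ≤ 1 / Real.log N ^ V) →
  ∑ n ∈ Icc 1 N, (∑ ω ∈ Ω, p ω * gI g ((n : ℤ) + Yv ω)) ^ 2 ≤ N / Real.log N ^ U

theorem t_MAJf (g : ℕ → ℝ) (hg1 : ∀ n, |g n| ≤ 1) (hR : S_RAT g) : S_MAJf g := by
  intro B U
  obtain ⟨C1, X1, h1⟩ := hR B (U + 2)
  obtain ⟨X4, h4⟩ := ev_L' (max (2 ^ (C1 + 2)) 50)
  refine ⟨C1 + (B + U + 4) + 2, max X1 (max X4 4), fun x hx q hq hqB Y hY1 hY2 a α hα => ?_⟩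
  have a1 := h1 x (le_trans (le_max_left _ _) hx)
  have a1' := h1 (2 * x) (le_trans (le_trans (le_max_left _ _) hx) (by omega))
  have a4 := h4 x (le_trans (le_trans (le_max_left _ _) (le_max_right _ _)) hx)
  have hx4 : 4 ≤ x := le_trans (le_trans (le_max_right _ _) (le_max_right _ _)) hx
  have hxR : (4 : ℝ) ≤ x := by exact_mod_cast hx4
  set L : ℝ := Real.log x with hLdef
  have hL50 : 50 ≤ L := (le_max_right _ _).trans a4
  have hLC : (2 : ℝ) ^ (C1 + 2) ≤ L := (le_max_left _ _).trans a4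
  have hL1 : 1 ≤ L := by linarith
  have hL0 : 0 < L := by linarith
  have hLK : (0 : ℝ) < L ^ (B + U + 4) := by positivity
  -- size of `Y`
  have hYR : (Y : ℝ) ≤ x := by
    have : (Y : ℝ) * 1 ≤ Y * L ^ (C1 + (B + U + 4) + 2) := by
      gcongr
      exact one_le_pow₀ hL1
    linarith
  have hYx : Y ≤ x := by exact_mod_cast hYR
  have hx13 : (1 : ℝ) ≤ (x : ℝ) ^ (1 / 3 : ℝ) := Real.one_le_rpow (by linarith) (by norm_num)
  have hYbig : (x : ℝ) ^ (1 / 3 : ℝ) * L ^ (C1 + 2) ≤ Y / L ^ (B + U + 4) := by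
    rw [le_div_iff₀ hLK]
    refine le_trans (le_of_eq ?_) hY1
    ring
  set Y1 : ℕ := ⌊(Y : ℝ) / L ^ (B + U + 4)⌋₊ with hY1def
  have hY1up : (Y1 : ℝ) ≤ Y / L ^ (B + U + 4) := Nat.floor_le (by positivity)
  have hY1lo : (x : ℝ) ^ (1 / 3 : ℝ) * L ^ (C1 + 2) / 2 ≤ Y1 := by
    have b1 : (Y : ℝ) / L ^ (B + U + 4) < Y1 + 1 := Nat.lt_floor_add_one _
    have b2 : (50 : ℝ) ≤ (x : ℝ) ^ (1 / 3 : ℝ) * L ^ (C1 + 2) := by
      calc (50 : ℝ) ≤ 1 * L ^ 1 := by linarith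
        _ ≤ (x : ℝ) ^ (1 / 3 : ℝ) * L ^ (C1 + 2) := by
            have g1 : L ^ 1 ≤ L ^ (C1 + 2) := pow_le_pow_right₀ hL1 (by omega)
            gcongr
    linarith
  have hlog2 : Real.log ((2 * x : ℕ) : ℝ) ≤ 2 * L := by
    push_cast
    rw [Real.log_mul (by norm_num) (by linarith)]
    have : Real.log 2 ≤ Real.log x := Real.log_le_log (by norm_num) (by linarith)
    linarith
  have hlog2' : L ≤ Real.log ((2 * x : ℕ) : ℝ) := by
    apply Real.log_le_log (by linarith)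
    push_cast
    linarith
  have hY1lo2 : ((2 * x : ℕ) : ℝ) ^ (1 / 3 : ℝ) * Real.log ((2 * x : ℕ) : ℝ) ^ C1 ≤ Y1 := by
    have b1 : ((2 * x : ℕ) : ℝ) ^ (1 / 3 : ℝ) ≤ 2 * (x : ℝ) ^ (1 / 3 : ℝ) := by
      push_cast
      rw [Real.mul_rpow (by norm_num) (by linarith)]
      gcongr
      calc (2 : ℝ) ^ (1 / 3 : ℝ) ≤ 2 ^ (1 : ℝ) := Real.rpow_le_rpow_of_exponent_le (by norm_num) (by norm_num)
        _ = 2 := by norm_num
    have b2 : Real.log ((2 * x : ℕ) : ℝ) ^ C1 ≤ (2 * L) ^ C1 := by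
      gcongr
    calc _ ≤ (2 * (x : ℝ) ^ (1 / 3 : ℝ)) * (2 * L) ^ C1 := by gcongr
      _ = (x : ℝ) ^ (1 / 3 : ℝ) * (L ^ C1 * 2 ^ (C1 + 2)) / 2 := by ring
      _ ≤ (x : ℝ) ^ (1 / 3 : ℝ) * (L ^ C1 * (L * L)) / 2 := by
          gcongr
          nlinarith
      _ = (x : ℝ) ^ (1 / 3 : ℝ) * L ^ (C1 + 2) / 2 := by ring
      _ ≤ Y1 := hY1lo
  have hY1lo1 : (x : ℝ) ^ (1 / 3 : ℝ) * L ^ C1 ≤ Y1 := by
    refine le_trans ?_ hY1lo2
    gcongr
    push_cast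
    linarith
  have hY1one : (1 : ℝ) ≤ Y1 := by
    refine le_trans ?_ hY1lo1
    calc (1 : ℝ) = 1 * 1 := by norm_num
      _ ≤ _ := by
          gcongr
          exact one_le_pow₀ hL1
  have hY1one' : 1 ≤ Y1 := by exact_mod_cast hY1one
  have hY1YR : (Y1 : ℝ) ≤ Y := hY1up.trans (div_le_self (by positivity) (one_le_pow₀ hL1))
  have hY1Y : Y1 ≤ Y := by exact_mod_cast hY1YR
  -- the rational point
  have hqR : (0 : ℝ) < q := by exact_mod_cast hq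
  have hqL' : (q : ℝ) ≤ Real.log ((2 * x : ℕ) : ℝ) ^ B := by
    refine hqB.trans ?_
    gcongr
  have c1 : ∑ j ∈ Ioc x (4 * x), ‖W g ((a : ℝ) / q) j Y1‖ ^ 2 ≤ 3 * (x * (Y1 : ℝ) ^ 2 / L ^ (U + 2)) := by
    have d1 := a1 q hq hqB a Y1 hY1lo1 (hY1Y.trans hYx)
    have d2 := a1' q hq hqL' a Y1 hY1lo2 ((hY1Y.trans hYx).trans (by omega))
    have d3 := Finset.sum_Ioc_consecutive (fun j => ‖W g ((a : ℝ) / q) j Y1‖ ^ 2)
      (show x ≤ 2 * x by omega) (show 2 * x ≤ 2 * (2 * x) by omega)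
    have d4 : (2 * (2 * x)) = 4 * x := by ring
    rw [d4] at d3 d2
    rw [← d3]
    have d5 : ((2 * x : ℕ) : ℝ) * (Y1 : ℝ) ^ 2 / Real.log ((2 * x : ℕ) : ℝ) ^ (U + 2) ≤
        2 * (x * (Y1 : ℝ) ^ 2 / L ^ (U + 2)) := by
      have : ((2 * x : ℕ) : ℝ) * (Y1 : ℝ) ^ 2 / Real.log ((2 * x : ℕ) : ℝ) ^ (U + 2) ≤
          ((2 * x : ℕ) : ℝ) * (Y1 : ℝ) ^ 2 / L ^ (U + 2) := by
        gcongr
      refine this.trans (le_of_eq ?_)
      push_cast
      ring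
    linarith
  have c0 : 0 ≤ x * (Y1 : ℝ) ^ 2 / L ^ (U + 2) := by positivity
  have c5 : ∑ j ∈ Ioc x (4 * x), ‖W g ((a : ℝ) / q) j Y1‖ ^ 2 ≤
      12 * (x * (Y1 : ℝ) ^ 2 / L ^ (U + 2)) := by linarith
  -- the bound of the coefficients
  have hG : ∀ n, x < n → n ≤ 4 * x → |g n| ≤ 3 * L := by
    intro n _ _
    have := hg1 n
    linarith
  have hMS := ms_short g ((a : ℝ) / q) (α - a / q) x Y Y1
    hY1one' hY1Y hYx (3 * L) (by linarith) hG
  rw [add_sub_cancel] at hMS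
  refine hMS.trans ?_
  have hYpos : (0 : ℝ) < Y := by linarith
  have e1 : 2 * ((Y : ℝ) ^ 2 / (Y1 : ℝ) ^ 2) * (∑ j ∈ Ioc x (4 * x),
      ‖W g ((a : ℝ) / q) j Y1‖ ^ 2) ≤
      24 * (x * (Y : ℝ) ^ 2 / L ^ (U + 2)) := by
    calc _ ≤ 2 * ((Y : ℝ) ^ 2 / (Y1 : ℝ) ^ 2) * (12 * (x * (Y1 : ℝ) ^ 2 / L ^ (U + 2))) := by gcongr
      _ = 24 * (x * (Y : ℝ) ^ 2 / L ^ (U + 2)) := by
          have : (Y1 : ℝ) ≠ 0 := by linarith
          field_simp
          ring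
  have e2 : Y * (3 * L * (2 * Real.pi * (Y1 * |α - a / q|))) + 2 * Y1 * (3 * L) ≤ 25 * (Y / L ^ (U + 3)) := by
    have f1 : Y * (3 * L * (2 * Real.pi * (Y1 * |α - a / q|))) ≤ 19 * (Y1 * (L * L ^ B)) := by
      have g1 : (Y : ℝ) * |α - a / q| ≤ L ^ B := by
        rw [le_div_iff₀ hYpos] at hα
        linarith
      calc Y * (3 * L * (2 * Real.pi * (Y1 * |α - a / q|))) =
          (6 * Real.pi) * (Y1 * (L * (Y * |α - a / q|))) := by ring
        _ ≤ 19 * (Y1 * (L * L ^ B)) := by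
            gcongr
            nlinarith [Real.pi_lt_d2]
    have f2 : 2 * Y1 * (3 * L) ≤ 6 * (Y1 * (L * L ^ B)) := by
      have : L * 1 ≤ L * L ^ B := by
        gcongr
        exact one_le_pow₀ hL1
      nlinarith
    have f3 : (Y1 : ℝ) * (L * L ^ B) ≤ Y / L ^ (U + 3) := by
      calc (Y1 : ℝ) * (L * L ^ B) ≤ Y / L ^ (B + U + 4) * (L * L ^ B) := by gcongr
        _ = Y / L ^ (U + 3) := by
            field_simp
            ring
    linarith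
  have e3 : 0 ≤ Y * (3 * L * (2 * Real.pi * (Y1 * |α - a / q|))) + 2 * Y1 * (3 * L) := by positivity
  have e4 : 2 * (x : ℝ) * (Y * (3 * L * (2 * Real.pi * (Y1 * |α - a / q|))) + 2 * Y1 * (3 * L)) ^ 2 ≤
      x * (Y : ℝ) ^ 2 / L ^ U / 2 := by
    calc _ ≤ 2 * (x : ℝ) * (25 * (Y / L ^ (U + 3))) ^ 2 := by gcongr
      _ = x * (Y : ℝ) ^ 2 / L ^ U / 2 * (2500 / L ^ (U + 6)) := by
          field_simp
          ring
      _ ≤ x * (Y : ℝ) ^ 2 / L ^ U / 2 * 1 := by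
          gcongr
          rw [div_le_one (by positivity)]
          calc (2500 : ℝ) ≤ L ^ 2 := by nlinarith
            _ ≤ L ^ (U + 6) := pow_le_pow_right₀ hL1 (by omega)
      _ = _ := by ring
  have e5 : 24 * (x * (Y : ℝ) ^ 2 / L ^ (U + 2)) ≤ x * (Y : ℝ) ^ 2 / L ^ U / 2 := by
    calc 24 * (x * (Y : ℝ) ^ 2 / L ^ (U + 2)) = x * (Y : ℝ) ^ 2 / L ^ U / 2 * (48 / L ^ 2) := by
          field_simp
          ring
      _ ≤ x * (Y : ℝ) ^ 2 / L ^ U / 2 * 1 := by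
          gcongr
          rw [div_le_one (by positivity)]
          nlinarith
      _ = _ := by ring
  have e6 : x * (Y : ℝ) ^ 2 / L ^ U / 2 + x * (Y : ℝ) ^ 2 / L ^ U / 2 = x * (Y : ℝ) ^ 2 / L ^ U := by ring
  linarith


theorem t_ARCf (g : ℕ → ℝ) (hg1 : ∀ n, |g n| ≤ 1) (hMAJ : S_MAJf g) : S_ARCf g := by
  intro B U
  obtain ⟨C₀, X₁, hall⟩ := hMAJ (B + 1) (2 * U + 5)
  obtain ⟨n2, h2⟩ := ev_L' (2 ^ (2 * U + 10) + 64 + 2 ^ (B + 1))
  obtain ⟨n3, h3⟩ := ev_log' (2 * C₀ + U + 4) 4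
  obtain ⟨n4, h4⟩ := ev_log' (C₀ + U + 2) 512
  refine ⟨C₀ + 1, n2 + n3 + n4 + X₁ ^ 2 + 16, fun X hX q hq1 hqB M hM r H hH a hra => ?_⟩
  have h2 := h2 X (by omega)
  have h3 := h3 X (by omega)
  have h4 := h4 X (by omega)
  have hX16 : 16 ≤ X := by omega
  have hXX : X₁ ^ 2 ≤ X := by omega
  have hX0 : (0 : ℝ) < X := by exact_mod_cast (by omega : 0 < X)
  have hX1 : (1 : ℝ) ≤ X := by exact_mod_cast (by omega : 1 ≤ X)
  set L := Real.log X with hL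
  have hp1 : (0 : ℝ) < 2 ^ (2 * U + 10) := by positivity
  have hp3 : (0 : ℝ) < 2 ^ (B + 1) := by positivity
  have hL64 : 64 ≤ L := by linarith
  have hLU : (2 : ℝ) ^ (2 * U + 10) ≤ L := by linarith
  have hLB : (2 : ℝ) ^ (B + 1) ≤ L := by linarith
  have hL0 : 0 < L := by linarith
  have hL1 : 1 ≤ L := by linarith
  -- the cube root
  set c3 : ℝ := (X : ℝ) ^ (1 / 3 : ℝ) with hc3
  have hc31 : 1 ≤ c3 := Real.one_le_rpow hX1 (by norm_num)
  have hc3s : c3 ≤ √X := by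
    rw [Real.sqrt_eq_rpow]
    exact Real.rpow_le_rpow_of_exponent_le hX1 (by norm_num)
  have hss : √(X : ℝ) * √X = X := Real.mul_self_sqrt hX0.le
  have hs0 : 0 < √(X : ℝ) := Real.sqrt_pos.2 hX0
  set Y : ℕ := ⌈c3 * L ^ C₀⌉₊ with hY
  have hYge : c3 * L ^ C₀ ≤ Y := Nat.le_ceil _
  have hLC : 1 ≤ L ^ C₀ := one_le_pow₀ hL1
  have hcL : 1 ≤ c3 * L ^ C₀ := by nlinarith
  have hYle : (Y : ℝ) ≤ 2 * (c3 * L ^ C₀) := by
    have := (Nat.ceil_lt_add_one (by linarith : 0 ≤ c3 * L ^ C₀)).le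
    linarith
  have hY1 : (1 : ℝ) ≤ Y := hcL.trans hYge
  have hY1' : 1 ≤ Y := by exact_mod_cast hY1
  -- Y is small
  have hYs : (256 : ℝ) * Y * L ^ (U + 2) ≤ X := by
    have e1 : L ^ (C₀ + U + 2) = L ^ C₀ * L ^ (U + 2) := by rw [add_assoc, pow_add]
    rw [e1] at h4
    have h5 : 0 < L ^ (U + 2) := by positivity
    calc (256 : ℝ) * Y * L ^ (U + 2) ≤ 256 * (2 * (c3 * L ^ C₀)) * L ^ (U + 2) := by gcongr
      _ = c3 * (512 * (L ^ C₀ * L ^ (U + 2))) := by ring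
      _ ≤ √X * √X := mul_le_mul hc3s h4 (by positivity) hs0.le
      _ = X := hss
  have hYX : Y ≤ X := by
    have h5 : 1 ≤ L ^ (U + 2) := one_le_pow₀ hL1
    have h6 : (Y : ℝ) ≤ X := by nlinarith
    exact_mod_cast h6
  -- H is large
  have hH8 : 8 * Y ≤ H := by
    have h5 : (8 : ℝ) * Y ≤ H := by
      refine le_trans ?_ hH
      rw [pow_succ]
      nlinarith
    exact_mod_cast h5
  -- the number of dyadic steps
  obtain ⟨I', hI1, hI2⟩ := exists_nat_pow_near (one_le_pow₀ hL1 : 1 ≤ L ^ (U + 4)) (by norm_num : (1 : ℝ) < 2)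
  set I := I' + 1 with hI
  have hIle : (I : ℝ) ≤ 2 * L ^ (U + 4) := by
    have h5 : (I : ℝ) ≤ 2 ^ I := by
      have := (Nat.lt_two_pow_self (n := I)).le
      exact_mod_cast this
    rw [hI, pow_succ] at h5
    rw [hI]
    linarith
  have h2I : (2 : ℝ) ^ I ≤ 2 * L ^ (U + 4) := by
    rw [hI, pow_succ]; linarith
  have h2I' : L ^ (U + 4) ≤ (2 : ℝ) ^ I := hI2.le
  -- the dyadic points are large
  have hxi : ∀ i < I, √X ≤ xi X (i + 1) ∧ (Y : ℝ) * L ^ C₀ ≤ xi X (i + 1) := by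
    intro i hi
    have h5 : xi X I ≤ xi X (i + 1) := xi_anti X (by omega)
    have h6 : (xi X I : ℝ) ≤ xi X (i + 1) := by exact_mod_cast h5
    have h7 := xi_ge X I
    have h8 : (X : ℝ) / (2 * L ^ (U + 4)) ≤ X / 2 ^ I := div_le_div_of_nonneg_left hX0.le (by positivity) h2I
    have h9 : (Y : ℝ) * L ^ C₀ ≤ X / (2 * L ^ (U + 4)) := by
      rw [le_div_iff₀ (by positivity)]
      have e1 : L ^ (2 * C₀ + U + 4) = L ^ C₀ * L ^ C₀ * L ^ (U + 4) := by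
        rw [← pow_add, ← pow_add]; congr 1; ring
      rw [e1] at h3
      calc (Y : ℝ) * L ^ C₀ * (2 * L ^ (U + 4)) ≤ (2 * (c3 * L ^ C₀)) * L ^ C₀ * (2 * L ^ (U + 4)) := by gcongr
        _ = c3 * (4 * (L ^ C₀ * L ^ C₀ * L ^ (U + 4))) := by ring
        _ ≤ √X * √X := mul_le_mul hc3s h3 (by positivity) hs0.le
        _ = X := hss
    have h10 : √(X : ℝ) ≤ X / (2 * L ^ (U + 4)) := by
      rw [le_div_iff₀ (by positivity)]
      have e1 : L ^ (U + 4) ≤ L ^ (2 * C₀ + U + 4) := pow_le_pow_right₀ hL1 (by omega)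
      have e2 : 2 * L ^ (U + 4) ≤ √X := by
        have : 0 < L ^ (U + 4) := by positivity
        linarith
      calc √(X : ℝ) * (2 * L ^ (U + 4)) ≤ √X * √X := mul_le_mul_of_nonneg_left e2 hs0.le
        _ = X := hss
    exact ⟨by linarith, by linarith⟩
  have hgB : ∀ n ∈ Icc 1 X, |g n| ≤ 2 * L := by
    intro n _
    have := hg1 n
    linarith
  -- the sum over the dyadic ranges
  have hMS : ∀ i ∈ range I, MS g ((r : ℝ) / M) (xi X (i + 1)) Y ≤ X * (Y : ℝ) ^ 2 * (2 / L) ^ (2 * U + 5) := by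
    intro i hi
    rw [mem_range] at hi
    obtain ⟨h5, h6⟩ := hxi i hi
    set x := xi X (i + 1) with hx
    have hx0 : (0 : ℝ) < x := lt_of_lt_of_le hs0 h5
    have hxX : (x : ℝ) ≤ X := by exact_mod_cast xi_le X (i + 1)
    have hlx : Real.log x ≤ L := Real.log_le_log hx0 hxX
    have hlx2 : L / 2 ≤ Real.log x := by
      have := Real.log_le_log hs0 h5
      rw [Real.log_sqrt hX0.le] at this
      exact this
    have hlx0 : 0 < Real.log x := by linarith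
    have hxX1 : X₁ ≤ x := by
      have h7 : (X₁ : ℝ) ≤ √X := by
        apply Real.le_sqrt_of_sq_le
        exact_mod_cast hXX
      exact_mod_cast h7.trans h5
    have hLB1 : L ^ B ≤ Real.log x ^ (B + 1) := by
      refine le_trans ?_ (pow_le_pow_left₀ (by linarith) hlx2 _)
      rw [div_pow, le_div_iff₀ (by positivity), pow_succ L B]
      exact mul_le_mul_of_nonneg_left hLB (by positivity)
    have h7 := hall x hxX1 q hq1 (hqB.trans hLB1) Y (by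
      refine le_trans ?_ hYge
      exact mul_le_mul (Real.rpow_le_rpow hx0.le hxX (by norm_num)) (pow_le_pow_left₀ hlx0.le hlx _)
        (by positivity) (by positivity)) (by
      refine le_trans ?_ h6
      exact mul_le_mul_of_nonneg_left (pow_le_pow_left₀ hlx0.le hlx _) (by positivity)) a ((r : ℝ) / M) (by
      refine hra.trans ?_
      apply div_le_div₀ (by positivity) hLB1 (by linarith)
      have h8 : Y ≤ H := by omega
      exact_mod_cast h8)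
    refine h7.trans ?_
    rw [div_eq_mul_inv, ← inv_pow]
    refine mul_le_mul (mul_le_mul_of_nonneg_right hxX (by positivity)) ?_ (by positivity) (by positivity)
    apply pow_le_pow_left₀ (by positivity)
    rw [inv_eq_one_div, div_le_div_iff₀ hlx0 hL0]
    linarith
  have hsum : ∑ m ∈ range (X + Y), ‖TT (fun n => (g n : ℂ)) X Y ((r : ℝ) / M) m‖ ^ 2 ≤
      X * (Y : ℝ) ^ 2 / (4 * L ^ U) := by
    refine (sum_TT_le g X Y I ((r : ℝ) / M) (2 * L) (by positivity) hgB).trans ?_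
    have h5 := sum_le_sum hMS
    rw [sum_const, card_range, nsmul_eq_mul] at h5
    have hY2 : 0 < X * (Y : ℝ) ^ 2 := by positivity
    have hLU0 : 0 < L ^ U := by positivity
    -- first term
    have h6 : (I : ℝ) * (X * (Y : ℝ) ^ 2 * (2 / L) ^ (2 * U + 5)) ≤ X * (Y : ℝ) ^ 2 / (16 * L ^ U) := by
      have e1 : (I : ℝ) * (2 / L) ^ (2 * U + 5) ≤ 1 / (16 * L ^ U) := by
        rw [div_pow, mul_div_assoc', div_le_div_iff₀ (by positivity) (by positivity), one_mul]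
        calc (I : ℝ) * 2 ^ (2 * U + 5) * (16 * L ^ U) ≤ (2 * L ^ (U + 4)) * 2 ^ (2 * U + 5) * (16 * L ^ U) := by gcongr
          _ = 2 ^ (2 * U + 10) * L ^ (2 * U + 4) := by
              have : L ^ (2 * U + 4) = L ^ (U + 4) * L ^ U := by rw [← pow_add]; congr 1; ring
              rw [this]; ring
          _ ≤ L * L ^ (2 * U + 4) := mul_le_mul_of_nonneg_right hLU (by positivity)
          _ = L ^ (2 * U + 5) := by ring
      calc (I : ℝ) * (X * (Y : ℝ) ^ 2 * (2 / L) ^ (2 * U + 5)) = (X * (Y : ℝ) ^ 2) * ((I : ℝ) * (2 / L) ^ (2 * U + 5)) := by ring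
        _ ≤ (X * (Y : ℝ) ^ 2) * (1 / (16 * L ^ U)) := mul_le_mul_of_nonneg_left e1 hY2.le
        _ = _ := by ring
    have h7 : (xi X I : ℝ) ≤ X / L ^ (U + 4) + 1 := by
      refine (xi_le' X I).trans ?_
      have := div_le_div_of_nonneg_left hX0.le (by positivity) h2I'
      linarith
    have h8 : ((xi X I : ℝ) + 2 * Y + 1) * (2 * L * Y) ^ 2 ≤ 2 * (X * (Y : ℝ) ^ 2 / (16 * L ^ U)) := by
      have e1 : (xi X I : ℝ) + 2 * Y + 1 ≤ X / L ^ (U + 4) + 4 * Y := by linarith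
      have e2 : X / L ^ (U + 4) * (4 * L ^ 2) ≤ X / (16 * L ^ U) := by
        rw [div_mul_eq_mul_div, div_le_div_iff₀ (by positivity) (by positivity)]
        have e3 : (64 : ℝ) ≤ L ^ 2 := by nlinarith
        have e4 : L ^ (U + 4) = L ^ 2 * L ^ 2 * L ^ U := by ring
        rw [e4]
        have : X * (4 * L ^ 2) * (16 * L ^ U) = X * L ^ 2 * L ^ U * 64 := by ring
        rw [this]
        have : X * (L ^ 2 * L ^ 2 * L ^ U) = X * L ^ 2 * L ^ U * L ^ 2 := by ring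
        rw [this]
        exact mul_le_mul_of_nonneg_left e3 (by positivity)
      have e3 : 4 * (Y : ℝ) * (4 * L ^ 2) ≤ X / (16 * L ^ U) := by
        rw [le_div_iff₀ (by positivity)]
        calc 4 * (Y : ℝ) * (4 * L ^ 2) * (16 * L ^ U) = 256 * Y * L ^ (U + 2) := by ring
          _ ≤ X := hYs
      calc ((xi X I : ℝ) + 2 * Y + 1) * (2 * L * Y) ^ 2 ≤ (X / L ^ (U + 4) + 4 * Y) * (2 * L * Y) ^ 2 :=
            mul_le_mul_of_nonneg_right e1 (by positivity)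
        _ = (X / L ^ (U + 4) * (4 * L ^ 2) + 4 * (Y : ℝ) * (4 * L ^ 2)) * (Y : ℝ) ^ 2 := by ring
        _ ≤ (X / (16 * L ^ U) + X / (16 * L ^ U)) * (Y : ℝ) ^ 2 := by
            apply mul_le_mul_of_nonneg_right _ (by positivity)
            linarith
        _ = _ := by ring
    have h9 : X * (Y : ℝ) ^ 2 / (16 * L ^ U) = (X * (Y : ℝ) ^ 2 / (4 * L ^ U)) / 4 := by
      rw [div_div]; congr 1; ring
    have h10 : 0 < X * (Y : ℝ) ^ 2 / (4 * L ^ U) := by positivity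
    linarith
  -- conclusion
  have hHpos : 0 < H := by omega
  have hK8 : 8 * Y * (M / H) ≤ M := (Nat.mul_le_mul_right _ hH8).trans (Nat.mul_div_le M H)
  have hK2 : 2 * (M / H) + 1 ≤ M := by
    have : 8 * (M / H) ≤ 8 * Y * (M / H) := by
      apply Nat.mul_le_mul_right; omega
    omega
  have hfin := gallagher (fun n => (g n : ℂ)) X Y M (M / H) (by omega) (by omega) r hK2 hK8
  have hDF : ∀ s : ℤ, DF g X M (r + s) = ∑ n ∈ Icc 1 X, (g n : ℂ) * ee ((n : ℝ) * (((r + s : ℤ) : ℝ) / M)) := fun s => rfl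
  have hgoal : ∑ s ∈ Icc (-((M / H : ℕ) : ℤ)) ((M / H : ℕ) : ℤ), ‖DF g X M (r + s)‖ ^ 2 ≤ M * X / L ^ U := by
    simp_rw [hDF]
    have hM0 : (0 : ℝ) ≤ M := Nat.cast_nonneg _
    have h5 := hfin.trans (mul_le_mul_of_nonneg_left hsum hM0)
    have h6 : (0 : ℝ) < ((Y : ℝ) / 2) ^ 2 := by positivity
    refine le_of_mul_le_mul_right (h5.trans (le_of_eq ?_)) h6
    field_simp
    ring
  exact hgoal


theorem t_T31f (g : ℕ → ℝ) (hg1 : ∀ n, |g n| ≤ 1) (hA : S_ARCf g) : S_T31f g := by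
  intro Bc U
  refine ⟨U + 2, fun T D => ?_⟩
  obtain ⟨V, hV⟩ : ∃ V, V = U + 2 := ⟨_, rfl⟩
  rw [← hV]
  obtain ⟨U', hU'⟩ : ∃ U', U' = 2 * T + D + U + 2 := ⟨_, rfl⟩
  obtain ⟨C', X₁, hA⟩ := hA (D + 2 + T) U'
  obtain ⟨N₁, hN₁⟩ := Pool.Agent.Run7.h18.MK.ev 1 (36 * (Bc + 1) + 2 ^ C' + Real.log (Bc + 1) + 100)
  refine ⟨C' + 2, N₁ + X₁ + 3, fun N hN ι Ω p Yv hp hp1 hY H hH1 hH2 hφ => ?_⟩
  obtain ⟨hLK, -⟩ := hN₁ N (by omega)
  have hN0 : (0 : ℝ) < N := by exact_mod_cast (by omega : 0 < N)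
  have hN1 : (1 : ℝ) ≤ N := by exact_mod_cast (by omega : 1 ≤ N)
  obtain ⟨L, hL⟩ : ∃ L, L = Real.log (N : ℝ) := ⟨_, rfl⟩
  rw [← hL] at hLK hH1 hφ ⊢
  have hBc0 : (0 : ℝ) ≤ Bc := Nat.cast_nonneg _
  have h2C : (0 : ℝ) < 2 ^ C' := by positivity
  have hlB : 0 ≤ Real.log ((Bc : ℝ) + 1) := Real.log_nonneg (by linarith)
  have hL1 : 100 ≤ L := by linarith
  have hL2 : 36 * ((Bc : ℝ) + 1) ≤ L := by linarith
  have hL3 : (2 : ℝ) ^ C' ≤ L := by linarith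
  have hL4 : Real.log ((Bc : ℝ) + 1) ≤ L := by linarith
  have hL0 : 0 < L := by linarith
  have hL11 : 1 ≤ L := by linarith
  -- the parameters
  obtain ⟨X, hX⟩ : ∃ X : ℕ, X = (Bc + 1) * N := ⟨_, rfl⟩
  have hXr : (X : ℝ) = ((Bc : ℝ) + 1) * N := by rw [hX]; push_cast; ring
  have hNX : N ≤ X := by rw [hX]; exact Nat.le_mul_of_pos_left _ (by omega)
  have hX1 : 1 ≤ X := by omega
  have hX0 : (0 : ℝ) < X := by exact_mod_cast hX1
  have hNXr : (N : ℝ) ≤ X := by exact_mod_cast hNX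
  obtain ⟨LX, hLX⟩ : ∃ LX, LX = Real.log (X : ℝ) := ⟨_, rfl⟩
  have hLX1 : L ≤ LX := by rw [hL, hLX]; exact Real.log_le_log hN0 hNXr
  have hLX2 : LX ≤ 2 * L := by
    rw [hLX, hXr, Real.log_mul (by linarith) hN0.ne', ← hL]
    linarith
  have hLX0 : 0 < LX := by linarith
  have hHpos : 0 < H := by
    have h2 : (0 : ℝ) < H := lt_of_lt_of_le (by positivity) hH1
    exact_mod_cast h2
  have hH0 : (0 : ℝ) < H := by exact_mod_cast hHpos
  obtain ⟨M, hM⟩ : ∃ M, M = 4 * X := ⟨_, rfl⟩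
  have hM1 : 1 ≤ M := by omega
  have hM0 : (0 : ℝ) < M := by exact_mod_cast hM1
  have hMX : (M : ℝ) = 4 * X := by rw [hM]; push_cast; ring
  have hHr : (H : ℝ) ≤ N := by exact_mod_cast hH2
  have hMH : 1 ≤ (M : ℝ) / H := by
    rw [le_div_iff₀ hH0]
    linarith
  obtain ⟨R, hR⟩ : ∃ R : ℝ, R = 2 * L ^ D * ((M : ℝ) / H) := ⟨_, rfl⟩
  have hLD : 1 ≤ L ^ D := one_le_pow₀ hL11
  have hR1 : 1 ≤ R := by
    rw [hR]
    nlinarith
  obtain ⟨n, hn⟩ : ∃ n : ℕ, n = ⌊R⌋₊ := ⟨_, rfl⟩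
  have hnR : (n : ℝ) ≤ R := by rw [hn]; exact Nat.floor_le (by linarith)
  have hRn : R < n + 1 := by rw [hn]; exact Nat.lt_floor_add_one R
  obtain ⟨J, hJ⟩ : ∃ J : ℕ, J = ⌈4 * L ^ D⌉₊ + 1 := ⟨_, rfl⟩
  have hJ1 : 4 * L ^ D + 1 ≤ J := by
    rw [hJ]
    push_cast
    have := Nat.le_ceil (4 * L ^ D)
    linarith
  have hJ2 : (J : ℝ) ≤ 6 * L ^ D := by
    rw [hJ]
    push_cast
    have := (Nat.ceil_lt_add_one (by positivity : 0 ≤ 4 * L ^ D)).le
    linarith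
  obtain ⟨w, hw⟩ : ∃ w : ℕ, w = M / H := ⟨_, rfl⟩
  have hw1 : (M : ℝ) / H ≤ 2 * w + 1 := by
    have h1 : M < H * (w + 1) := by rw [hw]; exact Nat.lt_mul_div_succ M hHpos
    have h2 : (M : ℝ) < H * (w + 1) := by exact_mod_cast h1
    rw [div_le_iff₀ hH0]
    have h3 : (0 : ℝ) ≤ w := Nat.cast_nonneg _
    nlinarith
  have hw2 : (w : ℝ) ≤ (M : ℝ) / H := by rw [hw]; exact Nat.cast_div_le
  obtain ⟨KK, hKK⟩ : ∃ KK : ℕ, KK = ⌊L ^ T⌋₊ := ⟨_, rfl⟩
  have hKK1 : (KK : ℝ) ≤ L ^ T := by rw [hKK]; exact Nat.floor_le (by positivity)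
  -- integer bounds
  have hYX : ∀ ω ∈ Ω, ∀ n' ∈ Icc 1 N, |(n' : ℤ) + Yv ω| ≤ X := by
    intro ω hω n' hn'
    rw [mem_Icc] at hn'
    have h1 := abs_le.1 (hY ω hω)
    have h3 : (X : ℤ) = Bc * N + N := by rw [hX]; push_cast; ring
    rw [abs_le]
    constructor
    · have := h1.1
      omega
    · have := h1.2
      omega
  have hg2 : ∀ m ∈ Icc 1 X, g m ^ 2 ≤ 9 * L ^ 2 := by
    intro m _
    have h9 : |g m| ≤ 3 * L := by
      have := hg1 m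
      linarith
    calc g m ^ 2 = |g m| ^ 2 := (sq_abs _).symm
      _ ≤ (3 * L) ^ 2 := pow_le_pow_left₀ (abs_nonneg _) h9 2
      _ = _ := by ring
  obtain ⟨K, hK⟩ : ∃ K : ℝ, K = M * X / LX ^ U' := ⟨_, rfl⟩
  have hHC : (X : ℝ) ^ (1 / 3 : ℝ) * LX ^ C' ≤ H := by
    refine le_trans ?_ hH1
    have h1 : (X : ℝ) ^ (1 / 3 : ℝ) ≤ (N : ℝ) ^ (1 / 3 : ℝ) * L := by
      rw [hXr, Real.mul_rpow (by linarith) hN0.le, mul_comm]
      apply mul_le_mul_of_nonneg_left _ (by positivity)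
      calc ((Bc : ℝ) + 1) ^ (1 / 3 : ℝ) ≤ ((Bc : ℝ) + 1) ^ (1 : ℝ) :=
            Real.rpow_le_rpow_of_exponent_le (by linarith) (by norm_num)
        _ = (Bc : ℝ) + 1 := Real.rpow_one _
        _ ≤ L := by linarith
    have h2 : LX ^ C' ≤ L * L ^ C' := by
      calc LX ^ C' ≤ (2 * L) ^ C' := pow_le_pow_left₀ hLX0.le hLX2 _
        _ = 2 ^ C' * L ^ C' := mul_pow _ _ _
        _ ≤ L * L ^ C' := mul_le_mul_of_nonneg_right hL3 (by positivity)
    calc (X : ℝ) ^ (1 / 3 : ℝ) * LX ^ C' ≤ ((N : ℝ) ^ (1 / 3 : ℝ) * L) * (L * L ^ C') :=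
          mul_le_mul h1 h2 (by positivity) (by positivity)
      _ = (N : ℝ) ^ (1 / 3 : ℝ) * L ^ (C' + 2) := by ring
  have hLB : ∀ e : ℕ, e ≤ D + 2 + T → L ^ e ≤ LX ^ (D + 2 + T) := by
    intro e he
    calc L ^ e ≤ LX ^ e := pow_le_pow_left₀ hL0.le hLX1 _
      _ ≤ _ := pow_le_pow_right₀ (by linarith) he
  have hKarc : ∀ γ ∈ GamA KK M, ∀ c : ℤ, |c - γ| ≤ n + w →
      ∑ s ∈ Icc (-(w : ℤ)) (w : ℤ), ‖DF g X M (c + s)‖ ^ 2 ≤ K := by
    intro γ hγ c hc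
    unfold GamA at hγ
    rw [mem_biUnion] at hγ
    obtain ⟨k, hk, hγ⟩ := hγ
    rw [mem_Icc] at hk
    unfold Gam at hγ
    obtain ⟨j, -, rfl⟩ := mem_image.1 hγ
    have hkr : (0 : ℝ) < k := by exact_mod_cast hk.1
    have hkT : (k : ℝ) ≤ L ^ T := le_trans (by exact_mod_cast hk.2) hKK1
    rw [hK, hw, hLX]
    apply hA X (by omega) k hk.1 (by rw [← hLX]; exact hkT.trans (hLB T (by omega))) M
      (by omega) c H (by rw [← hLX]; exact hHC) (j : ℤ)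
    rw [← hLX]
    have h1 := abs_sub_round ((M : ℝ) * j / k)
    have h2 : |((c - round ((M : ℝ) * j / k) : ℤ) : ℝ)| ≤ n + w := by
      rw [← Int.cast_abs]
      exact_mod_cast hc
    have h3 : (c : ℝ) / M - ((j : ℤ) : ℝ) / k = (((c - round ((M : ℝ) * j / k) : ℤ) : ℝ) -
        ((M : ℝ) * j / k - round ((M : ℝ) * j / k))) / M := by
      push_cast
      field_simp
      ring
    rw [h3, abs_div, abs_of_pos hM0, div_le_div_iff₀ hM0 hH0]
    have h4 := abs_sub (((c - round ((M : ℝ) * j / k) : ℤ) : ℝ)) ((M : ℝ) * j / k - round ((M : ℝ) * j / k))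
    have h5 : |((c - round ((M : ℝ) * j / k) : ℤ) : ℝ) - ((M : ℝ) * j / k - round ((M : ℝ) * j / k))| ≤
        (2 * L ^ D + 2) * (M / H) := by
      have e1 : (2 * L ^ D + 2) * ((M : ℝ) / H) = R + M / H + M / H := by rw [hR]; ring
      rw [e1]
      linarith
    have h6 : 2 * L ^ D + 2 ≤ LX ^ (D + 2 + T) := by
      refine le_trans ?_ (hLB (D + 1) (by omega))
      rw [pow_succ]
      nlinarith
    calc |((c - round ((M : ℝ) * j / k) : ℤ) : ℝ) - ((M : ℝ) * j / k - round ((M : ℝ) * j / k))| * H ≤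
        ((2 * L ^ D + 2) * (M / H)) * H := mul_le_mul_of_nonneg_right h5 hH0.le
      _ = (2 * L ^ D + 2) * M := by field_simp
      _ ≤ _ := mul_le_mul_of_nonneg_right h6 hM0.le
  have hJn : 2 * n + 1 ≤ J * (2 * w + 1) := by
    have h1 : (2 : ℝ) * n + 1 ≤ J * (2 * w + 1) := by
      calc (2 : ℝ) * n + 1 ≤ 2 * R + M / H := by linarith
        _ = (4 * L ^ D + 1) * (M / H) := by rw [hR]; ring
        _ ≤ J * (2 * w + 1) := mul_le_mul hJ1 hw1 (by positivity) (Nat.cast_nonneg _)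
    exact_mod_cast h1
  have hΓ : ∀ t : ℤ, (∀ γ ∈ GamA KK M, ∀ k : ℤ, R < |((t - γ - k * M : ℤ) : ℝ)|) →
      ‖∑ ω ∈ Ω, ((p ω : ℝ) : ℂ) * ee ((Yv ω : ℝ) * ((t : ℝ) / M))‖ ≤ 1 / L ^ V := by
    intro t ht
    apply hφ
    intro k hk1 hkT a
    refine lt_of_le_of_lt ?_ (farA KK M hM1 R t ht k hk1 (by rw [hKK]; exact Nat.le_floor hkT) a)
    rw [div_le_div_iff₀ hH0 hM0]
    have e1 : L ^ D * M = (L ^ D * (M / H)) * H := by field_simp
    rw [e1]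
    apply mul_le_mul_of_nonneg_right _ hH0.le
    have e2 : 1 / 2 ≤ L ^ D * ((M : ℝ) / H) := by nlinarith
    rw [hR]
    linarith
  have hcore := core Ω p Yv hp hp1 N X M w J n hM1
    (by omega) (by omega) g (fun v hv n' hn' => (abs_le.1 (hYX v hv n' hn')).2)
    (fun v hv n' hn' m hm => by
      have h1 := abs_le.1 (hYX v hv n' hn')
      rw [mem_Icc] at hm
      rw [abs_lt]
      constructor
      · have := h1.2
        omega
      · have := h1.1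
        omega)
    (9 * L ^ 2) K (1 / L ^ V) R hg2 (GamA KK M) hKarc hJn hRn hΓ
  have hgoal : ∑ n' ∈ Icc 1 N, (∑ ω ∈ Ω, p ω * gI g ((n' : ℤ) + Yv ω)) ^ 2 ≤ N / L ^ U := by
    refine hcore.trans ?_
    have t1 : (1 / L ^ V) ^ 2 * (X * (9 * L ^ 2)) ≤ N / L ^ U / 2 := by
      rw [hXr]
      calc (1 / L ^ V) ^ 2 * ((((Bc : ℝ) + 1) * N) * (9 * L ^ 2)) = (9 * ((Bc : ℝ) + 1)) * N * L ^ 2 / L ^ (2 * V) := by
            have e2 : L ^ (2 * V) = (L ^ V) ^ 2 := by rw [← pow_mul, mul_comm]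
            rw [e2, div_pow]
            ring
        _ ≤ N / L ^ U / 2 := by
            rw [div_div, div_le_div_iff₀ (by positivity) (by positivity)]
            have e3 : L ^ 2 * L ^ U * L ≤ L ^ (2 * V) := by
              rw [← pow_add, ← pow_succ]
              apply pow_le_pow_right₀ hL11
              omega
            have e4 : 0 ≤ L ^ 2 * L ^ U := by positivity
            calc (9 * ((Bc : ℝ) + 1)) * N * L ^ 2 * (L ^ U * 2) = N * ((18 * ((Bc : ℝ) + 1)) * (L ^ 2 * L ^ U)) := by ring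
              _ ≤ N * (L * (L ^ 2 * L ^ U)) := by
                  apply mul_le_mul_of_nonneg_left _ hN0.le
                  apply mul_le_mul_of_nonneg_right _ e4
                  linarith
              _ = N * (L ^ 2 * L ^ U * L) := by ring
              _ ≤ N * L ^ (2 * V) := mul_le_mul_of_nonneg_left e3 hN0.le
    have t2 : ((GamA KK M).card : ℝ) * (J * K) / M ≤ N / L ^ U / 2 := by
      have hc : ((GamA KK M).card : ℝ) ≤ L ^ (2 * T) := by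
        have h5 : ((GamA KK M).card : ℝ) ≤ KK * KK := by exact_mod_cast GamA_card KK M
        refine h5.trans ?_
        rw [two_mul, pow_add]
        exact mul_le_mul hKK1 hKK1 (Nat.cast_nonneg _) (by positivity)
      have hKM : K / M ≤ (((Bc : ℝ) + 1) * N) / L ^ U' := by
        rw [hK]
        have e1 : (M : ℝ) * X / LX ^ U' / M = X / LX ^ U' := by field_simp
        rw [e1]
        apply div_le_div₀ (by positivity) hXr.le (by positivity)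
        exact pow_le_pow_left₀ hL0.le hLX1 _
      have hK0 : 0 ≤ K / M := by rw [hK]; positivity
      calc ((GamA KK M).card : ℝ) * (J * K) / M = ((GamA KK M).card : ℝ) * (J * (K / M)) := by ring
        _ ≤ L ^ (2 * T) * ((6 * L ^ D) * ((((Bc : ℝ) + 1) * N) / L ^ U')) := by gcongr
        _ = (6 * ((Bc : ℝ) + 1)) * N * L ^ (2 * T + D) / L ^ U' := by
            rw [pow_add L (2 * T) D]
            ring
        _ ≤ N / L ^ U / 2 := by
            rw [div_div, div_le_div_iff₀ (by positivity) (by positivity)]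
            have e3 : L ^ (2 * T + D) * L ^ U * L ≤ L ^ U' := by
              rw [← pow_add, ← pow_succ]
              apply pow_le_pow_right₀ hL11
              omega
            have e4 : 0 ≤ L ^ (2 * T + D) * L ^ U := by positivity
            calc (6 * ((Bc : ℝ) + 1)) * N * L ^ (2 * T + D) * (L ^ U * 2) =
                N * ((12 * ((Bc : ℝ) + 1)) * (L ^ (2 * T + D) * L ^ U)) := by ring
              _ ≤ N * (L * (L ^ (2 * T + D) * L ^ U)) := by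
                  apply mul_le_mul_of_nonneg_left _ hN0.le
                  apply mul_le_mul_of_nonneg_right _ e4
                  linarith
              _ = N * (L ^ (2 * T + D) * L ^ U * L) := by ring
              _ ≤ N * L ^ U' := mul_le_mul_of_nonneg_left e3 hN0.le
    linarith
  exact hgoal


lemma mu_le (n : ℕ) : |((ArithmeticFunction.moebius n : ℤ) : ℝ)| ≤ 1 := by
  have h := ArithmeticFunction.abs_moebius_le_one (n := n)
  exact_mod_cast h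

theorem rat_mu : S_RAT (fun n => ((ArithmeticFunction.moebius n : ℤ) : ℝ)) := by
  intro B U
  obtain ⟨C, X₀, h⟩ := sia_all B U
  refine ⟨C, X₀, fun x hx q hq hqB a Y hY1 hY2 => ?_⟩
  obtain ⟨a', k, hak⟩ : ∃ (a' : ℕ) (k : ℤ), a = (a' : ℤ) + k * q := by
    have hq0 : (q : ℤ) ≠ 0 := by exact_mod_cast (by omega : q ≠ 0)
    refine ⟨(a % (q : ℤ)).toNat, a / (q : ℤ), ?_⟩
    rw [Int.toNat_of_nonneg (Int.emod_nonneg _ hq0)]
    have := Int.emod_add_mul_ediv a (q : ℤ)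
    linarith
  have hqR : (0 : ℝ) < q := by exact_mod_cast hq
  have hee : ∀ n : ℕ, ee (n * ((a : ℝ) / q)) = Pool.Agent.H469R2.NK.e ((a' : ℝ) * n / q) := by
    intro n
    rw [e_eq_ee]
    have : (n : ℝ) * ((a : ℝ) / q) = (a' : ℝ) * n / q + ((n * k : ℤ) : ℝ) := by
      rw [hak]
      push_cast
      field_simp
    rw [this, ee_add, ee_int, mul_one]
  have h2 := (h x hx q hq hqB a' Y hY1 hY2).2
  refine le_trans (le_of_eq (sum_congr rfl fun m _ => ?_)) h2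
  congr 2
  unfold W
  refine sum_congr rfl fun n _ => ?_
  rw [hee]
  push_cast
  rfl

/-- **the Möbius function over sparse windows in mean square** -/
theorem t31_mu : S_T31f (fun n => ((ArithmeticFunction.moebius n : ℤ) : ℝ)) :=
  t_T31f _ mu_le (t_ARCf _ mu_le (t_MAJf _ mu_le rat_mu))

end Pool.Agent.Run7.h524.MG
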