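import Pool.Agent.Run7.h524.MG.Mu1
import Pool.Agent.Run7.h18.MK.Poly3

/-!
# Bounded functions along all short polynomial sequences

Adapted from `Run7.h18.MK.ms_poly` and `Run7.h18.MK.poly_all`.
-/

set_option autoImplicit false

namespace Pool.Agent.Run7.h524.MG

open Finset Filter Polynomial
open Pool.Agent.H807R2.Dav (ee norm_ee ee_add ee_zero ee_int ee_add_int ee_pow)
open Pool.Agent.Run7.h27.MK (gI)
open Pool.Agent.Run7.h18.MK (ev iw_unif eval_le cheb union_bd polys rpow_third_ge grid grid_card)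

lemma gI_le (g : ℕ → ℝ) (hg1 : ∀ n, |g n| ≤ 1) (k : ℤ) : |gI g k| ≤ 1 := by
  unfold gI
  split_ifs
  · exact hg1 _
  · rw [abs_zero]
    exact zero_le_one

theorem ms_poly_f (g : ℕ → ℝ) (hG : S_T31f g) (d T U : ℕ) : ∃ C N₀ : ℕ, ∀ N : ℕ, N₀ ≤ N →
    ∀ f : ℤ[X], 1 ≤ f.natDegree → f.natDegree ≤ d →
    (∀ i, |((f.coeff i : ℤ) : ℝ)| ≤ Real.log N ^ T) → ∀ x : ℕ,
    (N : ℝ) ^ (1 / 3 : ℝ) * Real.log N ^ C ≤ (x : ℝ) ^ f.natDegree → (x : ℝ) ^ f.natDegree * Real.log N ^ (T + 1) ≤ N →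
    ∑ n ∈ Icc 1 N, (∑ m ∈ Icc 1 x, gI g ((n : ℤ) + f.eval (m : ℤ))) ^ 2 ≤
      (x : ℝ) ^ 2 * (N / Real.log N ^ U) := by
  obtain ⟨c, m, hc, hI⟩ := iw_unif d
  obtain ⟨V, hG⟩ := hG 1 U
  obtain ⟨C, N₁, hG⟩ := hG (V * m + T + 1) (V * m + 1)
  obtain ⟨N₂, hN₂⟩ := ev 1 (c + d + 2)
  refine ⟨C, N₁ + N₂ + 3, fun N hN f hf1 hf2 hcf x hx1 hx2 => ?_⟩
  obtain ⟨hLK, -⟩ := hN₂ N (by omega)
  have hN0 : (0 : ℝ) < N := by exact_mod_cast (by omega : 0 < N)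
  obtain ⟨L, hL⟩ : ∃ L, L = Real.log (N : ℝ) := ⟨_, rfl⟩
  have hc1 : (1 : ℝ) ≤ c := by exact_mod_cast hc
  have hd0 : (0 : ℝ) ≤ d := Nat.cast_nonneg _
  have hL1 : (1 : ℝ) ≤ L := by rw [hL]; linarith
  have hL0 : 0 < L := by linarith
  have hLc : (c : ℝ) ≤ L := by rw [hL]; linarith
  have hLd : (d : ℝ) + 1 ≤ L := by rw [hL]; linarith
  have hG := hG N (by omega)
  rw [← hL] at hG hcf hx1 hx2 ⊢
  have hxe : (0 : ℝ) < (x : ℝ) ^ f.natDegree := lt_of_lt_of_le (by positivity) hx1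
  have hx : 1 ≤ x := by
    rcases Nat.eq_zero_or_pos x with h | h
    · rw [h, Nat.cast_zero, zero_pow (by omega)] at hxe
      exact absurd hxe (lt_irrefl _)
    · exact h
  have hx0 : (0 : ℝ) < x := by exact_mod_cast hx
  have hval : ∀ m ∈ Icc 1 x, |((f.eval (m : ℤ) : ℤ) : ℝ)| ≤ N := by
    intro m hm
    refine (eval_le f d hf2 (L ^ T) hcf x m hm).trans (le_trans ?_ hx2)
    rw [pow_succ]
    calc ((d : ℝ) + 1) * L ^ T * (x : ℝ) ^ f.natDegree = ((x : ℝ) ^ f.natDegree * L ^ T) * (d + 1) := by ring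
      _ ≤ ((x : ℝ) ^ f.natDegree * L ^ T) * L := mul_le_mul_of_nonneg_left hLd (by positivity)
      _ = _ := by ring
  have hkey := hG ℕ (Icc 1 x) (fun _ => 1 / (x : ℝ)) (fun m => f.eval (m : ℤ)) (fun _ _ => by positivity)
    (by
      rw [sum_const, Nat.card_Icc, nsmul_eq_mul, Nat.add_sub_cancel]
      rw [mul_one_div_cancel hx0.ne'])
    (fun m hm => by
      have h1 := hval m hm
      have h2 : ((|f.eval (m : ℤ)| : ℤ) : ℝ) ≤ ((1 * N : ℤ) : ℝ) := by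
        rw [Int.cast_abs]
        push_cast
        rw [one_mul]
        exact h1
      exact_mod_cast h2) (x ^ f.natDegree) (by push_cast; exact hx1)
    (by
      have h1 : (x : ℝ) ^ f.natDegree ≤ N := by
        refine le_trans ?_ hx2
        exact le_mul_of_one_le_right hxe.le (one_le_pow₀ hL1)
      exact_mod_cast h1)
    (by
      intro α hα
      by_contra hcon
      push Not at hcon
      have hu1 : 1 ≤ L ^ V := one_le_pow₀ hL1
      have e1 : ∑ ω ∈ Icc 1 x, (((1 / (x : ℝ)) : ℝ) : ℂ) * ee (((f.eval (ω : ℤ) : ℤ) : ℝ) * α) =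
          (((1 / (x : ℝ)) : ℝ) : ℂ) * ∑ n ∈ Icc 1 x, ee (((f.eval (n : ℤ) : ℤ) : ℝ) * α) := by
        rw [mul_sum]
      rw [e1, norm_mul, Complex.norm_real, Real.norm_of_nonneg (by positivity)] at hcon
      have hS : (x : ℝ) ≤ L ^ V * ‖∑ n ∈ Icc 1 x, ee (((f.eval (n : ℤ) : ℤ) : ℝ) * α)‖ := by
        rw [div_lt_iff₀ (by positivity)] at hcon
        have h1 : 1 * (x : ℝ) ≤ (1 / (x : ℝ) * ‖∑ n ∈ Icc 1 x, ee (((f.eval (n : ℤ) : ℤ) : ℝ) * α)‖ * L ^ V) * x :=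
          mul_le_mul_of_nonneg_right hcon.le hx0.le
        rw [one_mul] at h1
        refine h1.trans (le_of_eq ?_)
        generalize ‖∑ n ∈ Icc 1 x, ee (((f.eval (n : ℤ) : ℤ) : ℝ) * α)‖ = S
        field_simp
      obtain ⟨k, hk1, hk2, a, ha⟩ := hI f.natDegree hf1 hf2 x (L ^ V) α f hx hu1 rfl hS
      have h3 : (c : ℝ) * (L ^ V) ^ m ≤ L ^ (V * m + 1) := by
        rw [← pow_mul, pow_succ, mul_comm]
        exact mul_le_mul_of_nonneg_left hLc (by positivity)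
      have h4 : (k : ℝ) ≤ L ^ (V * m + T + 1) := by
        have h5 : ((f.coeff f.natDegree).natAbs : ℝ) ≤ L ^ T := by
          have := hcf f.natDegree
          rwa [← Int.cast_abs, Int.abs_eq_natAbs, Int.cast_natCast] at this
        refine hk2.trans ?_
        calc (c : ℝ) * (L ^ V) ^ m * (f.coeff f.natDegree).natAbs ≤ L ^ (V * m + 1) * L ^ T :=
              mul_le_mul h3 h5 (Nat.cast_nonneg _) (by positivity)
          _ = _ := by rw [← pow_add]; congr 1; ring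
      have h6 := hα k hk1 h4 a
      have h7 : |α - a / k| ≤ L ^ (V * m + 1) / ((x ^ f.natDegree : ℕ) : ℝ) := by
        refine ha.trans ?_
        push_cast
        exact div_le_div_of_nonneg_right h3 hxe.le
      linarith)
  have e2 : ∀ n ∈ Icc 1 N, (∑ m ∈ Icc 1 x, gI g ((n : ℤ) + f.eval (m : ℤ))) ^ 2 =
      (x : ℝ) ^ 2 * (∑ m ∈ Icc 1 x, 1 / (x : ℝ) * gI g ((n : ℤ) + f.eval (m : ℤ))) ^ 2 := by
    intro n _
    rw [← mul_sum]
    field_simp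
  rw [sum_congr rfl e2, ← mul_sum]
  exact mul_le_mul_of_nonneg_left hkey (by positivity)


open Classical in
/-- all polynomials and all lengths at once -/
theorem poly_all_f (g : ℕ → ℝ) (hg1 : ∀ n, |g n| ≤ 1) (hG : S_T31f g) (d T U : ℕ) (hd : 1 ≤ d) : ∃ C N₀ : ℕ, ∀ N : ℕ, N₀ ≤ N →
    ∃ Ex : Finset ℕ, (Ex.card : ℝ) ≤ N / Real.log N ^ U ∧
    ∀ n ∈ Icc 1 N, n ∉ Ex → ∀ f : ℤ[X], 1 ≤ f.natDegree → f.natDegree ≤ d →
      (∀ i, |((f.coeff i : ℤ) : ℝ)| ≤ Real.log N ^ T) → ∀ x : ℕ,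
      (N : ℝ) ^ (1 / 3 : ℝ) * Real.log N ^ C ≤ (x : ℝ) ^ f.natDegree → (x : ℝ) ^ f.natDegree * Real.log N ^ C ≤ N →
      (∀ m ∈ Icc 1 x, 1 ≤ (n : ℤ) + f.eval (m : ℤ) ∧ |((f.eval (m : ℤ) : ℤ) : ℝ)| ≤ n) ∧
      |∑ m ∈ Icc 1 x, gI g ((n : ℤ) + f.eval (m : ℤ))| ≤ x / Real.log N ^ U := by
  classical
  obtain ⟨W, hW⟩ : ∃ W, W = (T + 1) * (d + 1) + (U + 7) := ⟨_, rfl⟩
  obtain ⟨U1, hU1⟩ : ∃ U1, U1 = W + 2 * (U + 2) + (U + 2) := ⟨_, rfl⟩
  obtain ⟨C1, N₁, hms⟩ := ms_poly_f g hG d T U1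
  obtain ⟨C, hC⟩ : ∃ C, C = C1 + T + U + 5 := ⟨_, rfl⟩
  obtain ⟨N₃, hev⟩ := ev (3 * ((U + 5) * d)) (9 + d + 2 ^ d)
  refine ⟨C, N₁ + N₃ + 3, fun N hN => ?_⟩
  have hms := hms N (by omega)
  obtain ⟨hLK, hLp⟩ := hev N (by omega)
  have hN2 : 2 ≤ N := by omega
  have hN0 : (0 : ℝ) < N := by exact_mod_cast (by omega : 0 < N)
  obtain ⟨L, hL⟩ : ∃ L, L = Real.log (N : ℝ) := ⟨_, rfl⟩
  rw [← hL] at hms hLK hLp ⊢
  have hd0 : (1 : ℝ) ≤ d := by exact_mod_cast hd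
  have q1 : (0 : ℝ) ≤ (2 : ℝ) ^ d := by positivity
  have hL6 : 6 ≤ L := by linarith
  have hL1 : 1 ≤ L := by linarith
  have hL0 : 0 < L := by linarith
  have hLd : (d : ℝ) + 1 ≤ L := by linarith
  have hL2d : (2 : ℝ) ^ d ≤ L := by linarith
  have hT1 : (1 : ℝ) ≤ L ^ T := one_le_pow₀ hL1
  -- the grid
  obtain ⟨K, hKd⟩ : ∃ K : ℕ, K = ⌈L ^ (U + 4)⌉₊ := ⟨_, rfl⟩
  have hK1 : L ^ (U + 4) ≤ K := by rw [hKd]; exact Nat.le_ceil _
  have hK2 : (K : ℝ) ≤ L ^ (U + 4) + 1 := by rw [hKd]; exact (Nat.ceil_lt_add_one (by positivity)).le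
  have hKtwo : 2 ≤ K := by
    have h1 : L ≤ L ^ (U + 4) := le_self_pow₀ hL1 (by omega)
    have : (2 : ℝ) ≤ K := by linarith
    exact_mod_cast this
  obtain ⟨G, hGd⟩ : ∃ G : Finset ℕ, G = ((Icc K (2 * K)) ×ˢ range (Nat.log 2 N + 1)).image (fun ab : ℕ × ℕ => ab.1 * 2 ^ ab.2) :=
    ⟨_, rfl⟩
  have hGc : (G.card : ℝ) ≤ L ^ (U + 7) := by rw [hGd]; exact grid_card N K U L hL hL6 (by omega) hK2
  obtain ⟨P, hPc, hP⟩ := polys d (L ^ T) hT1
  have hPc2 : (P.card : ℝ) ≤ L ^ ((T + 1) * (d + 1)) := by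
    refine hPc.trans ?_
    rw [pow_mul]
    apply pow_le_pow_left₀ (by positivity)
    rw [pow_succ, mul_comm]
    exact mul_le_mul_of_nonneg_left (by linarith) (by positivity)
  obtain ⟨Q, hQ⟩ : ∃ Q : Finset (ℤ[X] × ℕ), Q = (P ×ˢ G).filter (fun fx => (1 ≤ fx.1.natDegree ∧ fx.1.natDegree ≤ d ∧
    (∀ i, |((fx.1.coeff i : ℤ) : ℝ)| ≤ L ^ T)) ∧ (N : ℝ) ^ (1 / 3 : ℝ) * L ^ C1 ≤ (fx.2 : ℝ) ^ fx.1.natDegree ∧
    (fx.2 : ℝ) ^ fx.1.natDegree * L ^ (T + 1) ≤ N) := ⟨_, rfl⟩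
  have hQc : (Q.card : ℝ) ≤ L ^ W := by
    have h1 : Q.card ≤ P.card * G.card := by
      rw [hQ, ← card_product]
      exact card_filter_le _ _
    calc (Q.card : ℝ) ≤ (P.card : ℝ) * G.card := by exact_mod_cast h1
      _ ≤ L ^ ((T + 1) * (d + 1)) * L ^ (U + 7) := mul_le_mul hPc2 hGc (Nat.cast_nonneg _) (by positivity)
      _ = L ^ W := by rw [← pow_add, hW]
  have hQx : ∀ fx ∈ Q, 0 < (fx.2 : ℝ) := by
    intro fx hfx
    rw [hQ, mem_filter] at hfx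
    obtain ⟨-, ⟨h1, -, -⟩, h2, -⟩ := hfx
    have h3 : (0 : ℝ) < (fx.2 : ℝ) ^ fx.1.natDegree := lt_of_lt_of_le (by positivity) h2
    rcases Nat.eq_zero_or_pos fx.2 with h | h
    · rw [h, Nat.cast_zero, zero_pow (by omega)] at h3
      exact absurd h3 (lt_irrefl _)
    · exact_mod_cast h
  obtain ⟨B1, hB1⟩ : ∃ B1 : ℤ[X] × ℕ → Finset ℕ, B1 = fun fx => (Icc 1 N).filter (fun n : ℕ => (fx.2 : ℝ) / L ^ (U + 2) <
    |∑ m ∈ Icc 1 fx.2, gI g ((n : ℤ) + fx.1.eval (m : ℤ))|) := ⟨_, rfl⟩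
  have hb1 : ∀ fx ∈ Q, ((B1 fx).card : ℝ) ≤ N / L ^ (W + (U + 2)) := by
    intro fx hfx
    have hx0 := hQx fx hfx
    rw [hQ, mem_filter] at hfx
    obtain ⟨-, ⟨h1, h2, h3⟩, h4, h5⟩ := hfx
    have h6 := hms fx.1 h1 h2 h3 fx.2 h4 h5
    have h7 := cheb (Icc 1 N) (fun n : ℕ => ∑ m ∈ Icc 1 fx.2, gI g ((n : ℤ) + fx.1.eval (m : ℤ))) _ ((fx.2 : ℝ) / L ^ (U + 2)) (by positivity) h6
    rw [hB1]
    refine h7.trans (le_of_eq ?_)
    rw [hU1, pow_add L (W + 2 * (U + 2)) (U + 2), pow_add L W (2 * (U + 2)), pow_add L W (U + 2)]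
    have e1 : L ^ (2 * (U + 2)) = (L ^ (U + 2)) ^ 2 := by rw [← pow_mul]; congr 1; ring
    rw [e1]
    field_simp
  obtain ⟨S0, hS0⟩ : ∃ S0 : Finset ℕ, S0 = (Icc 1 N).filter (fun n : ℕ => (n : ℝ) ≤ N / L ^ (U + 2)) := ⟨_, rfl⟩
  have hS0c : (S0.card : ℝ) ≤ N / L ^ (U + 2) := by
    have h1 : S0 ⊆ Icc 1 ⌊(N : ℝ) / L ^ (U + 2)⌋₊ := by
      intro n hn
      rw [hS0, mem_filter, mem_Icc] at hn
      exact mem_Icc.2 ⟨hn.1.1, Nat.le_floor hn.2⟩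
    have h2 := card_le_card h1
    rw [Nat.card_Icc, Nat.add_sub_cancel] at h2
    exact (Nat.cast_le.2 h2).trans (Nat.floor_le (by positivity))
  refine ⟨S0 ∪ Q.biUnion B1, ?_, ?_⟩
  · have h1 := card_union_le S0 (Q.biUnion B1)
    have h3 := union_bd Q B1 _ hb1
    have h5 : (Q.card : ℝ) * (N / L ^ (W + (U + 2))) ≤ N / L ^ (U + 2) := by
      rw [pow_add L W]
      calc (Q.card : ℝ) * (N / (L ^ W * L ^ (U + 2))) ≤ L ^ W * (N / (L ^ W * L ^ (U + 2))) := by gcongr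
        _ = _ := by field_simp
    have h6 : ((S0 ∪ Q.biUnion B1).card : ℝ) ≤ S0.card + (Q.biUnion B1).card := by exact_mod_cast h1
    have h8 : 0 < (N : ℝ) / L ^ (U + 2) := by positivity
    have h7 : 3 * ((N : ℝ) / L ^ (U + 2)) ≤ N / L ^ U := by
      rw [← mul_div_assoc, div_le_div_iff₀ (by positivity) (by positivity), pow_add]
      have a2 : 3 ≤ L ^ 2 := by nlinarith
      calc 3 * (N : ℝ) * L ^ U = (N * L ^ U) * 3 := by ring
        _ ≤ (N * L ^ U) * L ^ 2 := mul_le_mul_of_nonneg_left a2 (by positivity)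
        _ = _ := by ring
    linarith
  · intro n hn hnE f hf1 hf2 hcf x hx1 hx2
    rw [mem_union, not_or] at hnE
    obtain ⟨hnS, hnB1⟩ := hnE
    have hn1 := hn
    rw [mem_Icc] at hn1
    obtain ⟨e, he⟩ : ∃ e, e = f.natDegree := ⟨_, rfl⟩
    have hxe : (0 : ℝ) < (x : ℝ) ^ f.natDegree := lt_of_lt_of_le (by positivity) hx1
    have hx : 1 ≤ x := by
      rcases Nat.eq_zero_or_pos x with h | h
      · rw [h, Nat.cast_zero, zero_pow (by omega)] at hxe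
        exact absurd hxe (lt_irrefl _)
      · exact h
    have hxr : (1 : ℝ) ≤ x := by exact_mod_cast hx
    have hcube : (N : ℝ) ^ (1 / 3 : ℝ) ≤ (x : ℝ) ^ f.natDegree := by
      refine le_trans ?_ hx1
      exact le_mul_of_one_le_right (by positivity) (one_le_pow₀ hL1)
    -- the values
    have hnS2 : (N : ℝ) / L ^ (U + 2) < n := by
      by_contra hcon
      push Not at hcon
      exact hnS (by rw [hS0]; exact mem_filter.2 ⟨hn, hcon⟩)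
    have hval : ∀ m ∈ Icc 1 x, |((f.eval (m : ℤ) : ℤ) : ℝ)| ≤ N / L ^ (U + 2) := by
      intro m hm
      have h6 := eval_le f d hf2 (L ^ T) hcf x m hm
      rw [le_div_iff₀ (by positivity)]
      calc |((f.eval (m : ℤ) : ℤ) : ℝ)| * L ^ (U + 2) ≤ ((d : ℝ) + 1) * L ^ T * (x : ℝ) ^ f.natDegree * L ^ (U + 2) := by gcongr
        _ ≤ L * L ^ T * (x : ℝ) ^ f.natDegree * L ^ (U + 2) := by gcongr
        _ = (x : ℝ) ^ f.natDegree * L ^ (T + U + 3) := by ring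
        _ ≤ (x : ℝ) ^ f.natDegree * L ^ C := by
          apply mul_le_mul_of_nonneg_left _ hxe.le
          exact pow_le_pow_right₀ hL1 (by omega)
        _ ≤ N := hx2
    have hpos : ∀ m ∈ Icc 1 x, 1 ≤ (n : ℤ) + f.eval (m : ℤ) := by
      intro m hm
      have h6 := (abs_le.1 (hval m hm)).1
      have h7 : (0 : ℝ) < (((n : ℤ) + f.eval (m : ℤ) : ℤ) : ℝ) := by
        push_cast
        linarith
      have h8 : (0 : ℤ) < (n : ℤ) + f.eval (m : ℤ) := by exact_mod_cast h7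
      omega
    refine ⟨fun m hm => ⟨hpos m hm, (hval m hm).trans hnS2.le⟩, ?_⟩
    -- the grid point
    have hxL : L ^ (U + 5) ≤ x := by
      by_contra hcon
      push Not at hcon
      have h1 : (x : ℝ) ^ f.natDegree < N ^ (1 / 3 : ℝ) := by
        calc (x : ℝ) ^ f.natDegree < (L ^ (U + 5)) ^ f.natDegree := pow_lt_pow_left₀ hcon (by linarith) (by omega)
          _ ≤ (L ^ (U + 5)) ^ d := pow_le_pow_right₀ (one_le_pow₀ hL1) hf2
          _ = L ^ ((U + 5) * d) := by rw [← pow_mul]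
          _ ≤ _ := rpow_third_ge (by positivity) (by rw [← pow_mul, mul_comm]; exact hLp)
      linarith
    have hKx : K ≤ x := by
      have h1 : (K : ℝ) ≤ x := by
        refine hK2.trans (le_trans ?_ hxL)
        rw [pow_succ L (U + 4)]
        have : (1 : ℝ) ≤ L ^ (U + 4) := one_le_pow₀ hL1
        nlinarith
      exact_mod_cast h1
    obtain ⟨a, b, ha1, ha2, hab1, hab2, hb⟩ := grid x K (by omega) hKx
    obtain ⟨x', hx'⟩ : ∃ x', x' = a * 2 ^ b := ⟨_, rfl⟩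
    rw [← hx'] at hab1 hab2
    have hxN : x ≤ N := by
      have h1 : (x : ℝ) ≤ (x : ℝ) ^ f.natDegree := le_self_pow₀ hxr (by omega)
      have h2 : (x : ℝ) ^ f.natDegree ≤ (x : ℝ) ^ f.natDegree * L ^ C := le_mul_of_one_le_right hxe.le (one_le_pow₀ hL1)
      exact_mod_cast (h1.trans h2).trans hx2
    have hmemG : x' ∈ G := by
      rw [hGd, mem_image]
      refine ⟨(a, b), ?_, hx'.symm⟩
      rw [mem_product, mem_Icc, mem_range]
      refine ⟨⟨ha1, ha2⟩, ?_⟩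
      have := Nat.le_log_of_pow_le (by norm_num : 1 < 2) (hb.trans hxN)
      exact Nat.lt_succ_of_le this
    have h2x : x ≤ 2 * x' := by
      have h1 : (x - x') * 2 ≤ (x - x') * K := Nat.mul_le_mul_left _ hKtwo
      omega
    have h2xr : (x : ℝ) ≤ 2 * x' := by exact_mod_cast h2x
    have hx'x : (x' : ℝ) ≤ x := by exact_mod_cast hab1
    have hx'1 : 1 ≤ x' := by omega
    have hx'e : (x' : ℝ) ^ f.natDegree ≤ (x : ℝ) ^ f.natDegree := pow_le_pow_left₀ (Nat.cast_nonneg _) hx'x _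
    have hc1 : (N : ℝ) ^ (1 / 3 : ℝ) * L ^ C1 ≤ (x' : ℝ) ^ f.natDegree := by
      have h1 : (x : ℝ) ^ f.natDegree ≤ L * (x' : ℝ) ^ f.natDegree := by
        calc (x : ℝ) ^ f.natDegree ≤ (2 * (x' : ℝ)) ^ f.natDegree := pow_le_pow_left₀ (Nat.cast_nonneg _) h2xr _
          _ = 2 ^ f.natDegree * (x' : ℝ) ^ f.natDegree := mul_pow _ _ _
          _ ≤ 2 ^ d * (x' : ℝ) ^ f.natDegree := by
            apply mul_le_mul_of_nonneg_right _ (by positivity)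
            exact pow_le_pow_right₀ (by norm_num) hf2
          _ ≤ _ := mul_le_mul_of_nonneg_right hL2d (by positivity)
      have h2 : (N : ℝ) ^ (1 / 3 : ℝ) * L ^ C1 * L ≤ (N : ℝ) ^ (1 / 3 : ℝ) * L ^ C := by
        rw [mul_assoc, ← pow_succ]
        apply mul_le_mul_of_nonneg_left _ (by positivity)
        exact pow_le_pow_right₀ hL1 (by omega)
      have h3 : (N : ℝ) ^ (1 / 3 : ℝ) * L ^ C1 * L ≤ (x' : ℝ) ^ f.natDegree * L := by
        rw [mul_comm ((x' : ℝ) ^ f.natDegree) L]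
        exact h2.trans (hx1.trans h1)
      exact le_of_mul_le_mul_right h3 hL0
    have hc2 : (x' : ℝ) ^ f.natDegree * L ^ (T + 1) ≤ N := by
      refine le_trans ?_ hx2
      apply mul_le_mul hx'e _ (by positivity) (by positivity)
      exact pow_le_pow_right₀ hL1 (by omega)
    have hmemQ : (f, x') ∈ Q := by
      rw [hQ, mem_filter, mem_product]
      exact ⟨⟨hP f hf2 hcf, hmemG⟩, ⟨hf1, hf2, hcf⟩, hc1, hc2⟩
    have g1 : |∑ m ∈ Icc 1 x', gI g ((n : ℤ) + f.eval (m : ℤ))| ≤ x' / L ^ (U + 2) := by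
      by_contra hcon
      push Not at hcon
      apply hnB1
      rw [mem_biUnion]
      refine ⟨(f, x'), hmemQ, ?_⟩
      rw [hB1]
      exact mem_filter.2 ⟨hn, hcon⟩
    have h1 : (((x - x') * K : ℕ) : ℝ) ≤ x := by exact_mod_cast hab2
    rw [Nat.cast_mul, Nat.cast_sub hab1] at h1
    have h2 : ((x : ℝ) - x') * L ^ (U + 4) ≤ x := le_trans (mul_le_mul_of_nonneg_left hK1 (by linarith)) h1
    have h3 : (x : ℝ) - x' ≤ x / L ^ (U + 4) := by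
      rw [le_div_iff₀ (by positivity)]
      exact h2
    have hsub : Icc 1 x' ⊆ Icc 1 x := Icc_subset_Icc le_rfl hab1
    have h4 : ∑ m ∈ Icc 1 x, gI g ((n : ℤ) + f.eval (m : ℤ)) = ∑ m ∈ Icc 1 x \ Icc 1 x', gI g ((n : ℤ) + f.eval (m : ℤ)) +
        ∑ m ∈ Icc 1 x', gI g ((n : ℤ) + f.eval (m : ℤ)) := (sum_sdiff hsub).symm
    have h5 : |∑ m ∈ Icc 1 x \ Icc 1 x', gI g ((n : ℤ) + f.eval (m : ℤ))| ≤ (x : ℝ) - x' := by
      refine (abs_sum_le_sum_abs _ _).trans ((sum_le_sum fun m _ => gI_le g hg1 _).trans (le_of_eq ?_))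
      rw [sum_const, nsmul_eq_mul, mul_one, card_sdiff_of_subset hsub, Nat.card_Icc, Nat.card_Icc, Nat.add_sub_cancel,
        Nat.add_sub_cancel, Nat.cast_sub hab1]
    rw [h4]
    refine (abs_add_le _ _).trans ((add_le_add h5 g1).trans ?_)
    have h6 : (x : ℝ) / L ^ (U + 4) ≤ x / L ^ (U + 2) :=
      div_le_div_of_nonneg_left (Nat.cast_nonneg _) (by positivity) (pow_le_pow_right₀ hL1 (by omega))
    have h7 : (x' : ℝ) / L ^ (U + 2) ≤ x / L ^ (U + 2) := div_le_div_of_nonneg_right hx'x (by positivity)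
    have h8 : 2 * ((x : ℝ) / L ^ (U + 2)) ≤ x / L ^ U := by
      rw [← mul_div_assoc, div_le_div_iff₀ (by positivity) (by positivity), pow_add]
      have a2 : 2 ≤ L ^ 2 := by nlinarith
      calc 2 * (x : ℝ) * L ^ U = (x * L ^ U) * 2 := by ring
        _ ≤ (x * L ^ U) * L ^ 2 := mul_le_mul_of_nonneg_left a2 (by positivity)
        _ = _ := by ring
    linarith

/-- **The Möbius function along all short polynomial sequences.** -/
theorem poly_mu (d T U : ℕ) (hd : 1 ≤ d) : ∃ C N₀ : ℕ, ∀ N : ℕ, N₀ ≤ N →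
    ∃ Ex : Finset ℕ, (Ex.card : ℝ) ≤ N / Real.log N ^ U ∧
    ∀ n ∈ Icc 1 N, n ∉ Ex → ∀ f : ℤ[X], 1 ≤ f.natDegree → f.natDegree ≤ d →
      (∀ i, |((f.coeff i : ℤ) : ℝ)| ≤ Real.log N ^ T) → ∀ x : ℕ,
      (N : ℝ) ^ (1 / 3 : ℝ) * Real.log N ^ C ≤ (x : ℝ) ^ f.natDegree → (x : ℝ) ^ f.natDegree * Real.log N ^ C ≤ N →
      (∀ m ∈ Icc 1 x, 1 ≤ (n : ℤ) + f.eval (m : ℤ)) ∧
      |∑ m ∈ Icc 1 x, (ArithmeticFunction.moebius ((n : ℤ) + f.eval (m : ℤ)).toNat : ℝ)| ≤ x / Real.log N ^ U := by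
  obtain ⟨C, N₀, h⟩ := poly_all_f _ mu_le t31_mu d T U hd
  refine ⟨C, N₀, fun N hN => ?_⟩
  obtain ⟨Ex, h1, h2⟩ := h N hN
  refine ⟨Ex, h1, fun n hn hnE f hf1 hf2 hcf x hx1 hx2 => ?_⟩
  obtain ⟨h3, h4⟩ := h2 n hn hnE f hf1 hf2 hcf x hx1 hx2
  refine ⟨fun m hm => (h3 m hm).1, ?_⟩
  refine le_trans (le_of_eq ?_) h4
  congr 1
  refine sum_congr rfl fun m hm => ?_
  unfold gI
  rw [if_pos (h3 m hm).1]

end Pool.Agent.Run7.h524.MG
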