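import Pool.Agent.Run7.h524.MG.Mu2
import Pool.Agent.Run7.h458.MK.Lio

/-!
# The Liouville function along all short polynomial sequences

`rat_lio`: the Liouville function with the characters of small denominators in almost all short intervals (adapted from
`Run7.h458.MK.lio_of_mob`); then `poly_all_f`.
-/

set_option autoImplicit false

namespace Pool.Agent.Run7.h524.MG

open Finset Polynomial
open Pool.Agent.H807R2.Dav (ee)
open Pool.Agent.Run7.h794.MK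
open Pool.Agent.Run7.h458.MK
open Pool.Agent.Run7.h27.MK (gI)

theorem rat_lio : S_RAT lio := by
  intro B₀ U
  set K := U + 1 with hK
  set U' := U + 2 * K + 2 with hU'
  obtain ⟨C₀, X₀, h₀⟩ := rat_mu (B₀ + 1) U'
  obtain ⟨X₁, hX₁⟩ := eventually_logs (16 * 2 ^ U' + 2 ^ (B₀ + 1)) (U + 2 * K + 3) X₀
  refine ⟨C₀ + U + 2 * K + 2, X₁, fun x hx r hr hrB a Y hYl hYx => ?_⟩
  obtain ⟨hA0, hM, hS⟩ := hX₁ x hx
  set L := Real.log x with hL
  have h2B : (0 : ℝ) < 2 ^ (B₀ + 1) := by positivity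
  have hA : (16 : ℝ) * 2 ^ U' ≤ L := by linarith
  have hB2 : (2 : ℝ) ^ (B₀ + 1) ≤ L := by
    have : (0 : ℝ) < 16 * 2 ^ U' := by positivity
    linarith
  obtain ⟨α, hα⟩ : ∃ α : ℝ, α = (a : ℝ) / r := ⟨_, rfl⟩
  rw [← hα]
  show MS lio α x Y ≤ _
  have h2U : (1 : ℝ) ≤ 2 ^ U' := one_le_pow₀ (by norm_num)
  have h2U4 : (4 : ℝ) ≤ 2 ^ U' := by
    have : (2 : ℝ) ^ 2 ≤ 2 ^ U' := pow_le_pow_right₀ (by norm_num) (by omega)
    linarith
  have hL64 : (64 : ℝ) ≤ L := by linarith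
  have hL1 : (1 : ℝ) ≤ L := by linarith
  have hL0 : (0 : ℝ) < L := by linarith
  have hx0 : (0 : ℝ) < x := by
    by_contra hcon
    have : (x : ℝ) = 0 := le_antisymm (not_lt.1 hcon) (by positivity)
    rw [hL, this, Real.log_zero] at hL1
    linarith
  have hsx : √(x : ℝ) * √(x : ℝ) = x := Real.mul_self_sqrt hx0.le
  have hX0 : (0 : ℝ) ≤ X₀ := by positivity
  have hs2 : (2 : ℝ) ≤ √(x : ℝ) := by linarith
  -- the number of square factors
  set D := ⌈L ^ K⌉₊ with hD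
  have hDl : L ^ K ≤ D := Nat.le_ceil _
  have hLK1 : (1 : ℝ) ≤ L ^ K := one_le_pow₀ hL1
  have hDu : (D : ℝ) ≤ 2 * L ^ K := by
    have := (Nat.ceil_lt_add_one (show (0 : ℝ) ≤ L ^ K by positivity)).le
    linarith
  have hD1 : 1 ≤ D := by
    have : (1 : ℝ) ≤ D := by linarith
    exact_mod_cast this
  have hDsq : (D : ℝ) ^ 2 ≤ L ^ (2 * K + 1) := by
    have h1 : (D : ℝ) ^ 2 ≤ (2 * L ^ K) ^ 2 := pow_le_pow_left₀ (by positivity) hDu 2
    have h2 : (2 * L ^ K) ^ 2 = 4 * L ^ (2 * K) := by rw [mul_pow, ← pow_mul, mul_comm K 2]; norm_num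
    have h3 : L ^ (2 * K + 1) = L * L ^ (2 * K) := by rw [pow_succ]; ring
    rw [h3]
    have h4 : (0 : ℝ) ≤ L ^ (2 * K) := by positivity
    exact (h1.trans_eq h2).trans (mul_le_mul_of_nonneg_right (by linarith) h4)
  have hpow : L ^ (U + 2 * K + 3) = L ^ (2 * K + 1) * L ^ (U + 2) := by rw [← pow_add]; congr 1; omega
  have hLU2 : (64 : ℝ) ≤ L ^ (U + 2) := by
    calc (64 : ℝ) ≤ L := hL64
      _ = L ^ 1 := (pow_one L).symm
      _ ≤ L ^ (U + 2) := pow_le_pow_right₀ hL1 (by omega)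
  have hLq : L ^ (2 * K + 1) * 64 ≤ √(x : ℝ) := by
    have h1 : (0 : ℝ) ≤ L ^ (2 * K + 1) := by positivity
    calc L ^ (2 * K + 1) * 64 ≤ L ^ (2 * K + 1) * L ^ (U + 2) := by gcongr
      _ ≤ √(x : ℝ) := by rw [← hpow]; exact hM
  have hLC : (1 : ℝ) ≤ L ^ (C₀ + U + 2 * K + 2) := one_le_pow₀ hL1
  have hx3 : (1 : ℝ) ≤ (x : ℝ) ^ (1 / 3 : ℝ) := by
    apply Real.one_le_rpow _ (by norm_num)
    rw [← hsx]
    exact one_le_mul_of_one_le_of_one_le (by linarith) (by linarith)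
  have hYL : L ^ (C₀ + U + 2 * K + 2) ≤ Y := by
    have : (0 : ℝ) ≤ L ^ (C₀ + U + 2 * K + 2) := by positivity
    exact (le_mul_of_one_le_left this hx3).trans hYl
  have hY1 : (1 : ℝ) ≤ Y := hLC.trans hYL
  -- every `d`
  have hd : ∀ d ∈ Icc 1 D, MS (md d) α x Y ≤ 2 * (x * (Y : ℝ) ^ 2 * 2 ^ U' / L ^ U') + 4 * (Y : ℝ) ^ 2 + 2 * x := by
    intro d hd
    rw [mem_Icc] at hd
    have hm := MS_md d hd.1 α x Y
    set q := d ^ 2 with hq
    have hq1 : 1 ≤ q := Nat.one_le_pow _ _ (by omega)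
    have hq1r : (1 : ℝ) ≤ q := by exact_mod_cast hq1
    have hq0 : (0 : ℝ) < q := by linarith
    have hqd : (q : ℝ) = (d : ℝ) ^ 2 := by rw [hq]; push_cast; ring
    have hqL : (q : ℝ) ≤ L ^ (2 * K + 1) := by
      rw [hqd]
      have : (d : ℝ) ≤ D := by exact_mod_cast hd.2
      exact (pow_le_pow_left₀ (by positivity) this 2).trans hDsq
    -- the quotients
    have hxq : 64 * √(x : ℝ) ≤ x / q := by
      rw [le_div_iff₀ hq0]
      have h1 : (q : ℝ) * 64 ≤ √(x : ℝ) := (mul_le_mul_of_nonneg_right hqL (by norm_num)).trans hLq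
      calc 64 * √(x : ℝ) * q = √(x : ℝ) * (q * 64) := by ring
        _ ≤ √(x : ℝ) * √(x : ℝ) := mul_le_mul_of_nonneg_left h1 (Real.sqrt_nonneg _)
        _ = x := hsx
    have hx'l : (x : ℝ) / q - 1 ≤ ((x / q : ℕ) : ℝ) := by
      have h1 : (x : ℝ) < ((x / q : ℕ) + 1) * q := by
        have := Nat.lt_div_mul_add (a := x) (b := q) (by omega)
        have h2 : x < (x / q + 1) * q := by rw [add_mul, one_mul]; exact this
        exact_mod_cast h2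
      have h3 : (x : ℝ) / q < (x / q : ℕ) + 1 := by rw [div_lt_iff₀ hq0]; exact h1
      linarith
    have hx'u : ((x / q : ℕ) : ℝ) ≤ (x : ℝ) / q := Nat.cast_div_le
    have hY'l : (Y : ℝ) / q - 1 ≤ ((Y / q : ℕ) : ℝ) := by
      have h1 : (Y : ℝ) < ((Y / q : ℕ) + 1) * q := by
        have := Nat.lt_div_mul_add (a := Y) (b := q) (by omega)
        have h2 : Y < (Y / q + 1) * q := by rw [add_mul, one_mul]; exact this
        exact_mod_cast h2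
      have h3 : (Y : ℝ) / q < (Y / q : ℕ) + 1 := by rw [div_lt_iff₀ hq0]; exact h1
      linarith
    have hY'u : ((Y / q : ℕ) : ℝ) ≤ (Y : ℝ) / q := Nat.cast_div_le
    set x' := x / q with hx'
    set Y' := Y / q with hY'
    have hx's : √(x : ℝ) ≤ x' := by linarith
    have hx'x : (x' : ℝ) ≤ x := by
      have : (x : ℝ) / q ≤ x := div_le_self hx0.le hq1r
      linarith
    have hx'0 : (0 : ℝ) < x' := by linarith
    have hlog2 : L / 2 ≤ Real.log x' := by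
      have h1 : Real.log (√(x : ℝ)) = L / 2 := by rw [Real.log_sqrt hx0.le]
      rw [← h1]
      exact Real.log_le_log (by linarith) hx's
    have hlogu : Real.log x' ≤ L := Real.log_le_log hx'0 hx'x
    have hlog0 : 0 ≤ Real.log x' := by linarith
    have hpC : Real.log x' ^ C₀ ≤ L ^ C₀ := pow_le_pow_left₀ hlog0 hlogu C₀
    have hLC0 : (0 : ℝ) < L ^ C₀ := by positivity
    have hLC01 : (1 : ℝ) ≤ L ^ C₀ := one_le_pow₀ hL1
    have hC1 : L ^ (C₀ + U + 2 * K + 2) = L ^ (2 * K + 1) * (L ^ C₀ * L ^ (U + 1)) := by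
      rw [← pow_add, ← pow_add]; congr 1; omega
    have hLU1 : (64 : ℝ) ≤ L ^ (U + 1) := by
      calc (64 : ℝ) ≤ L := hL64
        _ = L ^ 1 := (pow_one L).symm
        _ ≤ L ^ (U + 1) := pow_le_pow_right₀ hL1 (by omega)
    have hc1 : X₀ ≤ x' := by
      have : (X₀ : ℝ) ≤ x' := by linarith
      exact_mod_cast this
    have hc2 : (x' : ℝ) ^ (1 / 3 : ℝ) * Real.log x' ^ C₀ ≤ Y' := by
      have h1 : (x' : ℝ) ^ (1 / 3 : ℝ) ≤ (x : ℝ) ^ (1 / 3 : ℝ) :=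
        Real.rpow_le_rpow hx'0.le hx'x (by norm_num)
      have h2 : (x' : ℝ) ^ (1 / 3 : ℝ) * Real.log x' ^ C₀ ≤ (x : ℝ) ^ (1 / 3 : ℝ) * L ^ C₀ := by
        gcongr
      have h3 : (x : ℝ) ^ (1 / 3 : ℝ) * L ^ C₀ * 64 ≤ Y / q := by
        rw [le_div_iff₀ hq0]
        calc (x : ℝ) ^ (1 / 3 : ℝ) * L ^ C₀ * 64 * q
            ≤ (x : ℝ) ^ (1 / 3 : ℝ) * L ^ C₀ * L ^ (U + 1) * L ^ (2 * K + 1) := by gcongr
          _ = (x : ℝ) ^ (1 / 3 : ℝ) * L ^ (C₀ + U + 2 * K + 2) := by rw [hC1]; ring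
          _ ≤ Y := hYl
      have h4 : (1 : ℝ) ≤ (x : ℝ) ^ (1 / 3 : ℝ) * L ^ C₀ := one_le_mul_of_one_le_of_one_le hx3 hLC01
      linarith
    have hc3 : Y' ≤ x' := Nat.div_le_div_right hYx
    have hrB' : (r : ℝ) ≤ Real.log x' ^ (B₀ + 1) := by
      refine hrB.trans ?_
      have h1 : (L / 2) ^ (B₀ + 1) ≤ Real.log x' ^ (B₀ + 1) := pow_le_pow_left₀ (by positivity) hlog2 _
      refine le_trans ?_ h1
      rw [div_pow, le_div_iff₀ h2B, pow_succ]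
      exact mul_le_mul_of_nonneg_left hB2 (by positivity)
    have happ0 := h₀ x' hc1 r hr hrB' ((q : ℤ) * a) Y' hc2 hc3
    have happ : MS mob ((q : ℝ) * α) x' Y' ≤ x' * (Y' : ℝ) ^ 2 / Real.log x' ^ U' := by
      have h1 : (((q : ℤ) * a : ℤ) : ℝ) / r = (q : ℝ) * α := by
        rw [hα]; push_cast; ring
      rw [h1] at happ0
      exact happ0
    -- the bound
    have hden : L ^ U' / 2 ^ U' ≤ Real.log x' ^ U' := by
      rw [← div_pow]
      exact pow_le_pow_left₀ (by positivity) hlog2 U'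
    have hLU0 : (0 : ℝ) < L ^ U' / 2 ^ U' := by positivity
    have h5 : (q : ℝ) * MS mob ((q : ℝ) * α) x' Y' ≤ x * (Y : ℝ) ^ 2 * 2 ^ U' / L ^ U' := by
      calc (q : ℝ) * MS mob ((q : ℝ) * α) x' Y' ≤ q * (x' * (Y' : ℝ) ^ 2 / Real.log x' ^ U') := by gcongr
        _ ≤ q * (x' * (Y' : ℝ) ^ 2 / (L ^ U' / 2 ^ U')) := by gcongr
        _ = (q * x') * (Y' : ℝ) ^ 2 * 2 ^ U' / L ^ U' := by field_simp
        _ ≤ x * (Y : ℝ) ^ 2 * 2 ^ U' / L ^ U' := by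
          have h6 : (q : ℝ) * x' ≤ x := by
            calc (q : ℝ) * x' ≤ q * (x / q) := by gcongr
              _ = x := by field_simp
          have h7 : (Y' : ℝ) ≤ Y := by
            have : (Y : ℝ) / q ≤ Y := div_le_self (by positivity) hq1r
            linarith
          gcongr
    have h8 : (q : ℝ) * (Y' : ℝ) ^ 2 ≤ (Y : ℝ) ^ 2 := by
      have h6 : (q : ℝ) * Y' ≤ Y := by
        calc (q : ℝ) * Y' ≤ q * (Y / q) := by gcongr
          _ = Y := by field_simp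
      have h7 : (Y' : ℝ) ≤ Y := by
        have : (Y : ℝ) / q ≤ Y := div_le_self (by positivity) hq1r
        linarith
      have h9 : (0 : ℝ) ≤ Y' := by positivity
      calc (q : ℝ) * (Y' : ℝ) ^ 2 = (q * Y') * Y' := by ring
        _ ≤ Y * Y := by gcongr
        _ = (Y : ℝ) ^ 2 := by ring
    rw [← hqd] at hm
    calc MS (md d) α x Y ≤ 2 * ((q : ℝ) * (MS mob ((q : ℝ) * α) x' Y' + 2 * (Y' : ℝ) ^ 2)) + 2 * x := hm
      _ = 2 * ((q : ℝ) * MS mob ((q : ℝ) * α) x' Y') + 4 * ((q : ℝ) * (Y' : ℝ) ^ 2) + 2 * x := by ring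
      _ ≤ _ := by linarith
  -- total
  have hsum : ∑ d ∈ Icc 1 D, MS (md d) α x Y ≤
      D * (2 * (x * (Y : ℝ) ^ 2 * 2 ^ U' / L ^ U') + 4 * (Y : ℝ) ^ 2 + 2 * x) := by
    calc ∑ d ∈ Icc 1 D, MS (md d) α x Y ≤
        ∑ d ∈ Icc 1 D, (2 * (x * (Y : ℝ) ^ 2 * 2 ^ U' / L ^ U') + 4 * (Y : ℝ) ^ 2 + 2 * x) := Finset.sum_le_sum hd
      _ = _ := by rw [Finset.sum_const, Nat.card_Icc, nsmul_eq_mul]; simp
  set B : ℝ := 2 * (x * (Y : ℝ) ^ 2 * 2 ^ U' / L ^ U') + 4 * (Y : ℝ) ^ 2 + 2 * x with hB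
  have hB0 : 0 ≤ B := by positivity
  set T : ℝ := x * (Y : ℝ) ^ 2 / L ^ U with hT
  have hT0 : 0 ≤ T := by positivity
  have hLU : (0 : ℝ) < L ^ U := by positivity
  have e1 : L ^ (2 * K + 1) * (x * (Y : ℝ) ^ 2 * 2 ^ U' / L ^ U') ≤ T / 16 := by
    have h1 : L ^ U' = L ^ (2 * K + 1) * (L ^ U * L) := by
      rw [← pow_succ, ← pow_add]; congr 1; omega
    rw [h1, hT]
    have h2 : L ^ (2 * K + 1) * (x * (Y : ℝ) ^ 2 * 2 ^ U' / (L ^ (2 * K + 1) * (L ^ U * L))) =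
        (x * (Y : ℝ) ^ 2 / L ^ U) * (2 ^ U' / L) := by
      have : L ^ (2 * K + 1) ≠ 0 := by positivity
      field_simp
    rw [h2, div_eq_mul_inv _ (16 : ℝ)]
    apply mul_le_mul_of_nonneg_left _ hT0
    rw [div_le_iff₀ hL0]
    linarith
  have e2 : L ^ (2 * K + 1) * (Y : ℝ) ^ 2 ≤ T / 64 := by
    have h1 : L ^ (2 * K + 1) * 64 * L ^ U ≤ x := by
      have h2 : L ^ (2 * K + 1) * 64 * L ^ U ≤ L ^ (U + 2 * K + 3) := by
        rw [hpow]
        have h3 : L ^ (U + 2) = L * L * L ^ U := by rw [pow_add]; ring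
        rw [h3]
        have h4 : (0 : ℝ) ≤ L ^ (2 * K + 1) * L ^ U := by positivity
        have h5 : (64 : ℝ) ≤ L * L := hL64.trans (le_mul_of_one_le_left hL0.le hL1)
        calc L ^ (2 * K + 1) * 64 * L ^ U = L ^ (2 * K + 1) * L ^ U * 64 := by ring
          _ ≤ L ^ (2 * K + 1) * L ^ U * (L * L) := by gcongr
          _ = _ := by ring
      have h6 : √(x : ℝ) ≤ x := (le_mul_of_one_le_left (Real.sqrt_nonneg _) (by linarith)).trans_eq hsx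
      linarith
    rw [hT, div_div, le_div_iff₀ (by positivity)]
    calc L ^ (2 * K + 1) * (Y : ℝ) ^ 2 * (L ^ U * 64) = (L ^ (2 * K + 1) * 64 * L ^ U) * (Y : ℝ) ^ 2 := by ring
      _ ≤ x * (Y : ℝ) ^ 2 := by gcongr
  have e3 : L ^ (2 * K + 1) * x ≤ T / 64 := by
    have h1 : L ^ (2 * K + 1) * 64 * L ^ U ≤ (Y : ℝ) ^ 2 := by
      have h2 : L ^ (2 * K + 1) * 64 * L ^ U ≤ L ^ (C₀ + U + 2 * K + 2) := by
        have h3 : L ^ (C₀ + U + 2 * K + 2) = L ^ (2 * K + 1) * L ^ U * (L * L ^ C₀) := by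
          rw [← pow_succ', ← pow_add, ← pow_add]; congr 1; omega
        rw [h3]
        have h4 : (1 : ℝ) ≤ L ^ C₀ := one_le_pow₀ hL1
        have h5 : (64 : ℝ) ≤ L * L ^ C₀ := hL64.trans (le_mul_of_one_le_right hL0.le h4)
        calc L ^ (2 * K + 1) * 64 * L ^ U = L ^ (2 * K + 1) * L ^ U * 64 := by ring
          _ ≤ L ^ (2 * K + 1) * L ^ U * (L * L ^ C₀) := by gcongr
      have h6 : (Y : ℝ) ≤ (Y : ℝ) ^ 2 := by
        rw [sq]
        exact le_mul_of_one_le_left (by linarith) hY1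
      linarith
    rw [hT, div_div, le_div_iff₀ (by positivity)]
    calc L ^ (2 * K + 1) * x * (L ^ U * 64) = x * (L ^ (2 * K + 1) * 64 * L ^ U) := by ring
      _ ≤ x * (Y : ℝ) ^ 2 := by gcongr
  have e4 : 3 * x * (Y : ℝ) ^ 2 / D ≤ T * (3 / 64) := by
    calc 3 * x * (Y : ℝ) ^ 2 / D ≤ 3 * x * (Y : ℝ) ^ 2 / L ^ K := by gcongr
      _ = T * (3 / L) := by
        have hLKe : L ^ K = L ^ U * L := by rw [hK, pow_succ]
        rw [hT, hLKe]
        field_simp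
      _ ≤ T * (3 / 64) := by gcongr
  have h9 := MS_lio D hD1 α x Y hYx
  have h10 : (D : ℝ) * ∑ d ∈ Icc 1 D, MS (md d) α x Y ≤ L ^ (2 * K + 1) * B := by
    calc (D : ℝ) * ∑ d ∈ Icc 1 D, MS (md d) α x Y ≤ D * (D * B) := by gcongr
      _ = (D : ℝ) ^ 2 * B := by ring
      _ ≤ L ^ (2 * K + 1) * B := by gcongr
  have h11 : L ^ (2 * K + 1) * B = 2 * (L ^ (2 * K + 1) * (x * (Y : ℝ) ^ 2 * 2 ^ U' / L ^ U')) +
      4 * (L ^ (2 * K + 1) * (Y : ℝ) ^ 2) + 2 * (L ^ (2 * K + 1) * x) := by rw [hB]; ring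
  calc MS lio α x Y ≤ 2 * (D * ∑ d ∈ Icc 1 D, MS (md d) α x Y) + 2 * (3 * x * (Y : ℝ) ^ 2 / D) := h9
    _ ≤ 2 * (2 * (T / 16) + 4 * (T / 64) + 2 * (T / 64)) + 2 * (T * (3 / 64)) := by linarith
    _ ≤ T := by linarith


theorem t31_lio : S_T31f lio :=
  t_T31f _ abs_lio_le (t_ARCf _ abs_lio_le (t_MAJf _ abs_lio_le rat_lio))

/-- **The Liouville function along all short polynomial sequences.** -/
theorem poly_lio (d T U : ℕ) (hd : 1 ≤ d) : ∃ C N₀ : ℕ, ∀ N : ℕ, N₀ ≤ N →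
    ∃ Ex : Finset ℕ, (Ex.card : ℝ) ≤ N / Real.log N ^ U ∧
    ∀ n ∈ Icc 1 N, n ∉ Ex → ∀ f : ℤ[X], 1 ≤ f.natDegree → f.natDegree ≤ d →
      (∀ i, |((f.coeff i : ℤ) : ℝ)| ≤ Real.log N ^ T) → ∀ x : ℕ,
      (N : ℝ) ^ (1 / 3 : ℝ) * Real.log N ^ C ≤ (x : ℝ) ^ f.natDegree → (x : ℝ) ^ f.natDegree * Real.log N ^ C ≤ N →
      (∀ m ∈ Icc 1 x, 1 ≤ (n : ℤ) + f.eval (m : ℤ)) ∧
      |∑ m ∈ Icc 1 x, (-1 : ℝ) ^ (ArithmeticFunction.cardFactors ((n : ℤ) + f.eval (m : ℤ)).toNat)| ≤ x / Real.log N ^ U := by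
  obtain ⟨C, N₀, h⟩ := poly_all_f _ abs_lio_le t31_lio d T U hd
  refine ⟨C, N₀, fun N hN => ?_⟩
  obtain ⟨Ex, h1, h2⟩ := h N hN
  refine ⟨Ex, h1, fun n hn hnE f hf1 hf2 hcf x hx1 hx2 => ?_⟩
  obtain ⟨h3, h4⟩ := h2 n hn hnE f hf1 hf2 hcf x hx1 hx2
  refine ⟨fun m hm => (h3 m hm).1, ?_⟩
  refine le_trans (le_of_eq ?_) h4
  congr 1
  refine sum_congr rfl fun m hm => ?_
  have h5 := (h3 m hm).1
  unfold gI lio
  rw [if_pos h5, if_neg (by omega), ArithmeticFunction.cardFactors_apply]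

end Pool.Agent.Run7.h524.MG
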