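import Pool.Agent.Run7.h524.MG.Arb
import Pool.Agent.Run7.h18.MK.Sys2
import Pool.Agent.H373R2.T7.Tuple

/-!
# Systems of primes `a_i + f_i(g_i(s))` with different injections `g_i`: the sums
-/

set_option autoImplicit false

namespace Pool.Agent.Run7.h524.MG

open Finset Filter Polynomial
open Pool.Agent.H373R2.T7 (lamzI lamzI_nonneg lamzI_le Vz Vz_inv_small)
open Pool.Agent.R460.SQ (thp)
open Pool.Agent.N384.MQ (ev_log_pow ev_log_ge)
open Pool.Agent.Run7.h18.MK (arb_fin eval_le small_coord union_bd')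

/-- the weight of the term `j` in the telescoping sum -/
noncomputable def Wt {r : ℕ} (t l : Fin r → ℝ) (j : Fin r) : ℝ :=
  (∏ i ∈ univ.filter (fun i => i < j), l i) * ∏ i ∈ univ.filter (fun i => j < i), t i

lemma tele {r : ℕ} (t l : Fin r → ℝ) : ∏ i, t i - ∏ i, l i = ∑ j, Wt t l j * (t j - l j) := by
  have h := prod_sub_ordered univ t (fun i => t i - l i)
  simp only [sub_sub_cancel] at h
  rw [h, sub_sub_cancel]
  refine sum_congr rfl fun j _ => ?_
  unfold Wt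
  ring

lemma prod_bd {r : ℕ} (A : Finset (Fin r)) (l : Fin r → ℝ) (M : ℝ) (hM : 1 ≤ M) (hl : ∀ i, 0 ≤ l i ∧ l i ≤ M) :
    0 ≤ ∏ i ∈ A, l i ∧ ∏ i ∈ A, l i ≤ M ^ r := by
  refine ⟨prod_nonneg fun i _ => (hl i).1, ?_⟩
  refine (prod_le_prod (fun i _ => (hl i).1) fun i _ => (hl i).2).trans ?_
  rw [prod_const]
  apply pow_le_pow_right₀ hM
  have := card_le_univ A
  rwa [Fintype.card_fin] at this

lemma Wt_bd {r : ℕ} (t l : Fin r → ℝ) (M : ℝ) (hM : 1 ≤ M) (ht : ∀ i, 0 ≤ t i ∧ t i ≤ M) (hl : ∀ i, 0 ≤ l i ∧ l i ≤ M) (j : Fin r) :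
    0 ≤ Wt t l j ∧ Wt t l j ≤ M ^ (2 * r) := by
  obtain ⟨a1, a2⟩ := prod_bd (univ.filter (fun i => i < j)) l M hM hl
  obtain ⟨b1, b2⟩ := prod_bd (univ.filter (fun i => j < i)) t M hM ht
  unfold Wt
  refine ⟨mul_nonneg a1 b1, ?_⟩
  rw [two_mul, pow_add]
  exact mul_le_mul a2 b2 b1 (by positivity)

lemma prod_diff {r : ℕ} (t l : Fin r → ℝ) (M δ : ℝ) (hM : 1 ≤ M) (ht : ∀ i, 0 ≤ t i ∧ t i ≤ M) (hl : ∀ i, 0 ≤ l i ∧ l i ≤ M)
    (h : ∀ i, |t i - l i| ≤ δ) : |∏ i, t i - ∏ i, l i| ≤ r * (M ^ (2 * r) * δ) := by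
  rw [tele]
  refine (abs_sum_le_sum_abs _ _).trans ?_
  have h1 : ∀ j ∈ (univ : Finset (Fin r)), |Wt t l j * (t j - l j)| ≤ M ^ (2 * r) * δ := by
    intro j _
    obtain ⟨a1, a2⟩ := Wt_bd t l M hM ht hl j
    rw [abs_mul, abs_of_nonneg a1]
    exact mul_le_mul a2 (h j) (abs_nonneg _) (by positivity)
  refine (sum_le_sum h1).trans ?_
  rw [sum_const, nsmul_eq_mul, card_univ, Fintype.card_fin]

lemma thp_bd (v : ℕ) (N : ℕ) (hN : 2 ≤ N) (hv : v ≤ 2 * N) : 0 ≤ thp v ∧ thp v ≤ 2 * Real.log N := by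
  have hN0 : (0 : ℝ) < N := by exact_mod_cast (by omega : 0 < N)
  have hL0 : 0 ≤ Real.log (N : ℝ) := Real.log_natCast_nonneg N
  unfold Pool.Agent.R460.SQ.thp
  split_ifs with h
  · refine ⟨Real.log_natCast_nonneg v, ?_⟩
    have h1 : Real.log (v : ℝ) ≤ Real.log ((2 * N : ℕ) : ℝ) :=
      Real.log_le_log (by exact_mod_cast h.pos) (by exact_mod_cast hv)
    have h2 : Real.log ((2 * N : ℕ) : ℝ) ≤ Real.log ((N * N : ℕ) : ℝ) :=
      Real.log_le_log (by exact_mod_cast (by omega : 0 < 2 * N)) (by exact_mod_cast Nat.mul_le_mul_right N hN)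
    push_cast at h1 h2
    rw [Real.log_mul hN0.ne' hN0.ne'] at h2
    linarith
  · exact ⟨le_rfl, by positivity⟩

set_option maxHeartbeats 1000000 in
open Classical in
/-- **the sums** -/
theorem mul_sum_fin (r d T U : ℕ) (hr : 1 ≤ r) (hd : 1 ≤ d) : ∃ C B₀ : ℕ, ∀ E : ℕ, ∃ N₀ : ℕ, ∀ N : ℕ, N₀ ≤ N → ∀ z : ℕ,
    Real.log N ^ B₀ ≤ z → (z : ℝ) ≤ Real.log N ^ E → ∀ F : Fin r → ℤ[X],
    (∀ i, 1 ≤ (F i).natDegree ∧ (F i).natDegree ≤ d ∧ ∀ j, |(((F i).coeff j : ℤ) : ℝ)| ≤ Real.log N ^ T) → ∀ x : Fin r → ℕ,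
    (∀ i, (N : ℝ) ^ (1 / 3 : ℝ) * Real.log N ^ C ≤ (x i : ℝ) ^ (F i).natDegree ∧
      (x i : ℝ) ^ (F i).natDegree * Real.log N ^ C ≤ N) →
    ∀ (S : Finset ℕ) (g : Fin r → ℕ → ℕ), (∀ i, Set.InjOn (g i) S) → (∀ i, ∀ s ∈ S, g i s ∈ Icc 1 (x i)) →
    (∀ i, (x i : ℝ) ≤ Real.log N ^ T * S.card) →
    0 < S.card ∧ (∀ i, ∀ s ∈ S, |(((F i).eval ((g i s : ℕ) : ℤ) : ℤ) : ℝ)| ≤ N / Real.log N ^ (U + 6)) ∧
    ∃ Ex : Finset (Fin r → ℕ), (Ex.card : ℝ) ≤ (N : ℝ) ^ r / Real.log N ^ U ∧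
    ∀ a ∈ Fintype.piFinset (fun _ : Fin r => Icc 1 N), a ∉ Ex →
      |∑ s ∈ S, ∏ i, thp ((a i : ℤ) + (F i).eval ((g i s : ℕ) : ℤ)).toNat -
        ∑ s ∈ S, ∏ i, lamzI z ((a i : ℤ) + (F i).eval ((g i s : ℕ) : ℤ))| ≤ S.card / Real.log N ^ U := by
  obtain ⟨U', hU'⟩ : ∃ U', U' = U + T + 2 * r + 2 := ⟨_, rfl⟩
  obtain ⟨C, B₀, h⟩ := arb_fin d T U' hd
  refine ⟨C + U + T + 8, B₀, fun E => ?_⟩
  obtain ⟨N₁, h⟩ := h E
  obtain ⟨N₃, hVz⟩ := Vz_inv_small E
  obtain ⟨N₂, hN₂⟩ := eventually_atTop.1 ((ev_log_ge (d + 8 + r + 4 ^ r)).and (eventually_ge_atTop 3))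
  refine ⟨N₁ + N₂ + N₃, fun N hN z hz1 hz2 F hF x hx S g hg hgx hSx => ?_⟩
  obtain ⟨hbig, hN3⟩ := hN₂ N (by omega)
  have h := h N (by omega) z hz1 hz2
  have hVz := hVz N (by omega) z
  obtain ⟨L, hL⟩ : ∃ L, L = Real.log (N : ℝ) := ⟨_, rfl⟩
  rw [← hL] at hbig h hz1 hz2 hVz ⊢
  simp only [← hL] at hF hx hSx
  have hd0 : (1 : ℝ) ≤ d := by exact_mod_cast hd
  have hr0 : (1 : ℝ) ≤ r := by exact_mod_cast hr
  have h4r : (1 : ℝ) ≤ 4 ^ r := one_le_pow₀ (by norm_num)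
  have hL8 : 8 ≤ L := by linarith
  have hL1 : 1 ≤ L := by linarith
  have hL0 : 0 < L := by linarith
  have hN0 : (0 : ℝ) < N := by exact_mod_cast (by omega : 0 < N)
  have hz : 1 ≤ z := by
    have h1 : (1 : ℝ) ≤ z := (one_le_pow₀ hL1).trans hz1
    exact_mod_cast h1
  have hVz := hVz hz hz2
  obtain ⟨i₀⟩ : Nonempty (Fin r) := ⟨⟨0, hr⟩⟩
  have hx0 : ∀ i, (1 : ℝ) ≤ x i := by
    intro i
    by_contra hc
    have hx' : x i = 0 := by
      by_contra h0
      exact hc (by exact_mod_cast Nat.one_le_iff_ne_zero.2 h0)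
    have h1 := (hx i).1
    rw [hx', Nat.cast_zero, zero_pow (by have := (hF i).1; omega)] at h1
    have : 0 < (N : ℝ) ^ (1 / 3 : ℝ) * L ^ (C + U + T + 8) := by positivity
    linarith
  have hS0 : 0 < S.card := by
    rcases Nat.eq_zero_or_pos S.card with h0 | h0
    · have h1 := hSx i₀
      rw [h0, Nat.cast_zero, mul_zero] at h1
      have := hx0 i₀
      linarith
    · exact h0
  have hSr : (0 : ℝ) < S.card := by exact_mod_cast hS0
  have hxU : ∀ i, (x i : ℝ) ^ (F i).natDegree * L ^ (U + T + 7) ≤ N := by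
    intro i
    refine le_trans ?_ (hx i).2
    apply mul_le_mul_of_nonneg_left _ (by positivity)
    exact pow_le_pow_right₀ hL1 (by omega)
  have hsmall : ∀ i, ∀ s ∈ S, |(((F i).eval ((g i s : ℕ) : ℤ) : ℤ) : ℝ)| ≤ N / L ^ (U + 6) := by
    intro i s hs
    have h1 := eval_le (F i) (F i).natDegree le_rfl (L ^ T) (hF i).2.2 (x i) (g i s) (hgx i s hs)
    refine h1.trans ?_
    rw [le_div_iff₀ (by positivity)]
    have h2 : ((F i).natDegree : ℝ) + 1 ≤ L := by
      have : ((F i).natDegree : ℝ) ≤ d := by exact_mod_cast (hF i).2.1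
      linarith
    calc (((F i).natDegree : ℝ) + 1) * L ^ T * (x i : ℝ) ^ (F i).natDegree * L ^ (U + 6)
        ≤ L * L ^ T * (x i : ℝ) ^ (F i).natDegree * L ^ (U + 6) := by gcongr
      _ = (x i : ℝ) ^ (F i).natDegree * L ^ (U + T + 7) := by ring
      _ ≤ N := hxU i
  have hsmallN : ∀ i, ∀ s ∈ S, |(((F i).eval ((g i s : ℕ) : ℤ) : ℤ) : ℝ)| ≤ N :=
    fun i s hs => (hsmall i s hs).trans (div_le_self hN0.le (one_le_pow₀ hL1))
  obtain ⟨P, hP⟩ : ∃ P, P = Fintype.piFinset (fun _ : Fin r => Icc 1 N) := ⟨_, rfl⟩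
  have hPm : ∀ a, a ∈ P ↔ ∀ i, 1 ≤ a i ∧ a i ≤ N := by
    intro a
    rw [hP, Fintype.mem_piFinset]
    simp only [mem_Icc]
  obtain ⟨th, hth⟩ : ∃ th : (Fin r → ℕ) → ℕ → Fin r → ℝ, th = fun a s i => thp ((a i : ℤ) + (F i).eval ((g i s : ℕ) : ℤ)).toNat :=
    ⟨_, rfl⟩
  obtain ⟨la, hla⟩ : ∃ la : (Fin r → ℕ) → ℕ → Fin r → ℝ, la = fun a s i => lamzI z ((a i : ℤ) + (F i).eval ((g i s : ℕ) : ℤ)) :=
    ⟨_, rfl⟩
  have hM1 : 1 ≤ 2 * L := by linarith
  have hthb : ∀ a ∈ P, ∀ s ∈ S, ∀ i, 0 ≤ th a s i ∧ th a s i ≤ 2 * L := by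
    intro a ha s hs i
    rw [hth, hL]
    apply thp_bd _ N (by omega)
    have h1 := ((hPm a).1 ha i).2
    have h2 := (abs_le.1 (hsmallN i s hs)).2
    have h3 : (F i).eval ((g i s : ℕ) : ℤ) ≤ N := by exact_mod_cast h2
    omega
  have hlab : ∀ a s i, 0 ≤ la a s i ∧ la a s i ≤ 2 * L := by
    intro a s i
    rw [hla]
    refine ⟨lamzI_nonneg _ _, (lamzI_le z _).trans (hVz.trans ?_)⟩
    linarith
  -- the weights
  obtain ⟨M, hM⟩ : ∃ M : ℝ, M = (2 * L) ^ (2 * r) := ⟨_, rfl⟩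
  have hM0 : 0 < M := by rw [hM]; positivity
  obtain ⟨w, hw⟩ : ∃ w : Fin r → (Fin r → ℕ) → ℕ → ℝ, w = fun j a m =>
      ∑ s ∈ S.filter (fun s => g j s = m), Wt (th a s) (la a s) j / M := ⟨_, rfl⟩
  have hw1 : ∀ j, ∀ a ∈ P, ∀ m, |w j a m| ≤ 1 := by
    intro j a ha m
    rw [hw]
    have h1 : ∀ s ∈ S.filter (fun s => g j s = m), 0 ≤ Wt (th a s) (la a s) j / M ∧ Wt (th a s) (la a s) j / M ≤ 1 := by
      intro s hs
      rw [mem_filter] at hs
      obtain ⟨a1, a2⟩ := Wt_bd (th a s) (la a s) (2 * L) hM1 (hthb a ha s hs.1) (hlab a s) j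
      refine ⟨div_nonneg a1 hM0.le, ?_⟩
      rw [div_le_one hM0, hM]
      exact a2
    show |∑ s ∈ S.filter (fun s => g j s = m), Wt (th a s) (la a s) j / M| ≤ 1
    rw [abs_of_nonneg (sum_nonneg fun s hs => (h1 s hs).1)]
    refine (sum_le_sum fun s hs => (h1 s hs).2).trans ?_
    rw [sum_const, nsmul_eq_mul, mul_one]
    have h2 : (S.filter (fun s => g j s = m)).card ≤ 1 := by
      rw [card_le_one]
      intro s hs t ht
      rw [mem_filter] at hs ht
      exact hg j hs.1 ht.1 (hs.2.trans ht.2.symm)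
    exact_mod_cast h2
  have hwsum : ∀ j a (G : ℕ → ℝ), ∑ m ∈ Icc 1 (x j), w j a m * G m = ∑ s ∈ S, Wt (th a s) (la a s) j / M * G (g j s) := by
    intro j a G
    rw [← sum_fiberwise_of_maps_to (fun s hs => hgx j s hs) (fun s => Wt (th a s) (la a s) j / M * G (g j s)), hw]
    refine sum_congr rfl fun m _ => ?_
    show (∑ s ∈ S.filter (fun s => g j s = m), Wt (th a s) (la a s) j / M) * G m = _
    rw [sum_mul]
    refine sum_congr rfl fun s hs => ?_
    rw [mem_filter] at hs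
    rw [hs.2]
  have hwup : ∀ j a, w j (Function.update a j 1) = w j a := by
    intro j a
    rw [hw]
    funext m
    refine sum_congr rfl fun s _ => ?_
    congr 1
    unfold Wt
    congr 1
    · refine prod_congr rfl fun i hi => ?_
      rw [mem_filter] at hi
      rw [hla]
      simp only
      rw [Function.update_of_ne (ne_of_lt hi.2)]
    · refine prod_congr rfl fun i hi => ?_
      rw [mem_filter] at hi
      rw [hth]
      simp only
      rw [Function.update_of_ne (ne_of_gt hi.2)]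
  have hch : ∀ j a, ∃ Ex : Finset ℕ, (Ex.card : ℝ) ≤ N / L ^ U' ∧ (a ∈ P → ∀ n ∈ Icc 1 N, n ∉ Ex →
      |∑ m ∈ Icc 1 (x j), w j a m * thp ((n : ℤ) + (F j).eval (m : ℤ)).toNat -
        ∑ m ∈ Icc 1 (x j), w j a m * lamzI z ((n : ℤ) + (F j).eval (m : ℤ))| ≤ x j / L ^ U') := by
    intro j a
    by_cases ha : a ∈ P
    · obtain ⟨Ex, h1, h2⟩ := h (w j a) (hw1 j a ha)
      refine ⟨Ex, h1, fun _ n hn hnE => ?_⟩
      refine (h2 n hn hnE (F j) (hF j).1 (hF j).2.1 (hF j).2.2 (x j) ?_ ?_).2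
      · refine le_trans ?_ (hx j).1
        apply mul_le_mul_of_nonneg_left _ (by positivity)
        exact pow_le_pow_right₀ hL1 (by omega)
      · refine le_trans ?_ (hx j).2
        apply mul_le_mul_of_nonneg_left _ (by positivity)
        exact pow_le_pow_right₀ hL1 (by omega)
    · refine ⟨∅, ?_, fun h1 => absurd h1 ha⟩
      rw [card_empty, Nat.cast_zero]
      positivity
  choose Ex hEx1 hEx2 using hch
  obtain ⟨Bad, hBad⟩ : ∃ Bad : Fin r → Finset (Fin r → ℕ), Bad = fun j => P.filter (fun a => a j ∈ Ex j (Function.update a j 1)) :=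
    ⟨_, rfl⟩
  have hupP : ∀ j, ∀ a ∈ P, Function.update a j 1 ∈ P := by
    intro j a ha
    rw [hPm] at ha ⊢
    intro i
    by_cases hij : i = j
    · rw [hij, Function.update_self]
      exact ⟨le_rfl, by omega⟩
    · rw [Function.update_of_ne hij]
      exact ha i
  have hBadc : ∀ j ∈ (univ : Finset (Fin r)), ((Bad j).card : ℝ) ≤ (N : ℝ) ^ r / L ^ U' := by
    intro j _
    obtain ⟨n, hn⟩ : ∃ n : ℕ, n = ⌊(N : ℝ) / L ^ U'⌋₊ := ⟨_, rfl⟩
    have h1 : (Bad j).card ≤ n * ((Bad j).image (fun a => Function.update a j 1)).card := by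
      apply card_le_mul_card_image
      intro b hb
      have h2 : ((Bad j).filter (fun a => Function.update a j 1 = b)).card ≤ (Ex j b).card := by
        apply card_le_card_of_injOn (fun a => a j)
        · intro a ha
          rw [mem_coe, mem_filter, hBad] at ha
          obtain ⟨h3, h4⟩ := ha
          rw [mem_filter] at h3
          rw [mem_coe, ← h4]
          exact h3.2
        · intro a ha a' ha' haa
          rw [mem_coe, mem_filter] at ha ha'
          funext i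
          by_cases hij : i = j
          · rw [hij]
            exact haa
          · have h3 := congrFun (ha.2.trans ha'.2.symm) i
            rwa [Function.update_of_ne hij, Function.update_of_ne hij] at h3
      refine h2.trans ?_
      rw [hn]
      exact Nat.le_floor (hEx1 j b)
    have h2 : (((Bad j).image (fun a => Function.update a j 1)).card : ℝ) ≤ (N : ℝ) ^ (r - 1) := by
      have h3 := small_coord r N 1 j
      rw [Nat.cast_one, one_mul] at h3
      refine le_trans ?_ h3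
      have h4 : (Bad j).image (fun a => Function.update a j 1) ⊆
          (Fintype.piFinset (fun _ : Fin r => Icc 1 N)).filter (fun a => a j ≤ 1) := by
        intro b hb
        rw [mem_image] at hb
        obtain ⟨a, ha, rfl⟩ := hb
        rw [hBad, mem_filter] at ha
        rw [mem_filter, ← hP]
        exact ⟨hupP j a ha.1, by rw [Function.update_self]⟩
      exact_mod_cast card_le_card h4
    have h3 : ((n : ℕ) : ℝ) ≤ N / L ^ U' := by rw [hn]; exact Nat.floor_le (by positivity)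
    calc ((Bad j).card : ℝ) ≤ ((n * ((Bad j).image (fun a => Function.update a j 1)).card : ℕ) : ℝ) := by exact_mod_cast h1
      _ = (n : ℝ) * (((Bad j).image (fun a => Function.update a j 1)).card : ℝ) := by push_cast; ring
      _ ≤ (N / L ^ U') * (N : ℝ) ^ (r - 1) := mul_le_mul h3 h2 (Nat.cast_nonneg _) (by positivity)
      _ = (N : ℝ) ^ r / L ^ U' := by
          obtain ⟨r', rfl⟩ : ∃ r', r = r' + 1 := ⟨r - 1, by omega⟩
          rw [Nat.add_sub_cancel, pow_succ]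
          ring
  refine ⟨hS0, hsmall, (univ : Finset (Fin r)).biUnion Bad, ?_, fun a ha hnot => ?_⟩
  · refine (union_bd' univ Bad _ hBadc).trans ?_
    rw [card_univ, Fintype.card_fin, mul_div_assoc', div_le_div_iff₀ (by positivity) (by positivity)]
    calc (r : ℝ) * (N : ℝ) ^ r * L ^ U ≤ L * (N : ℝ) ^ r * L ^ U := by
          gcongr
          linarith
      _ = (N : ℝ) ^ r * L ^ (U + 1) := by ring
      _ ≤ (N : ℝ) ^ r * L ^ U' := by
          apply mul_le_mul_of_nonneg_left _ (by positivity)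
          exact pow_le_pow_right₀ hL1 (by omega)
  · rw [← hP] at ha
    have hone : ∀ j, |∑ s ∈ S, Wt (th a s) (la a s) j * (th a s j - la a s j)| ≤ S.card / (L * L ^ U) := by
      intro j
      have h1 : a j ∉ Ex j (Function.update a j 1) := by
        intro hc
        apply hnot
        rw [mem_biUnion]
        exact ⟨j, mem_univ _, by rw [hBad]; exact mem_filter.2 ⟨ha, hc⟩⟩
      have h2 := hEx2 j (Function.update a j 1) (hupP j a ha) (a j) (mem_Icc.2 ((hPm a).1 ha j)) h1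
      rw [hwup, hwsum j a (fun m => thp ((a j : ℤ) + (F j).eval (m : ℤ)).toNat),
        hwsum j a (fun m => lamzI z ((a j : ℤ) + (F j).eval (m : ℤ))), ← sum_sub_distrib] at h2
      have h3 : ∑ s ∈ S, Wt (th a s) (la a s) j * (th a s j - la a s j) =
          M * ∑ s ∈ S, (Wt (th a s) (la a s) j / M * thp ((a j : ℤ) + (F j).eval ((g j s : ℕ) : ℤ)).toNat -
            Wt (th a s) (la a s) j / M * lamzI z ((a j : ℤ) + (F j).eval ((g j s : ℕ) : ℤ))) := by
        rw [mul_sum]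
        refine sum_congr rfl fun s _ => ?_
        have h4 : th a s j = thp ((a j : ℤ) + (F j).eval ((g j s : ℕ) : ℤ)).toNat := by rw [hth]
        have h5 : la a s j = lamzI z ((a j : ℤ) + (F j).eval ((g j s : ℕ) : ℤ)) := by rw [hla]
        rw [← h4, ← h5]
        field_simp
      rw [h3, abs_mul, abs_of_pos hM0]
      calc M * |∑ s ∈ S, (Wt (th a s) (la a s) j / M * thp ((a j : ℤ) + (F j).eval ((g j s : ℕ) : ℤ)).toNat -
            Wt (th a s) (la a s) j / M * lamzI z ((a j : ℤ) + (F j).eval ((g j s : ℕ) : ℤ)))| ≤ M * (x j / L ^ U') :=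
            mul_le_mul_of_nonneg_left h2 hM0.le
        _ ≤ M * (L ^ T * S.card / L ^ U') := by
            have := hSx j
            gcongr
        _ ≤ (L * L ^ (2 * r)) * (L ^ T * S.card / L ^ U') := by
            apply mul_le_mul_of_nonneg_right _ (by positivity)
            rw [hM, mul_pow, pow_mul]
            apply mul_le_mul_of_nonneg_right _ (by positivity)
            norm_num
            linarith
        _ = S.card / (L * L ^ U) := by
            rw [hU', show U + T + 2 * r + 2 = U + T + (2 * r) + 1 + 1 by ring, pow_succ, pow_succ, pow_add, pow_add]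
            field_simp
    have hsum : ∑ s ∈ S, ∏ i, thp ((a i : ℤ) + (F i).eval ((g i s : ℕ) : ℤ)).toNat -
        ∑ s ∈ S, ∏ i, lamzI z ((a i : ℤ) + (F i).eval ((g i s : ℕ) : ℤ)) =
        ∑ j, ∑ s ∈ S, Wt (th a s) (la a s) j * (th a s j - la a s j) := by
      rw [← sum_sub_distrib, sum_comm]
      refine sum_congr rfl fun s _ => ?_
      rw [← tele, hth, hla]
    rw [hsum]
    refine (abs_sum_le_sum_abs _ _).trans ((sum_le_sum fun j _ => hone j).trans ?_)
    rw [sum_const, nsmul_eq_mul, card_univ, Fintype.card_fin, mul_div_assoc', div_le_div_iff₀ (by positivity) (by positivity)]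
    have hrL : (r : ℝ) ≤ L := by linarith
    calc (r : ℝ) * S.card * L ^ U ≤ L * S.card * L ^ U := by gcongr
      _ = S.card * (L * L ^ U) := by ring

end Pool.Agent.Run7.h524.MG
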