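import Pool.Agent.Run7.h524.MG.Mul

/-!
# Systems of primes `a_i + f_i(g_i(s))` with different injections `g_i`: the Poisson law
-/

set_option autoImplicit false

namespace Pool.Agent.Run7.h524.MG

open Finset Filter Polynomial
open Pool.Agent.H373R2.T7 (lamzI lamzI_nonneg lamzI_le)
open Pool.Agent.R460.SQ (thp)
open Pool.Agent.N384.MQ (ev_log_pow ev_log_ge)
open Pool.Agent.Run7.h794.MK (cheb)
open Pool.Agent.Run7.h18.MK (small_coord union_bd')
open Q282.CL (av)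

/-- all values are primes -/
def AllG {r : ℕ} (F : Fin r → ℤ[X]) (g : Fin r → ℕ → ℕ) (a : Fin r → ℕ) (s : ℕ) : Prop :=
  ∀ i, ((a i : ℤ) + (F i).eval ((g i s : ℕ) : ℤ)).toNat.Prime

/-- the mean of the sieve model -/
noncomputable def Gm {r : ℕ} (F : Fin r → ℤ[X]) (S : Finset ℕ) (g : Fin r → ℕ → ℕ) (z : ℕ) (a : Fin r → ℕ) : ℝ :=
  (∑ s ∈ S, ∏ i, lamzI z ((a i : ℤ) + (F i).eval ((g i s : ℕ) : ℤ))) / S.card

lemma Gm_nonneg {r : ℕ} (F : Fin r → ℤ[X]) (S : Finset ℕ) (g : Fin r → ℕ → ℕ) (z : ℕ) (a : Fin r → ℕ) : 0 ≤ Gm F S g z a :=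
  div_nonneg (sum_nonneg fun _ _ => prod_nonneg fun _ _ => lamzI_nonneg _ _) (Nat.cast_nonneg _)

set_option maxHeartbeats 1000000 in
open Classical in
/-- **the proportion of the systems of primes** -/
theorem prec_mul (r d T A : ℕ) (hr : 1 ≤ r) (hd : 1 ≤ d) : ∃ C B₀ : ℕ, ∀ E : ℕ, ∃ N₀ : ℕ, ∀ N : ℕ, N₀ ≤ N → ∀ z : ℕ,
    Real.log N ^ B₀ ≤ z → (z : ℝ) ≤ Real.log N ^ E → ∀ F : Fin r → ℤ[X],
    (∀ i, 1 ≤ (F i).natDegree ∧ (F i).natDegree ≤ d ∧ ∀ j, |(((F i).coeff j : ℤ) : ℝ)| ≤ Real.log N ^ T) → ∀ x : Fin r → ℕ,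
    (∀ i, (N : ℝ) ^ (1 / 3 : ℝ) * Real.log N ^ C ≤ (x i : ℝ) ^ (F i).natDegree ∧
      (x i : ℝ) ^ (F i).natDegree * Real.log N ^ C ≤ N) →
    ∀ (S : Finset ℕ) (g : Fin r → ℕ → ℕ), (∀ i, Set.InjOn (g i) S) → (∀ i, ∀ s ∈ S, g i s ∈ Icc 1 (x i)) →
    (∀ i, (x i : ℝ) ≤ Real.log N ^ T * S.card) →
    0 < S.card ∧ (∀ i, ∀ s ∈ S, |(((F i).eval ((g i s : ℕ) : ℤ) : ℤ) : ℝ)| ≤ N) ∧
    ∃ Ex : Finset (Fin r → ℕ), (Ex.card : ℝ) ≤ (N : ℝ) ^ r / Real.log N ∧
    ∀ a ∈ Fintype.piFinset (fun _ : Fin r => Icc 1 N), a ∉ Ex → (∀ i, Real.log N / 2 ≤ Real.log (a i)) ∧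
      |((S.filter (AllG F g a)).card : ℝ) / S.card - Gm F S g z a / ∏ i, Real.log (a i)| ≤ 1 / Real.log N ^ A := by
  obtain ⟨U, hU⟩ : ∃ U, U = A + 2 * r + 2 := ⟨_, rfl⟩
  obtain ⟨C, B₀, h⟩ := mul_sum_fin r d T U hr hd
  refine ⟨C, B₀, fun E => ?_⟩
  obtain ⟨N₁, h⟩ := h E
  obtain ⟨N₂, hN₂⟩ := eventually_atTop.1 ((ev_log_ge (8 + 2 * r + 4 ^ r)).and ((ev_log_pow 8 1).and (eventually_ge_atTop 3)))
  refine ⟨N₁ + N₂, fun N hN z hz1 hz2 F hF x hx S g hg hgx hSx => ?_⟩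
  obtain ⟨hbig, hpow8, hN3⟩ := hN₂ N (by omega)
  obtain ⟨hS0, hsmall, Ex, hE1, hE2⟩ := h N (by omega) z hz1 hz2 F hF x hx S g hg hgx hSx
  obtain ⟨L, hL⟩ : ∃ L, L = Real.log (N : ℝ) := ⟨_, rfl⟩
  rw [← hL] at hbig hpow8 hE1 ⊢
  simp only [← hL] at hsmall hE2
  have hr0 : (1 : ℝ) ≤ r := by exact_mod_cast hr
  have h4r : (1 : ℝ) ≤ 4 ^ r := one_le_pow₀ (by norm_num)
  have hL8 : 8 ≤ L := by linarith
  have hL1 : 1 ≤ L := by linarith
  have hL0 : 0 < L := by linarith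
  have hN0 : (0 : ℝ) < N := by exact_mod_cast (by omega : 0 < N)
  have hSr : (0 : ℝ) < S.card := by exact_mod_cast hS0
  have hM1 : 1 ≤ 2 * L := by linarith
  obtain ⟨y, hy⟩ : ∃ y : ℕ, y = ⌊(N : ℝ) / L ^ 3⌋₊ := ⟨_, rfl⟩
  have hyle : (y : ℝ) ≤ N / L ^ 3 := by rw [hy]; exact Nat.floor_le (by positivity)
  obtain ⟨Sm, hSm⟩ : ∃ Sm : Fin r → Finset (Fin r → ℕ), Sm = fun i => (Fintype.piFinset (fun _ : Fin r => Icc 1 N)).filter (fun a => a i ≤ y) :=
    ⟨_, rfl⟩
  have hSmc : ∀ i ∈ (univ : Finset (Fin r)), ((Sm i).card : ℝ) ≤ (N : ℝ) ^ r / L ^ 3 := by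
    intro i _
    rw [hSm]
    refine (small_coord r N y i).trans ?_
    calc (y : ℝ) * (N : ℝ) ^ (r - 1) ≤ (N / L ^ 3) * (N : ℝ) ^ (r - 1) := mul_le_mul_of_nonneg_right hyle (by positivity)
      _ = (N : ℝ) ^ r / L ^ 3 := by
          obtain ⟨r', rfl⟩ : ∃ r', r = r' + 1 := ⟨r - 1, by omega⟩
          rw [Nat.add_sub_cancel, pow_succ]
          ring
  refine ⟨hS0, fun i s hs => (hsmall i s hs).trans (div_le_self hN0.le (one_le_pow₀ hL1)), Ex ∪ univ.biUnion Sm, ?_, fun a ha hnot => ?_⟩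
  · have h1 : ((Ex ∪ univ.biUnion Sm).card : ℝ) ≤ (Ex.card : ℝ) + ((univ.biUnion Sm).card : ℝ) := by
      exact_mod_cast card_union_le _ _
    have h2 := union_bd' univ Sm _ hSmc
    rw [card_univ, Fintype.card_fin] at h2
    have h3 : (N : ℝ) ^ r / L ^ U ≤ (N : ℝ) ^ r / L ^ 2 :=
      div_le_div_of_nonneg_left (by positivity) (by positivity) (pow_le_pow_right₀ hL1 (by omega))
    have h4 : (r : ℝ) * ((N : ℝ) ^ r / L ^ 3) ≤ (N : ℝ) ^ r / L ^ 2 := by
      rw [mul_div_assoc', div_le_div_iff₀ (by positivity) (by positivity)]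
      calc (r : ℝ) * (N : ℝ) ^ r * L ^ 2 ≤ L * (N : ℝ) ^ r * L ^ 2 := by
            gcongr
            linarith
        _ = (N : ℝ) ^ r * L ^ 3 := by ring
    have h5 : (N : ℝ) ^ r / L ^ 2 + (N : ℝ) ^ r / L ^ 2 ≤ (N : ℝ) ^ r / L := by
      rw [← add_div, div_le_div_iff₀ (by positivity) hL0]
      have : 0 < (N : ℝ) ^ r := by positivity
      nlinarith [mul_pos this hL0]
    linarith
  · rw [mem_union, not_or] at hnot
    obtain ⟨hn1, hn2⟩ := hnot
    have haI := Fintype.mem_piFinset.1 ha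
    have haN : ∀ i, (N : ℝ) / L ^ 3 ≤ a i := by
      intro i
      by_contra hc
      push Not at hc
      apply hn2
      rw [mem_biUnion]
      refine ⟨i, mem_univ _, ?_⟩
      rw [hSm]
      refine mem_filter.2 ⟨ha, ?_⟩
      rw [hy]
      exact Nat.le_floor hc.le
    have hloga : ∀ i, L / 2 ≤ Real.log (a i : ℝ) := by
      intro i
      have h1 := Real.log_le_log (by positivity) (haN i)
      rw [Real.log_div (by positivity) (by positivity), Real.log_pow, ← hL] at h1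
      have h2 : Real.log L * 8 ≤ L := by
        have h3 := Real.log_le_log (by positivity) hpow8
        rw [Real.log_mul (by norm_num) (by positivity), Real.log_one, zero_add, Real.log_pow, ← hL] at h3
        push_cast at h3
        linarith
      push_cast at h1
      have h4 : 0 ≤ Real.log L := Real.log_nonneg hL1
      linarith
    refine ⟨hloga, ?_⟩
    have h1 := hE2 a ha hn1
    obtain ⟨P, hP⟩ : ∃ P, P = S.filter (AllG F g a) := ⟨_, rfl⟩
    rw [← hP]
    have hPx : (P.card : ℝ) ≤ S.card := by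
      have h1 : P.card ≤ S.card := by
        rw [hP]
        exact card_filter_le _ _
      exact_mod_cast h1
    obtain ⟨M, hM⟩ : ∃ M : ℝ, M = ∏ i, Real.log (a i : ℝ) := ⟨_, rfl⟩
    have hM1' : 1 ≤ M := by
      rw [hM]
      refine le_trans (le_of_eq ?_) (prod_le_prod (f := fun _ : Fin r => (1 : ℝ)) (fun i _ => zero_le_one) fun i _ => ?_)
      · rw [prod_const_one]
      · have := hloga i
        linarith
    have hM0 : 0 < M := by linarith
    rw [← hM]
    have hSe : ∑ s ∈ S, ∏ i, thp ((a i : ℤ) + (F i).eval ((g i s : ℕ) : ℤ)).toNat =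
        ∑ s ∈ P, ∏ i, Real.log ((((a i : ℤ) + (F i).eval ((g i s : ℕ) : ℤ)).toNat : ℕ) : ℝ) := by
      rw [hP, sum_filter]
      refine sum_congr rfl fun s _ => ?_
      unfold Pool.Agent.R460.SQ.thp AllG
      rw [prod_ite_zero]
      simp only [mem_univ, true_imp_iff]
      by_cases h7 : ∀ i, ((a i : ℤ) + (F i).eval ((g i s : ℕ) : ℤ)).toNat.Prime
      · rw [if_pos h7, if_pos h7]
      · rw [if_neg h7, if_neg h7]
    have hlogs : |∑ s ∈ P, ∏ i, Real.log ((((a i : ℤ) + (F i).eval ((g i s : ℕ) : ℤ)).toNat : ℕ) : ℝ) - P.card * M| ≤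
        S.card * (r * ((2 * L) ^ (2 * r) * (2 / L ^ (U + 3)))) := by
      have e1 : ∑ s ∈ P, ∏ i, Real.log ((((a i : ℤ) + (F i).eval ((g i s : ℕ) : ℤ)).toNat : ℕ) : ℝ) - P.card * M =
          ∑ s ∈ P, (∏ i, Real.log ((((a i : ℤ) + (F i).eval ((g i s : ℕ) : ℤ)).toNat : ℕ) : ℝ) - ∏ i, Real.log (a i : ℝ)) := by
        rw [sum_sub_distrib, sum_const, nsmul_eq_mul, hM]
      rw [e1]
      refine (abs_sum_le_sum_abs _ _).trans ?_
      have e2 : ∀ s ∈ P, |∏ i, Real.log ((((a i : ℤ) + (F i).eval ((g i s : ℕ) : ℤ)).toNat : ℕ) : ℝ) - ∏ i, Real.log (a i : ℝ)| ≤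
          r * ((2 * L) ^ (2 * r) * (2 / L ^ (U + 3))) := by
        intro s hs
        rw [hP, mem_filter] at hs
        obtain ⟨hsS, hsA⟩ := hs
        apply prod_diff _ _ (2 * L) _ hM1
        · intro i
          have hv : ((a i : ℤ) + (F i).eval ((g i s : ℕ) : ℤ)).toNat ≤ 2 * N := by
            have h2 := (mem_Icc.1 (haI i)).2
            have h3 := (abs_le.1 ((hsmall i s hsS).trans (div_le_self hN0.le (one_le_pow₀ hL1)))).2
            have h4 : (F i).eval ((g i s : ℕ) : ℤ) ≤ N := by exact_mod_cast h3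
            omega
          have h5 := thp_bd _ N (by omega) hv
          unfold Pool.Agent.R460.SQ.thp at h5
          rw [if_pos (hsA i), ← hL] at h5
          exact h5
        · intro i
          have h2 := (mem_Icc.1 (haI i)).2
          have h3 := (mem_Icc.1 (haI i)).1
          refine ⟨Real.log_natCast_nonneg _, ?_⟩
          have h4 : Real.log (a i : ℝ) ≤ L := by
            rw [hL]
            exact Real.log_le_log (by exact_mod_cast h3) (by exact_mod_cast h2)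
          linarith
        · intro i
          have hpos := (hsA i).pos
          have h6 : ((((a i : ℤ) + (F i).eval ((g i s : ℕ) : ℤ)).toNat : ℕ) : ℝ) = (((a i : ℤ) + (F i).eval ((g i s : ℕ) : ℤ) : ℤ) : ℝ) := by
            rw [← Int.cast_natCast, Int.toNat_of_nonneg (by omega)]
          have h7 := log_near (a i : ℤ) ((F i).eval ((g i s : ℕ) : ℤ)) (1 / L ^ (U + 3)) (by
            rw [Int.cast_natCast]
            exact_mod_cast (mem_Icc.1 (haI i)).1) (by
            rw [div_le_div_iff₀ (by positivity) two_pos, one_mul, one_mul]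
            calc (2 : ℝ) ≤ L := by linarith
              _ = L ^ 1 := (pow_one L).symm
              _ ≤ L ^ (U + 3) := pow_le_pow_right₀ hL1 (by omega)) (by
            refine (hsmall i s hsS).trans ?_
            rw [Int.cast_natCast, one_div_mul_eq_div, div_le_div_iff₀ (by positivity) (by positivity)]
            have h8 := haN i
            rw [div_le_iff₀ (by positivity)] at h8
            calc (N : ℝ) * L ^ (U + 3) ≤ (a i * L ^ 3) * L ^ (U + 3) := by gcongr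
              _ = a i * L ^ (U + 6) := by ring)
          rw [Int.cast_natCast] at h7
          rw [h6]
          refine h7.trans (le_of_eq ?_)
          ring
      refine (sum_le_sum e2).trans ?_
      rw [sum_const, nsmul_eq_mul]
      exact mul_le_mul_of_nonneg_right hPx (by positivity)
    rw [hSe] at h1
    have hG : ∑ s ∈ S, ∏ i, lamzI z ((a i : ℤ) + (F i).eval ((g i s : ℕ) : ℤ)) = S.card * Gm F S g z a := by
      unfold Gm
      field_simp
    rw [hG] at h1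
    have hlogs2 : (S.card : ℝ) * (r * ((2 * L) ^ (2 * r) * (2 / L ^ (U + 3)))) ≤ S.card / L ^ (A + 1) := by
      rw [mul_comm, ← le_div_iff₀ hSr, div_div_cancel_left' hSr.ne', inv_eq_one_div, le_div_iff₀ (by positivity)]
      have e1 : (2 * L) ^ (2 * r) ≤ L * L ^ (2 * r) := by
        rw [mul_pow, pow_mul]
        apply mul_le_mul_of_nonneg_right _ (by positivity)
        norm_num
        linarith
      calc (r : ℝ) * ((2 * L) ^ (2 * r) * (2 / L ^ (U + 3))) * L ^ (A + 1) ≤ L * ((L * L ^ (2 * r)) * (L / L ^ (U + 3))) * L ^ (A + 1) := by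
            gcongr
            · linarith
            · linarith
        _ = L ^ (A + 2 * r + 4) / L ^ (U + 3) := by
            field_simp
            ring
        _ ≤ 1 := by
            rw [div_le_one (by positivity)]
            exact pow_le_pow_right₀ hL1 (by omega)
    have hUA : (S.card : ℝ) / L ^ U ≤ S.card / L ^ (A + 1) :=
      div_le_div_of_nonneg_left hSr.le (by positivity) (pow_le_pow_right₀ hL1 (by omega))
    have key : |(P.card : ℝ) * M - S.card * Gm F S g z a| ≤ S.card / L ^ (A + 1) + S.card / L ^ (A + 1) := by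
      have e1 : (P.card : ℝ) * M - S.card * Gm F S g z a =
          (∑ s ∈ P, ∏ i, Real.log ((((a i : ℤ) + (F i).eval ((g i s : ℕ) : ℤ)).toNat : ℕ) : ℝ) - S.card * Gm F S g z a) -
          (∑ s ∈ P, ∏ i, Real.log ((((a i : ℤ) + (F i).eval ((g i s : ℕ) : ℤ)).toNat : ℕ) : ℝ) - P.card * M) := by ring
      rw [e1]
      exact (abs_sub _ _).trans (add_le_add (h1.trans hUA) (hlogs.trans hlogs2))
    have e3 : (P.card : ℝ) / S.card - Gm F S g z a / M = ((P.card : ℝ) * M - S.card * Gm F S g z a) / (S.card * M) := by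
      field_simp
    rw [e3, abs_div, abs_of_pos (show 0 < (S.card : ℝ) * M by positivity), div_le_div_iff₀ (by positivity) (by positivity), one_mul]
    calc |(P.card : ℝ) * M - S.card * Gm F S g z a| * L ^ A ≤ (S.card / L ^ (A + 1) + S.card / L ^ (A + 1)) * L ^ A := by gcongr
      _ = S.card * (2 / L) := by
          rw [pow_succ]
          field_simp
          ring
      _ ≤ S.card * 1 := by
          apply mul_le_mul_of_nonneg_left _ hSr.le
          rw [div_le_one hL0]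
          linarith
      _ ≤ S.card * M := by gcongr

set_option maxHeartbeats 1000000 in
open Classical in
/-- **The Poisson law for systems.** -/
theorem pois_mul (r d T : ℕ) (hr : 1 ≤ r) (hd : 1 ≤ d) (B : ℕ) (hB : 1 ≤ B) (Λ : ℝ) (hΛ : 0 < Λ) (ε : ℝ) (hε : 0 < ε) :
    ∃ (C B₀ M₀ : ℕ) (δ : ℝ), 0 < δ ∧ ∀ E : ℕ, ∃ N₀ : ℕ, ∀ N : ℕ, N₀ ≤ N → ∀ z : ℕ,
    Real.log N ^ B₀ ≤ z → (z : ℝ) ≤ Real.log N ^ E → ∀ F : Fin r → ℤ[X],
    (∀ i, 1 ≤ (F i).natDegree ∧ (F i).natDegree ≤ d ∧ ∀ j, |(((F i).coeff j : ℤ) : ℝ)| ≤ Real.log N ^ T) → ∀ x : Fin r → ℕ,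
    (∀ i, (N : ℝ) ^ (1 / 3 : ℝ) * Real.log N ^ C ≤ (x i : ℝ) ^ (F i).natDegree ∧
      (x i : ℝ) ^ (F i).natDegree * Real.log N ^ C ≤ N) →
    ∀ (S : Finset ℕ) (g : Fin r → ℕ → ℕ), (∀ i, Set.InjOn (g i) S) → (∀ i, ∀ s ∈ S, g i s ∈ Icc 1 (x i)) →
    (∀ i, (x i : ℝ) ≤ Real.log N ^ T * S.card) →
    ∀ J : Finset (Fin r → ℕ), J ⊆ Fintype.piFinset (fun _ : Fin r => Icc 1 N) → N ^ r ≤ B * J.card →
    ∀ m : ℕ, M₀ ≤ m → (m : ℝ) ≤ Λ * Real.log N ^ r →
    ((univ.filter fun k : Fin m → {s // s ∈ S} => ¬ ∀ j : ℕ,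
      |((J.filter fun a => (univ.filter fun l => AllG F g a (k l)).card = j).card : ℝ) -
        ∑ a ∈ J, pw (m * (Gm F S g z a / ∏ i, Real.log (a i))) j| ≤ ε * J.card).card : ℝ) ≤
      Real.exp (-(δ * Real.log N ^ r)) * (S.card : ℝ) ^ m := by
  have hBr : (1 : ℝ) ≤ B := by exact_mod_cast hB
  have h4r : (1 : ℝ) ≤ 4 ^ r := one_le_pow₀ (by norm_num)
  obtain ⟨K, hK⟩ : ∃ K : ℝ, K = 16 * (4 ^ r * B) / ε := ⟨_, rfl⟩
  have hK0 : 0 < K := by rw [hK]; positivity
  obtain ⟨η, δ, ρ₀, hη, hδ, hρ₀, M₀, hg'⟩ := pois2 (K + 1) Λ (by linarith) hΛ ε hε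
  obtain ⟨C, B₀, hpr⟩ := prec_mul r d T (r + 1) hr hd
  obtain ⟨X₀, hcheb⟩ := cheb
  refine ⟨C, B₀, M₀, δ / (4 ^ r * B) ^ 2, by positivity, fun E => ?_⟩
  obtain ⟨N₁, hpr⟩ := hpr E
  obtain ⟨N₂, hN₂⟩ := eventually_atTop.1 ((ev_log_ge (8 + Λ / η + 16 * B / ε + (4 ^ r * B) ^ 2 / ρ₀)).and (eventually_ge_atTop 3))
  refine ⟨N₁ + N₂ + X₀ + 3, fun N hN z hz1 hz2 F hF x hx S g hginj hgx hSx J hJ hJB m hm1 hm2 => ?_⟩
  obtain ⟨hbig, hN3⟩ := hN₂ N (by omega)
  obtain ⟨hS0, hfN, Ex, hEx1, hEx2⟩ := hpr N (by omega) z hz1 hz2 F hF x hx S g hginj hgx hSx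
  obtain ⟨L, hL⟩ : ∃ L, L = Real.log (N : ℝ) := ⟨_, rfl⟩
  rw [← hL] at hbig hm2 hEx1 ⊢
  simp only [← hL] at hEx2
  have t1 : 0 < Λ / η := by positivity
  have t2 : 0 < 16 * B / ε := by positivity
  have t3 : 0 < (4 ^ r * (B : ℝ)) ^ 2 / ρ₀ := by positivity
  have hL8 : 8 ≤ L := by linarith
  have hL1 : 1 ≤ L := by linarith
  have hL0 : 0 < L := by linarith
  have hLr : L ≤ L ^ r := by
    calc L = L ^ 1 := (pow_one L).symm
      _ ≤ L ^ r := pow_le_pow_right₀ hL1 hr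
  have hN0 : (0 : ℝ) < N := by exact_mod_cast (by omega : 0 < N)
  have hJ0 : 0 < J.card := by
    rcases Nat.eq_zero_or_pos J.card with h | h
    · rw [h, mul_zero] at hJB
      have : 0 < N ^ r := Nat.pow_pos (by omega)
      omega
    · exact h
  have hJr : (N : ℝ) ^ r ≤ B * J.card := by exact_mod_cast hJB
  have hJc : (0 : ℝ) < J.card := by exact_mod_cast hJ0
  have hSr : (0 : ℝ) < S.card := by exact_mod_cast hS0
  obtain ⟨ρ, hρ⟩ : ∃ ρ : ℝ, ρ = 1 / L ^ r := ⟨_, rfl⟩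
  have hρ0 : 0 < ρ := by rw [hρ]; positivity
  have : Nonempty {s // s ∈ S} := by
    obtain ⟨s, hs⟩ := card_pos.1 hS0
    exact ⟨⟨s, hs⟩⟩
  obtain ⟨pr, hprn⟩ : ∃ pr : (Fin r → ℕ) → ℝ, pr = fun a => ((S.filter (AllG F g a)).card : ℝ) / S.card := ⟨_, rfl⟩
  have hav : ∀ a : Fin r → ℕ, av (fun k : {s // s ∈ S} => (((if AllG F g a (k : ℕ) then 1 else 0 : ℕ)) : ℝ)) = pr a := by
    intro a
    rw [hprn]
    unfold av
    simp only
    rw [Fintype.card_coe, ← sum_boole, ← sum_coe_sort S]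
    congr 1
    refine sum_congr rfl fun k _ => ?_
    push_cast
    rfl
  obtain ⟨PI, hPI⟩ : ∃ PI, PI = Fintype.piFinset (fun _ : Fin r => Icc 1 N) := ⟨_, rfl⟩
  obtain ⟨E₁, hE₁⟩ : ∃ E₁, E₁ = PI.filter (fun a => K / L ^ r < pr a) := ⟨_, rfl⟩
  have hcol : ∀ s ∈ S, ((PI.filter fun a => AllG F g a s).card : ℝ) ≤ (4 * N / L) ^ r := by
    intro s hs
    have e1 : PI.filter (fun a => AllG F g a s) =
        Fintype.piFinset (fun i : Fin r => (Icc 1 N).filter fun n : ℕ => ((n : ℤ) + (F i).eval ((g i s : ℕ) : ℤ)).toNat.Prime) := by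
      ext a
      rw [hPI, mem_filter, Fintype.mem_piFinset, Fintype.mem_piFinset]
      simp only [mem_filter]
      unfold AllG
      constructor
      · rintro ⟨h1, h2⟩ i
        exact ⟨h1 i, h2 i⟩
      · intro h1
        exact ⟨fun i => (h1 i).1, fun i => (h1 i).2⟩
    rw [e1, Fintype.card_piFinset]
    push_cast
    refine (prod_le_prod (g := fun _ : Fin r => 4 * (N : ℝ) / L) (fun i _ => Nat.cast_nonneg _) fun i _ => ?_).trans (le_of_eq ?_)
    · have := card_primes_int N X₀ hcheb (by omega) (by omega) ((F i).eval ((g i s : ℕ) : ℤ)) (hfN i s hs) (Icc 1 N) (Subset.refl _)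
      rwa [← hL] at this
    · rw [prod_const, card_univ, Fintype.card_fin]
  have hsumpr : ∑ a ∈ PI, pr a ≤ (4 * N / L) ^ r := by
    have e1 : ∑ a ∈ PI, pr a = (∑ s ∈ S, ((PI.filter fun a => AllG F g a s).card : ℝ)) / S.card := by
      rw [hprn, ← sum_div]
      congr 1
      simp only [← sum_boole]
      exact sum_comm
    rw [e1, div_le_iff₀ hSr]
    refine (sum_le_sum hcol).trans ?_
    rw [sum_const, nsmul_eq_mul, mul_comm]
  have hpow4 : (4 * (N : ℝ) / L) ^ r = 4 ^ r * N ^ r / L ^ r := by rw [div_pow, mul_pow]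
  have hE₁c : (E₁.card : ℝ) ≤ ε / 16 * J.card := by
    have e1 : (E₁.card : ℝ) * (K / L ^ r) ≤ 4 ^ r * N ^ r / L ^ r := by
      rw [← hpow4]
      refine le_trans ?_ hsumpr
      have e2 : (E₁.card : ℝ) * (K / L ^ r) ≤ ∑ a ∈ E₁, pr a := by
        rw [← nsmul_eq_mul]
        apply card_nsmul_le_sum
        intro a ha
        rw [hE₁, mem_filter] at ha
        exact ha.2.le
      refine e2.trans (sum_le_sum_of_subset_of_nonneg (by rw [hE₁]; exact filter_subset _ _) fun n _ _ => ?_)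
      rw [hprn]
      positivity
    have e3 : (E₁.card : ℝ) * K ≤ 4 ^ r * N ^ r := by
      rw [mul_div_assoc', div_le_div_iff_of_pos_right (by positivity)] at e1
      exact e1
    have e4 : (E₁.card : ℝ) * K ≤ (ε / 16 * J.card) * K := by
      refine e3.trans ?_
      rw [hK]
      calc (4 : ℝ) ^ r * N ^ r ≤ 4 ^ r * (B * J.card) := mul_le_mul_of_nonneg_left hJr (by positivity)
        _ = ε / 16 * J.card * (16 * (4 ^ r * B) / ε) := by field_simp
    exact le_of_mul_le_mul_right e4 hK0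
  have hres := hg' {s // s ∈ S} (Fin r → ℕ) J (E₁ ∪ Ex) (fun a k => if AllG F g a (k : ℕ) then 1 else 0)
    (fun a => Gm F S g z a / ∏ i, Real.log (a i)) ρ (4 ^ r * B) m (card_pos.1 hJ0) (fun n a => by
    split_ifs
    · exact Or.inr rfl
    · exact Or.inl rfl) hρ0 (by nlinarith) (by
    rw [hρ, mul_one_div, div_le_iff₀ (by positivity)]
    have h1 : (4 ^ r * (B : ℝ)) ^ 2 / ρ₀ ≤ L := by linarith
    rw [div_le_iff₀ hρ₀] at h1
    calc (4 ^ r * (B : ℝ)) ^ 2 ≤ L * ρ₀ := h1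
      _ ≤ L ^ r * ρ₀ := mul_le_mul_of_nonneg_right hLr hρ₀.le
      _ = ρ₀ * L ^ r := mul_comm _ _) hm1 (by
    rw [hρ, mul_one_div, div_le_iff₀ (by positivity)]
    exact hm2) (by
    have h1 : ((J ∩ (E₁ ∪ Ex)).card : ℝ) ≤ E₁.card + Ex.card := by
      exact_mod_cast (card_le_card inter_subset_right).trans (card_union_le _ _)
    refine h1.trans ((add_le_add hE₁c hEx1).trans ?_)
    have h2 : 16 * B / ε ≤ L := by linarith
    rw [div_le_iff₀ hε] at h2
    have h3 : (N : ℝ) ^ r / L ≤ ε / 16 * J.card := by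
      rw [div_le_iff₀ hL0]
      calc (N : ℝ) ^ r ≤ B * J.card := hJr
        _ = (16 * B) / 16 * J.card := by ring
        _ ≤ (L * ε) / 16 * J.card := by gcongr
        _ = ε / 16 * J.card * L := by ring
    linarith) (fun a _ => div_nonneg (Gm_nonneg F S g z a) (prod_nonneg fun i _ => Real.log_natCast_nonneg _)) (fun a ha => by
    rw [Finset.mem_sdiff, mem_union, not_or] at ha
    obtain ⟨hn1, hn2, hn3⟩ := ha
    obtain ⟨-, a2⟩ := hEx2 a (hJ hn1) hn3
    have b1 : pr a ≤ K / L ^ r := by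
      by_contra hc
      push Not at hc
      exact hn2 (by rw [hE₁, hPI]; exact mem_filter.2 ⟨hJ hn1, hc⟩)
    have b2 : pr a = ((S.filter (AllG F g a)).card : ℝ) / S.card := by rw [hprn]
    rw [← b2] at a2
    constructor
    · have b3 := (abs_le.1 a2).1
      have b4 : 1 / L ^ (r + 1) ≤ 1 / L ^ r := by
        apply one_div_le_one_div_of_le (by positivity)
        exact pow_le_pow_right₀ hL1 (by omega)
      have b5 : (K + 1) * ρ = K / L ^ r + 1 / L ^ r := by rw [hρ]; ring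
      rw [b5]
      linarith
    · rw [hav]
      calc m * |pr a - Gm F S g z a / ∏ i, Real.log (a i)|
          ≤ (Λ * L ^ r) * (1 / L ^ (r + 1)) := mul_le_mul hm2 a2 (abs_nonneg _) (by positivity)
        _ = Λ / L := by
            rw [pow_succ]
            field_simp
        _ ≤ η := by
          rw [div_le_iff₀ hL0]
          have h2 : Λ / η ≤ L := by linarith
          rw [div_le_iff₀ hη] at h2
          linarith) (fun k => by
    have h1 : ∑ a ∈ J \ (E₁ ∪ Ex), (((if AllG F g a (k : ℕ) then 1 else 0 : ℕ)) : ℝ) ≤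
        ((PI.filter fun a => AllG F g a (k : ℕ)).card : ℝ) := by
      have h2 : ∀ a : Fin r → ℕ, (((if AllG F g a (k : ℕ) then 1 else 0 : ℕ)) : ℝ) = if AllG F g a (k : ℕ) then (1 : ℝ) else 0 := by
        intro a
        split_ifs <;> simp
      simp only [h2]
      rw [sum_boole, hPI]
      exact_mod_cast card_le_card (filter_subset_filter _ (sdiff_subset.trans hJ))
    refine h1.trans ((hcol k k.2).trans ?_)
    rw [hpow4, hρ, div_le_iff₀ (by positivity), show 4 ^ r * (B : ℝ) * (1 / L ^ r) * J.card * L ^ r = 4 ^ r * (B * J.card) by field_simp]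
    exact mul_le_mul_of_nonneg_left hJr (by positivity))
  have hsum : ∀ (k : Fin m → {s // s ∈ S}) (a : Fin r → ℕ), ∑ l, (if AllG F g a (k l : ℕ) then 1 else 0) =
      (univ.filter fun l => AllG F g a (k l)).card := by
    intro k a
    rw [sum_boole]
    rfl
  simp only [hsum] at hres
  refine hres.trans (le_of_eq ?_)
  rw [Fintype.card_coe, hρ]
  congr 2
  field_simp

end Pool.Agent.Run7.h524.MG
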