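import Pool.Agent.Run7.h524.MG.Mcd
import Pool.Agent.Run7.h524.MG.Emp

/-!
# Sums of independent indicator functions: characteristic functions
-/

set_option autoImplicit false

namespace Pool.Agent.Run7.h524.MG

open Finset
open Q282.CL (av av_add av_sub av_mul av_const av_pi av_mono av_nonneg norm_av_le av_ofReal)

section one

variable {α : Type} [Fintype α] [Nonempty α]

lemma av_comm {β : Type} [Fintype β] (F : α → β → ℂ) : av (fun a => av (fun b => F a b)) = av (fun b => av (fun a => F a b)) := by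
  unfold av
  simp only [← sum_div]
  rw [sum_comm, div_right_comm]

lemma av_commR {β : Type} [Fintype β] (F : α → β → ℝ) : av (fun a => av (fun b => F a b)) = av (fun b => av (fun a => F a b)) := by
  unfold av
  simp only [← sum_div]
  rw [sum_comm, div_right_comm]

lemma chr_one (f : α → ℝ) (hf : ∀ a, f a = 0 ∨ f a = 1) (τ : ℝ) :
    av (fun a => Complex.exp (Complex.I * ((τ * f a : ℝ) : ℂ))) =
      1 + ((av f : ℝ) : ℂ) * (Complex.exp (Complex.I * (τ : ℂ)) - 1) := by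
  have h : (fun a => Complex.exp (Complex.I * ((τ * f a : ℝ) : ℂ))) =
      fun a => 1 + (Complex.exp (Complex.I * (τ : ℂ)) - 1) * ((f a : ℝ) : ℂ) := by
    funext a
    rcases hf a with h | h
    · rw [h]; simp
    · rw [h]; simp
  rw [h, av_add, av_const, av_mul, av_ofReal, mul_comm]

lemma chr_sum (f : α → ℝ) (hf : ∀ a, f a = 0 ∨ f a = 1) (τ : ℝ) (m : ℕ) :
    av (fun ω : Fin m → α => Complex.exp (Complex.I * ((τ * ∑ l, f (ω l) : ℝ) : ℂ))) =
      (1 + ((av f : ℝ) : ℂ) * (Complex.exp (Complex.I * (τ : ℂ)) - 1)) ^ m := by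
  have h : (fun ω : Fin m → α => Complex.exp (Complex.I * ((τ * ∑ l, f (ω l) : ℝ) : ℂ))) =
      fun ω => ∏ l : Fin m, Complex.exp (Complex.I * ((τ * f (ω l) : ℝ) : ℂ)) := by
    funext ω
    rw [← Complex.exp_sum, ← mul_sum]
    congr 2
    push_cast
    rw [mul_sum]
  rw [h, av_pi (fun _ : Fin m => fun a => Complex.exp (Complex.I * ((τ * f a : ℝ) : ℂ)))]
  rw [prod_const, card_univ, Fintype.card_fin, chr_one f hf τ]

lemma exp_sum_av (f : α → ℝ) (hf : ∀ a, f a = 0 ∨ f a = 1) (s : ℝ) (m : ℕ) :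
    av (fun ω : Fin m → α => Real.exp (s * ∑ l, f (ω l))) = (1 + av f * (Real.exp s - 1)) ^ m := by
  have h : (fun ω : Fin m → α => Real.exp (s * ∑ l, f (ω l))) = fun ω => ∏ l : Fin m, Real.exp (s * f (ω l)) := by
    funext ω
    rw [mul_sum, Real.exp_sum]
  have h1 : (fun a => Real.exp (s * f a)) = fun a => 1 + (Real.exp s - 1) * f a := by
    funext a
    rcases hf a with h | h
    · rw [h]; simp
    · rw [h]; simp
  rw [h, av_pi (fun _ : Fin m => fun a => Real.exp (s * f a)), prod_const, card_univ, Fintype.card_fin, h1, av_add, av_const,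
    av_mul, mul_comm (av f)]

lemma av_01 (f : α → ℝ) (hf : ∀ a, f a = 0 ∨ f a = 1) : 0 ≤ av f ∧ av f ≤ 1 := by
  constructor
  · exact av_nonneg fun a => by rcases hf a with h | h <;> rw [h] <;> norm_num
  · have h := av_mono (f := f) (g := fun _ => 1) fun a => by rcases hf a with h | h <;> rw [h] <;> norm_num
    rwa [av_const] at h

end one

lemma pow_sub_le (a b : ℂ) (ha : ‖a‖ ≤ 1) (hb : ‖b‖ ≤ 1) (m : ℕ) : ‖a ^ m - b ^ m‖ ≤ m * ‖a - b‖ := by
  induction m with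
  | zero => simp
  | succ m ih =>
    have h1 : a ^ (m + 1) - b ^ (m + 1) = a ^ m * (a - b) + b * (a ^ m - b ^ m) := by ring
    rw [h1]
    refine (norm_add_le _ _).trans ?_
    rw [norm_mul, norm_mul, norm_pow]
    have h2 : ‖a‖ ^ m ≤ 1 := pow_le_one₀ (norm_nonneg _) ha
    have h3 := norm_nonneg (a - b)
    have h4 := norm_nonneg (a ^ m - b ^ m)
    push_cast
    nlinarith

lemma est (p r τ : ℝ) (hp0 : 0 ≤ p) (hp1 : p ≤ 1) (hr0 : 0 ≤ r) (hr1 : r ≤ 1 / 2) (hτ : |τ| ≤ 1) (m : ℕ) :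
    ‖(1 + (p : ℂ) * (Complex.exp (Complex.I * (τ : ℂ)) - 1)) ^ m * Complex.exp (-(Complex.I * ((τ * (m * r) : ℝ) : ℂ))) -
      Complex.exp (-(((m * r) * τ ^ 2 / 2 : ℝ) : ℂ))‖ ≤ m * (|p - r| * |τ| + r * |τ| ^ 3 + 3 * r ^ 2 * τ ^ 2) := by
  obtain ⟨e, he⟩ : ∃ e, e = Complex.exp (Complex.I * (τ : ℂ)) := ⟨_, rfl⟩
  obtain ⟨a, ha⟩ : ∃ a : ℂ, a = (1 + (p : ℂ) * (e - 1)) * Complex.exp (-(Complex.I * ((τ * r : ℝ) : ℂ))) := ⟨_, rfl⟩
  obtain ⟨b, hb⟩ : ∃ b : ℂ, b = Complex.exp (-((r * τ ^ 2 / 2 : ℝ) : ℂ)) := ⟨_, rfl⟩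
  have he1 : ‖e‖ = 1 := by rw [he]; exact Complex.norm_exp_I_mul_ofReal τ
  have hu : ‖Complex.exp (-(Complex.I * ((τ * r : ℝ) : ℂ)))‖ = 1 := by
    have : -(Complex.I * ((τ * r : ℝ) : ℂ)) = Complex.I * ((-(τ * r) : ℝ) : ℂ) := by push_cast; ring
    rw [this]
    exact Complex.norm_exp_I_mul_ofReal _
  have e1 : a ^ m = (1 + (p : ℂ) * (e - 1)) ^ m * Complex.exp (-(Complex.I * ((τ * (m * r) : ℝ) : ℂ))) := by
    rw [ha, mul_pow, ← Complex.exp_nat_mul]
    congr 2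
    push_cast
    ring
  have e2 : b ^ m = Complex.exp (-(((m * r) * τ ^ 2 / 2 : ℝ) : ℂ)) := by
    rw [hb, ← Complex.exp_nat_mul]
    congr 1
    push_cast
    ring
  have ha1 : ‖a‖ ≤ 1 := by
    rw [ha, norm_mul, hu, mul_one]
    have : 1 + (p : ℂ) * (e - 1) = ((1 - p : ℝ) : ℂ) + (p : ℂ) * e := by push_cast; ring
    rw [this]
    refine (norm_add_le _ _).trans ?_
    rw [norm_mul, he1, Complex.norm_real, Complex.norm_real, Real.norm_of_nonneg (by linarith), Real.norm_of_nonneg hp0]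
    linarith
  have hb1 : ‖b‖ ≤ 1 := by
    rw [hb, Complex.norm_exp]
    rw [Real.exp_le_one_iff]
    have : (-((r * τ ^ 2 / 2 : ℝ) : ℂ)).re = -(r * τ ^ 2 / 2) := by
      rw [← Complex.ofReal_neg, Complex.ofReal_re]
    rw [this]
    have : 0 ≤ r * τ ^ 2 / 2 := by positivity
    linarith
  rw [← he, ← e1, ← e2]
  refine (pow_sub_le a b ha1 hb1 m).trans (mul_le_mul_of_nonneg_left ?_ (Nat.cast_nonneg _))
  obtain ⟨z, hz⟩ : ∃ z : ℂ, z = (r : ℂ) * (Complex.I * τ - τ ^ 2 / 2) := ⟨_, rfl⟩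
  have hab : a - b = Complex.exp (-(Complex.I * ((τ * r : ℝ) : ℂ))) * (1 + (p : ℂ) * (e - 1) - Complex.exp z) := by
    have h1 : b = Complex.exp (-(Complex.I * ((τ * r : ℝ) : ℂ))) * Complex.exp z := by
      rw [hb, ← Complex.exp_add]
      congr 1
      rw [hz]
      push_cast
      ring
    rw [h1, ha]
    ring
  rw [hab, norm_mul, hu, one_mul]
  have h1 : 1 + (p : ℂ) * (e - 1) - Complex.exp z = ((p - r : ℝ) : ℂ) * (e - 1) +
      (r : ℂ) * (e - (1 + Complex.I * τ - τ ^ 2 / 2)) - (Complex.exp z - 1 - z) := by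
    rw [hz]
    push_cast
    ring
  rw [h1]
  refine (norm_sub_le _ _).trans ?_
  refine add_le_add ((norm_add_le _ _).trans (add_le_add ?_ ?_)) ?_
  · rw [norm_mul, Complex.norm_real, Real.norm_eq_abs]
    apply mul_le_mul_of_nonneg_left _ (abs_nonneg _)
    rw [he]
    have := Real.norm_exp_I_mul_ofReal_sub_one_le (x := τ)
    rwa [Real.norm_eq_abs] at this
  · rw [norm_mul, Complex.norm_real, Real.norm_of_nonneg hr0]
    apply mul_le_mul_of_nonneg_left _ hr0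
    have h2 := Q282.CL.taylor τ 3
    have h3 : ∑ m ∈ range 3, ((τ : ℂ) * Complex.I) ^ m / (m.factorial : ℂ) = 1 + Complex.I * τ - τ ^ 2 / 2 := by
      rw [sum_range_succ, sum_range_succ, sum_range_one]
      simp only [pow_zero, Nat.factorial, Nat.cast_one, div_one, pow_one, Nat.mul_one, Nat.reduceAdd, Nat.reduceMul, mul_pow,
        Complex.I_sq]
      push_cast
      ring
    rw [h3, mul_comm (τ : ℂ), ← he] at h2
    refine h2.trans ?_
    have h4 : 0 ≤ |τ| ^ 3 := by positivity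
    have h5 : ((3 : ℕ).factorial : ℝ) = 6 := by norm_num [Nat.factorial]
    rw [h5]
    linarith
  · have hzn : ‖z‖ ≤ 3 / 2 * (r * |τ|) := by
      rw [hz, norm_mul, Complex.norm_real, Real.norm_of_nonneg hr0]
      have h2 : ‖Complex.I * (τ : ℂ) - (τ : ℂ) ^ 2 / 2‖ ≤ |τ| + τ ^ 2 / 2 := by
        refine (norm_sub_le _ _).trans (le_of_eq ?_)
        rw [norm_mul, Complex.norm_I, one_mul, Complex.norm_real, Real.norm_eq_abs, norm_div, norm_pow, Complex.norm_real,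
          Real.norm_eq_abs, sq_abs]
        norm_num
      have h3 : τ ^ 2 ≤ |τ| := by
        rw [← sq_abs]
        nlinarith [abs_nonneg τ]
      calc r * ‖Complex.I * (τ : ℂ) - (τ : ℂ) ^ 2 / 2‖ ≤ r * (|τ| + τ ^ 2 / 2) := mul_le_mul_of_nonneg_left h2 hr0
        _ ≤ r * (|τ| + |τ| / 2) := mul_le_mul_of_nonneg_left (by linarith) hr0
        _ = 3 / 2 * (r * |τ|) := by ring
    have hz1 : ‖z‖ ≤ 1 := by
      refine hzn.trans ?_
      have : r * |τ| ≤ 1 / 2 * 1 := mul_le_mul hr1 hτ (abs_nonneg _) (by norm_num)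
      linarith
    refine (Complex.norm_exp_sub_one_sub_id_le hz1).trans ?_
    calc ‖z‖ ^ 2 ≤ (3 / 2 * (r * |τ|)) ^ 2 := pow_le_pow_left₀ (norm_nonneg _) hzn 2
      _ = 9 / 4 * r ^ 2 * τ ^ 2 := by rw [mul_pow, mul_pow, sq_abs]; ring
      _ ≤ 3 * r ^ 2 * τ ^ 2 := by nlinarith [mul_nonneg (sq_nonneg r) (sq_nonneg τ)]

section two

variable {α : Type} [Fintype α] [Nonempty α]

/-- the characteristic function of the normalised sum -/
lemma chr_Z (f : α → ℝ) (hf : ∀ a, f a = 0 ∨ f a = 1) (r : ℝ) (hr0 : 0 < r) (hr1 : r ≤ 1 / 2) (m : ℕ) (hm : 0 < m) (t : ℝ)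
    (ht : t ^ 2 ≤ m * r) :
    ‖av (fun ω : Fin m → α => Complex.exp (Complex.I * ((t * ((∑ l, f (ω l) - m * r) / √(m * r)) : ℝ) : ℂ))) -
      Complex.exp (-((t ^ 2 / 2 : ℝ) : ℂ))‖ ≤
      m * |av f - r| * |t| / √(m * r) + |t| ^ 3 / √(m * r) + 3 * r * t ^ 2 := by
  have hm0 : (0 : ℝ) < m := by exact_mod_cast hm
  have hl0 : 0 < m * r := by positivity
  obtain ⟨s, hs⟩ : ∃ s, s = √(m * r) := ⟨_, rfl⟩
  have hs0 : 0 < s := by rw [hs]; exact Real.sqrt_pos.2 hl0
  have hs2 : s ^ 2 = m * r := by rw [hs]; exact Real.sq_sqrt hl0.le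
  rw [← hs]
  obtain ⟨τ, hτ⟩ : ∃ τ, τ = t / s := ⟨_, rfl⟩
  have hτ1 : |τ| ≤ 1 := by
    rw [hτ, abs_div, abs_of_pos hs0, div_le_one hs0]
    exact abs_le_of_sq_le_sq (by rw [hs2]; exact ht) hs0.le
  have h1 : (fun ω : Fin m → α => Complex.exp (Complex.I * ((t * ((∑ l, f (ω l) - m * r) / s) : ℝ) : ℂ))) =
      fun ω => Complex.exp (-(Complex.I * ((τ * (m * r) : ℝ) : ℂ))) * Complex.exp (Complex.I * ((τ * ∑ l, f (ω l) : ℝ) : ℂ)) := by
    funext ω
    rw [← Complex.exp_add]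
    congr 1
    rw [hτ]
    push_cast
    ring
  rw [h1, av_mul, chr_sum f hf τ m, mul_comm (Complex.exp _)]
  have h2 : t ^ 2 / 2 = (m * r) * τ ^ 2 / 2 := by
    rw [hτ, ← hs2]
    field_simp
  rw [h2]
  obtain ⟨hp0, hp1⟩ := av_01 f hf
  refine (est (av f) r τ hp0 hp1 hr0.le hr1 hτ1 m).trans (le_of_eq ?_)
  have h3 : |τ| = |t| / s := by rw [hτ, abs_div, abs_of_pos hs0]
  rw [h3, show τ ^ 2 = t ^ 2 / s ^ 2 by rw [hτ, div_pow]]
  have h4 : (m : ℝ) = s ^ 2 / r := by rw [hs2]; field_simp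
  rw [h4]
  field_simp

/-- the first moment of the normalised sum -/
lemma mom_Z (f : α → ℝ) (hf : ∀ a, f a = 0 ∨ f a = 1) (r : ℝ) (hr0 : 0 < r) (m : ℕ) (hm : 0 < m)
    (h1 : 1 ≤ m * r) (hp : m * |av f - r| ≤ √(m * r)) :
    av (fun ω : Fin m → α => |(∑ l, f (ω l) - m * r) / √(m * r)|) ≤ 2 * Real.exp 3 := by
  have hm0 : (0 : ℝ) < m := by exact_mod_cast hm
  have hl0 : 0 < m * r := by positivity
  obtain ⟨s, hs⟩ : ∃ s, s = √(m * r) := ⟨_, rfl⟩
  have hs0 : 0 < s := by rw [hs]; exact Real.sqrt_pos.2 hl0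
  have hs1 : 1 ≤ s := by rw [hs]; exact Real.one_le_sqrt.2 h1
  have hs2 : s ^ 2 = m * r := by rw [hs]; exact Real.sq_sqrt hl0.le
  rw [← hs] at hp ⊢
  obtain ⟨hp0, hp1⟩ := av_01 f hf
  have key : ∀ σ : ℝ, |σ| = 1 / s → av (fun ω : Fin m → α => Real.exp (σ * (∑ l, f (ω l) - m * r))) ≤ Real.exp 3 := by
    intro σ hσ
    have hσ1 : |σ| ≤ 1 := by rw [hσ, div_le_one hs0]; exact hs1
    have e1 : (fun ω : Fin m → α => Real.exp (σ * (∑ l, f (ω l) - m * r))) =
        fun ω => Real.exp (-(σ * (m * r))) * Real.exp (σ * ∑ l, f (ω l)) := by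
      funext ω
      rw [← Real.exp_add]
      congr 1
      ring
    rw [e1, av_mul, exp_sum_av f hf σ m]
    have e2 : (1 + av f * (Real.exp σ - 1)) ^ m ≤ Real.exp (m * (av f * (Real.exp σ - 1))) := by
      rw [Real.exp_nat_mul]
      apply pow_le_pow_left₀
      · have : 0 ≤ Real.exp σ := (Real.exp_pos _).le
        nlinarith [mul_nonneg hp0 this]
      · linarith [Real.add_one_le_exp (av f * (Real.exp σ - 1))]
    calc Real.exp (-(σ * (m * r))) * (1 + av f * (Real.exp σ - 1)) ^ m ≤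
        Real.exp (-(σ * (m * r))) * Real.exp (m * (av f * (Real.exp σ - 1))) :=
          mul_le_mul_of_nonneg_left e2 (Real.exp_pos _).le
      _ = Real.exp (m * r * (Real.exp σ - 1 - σ) + m * (av f - r) * (Real.exp σ - 1)) := by
          rw [← Real.exp_add]
          congr 1
          ring
      _ ≤ Real.exp 3 := by
          apply Real.exp_le_exp.2
          have a1 := (abs_le.1 (Real.abs_exp_sub_one_sub_id_le hσ1)).2
          have a2 := Real.abs_exp_sub_one_le hσ1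
          have a3 : m * r * (Real.exp σ - 1 - σ) ≤ 1 := by
            calc m * r * (Real.exp σ - 1 - σ) ≤ m * r * σ ^ 2 := mul_le_mul_of_nonneg_left a1 hl0.le
              _ = 1 := by rw [← sq_abs, hσ, ← hs2]; field_simp
          have a4 : m * (av f - r) * (Real.exp σ - 1) ≤ 2 := by
            calc m * (av f - r) * (Real.exp σ - 1) ≤ |m * (av f - r) * (Real.exp σ - 1)| := le_abs_self _
              _ = m * |av f - r| * |Real.exp σ - 1| := by rw [abs_mul, abs_mul, Nat.abs_cast]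
              _ ≤ s * (2 * |σ|) := mul_le_mul hp a2 (abs_nonneg _) hs0.le
              _ = 2 := by rw [hσ]; field_simp
          linarith
  have h2 := key (1 / s) (abs_of_pos (by positivity))
  have h3 := key (-(1 / s)) (by rw [abs_neg]; exact abs_of_pos (by positivity))
  have h4 : av (fun ω : Fin m → α => |(∑ l, f (ω l) - m * r) / s|) ≤
      av (fun ω : Fin m → α => Real.exp (1 / s * (∑ l, f (ω l) - m * r)) + Real.exp (-(1 / s) * (∑ l, f (ω l) - m * r))) := by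
    refine av_mono fun ω => ?_
    have e1 : (∑ l, f (ω l) - m * r) / s = 1 / s * (∑ l, f (ω l) - m * r) := by ring
    rw [e1, neg_mul]
    obtain ⟨x, hx⟩ : ∃ x, x = 1 / s * (∑ l, f (ω l) - m * r) := ⟨_, rfl⟩
    rw [← hx]
    have b1 := Real.add_one_le_exp x
    have b2 := Real.add_one_le_exp (-x)
    have b3 := Real.exp_pos x
    have b4 := Real.exp_pos (-x)
    rw [abs_le]
    constructor <;> linarith
  rw [av_add] at h4
  linarith

end two

end Pool.Agent.Run7.h524.MG
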