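import Pool.Agent.Run7.h524.MG.Mcd
import Pool.Agent.Run7.h794.MK.Poi

/-!
# The Poisson law for almost all choices: the abstract theorem

The binomial probabilities and the Poisson limit are those of `Run7.h794.MK.Poi`; here the concentration is that of
bounded differences, and the parameter may vary.
-/

set_option autoImplicit false

namespace Pool.Agent.Run7.h524.MG

open Finset Filter Topology
open Q282.CL (av av_add av_sub av_mul av_const av_mono av_nonneg abs_av_le)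
open Pool.Agent.Run7.h794.MK (Poi.binom Poi.unif Poi.s Poi.S)

/-- the Poisson weights -/
noncomputable def pw (lam : ℝ) (j : ℕ) : ℝ := Real.exp (-lam) * lam ^ j / j.factorial

lemma pw_nonneg {lam : ℝ} (h : 0 ≤ lam) (j : ℕ) : 0 ≤ pw lam j := by unfold pw; positivity

lemma pw_hasSum (lam : ℝ) : HasSum (pw lam) 1 := by
  have h1 : HasSum (fun j : ℕ => lam ^ j / j.factorial) (Real.exp lam) := by
    rw [Real.exp_eq_exp_ℝ]
    exact NormedSpace.expSeries_div_hasSum_exp (𝔸 := ℝ) lam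
  have h3 := h1.mul_left (Real.exp (-lam))
  rw [← Real.exp_add, neg_add_cancel, Real.exp_zero] at h3
  have h4 : (fun j : ℕ => Real.exp (-lam) * (lam ^ j / j.factorial)) = pw lam := by
    funext j
    unfold pw
    ring
  rwa [h4] at h3

lemma pw_le_one {lam : ℝ} (h : 0 ≤ lam) (j : ℕ) : pw lam j ≤ 1 :=
  le_hasSum (pw_hasSum lam) j fun i _ => pw_nonneg h i

lemma pw_sum_le {lam : ℝ} (h : 0 ≤ lam) (s : Finset ℕ) : ∑ j ∈ s, pw lam j ≤ 1 :=
  sum_le_hasSum s (fun i _ => pw_nonneg h i) (pw_hasSum lam)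

lemma pw_cont (j : ℕ) : Continuous fun lam : ℝ => pw lam j := by
  unfold pw
  fun_prop

/-- the tails are uniformly small -/
lemma pw_tail (Λ : ℝ) (hΛ : 0 ≤ Λ) (ε : ℝ) (hε : 0 < ε) : ∃ J : ℕ, ∀ lam : ℝ, 0 ≤ lam → lam ≤ Λ →
    1 - ε ≤ ∑ j ∈ range J, pw lam j := by
  have h1 : HasSum (fun j : ℕ => Λ ^ j / j.factorial) (Real.exp Λ) := by
    rw [Real.exp_eq_exp_ℝ]
    exact NormedSpace.expSeries_div_hasSum_exp (𝔸 := ℝ) Λ
  obtain ⟨J, hJ⟩ := (h1.tendsto_sum_nat.eventually (lt_mem_nhds (show Real.exp Λ - ε < Real.exp Λ by linarith))).exists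
  refine ⟨J, fun lam h0 hΛ' => ?_⟩
  have h2 := (pw_hasSum lam).tendsto_sum_nat
  have h3 : ∀ M : ℕ, J ≤ M → ∑ j ∈ range M, pw lam j ≤ ∑ j ∈ range J, pw lam j + ε := by
    intro M hM
    have h4 : ∑ j ∈ range M, pw lam j = ∑ j ∈ range J, pw lam j + ∑ j ∈ Ico J M, pw lam j := by
      rw [range_eq_Ico, range_eq_Ico, sum_Ico_consecutive _ (Nat.zero_le _) hM]
    have h5 : ∑ j ∈ range M, Λ ^ j / (j.factorial : ℝ) = ∑ j ∈ range J, Λ ^ j / (j.factorial : ℝ) +
        ∑ j ∈ Ico J M, Λ ^ j / (j.factorial : ℝ) := by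
      rw [range_eq_Ico, range_eq_Ico, sum_Ico_consecutive _ (Nat.zero_le _) hM]
    have h6 : ∑ j ∈ Ico J M, pw lam j ≤ ∑ j ∈ Ico J M, Λ ^ j / (j.factorial : ℝ) := by
      refine sum_le_sum fun j _ => ?_
      unfold pw
      apply div_le_div_of_nonneg_right _ (Nat.cast_nonneg _)
      calc Real.exp (-lam) * lam ^ j ≤ 1 * Λ ^ j := by
            apply mul_le_mul _ (pow_le_pow_left₀ h0 hΛ' j) (by positivity) zero_le_one
            rw [Real.exp_le_one_iff]
            linarith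
        _ = Λ ^ j := one_mul _
    have h7 : ∑ j ∈ range M, Λ ^ j / (j.factorial : ℝ) ≤ Real.exp Λ :=
      sum_le_hasSum _ (fun i _ => by positivity) h1
    linarith
  have h8 := le_of_tendsto h2 (eventually_atTop.2 ⟨J, h3⟩)
  linarith

/-- the binomial probabilities are close to the Poisson weights, uniformly for bounded parameters -/
lemma unif_cpt (Λ : ℝ) (j : ℕ) (ε : ℝ) (hε : 0 < ε) : ∃ M₀ : ℕ, ∀ m : ℕ, M₀ ≤ m → ∀ p : ℝ, 0 ≤ m * p → m * p ≤ Λ →
    |(m.choose j : ℝ) * p ^ j * (1 - p) ^ (m - j) - pw (m * p) j| ≤ ε := by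
  by_contra hcon
  push Not at hcon
  choose mm hmm pp h0 hΛ hbad using hcon
  have hmem : ∀ k, (mm k : ℝ) * pp k ∈ Set.Icc 0 Λ := fun k => ⟨h0 k, hΛ k⟩
  obtain ⟨lam, -, φ, hφ, hlim⟩ := isCompact_Icc.tendsto_subseq hmem
  obtain ⟨δ, hδ, M₀, hu⟩ := Poi.unif lam j (ε / 2) (by positivity)
  have h1 : ∀ᶠ k in atTop, |(mm (φ k) : ℝ) * pp (φ k) - lam| < δ := by
    have := Metric.tendsto_nhds.1 hlim δ hδ
    filter_upwards [this] with k hk
    rwa [Real.dist_eq] at hk
  have h2 : ∀ᶠ k in atTop, |pw ((mm (φ k) : ℝ) * pp (φ k)) j - pw lam j| < ε / 2 := by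
    have h3 := ((pw_cont j).tendsto lam).comp hlim
    have := Metric.tendsto_nhds.1 h3 (ε / 2) (by positivity)
    filter_upwards [this] with k hk
    rw [Real.dist_eq] at hk
    exact hk
  obtain ⟨k, hk1, hk2, hk3⟩ := (h1.and (h2.and (eventually_ge_atTop M₀))).exists
  have h4 : M₀ ≤ mm (φ k) := hk3.trans ((hφ.id_le k).trans (hmm (φ k)))
  have h5 := hu (mm (φ k)) h4 (pp (φ k)) hk1.le
  have h6 := hbad (φ k)
  have h7 : |((mm (φ k)).choose j : ℝ) * pp (φ k) ^ j * (1 - pp (φ k)) ^ (mm (φ k) - j) - pw ((mm (φ k) : ℝ) * pp (φ k)) j| ≤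
      ε / 2 + |pw ((mm (φ k) : ℝ) * pp (φ k)) j - pw lam j| := by
    have h8 : ((mm (φ k)).choose j : ℝ) * pp (φ k) ^ j * (1 - pp (φ k)) ^ (mm (φ k) - j) - pw ((mm (φ k) : ℝ) * pp (φ k)) j =
        (((mm (φ k)).choose j : ℝ) * pp (φ k) ^ j * (1 - pp (φ k)) ^ (mm (φ k) - j) - pw lam j) -
          (pw ((mm (φ k) : ℝ) * pp (φ k)) j - pw lam j) := by ring
    rw [h8]
    exact (abs_sub _ _).trans (add_le_add h5 le_rfl)
  linarith

/-- the Poisson weights are uniformly continuous -/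
lemma pw_unif (Λ : ℝ) (j : ℕ) (ε : ℝ) (hε : 0 < ε) : ∃ η : ℝ, 0 < η ∧ ∀ x y : ℝ, 0 ≤ x → x ≤ Λ → 0 ≤ y → y ≤ Λ → |x - y| ≤ η →
    |pw x j - pw y j| ≤ ε := by
  have h1 : UniformContinuousOn (fun lam : ℝ => pw lam j) (Set.Icc 0 Λ) :=
    isCompact_Icc.uniformContinuousOn_of_continuous (pw_cont j).continuousOn
  obtain ⟨δ, hδ, h⟩ := Metric.uniformContinuousOn_iff.1 h1 ε hε
  refine ⟨δ / 2, by positivity, fun x y hx0 hx1 hy0 hy1 hxy => ?_⟩
  have := h x ⟨hx0, hx1⟩ y ⟨hy0, hy1⟩ (by rw [Real.dist_eq]; linarith)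
  rw [Real.dist_eq] at this
  exact this.le

open Classical in
/-- **The Poisson law for almost all choices.** -/
theorem pois (B Λ : ℝ) (hB : 1 ≤ B) (hΛ : 0 < Λ) (ε : ℝ) (hε : 0 < ε) : ∃ η δ ρ₀ : ℝ, 0 < η ∧ 0 < δ ∧ 0 < ρ₀ ∧ ∃ M₀ : ℕ,
    ∀ (α : Type) [Fintype α] [Nonempty α] (J E : Finset ℕ) (f : ℕ → α → ℕ) (r : ℕ → ℝ) (ρ : ℝ) (m : ℕ), J.Nonempty →
    (∀ n a, f n a = 0 ∨ f n a = 1) → 0 < ρ → ρ ≤ ρ₀ → M₀ ≤ m → m * ρ ≤ Λ → ((J ∩ E).card : ℝ) ≤ ε / 8 * J.card →
    (∀ n ∈ J, 0 ≤ r n) → (∀ n ∈ J \ E, r n ≤ B * ρ ∧ m * |av (fun a => (f n a : ℝ)) - r n| ≤ η) →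
    (∀ a, ∑ n ∈ J \ E, (f n a : ℝ) ≤ B * ρ * J.card) →
    ((univ.filter fun ω : Fin m → α => ¬ ∀ j : ℕ,
      |((J.filter fun n => ∑ l, f n (ω l) = j).card : ℝ) - ∑ n ∈ J, pw (m * r n) j| ≤ ε * J.card).card : ℝ) ≤
      Real.exp (-δ / ρ) * (Fintype.card α : ℝ) ^ m := by
  obtain ⟨Λ', hΛ'⟩ : ∃ Λ' : ℝ, Λ' = B * Λ + 1 := ⟨_, rfl⟩
  have hΛ'0 : 0 < Λ' := by rw [hΛ']; positivity
  obtain ⟨J₀, hJ₀⟩ := pw_tail Λ' hΛ'0.le (ε / 8) (by positivity)
  obtain ⟨ε₁, hε₁⟩ : ∃ ε₁ : ℝ, ε₁ = ε / (16 * (J₀ + 1)) := ⟨_, rfl⟩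
  have hε₁0 : 0 < ε₁ := by rw [hε₁]; positivity
  choose M₁ hM₁ using fun j : ℕ => unif_cpt Λ' j ε₁ hε₁0
  choose η₁ hη₁0 hη₁ using fun j : ℕ => pw_unif Λ' j ε₁ hε₁0
  obtain ⟨η, hη⟩ : ∃ η : ℝ, η = (∑ j ∈ range J₀, 1 / η₁ j + 1)⁻¹ := ⟨_, rfl⟩
  have hs0 : 0 ≤ ∑ j ∈ range J₀, 1 / η₁ j := sum_nonneg fun j _ => by have := hη₁0 j; positivity
  have hη0 : 0 < η := by rw [hη]; positivity
  have hη1 : η ≤ 1 := by
    rw [hη]
    apply inv_le_one_of_one_le₀
    linarith
  have hηj : ∀ j < J₀, η ≤ η₁ j := by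
    intro j hj
    have h1 : 1 / η₁ j ≤ ∑ j ∈ range J₀, 1 / η₁ j + 1 := by
      have := single_le_sum (f := fun j => 1 / η₁ j) (fun j _ => by have := hη₁0 j; positivity) (mem_range.2 hj)
      linarith
    rw [hη, inv_le_comm₀ (by positivity) (hη₁0 j)]
    rwa [one_div] at h1
  obtain ⟨M₀, hM₀⟩ : ∃ M₀ : ℕ, M₀ = ∑ j ∈ range J₀, M₁ j + 1 := ⟨_, rfl⟩
  have hMj : ∀ j < J₀, M₁ j ≤ M₀ := by
    intro j hj
    have := single_le_sum (f := M₁) (fun _ _ => Nat.zero_le _) (mem_range.2 hj)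
    omega
  obtain ⟨c, hc⟩ : ∃ c : ℝ, c = ε₁ ^ 2 / (8 * B ^ 2 * Λ) := ⟨_, rfl⟩
  have hc0 : 0 < c := by rw [hc]; positivity
  refine ⟨η, c / 2, c / (4 * (J₀ + 1)), hη0, by positivity, by positivity, M₀, fun α _ _ J E f r ρ m hJ hf hρ hρρ hm hmρ hE hr0 hr hcn => ?_⟩
  have hm0 : 0 < m := by omega
  have hmr : (0 : ℝ) < m := by exact_mod_cast hm0
  have hJ0 : (0 : ℝ) < J.card := by exact_mod_cast hJ.card_pos
  -- the statistics
  obtain ⟨F, hF⟩ : ∃ F : ℕ → (Fin m → α) → ℝ, F = fun (j : ℕ) (ω : Fin m → α) =>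
    (((J \ E).filter fun n => ∑ l, f n (ω l) = j).card : ℝ) / J.card := ⟨_, rfl⟩
  obtain ⟨L, hL⟩ : ∃ L : ℝ, L = 2 * B * ρ := ⟨_, rfl⟩
  have hL0 : 0 < L := by rw [hL]; positivity
  have hdiff : ∀ (j : ℕ) (ω : Fin m → α) (i : Fin m) (v : α), |F j (Function.update ω i v) - F j ω| ≤ L := by
    intro j ω i v
    rw [hF]
    simp only
    rw [← sub_div, abs_div, abs_of_pos hJ0, div_le_iff₀ hJ0]
    have h1 : (((J \ E).filter fun n => ∑ l, f n (Function.update ω i v l) = j).card : ℝ) -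
        (((J \ E).filter fun n => ∑ l, f n (ω l) = j).card : ℝ) =
        ∑ n ∈ J \ E, ((if ∑ l, f n (Function.update ω i v l) = j then (1 : ℝ) else 0) - if ∑ l, f n (ω l) = j then 1 else 0) := by
      rw [sum_sub_distrib, sum_boole, sum_boole]
    rw [h1]
    have h2 : ∀ n ∈ J \ E, |(if ∑ l, f n (Function.update ω i v l) = j then (1 : ℝ) else 0) - if ∑ l, f n (ω l) = j then 1 else 0| ≤
        (f n v : ℝ) + f n (ω i) := by
      intro n _
      by_cases h : f n v = 0 ∧ f n (ω i) = 0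
      · have h3 : ∑ l, f n (Function.update ω i v l) = ∑ l, f n (ω l) := by
          refine sum_congr rfl fun l _ => ?_
          by_cases hl : l = i
          · rw [hl, Function.update_self, h.1, h.2]
          · rw [Function.update_of_ne hl]
        rw [h3, sub_self, abs_zero]
        positivity
      · have h3 : (1 : ℝ) ≤ (f n v : ℝ) + f n (ω i) := by
          have h4 : 1 ≤ f n v + f n (ω i) := by
            rcases hf n v with h5 | h5 <;> rcases hf n (ω i) with h6 | h6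
            · exact absurd ⟨h5, h6⟩ h
            all_goals omega
          exact_mod_cast h4
        refine le_trans ?_ h3
        split_ifs <;> norm_num
    refine (abs_sum_le_sum_abs _ _).trans ((sum_le_sum h2).trans ?_)
    rw [sum_add_distrib, hL]
    have := hcn v
    have := hcn (ω i)
    linarith
  -- concentration
  have hcon : ∀ j : ℕ, ((univ.filter fun ω => ε₁ ≤ |F j ω - av (F j)|).card : ℝ) ≤
      2 * Real.exp (-c / ρ) * (Fintype.card α : ℝ) ^ m := by
    intro j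
    have h1 := mcd m hm0 (F j) L hL0 (fun ω i v => hdiff j ω i v) ε₁ hε₁0.le
    refine h1.trans ?_
    apply mul_le_mul_of_nonneg_right _ (by positivity)
    apply mul_le_mul_of_nonneg_left _ (by norm_num)
    apply Real.exp_le_exp.2
    rw [neg_div, neg_div, neg_le_neg_iff, hc, hL, div_div]
    apply div_le_div_of_nonneg_left (by positivity) (by positivity)
    calc 2 * (m : ℝ) * (2 * B * ρ) ^ 2 = 8 * B ^ 2 * (m * ρ) * ρ := by ring
      _ ≤ 8 * B ^ 2 * Λ * ρ := by gcongr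
  -- the means
  have hmean : ∀ j < J₀, |av (F j) - (∑ n ∈ J \ E, pw (m * r n) j) / J.card| ≤ 2 * ε₁ := by
    intro j hj
    have h1 : av (F j) = (∑ n ∈ J \ E, av (fun ω : Fin m → α => if ∑ l, f n (ω l) = j then (1 : ℝ) else 0)) / J.card := by
      rw [hF]
      unfold av
      simp only
      rw [← sum_div, ← sum_div, div_right_comm]
      congr 2
      have : ∀ ω : Fin m → α, (((J \ E).filter fun n => ∑ l, f n (ω l) = j).card : ℝ) =
          ∑ n ∈ J \ E, if ∑ l, f n (ω l) = j then (1 : ℝ) else 0 := fun ω => by rw [sum_boole]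
      simp only [this]
      exact sum_comm
    rw [h1, ← sub_div, ← sum_sub_distrib, abs_div, abs_of_pos hJ0, div_le_iff₀ hJ0]
    have h2 : ∀ n ∈ J \ E, |av (fun ω : Fin m → α => if ∑ l, f n (ω l) = j then (1 : ℝ) else 0) - pw (m * r n) j| ≤ 2 * ε₁ := by
      intro n hn
      obtain ⟨p, hp⟩ : ∃ p : ℝ, p = av (fun a => (f n a : ℝ)) := ⟨_, rfl⟩
      obtain ⟨r1, r2⟩ := hr n hn
      have r0 := hr0 n (mem_sdiff.1 hn).1
      rw [← hp] at r2
      have h3 : av (fun ω : Fin m → α => if ∑ l, f n (ω l) = j then (1 : ℝ) else 0) =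
          (m.choose j : ℝ) * p ^ j * (1 - p) ^ (m - j) := by
        rw [← Poi.binom (f n) (hf n) p (by rw [hp]; rfl) m j]
        unfold av Poi.s Poi.S
        rw [Fintype.card_fun, Fintype.card_fin]
        push_cast
        rfl
      rw [h3]
      have hp0 : 0 ≤ p := by rw [hp]; exact av_nonneg fun a => Nat.cast_nonneg _
      have h4 : |m * p - m * r n| ≤ η := by
        rw [← mul_sub, abs_mul, abs_of_pos hmr]
        exact r2
      have h5 : m * r n ≤ B * Λ := by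
        calc m * r n ≤ m * (B * ρ) := mul_le_mul_of_nonneg_left r1 hmr.le
          _ = B * (m * ρ) := by ring
          _ ≤ B * Λ := mul_le_mul_of_nonneg_left hmρ (by linarith)
      have h6 : m * p ≤ Λ' := by
        have := (abs_le.1 h4).2
        rw [hΛ']
        linarith
      have h7 := hM₁ j m ((hMj j hj).trans hm) p (by positivity) h6
      have h8 := hη₁ j (m * p) (m * r n) (by positivity) h6 (by positivity) (by rw [hΛ']; linarith) (h4.trans (hηj j hj))
      calc |(m.choose j : ℝ) * p ^ j * (1 - p) ^ (m - j) - pw (m * r n) j| =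
          |((m.choose j : ℝ) * p ^ j * (1 - p) ^ (m - j) - pw (m * p) j) + (pw (m * p) j - pw (m * r n) j)| := by congr 1; ring
        _ ≤ ε₁ + ε₁ := (abs_add_le _ _).trans (add_le_add h7 h8)
        _ = 2 * ε₁ := by ring
    refine (abs_sum_le_sum_abs _ _).trans ((sum_le_sum h2).trans ?_)
    rw [sum_const, nsmul_eq_mul, mul_comm]
    apply mul_le_mul_of_nonneg_left _ (by positivity)
    exact_mod_cast card_le_card sdiff_subset
  -- the good choices
  have hsub : (univ.filter fun ω : Fin m → α => ¬ ∀ j : ℕ,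
      |((J.filter fun n => ∑ l, f n (ω l) = j).card : ℝ) - ∑ n ∈ J, pw (m * r n) j| ≤ ε * J.card) ⊆
      (range J₀).biUnion fun j => univ.filter fun ω => ε₁ ≤ |F j ω - av (F j)| := by
    intro ω hω
    rw [mem_filter] at hω
    by_contra hcon2
    rw [mem_biUnion] at hcon2
    push Not at hcon2
    apply hω.2
    have hgood : ∀ j < J₀, |(((J \ E).filter fun n => ∑ l, f n (ω l) = j).card : ℝ) - ∑ n ∈ J \ E, pw (m * r n) j| ≤
        3 * ε₁ * J.card := by
      intro j hj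
      have h1 : |F j ω - av (F j)| < ε₁ := by
        by_contra hcon3
        push Not at hcon3
        exact hcon2 j (mem_range.2 hj) (mem_filter.2 ⟨mem_univ _, hcon3⟩)
      have h2 := hmean j hj
      have h3 : |F j ω - (∑ n ∈ J \ E, pw (m * r n) j) / J.card| ≤ 3 * ε₁ := by
        have e : F j ω - (∑ n ∈ J \ E, pw (m * r n) j) / J.card =
          (F j ω - av (F j)) + (av (F j) - (∑ n ∈ J \ E, pw (m * r n) j) / J.card) := by ring
        rw [e]
        refine (abs_add_le _ _).trans ?_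
        linarith
      rw [hF] at h3
      simp only at h3
      rw [← sub_div, abs_div, abs_of_pos hJ0, div_le_iff₀ hJ0] at h3
      exact h3
    have hE0 : (0 : ℝ) ≤ (J ∩ E).card := Nat.cast_nonneg _
    have hcnt : ∀ j : ℕ, (((J \ E).filter fun n => ∑ l, f n (ω l) = j).card : ℝ) ≤ ((J.filter fun n => ∑ l, f n (ω l) = j).card : ℝ) ∧
        ((J.filter fun n => ∑ l, f n (ω l) = j).card : ℝ) ≤
          (((J \ E).filter fun n => ∑ l, f n (ω l) = j).card : ℝ) + (J ∩ E).card := by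
      intro j
      constructor
      · exact_mod_cast card_le_card (filter_subset_filter _ sdiff_subset)
      · have h1 : (J.filter fun n => ∑ l, f n (ω l) = j) ⊆ ((J \ E).filter fun n => ∑ l, f n (ω l) = j) ∪ (J ∩ E) := by
          intro n hn
          rw [mem_filter] at hn
          rw [mem_union, mem_filter, Finset.mem_sdiff, mem_inter]
          by_cases h : n ∈ E
          · exact Or.inr ⟨hn.1, h⟩
          · exact Or.inl ⟨⟨hn.1, h⟩, hn.2⟩
        exact_mod_cast (card_le_card h1).trans (card_union_le _ _)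
    have hpws : ∀ j : ℕ, ∑ n ∈ J \ E, pw (m * r n) j ≤ ∑ n ∈ J, pw (m * r n) j ∧
        ∑ n ∈ J, pw (m * r n) j ≤ ∑ n ∈ J \ E, pw (m * r n) j + (J ∩ E).card := by
      intro j
      have hnn : ∀ n ∈ J, 0 ≤ pw (m * r n) j := fun n hn => pw_nonneg (mul_nonneg hmr.le (hr0 n hn)) j
      constructor
      · exact sum_le_sum_of_subset_of_nonneg sdiff_subset fun n hn _ => hnn n hn
      · have h1 : ∑ n ∈ J, pw (m * r n) j = ∑ n ∈ J \ E, pw (m * r n) j + ∑ n ∈ J ∩ E, pw (m * r n) j := by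
          have h2 : J = (J \ E) ∪ (J ∩ E) := (sdiff_union_inter J E).symm
          conv_lhs => rw [h2]
          rw [sum_union (disjoint_sdiff_inter J E)]
        rw [h1]
        have h3 : ∑ n ∈ J ∩ E, pw (m * r n) j ≤ ∑ _n ∈ J ∩ E, (1 : ℝ) :=
          sum_le_sum fun n hn => pw_le_one (mul_nonneg hmr.le (hr0 n (mem_inter.1 hn).1)) j
        rw [sum_const, nsmul_eq_mul, mul_one] at h3
        linarith
    have hJε : J₀ * (3 * ε₁) ≤ 3 / 16 * ε := by
      rw [hε₁]
      rw [show (J₀ : ℝ) * (3 * (ε / (16 * (J₀ + 1)))) = 3 / 16 * ε * (J₀ / (J₀ + 1)) by field_simp]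
      have : (J₀ : ℝ) / (J₀ + 1) ≤ 1 := by
        rw [div_le_one (by positivity)]
        linarith
      have h0 : 0 ≤ 3 / 16 * ε := by positivity
      nlinarith
    have h3ε : 3 * ε₁ ≤ 3 / 16 * ε := by
      rw [hε₁]
      rw [show 3 * (ε / (16 * ((J₀ : ℝ) + 1))) = 3 / 16 * ε * (1 / (J₀ + 1)) by field_simp]
      have : 1 / ((J₀ : ℝ) + 1) ≤ 1 := by
        rw [div_le_one (by positivity)]
        have : (0 : ℝ) ≤ J₀ := Nat.cast_nonneg _
        linarith
      have h0 : 0 ≤ 3 / 16 * ε := by positivity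
      nlinarith
    intro j
    obtain ⟨a1, a2⟩ := hcnt j
    obtain ⟨b1, b2⟩ := hpws j
    by_cases hj : j < J₀
    · have h1 := abs_le.1 (hgood j hj)
      have h2 : 3 * ε₁ * J.card ≤ 3 / 16 * ε * J.card := mul_le_mul_of_nonneg_right h3ε hJ0.le
      rw [abs_le]
      have h3 : 0 < ε * J.card := by positivity
      constructor <;> nlinarith [h1.1, h1.2]
    · push Not at hj
      have hJE : (((J \ E).card : ℕ) : ℝ) ≤ J.card := by exact_mod_cast card_le_card sdiff_subset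
      -- the total
      have h1 : (((J \ E).filter fun n => ∑ l, f n (ω l) = j).card : ℝ) +
          ∑ i ∈ range J₀, (((J \ E).filter fun n => ∑ l, f n (ω l) = i).card : ℝ) ≤ (J \ E).card := by
        have h2 : ((J \ E).filter fun n => ∑ l, f n (ω l) = j).card +
            ∑ i ∈ range J₀, ((J \ E).filter fun n => ∑ l, f n (ω l) = i).card ≤ (J \ E).card := by
          have h3 : ∑ i ∈ insert j (range J₀), ((J \ E).filter fun n => ∑ l, f n (ω l) = i).card ≤ (J \ E).card := by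
            rw [← card_biUnion]
            · apply card_le_card
              intro n hn
              rw [mem_biUnion] at hn
              obtain ⟨i, -, hi⟩ := hn
              exact (mem_filter.1 hi).1
            · intro i _ i' _ hii
              rw [Function.onFun, disjoint_left]
              intro n hn hn'
              rw [mem_filter] at hn hn'
              exact hii (hn.2.symm.trans hn'.2)
          rwa [sum_insert (by rw [mem_range]; omega)] at h3
        exact_mod_cast h2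
      have h4 : ∑ i ∈ range J₀, (((J \ E).filter fun n => ∑ l, f n (ω l) = i).card : ℝ) ≥
          ∑ i ∈ range J₀, (∑ n ∈ J \ E, pw (m * r n) i - 3 * ε₁ * J.card) :=
        sum_le_sum fun i hi => by
          have := (abs_le.1 (hgood i (mem_range.1 hi))).1
          linarith
      rw [sum_sub_distrib, sum_comm, sum_const, card_range, nsmul_eq_mul] at h4
      have hlam : ∀ n ∈ J \ E, m * r n ≤ Λ' := by
        intro n hn
        have r1 := (hr n hn).1
        have h5 : m * r n ≤ B * Λ := by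
          calc m * r n ≤ m * (B * ρ) := mul_le_mul_of_nonneg_left r1 hmr.le
            _ = B * (m * ρ) := by ring
            _ ≤ B * Λ := mul_le_mul_of_nonneg_left hmρ (by linarith)
        rw [hΛ']
        linarith
      have h5 : ((J \ E).card : ℝ) * (1 - ε / 8) ≤ ∑ n ∈ J \ E, ∑ i ∈ range J₀, pw (m * r n) i := by
        rw [← nsmul_eq_mul, ← sum_const]
        exact sum_le_sum fun n hn => hJ₀ (m * r n) (mul_nonneg hmr.le (hr0 n (mem_sdiff.1 hn).1)) (hlam n hn)
      have h6 : ∑ n ∈ J \ E, pw (m * r n) j ≤ (J \ E).card * (ε / 8) := by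
        rw [← nsmul_eq_mul, ← sum_const]
        refine sum_le_sum fun n hn => ?_
        have hnn := mul_nonneg hmr.le (hr0 n (mem_sdiff.1 hn).1)
        have e1 := hJ₀ (m * r n) hnn (hlam n hn)
        have e2 := pw_sum_le hnn (insert j (range J₀))
        rw [sum_insert (by rw [mem_range]; omega)] at e2
        linarith
      have h7 : (J₀ : ℝ) * (3 * ε₁ * J.card) ≤ 3 / 16 * ε * J.card := by
        calc (J₀ : ℝ) * (3 * ε₁ * J.card) = J₀ * (3 * ε₁) * J.card := by ring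
          _ ≤ _ := mul_le_mul_of_nonneg_right hJε hJ0.le
      have h8 : ((J \ E).card : ℝ) * (ε / 8) ≤ ε / 8 * J.card := by
        rw [mul_comm]
        exact mul_le_mul_of_nonneg_left hJE (by positivity)
      have h9 : (0 : ℝ) ≤ (((J \ E).filter fun n => ∑ l, f n (ω l) = j).card : ℝ) := Nat.cast_nonneg _
      have h10 : (0 : ℝ) ≤ ∑ n ∈ J \ E, pw (m * r n) j :=
        sum_nonneg fun n hn => pw_nonneg (mul_nonneg hmr.le (hr0 n (mem_sdiff.1 hn).1)) j
      have h11 : 0 < ε * J.card := by positivity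
      rw [abs_le]
      constructor <;> nlinarith
  have hcard : ((univ.filter fun ω : Fin m → α => ¬ ∀ j : ℕ,
      |((J.filter fun n => ∑ l, f n (ω l) = j).card : ℝ) - ∑ n ∈ J, pw (m * r n) j| ≤ ε * J.card).card : ℝ) ≤
      ∑ j ∈ range J₀, ((univ.filter fun ω => ε₁ ≤ |F j ω - av (F j)|).card : ℝ) := by
    exact_mod_cast (card_le_card hsub).trans card_biUnion_le
  refine hcard.trans ((sum_le_sum fun j _ => hcon j).trans ?_)
  rw [sum_const, card_range, nsmul_eq_mul]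
  have h1 : 2 * (J₀ : ℝ) ≤ Real.exp (c / 2 / ρ) := by
    have h2 := Real.add_one_le_exp (c / 2 / ρ)
    rw [le_div_iff₀ (by positivity)] at hρρ
    have h3 : 2 * ((J₀ : ℝ) + 1) ≤ c / 2 / ρ := by
      rw [le_div_iff₀ hρ]
      linarith
    linarith
  calc (J₀ : ℝ) * (2 * Real.exp (-c / ρ) * (Fintype.card α : ℝ) ^ m) =
      (2 * J₀) * Real.exp (-c / ρ) * (Fintype.card α : ℝ) ^ m := by ring
    _ ≤ Real.exp (c / 2 / ρ) * Real.exp (-c / ρ) * (Fintype.card α : ℝ) ^ m := by gcongr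
    _ = Real.exp (-(c / 2) / ρ) * (Fintype.card α : ℝ) ^ m := by
        rw [← Real.exp_add]
        congr 2
        ring

end Pool.Agent.Run7.h524.MG
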