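import Pool.Agent.Run7.h524.MG.Pol
import Pool.Agent.Run7.h524.MG.Pois

/-!
# The Poisson law for the primes along almost all sparse subsequences of polynomial sequences
-/

set_option autoImplicit false

namespace Pool.Agent.Run7.h524.MG

open Finset Filter Polynomial
open Pool.Agent.N384.MQ (ev_log_pow ev_log_ge)
open Pool.Agent.Run7.h794.MK (cheb)
open Q282.CL (av)

open Classical in
/-- **The Poisson law along polynomial sequences.** -/
theorem pois_poly (f : ℤ[X]) (hf : 1 ≤ f.natDegree) (B : ℕ) (hB : 1 ≤ B) (Λ : ℝ) (hΛ : 0 < Λ) (ε : ℝ) (hε : 0 < ε) :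
    ∃ (C B₀ M₀ : ℕ) (δ : ℝ), 0 < δ ∧ ∀ E : ℕ, ∃ N₀ : ℕ, ∀ N : ℕ, N₀ ≤ N → ∀ z : ℕ,
    Real.log N ^ B₀ ≤ z → (z : ℝ) ≤ Real.log N ^ E → ∀ x : ℕ,
    (N : ℝ) ^ (1 / 3 : ℝ) * Real.log N ^ C ≤ (x : ℝ) ^ f.natDegree → (x : ℝ) ^ f.natDegree * Real.log N ^ C ≤ N →
    ∀ J : Finset ℕ, J ⊆ Icc 1 N → N ≤ B * J.card →
    ∀ m : ℕ, M₀ ≤ m → (m : ℝ) ≤ Λ * Real.log N →
    ((univ.filter fun k : Fin m → Fin x => ¬ ∀ j : ℕ,
      |((J.filter fun n : ℕ => (univ.filter fun l => ((n : ℤ) + f.eval (((k l : ℕ) : ℤ) + 1)).toNat.Prime).card = j).card : ℝ) -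
        ∑ n ∈ J, pw (m * (dens f n z / Real.log n)) j| ≤ ε * J.card).card : ℝ) ≤
      (N : ℝ) ^ (-δ) * (x : ℝ) ^ m := by
  have hBr : (1 : ℝ) ≤ B := by exact_mod_cast hB
  obtain ⟨w, c, Kd, hc, hKd, htyp⟩ := dens_typ f hf (ε / 16 / B) (by positivity)
  obtain ⟨B', hB'⟩ : ∃ B' : ℝ, B' = 2 * Kd + 4 * B := ⟨_, rfl⟩
  have hB'1 : 1 ≤ B' := by rw [hB']; linarith
  obtain ⟨η, δ, ρ₀, hη, hδ, hρ₀, M₀, hg⟩ := pois B' Λ hB'1 hΛ ε hε
  obtain ⟨C, B₀, hpr⟩ := prec_poly f hf 2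
  obtain ⟨X₀, hcheb⟩ := cheb
  refine ⟨C, B₀ + 1, M₀, δ, hδ, fun E => ?_⟩
  obtain ⟨N₁, hpr⟩ := hpr E
  obtain ⟨N₂, hN₂⟩ := eventually_atTop.1 ((ev_log_ge (8 + w + Λ / η + 16 * B / ε + 1 / ρ₀ + 6 * B / (ε / 16))).and
    ((ev_log_pow (2 * E + 1) 1).and ((ev_log_pow 8 1).and (eventually_ge_atTop 3))))
  refine ⟨N₁ + N₂ + X₀ + 3, fun N hN z hz1 hz2 x hx1 hx2 J hJ hJB m hm1 hm2 => ?_⟩
  obtain ⟨hbig, hpow, hpow8, hN3⟩ := hN₂ N (by omega)
  obtain ⟨L, hL⟩ : ∃ L, L = Real.log (N : ℝ) := ⟨_, rfl⟩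
  rw [← hL] at hbig hpow hpow8 hm2
  have t1 : 0 < Λ / η := by positivity
  have t2 : 0 < 16 * B / ε := by positivity
  have t3 : 0 < 1 / ρ₀ := by positivity
  have t4 : 0 < 6 * B / (ε / 16) := by positivity
  have t5 : (0 : ℝ) ≤ w := Nat.cast_nonneg _
  have hL8 : 8 ≤ L := by linarith
  have hL1 : 1 ≤ L := by linarith
  have hL0 : 0 < L := by linarith
  have hN0 : (0 : ℝ) < N := by exact_mod_cast (by omega : 0 < N)
  have hz1' : Real.log N ^ B₀ ≤ z := le_trans (pow_le_pow_right₀ (by rw [← hL]; exact hL1) (by omega)) hz1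
  obtain ⟨hx0, hfN, Ex, hEx1, hEx2⟩ := hpr N (by omega) z hz1' hz2 x hx1 hx2
  have hwz : w ≤ z := by
    have h1 : (w : ℝ) ≤ z := by
      refine le_trans ?_ hz1
      rw [← hL]
      calc (w : ℝ) ≤ L := by linarith
        _ = L ^ 1 := (pow_one L).symm
        _ ≤ L ^ (B₀ + 1) := pow_le_pow_right₀ hL1 (by omega)
    exact_mod_cast h1
  obtain ⟨E₀, hE₀1, hE₀2⟩ := htyp N z hwz (by
    have hz0 : (0 : ℝ) ≤ z := Nat.cast_nonneg _
    have h1 : (z : ℝ) ^ 2 ≤ L ^ (2 * E) := by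
      rw [mul_comm 2 E, pow_mul]
      exact pow_le_pow_left₀ hz0 (by rw [hL]; exact hz2) 2
    have h2 : 6 * B / (ε / 16) ≤ L := by linarith
    rw [div_le_iff₀ (by positivity)] at h2
    rw [div_mul_eq_mul_div, le_div_iff₀ (by positivity)]
    calc 6 * (z : ℝ) ^ 2 * B ≤ 6 * L ^ (2 * E) * B := by gcongr
      _ = (6 * B) * L ^ (2 * E) := by ring
      _ ≤ (L * (ε / 16)) * L ^ (2 * E) := by gcongr
      _ = ε / 16 * (1 * L ^ (2 * E + 1)) := by ring
      _ ≤ ε / 16 * N := by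
          apply mul_le_mul_of_nonneg_left _ (by positivity)
          exact hpow)
  have hJ0 : 0 < J.card := by
    rcases Nat.eq_zero_or_pos J.card with h | h
    · rw [h, mul_zero] at hJB
      omega
    · exact h
  have hJr : (N : ℝ) ≤ B * J.card := by exact_mod_cast hJB
  have hJc : (0 : ℝ) < J.card := by exact_mod_cast hJ0
  obtain ⟨ρ, hρ⟩ : ∃ ρ : ℝ, ρ = 1 / L := ⟨_, rfl⟩
  have hρ0 : 0 < ρ := by rw [hρ]; positivity
  have : Nonempty (Fin x) := ⟨⟨0, by omega⟩⟩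
  have hav : ∀ n : ℕ, av (fun k : Fin x => (((if ((n : ℤ) + f.eval (((k : ℕ) : ℤ) + 1)).toNat.Prime then 1 else 0 : ℕ)) : ℝ)) =
      (((Icc 1 x).filter fun k : ℕ => ((n : ℤ) + f.eval (k : ℤ)).toNat.Prime).card : ℝ) / x := by
    intro n
    unfold av
    rw [Fintype.card_fin]
    have e1 : ∑ k : Fin x, (((if ((n : ℤ) + f.eval (((k : ℕ) : ℤ) + 1)).toNat.Prime then 1 else 0 : ℕ)) : ℝ) =
        (((Icc 1 x).filter fun k : ℕ => ((n : ℤ) + f.eval (k : ℤ)).toNat.Prime).card : ℝ) := by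
      have e2 : Icc 1 x = Ico (0 + 1) (x + 1) := by
        ext k
        simp only [mem_Icc, mem_Ico]
        omega
      rw [← sum_boole, e2, ← sum_Ico_add' (fun k : ℕ => if ((n : ℤ) + f.eval (k : ℤ)).toNat.Prime then (1 : ℝ) else 0) 0 x 1,
        ← range_eq_Ico, Fin.sum_univ_eq_sum_range
          (fun k : ℕ => (((if ((n : ℤ) + f.eval ((k : ℤ) + 1)).toNat.Prime then 1 else 0 : ℕ)) : ℝ)) x]
      refine sum_congr rfl fun k _ => ?_
      push_cast
      rfl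
    rw [e1]
  have hres := hg (Fin x) J (E₀ ∪ Ex) (fun n k => if ((n : ℤ) + f.eval (((k : ℕ) : ℤ) + 1)).toNat.Prime then 1 else 0)
    (fun n => dens f n z / Real.log n) ρ m (card_pos.1 hJ0) (fun n a => by
    split_ifs
    · exact Or.inr rfl
    · exact Or.inl rfl) hρ0 (by
    rw [hρ, div_le_iff₀ hL0]
    have h1 : 1 / ρ₀ ≤ L := by linarith
    rw [div_le_iff₀ hρ₀] at h1
    linarith) hm1 (by
    rw [hρ, mul_one_div, div_le_iff₀ hL0]
    exact hm2) (by
    have h1 : ((J ∩ (E₀ ∪ Ex)).card : ℝ) ≤ E₀.card + Ex.card := by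
      exact_mod_cast (card_le_card inter_subset_right).trans (card_union_le _ _)
    refine h1.trans ((add_le_add hE₀1 hEx1).trans ?_)
    rw [← hL]
    have h2 : 16 * B / ε ≤ L := by linarith
    rw [div_le_iff₀ hε] at h2
    have h3 : (N : ℝ) / L ≤ ε / 16 * J.card := by
      rw [div_le_iff₀ hL0]
      calc (N : ℝ) ≤ B * J.card := hJr
        _ = (16 * B) / 16 * J.card := by ring
        _ ≤ (L * ε) / 16 * J.card := by gcongr
        _ = ε / 16 * J.card * L := by ring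
    have h4 : ε / 16 / B * N ≤ ε / 16 * J.card := by
      rw [div_mul_eq_mul_div, div_le_iff₀ (by positivity)]
      calc ε / 16 * N ≤ ε / 16 * (B * J.card) := mul_le_mul_of_nonneg_left hJr (by positivity)
        _ = ε / 16 * J.card * B := by ring
    linarith) (fun n hn => div_nonneg (dens_nonneg f n z) (Real.log_natCast_nonneg n)) (fun n hn => by
    rw [Finset.mem_sdiff, mem_union, not_or] at hn
    obtain ⟨hn1, hn2, hn3⟩ := hn
    obtain ⟨a1, a2⟩ := hEx2 n (hJ hn1) hn3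
    obtain ⟨b2, -⟩ := hE₀2 n (hJ hn1) hn2
    have hnI := mem_Icc.1 (hJ hn1)
    rw [← hL] at a1 a2
    have hloglo : L / 2 ≤ Real.log (n : ℝ) := by
      have h1 := Real.log_le_log (by positivity) a1
      rw [Real.log_div (by positivity) (by positivity), Real.log_pow, ← hL] at h1
      have h2 : Real.log L * 4 ≤ L := by
        have h3 := Real.log_le_log (by positivity) hpow8
        rw [Real.log_mul (by norm_num) (by positivity), Real.log_one, zero_add, Real.log_pow, ← hL] at h3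
        push_cast at h3
        have h4 : 0 ≤ Real.log L := Real.log_nonneg hL1
        linarith
      push_cast at h1
      linarith
    have hlog0 : 0 < Real.log (n : ℝ) := by linarith
    constructor
    · rw [div_le_iff₀ hlog0, hρ, hB', show (2 * Kd + 4 * (B : ℝ)) * (1 / L) * Real.log n =
        (2 * Kd + 4 * B) * (Real.log n / L) by ring]
      have h5 : 1 / 2 ≤ Real.log n / L := by
        rw [le_div_iff₀ hL0]
        linarith
      calc dens f n z ≤ Kd := b2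
        _ ≤ (2 * Kd + 4 * B) * (1 / 2) := by linarith
        _ ≤ _ := mul_le_mul_of_nonneg_left h5 (by positivity)
    · rw [hav]
      calc m * |(((Icc 1 x).filter fun k : ℕ => ((n : ℤ) + f.eval (k : ℤ)).toNat.Prime).card : ℝ) / x - dens f n z / Real.log n|
          ≤ (Λ * L) * (1 / L ^ 2) := mul_le_mul hm2 a2 (abs_nonneg _) (by positivity)
        _ = Λ / L := by field_simp
        _ ≤ η := by
          rw [div_le_iff₀ hL0]
          have h2 : Λ / η ≤ L := by linarith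
          rw [div_le_iff₀ hη] at h2
          linarith) (fun a => by
    have h1 : ∑ n ∈ J \ (E₀ ∪ Ex), (((if ((n : ℤ) + f.eval (((a : ℕ) : ℤ) + 1)).toNat.Prime then 1 else 0 : ℕ)) : ℝ) ≤
        ((J.filter fun n : ℕ => ((n : ℤ) + f.eval (((a : ℕ) : ℤ) + 1)).toNat.Prime).card : ℝ) := by
      have h2 : ∀ n : ℕ, (((if ((n : ℤ) + f.eval (((a : ℕ) : ℤ) + 1)).toNat.Prime then 1 else 0 : ℕ)) : ℝ) =
          if ((n : ℤ) + f.eval (((a : ℕ) : ℤ) + 1)).toNat.Prime then (1 : ℝ) else 0 := by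
        intro n
        split_ifs <;> simp
      simp only [h2]
      rw [sum_boole]
      exact_mod_cast card_le_card (filter_subset_filter _ sdiff_subset)
    refine h1.trans ((card_primes_int N X₀ hcheb (by omega) (by omega) (f.eval (((a : ℕ) : ℤ) + 1)) ?_ J hJ).trans ?_)
    · have h2 := hfN ((a : ℕ) + 1) (mem_Icc.2 ⟨by omega, by have := a.2; omega⟩)
      push_cast at h2
      exact h2
    · rw [← hL, hρ, hB', div_le_iff₀ hL0, show (2 * Kd + 4 * (B : ℝ)) * (1 / L) * J.card * L =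
        (2 * Kd + 4 * B) * J.card by field_simp]
      have h4 : 0 ≤ 2 * Kd * J.card := by positivity
      nlinarith)
  have hsum : ∀ (k : Fin m → Fin x) (n : ℕ), ∑ l, (if ((n : ℤ) + f.eval (((k l : ℕ) : ℤ) + 1)).toNat.Prime then 1 else 0) =
      (univ.filter fun l => ((n : ℤ) + f.eval (((k l : ℕ) : ℤ) + 1)).toNat.Prime).card := by
    intro k n
    rw [sum_boole]
    rfl
  simp only [hsum] at hres
  refine hres.trans (le_of_eq ?_)
  rw [Fintype.card_fin, hρ, Real.rpow_def_of_pos hN0, ← hL]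
  congr 2
  field_simp

end Pool.Agent.Run7.h524.MG
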