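import Pool.Agent.Run7.h524.MG.Prm
import Pool.Agent.Run7.h524.MG.Fin
import Pool.Agent.Run7.h524.MG.Pois2
import Pool.Agent.H357R2.SI.PairFinal
import Pool.Agent.X152.DS.Card
import Pool.Agent.Helper256.KM.Mertens

/-!
# Pairs of primes: the Poisson law
-/

set_option autoImplicit false

namespace Pool.Agent.Run7.h524.MG

open Finset Filter
open Pool.Agent.H373R2.T7 (lamI lamI_nonneg)
open Pool.Agent.Run7.h794.MK
open Pool.Agent.Run7.h931.MK (cnt det pp_inner card_markov card_small)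
open Pool.Agent.N384.MQ (Sm Flat dis sm_dis dis_nonneg dis_sum_real ev_log_pow ev_log_ge)
open Q282.CL (av)

/-- **the proportion of primes**, with a smaller exceptional set -/
theorem prec2 (h31 : S_T31) (A B : ℕ) : ∃ V C N₀ : ℕ, ∀ N : ℕ, N₀ ≤ N →
    ∀ (q : ℕ) (p : ℕ → ℝ), Msh V C 1 N q p → (q : ℝ) * Real.log N ^ C ≤ N → ∀ κ c : ℕ, 1 ≤ κ → κ ≤ B → c ≤ B * N →
    ∃ E : Finset ℕ, (E.card : ℝ) ≤ 3 * (N / Real.log N ^ 2) ∧ ∀ n : ℕ, 1 ≤ n → n ≤ N → n ∉ E → (n + c).Coprime κ →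
      (N : ℝ) / Real.log N ^ 2 ≤ ((n + c : ℕ) : ℝ) ∧
      |cnt q p κ c n - κ / (Nat.totient κ : ℝ) / Real.log ((n + c : ℕ) : ℝ)| ≤ 1 / Real.log N ^ A := by
  classical
  obtain ⟨V, C, N₀, h31'⟩ := h31 1 1 (2 * A + 8)
  obtain ⟨N₁, hev⟩ := eventually_atTop.1 (ev_prec A B)
  refine ⟨V, C + A + 7, max N₀ N₁, fun N hN q p hM hqC κ c hκ1 hκB hc => ?_⟩
  obtain ⟨e1, e2, e3, e4⟩ := hev N (le_trans (le_max_right _ _) hN)
  have hN1 : (1 : ℝ) ≤ N := by exact_mod_cast e4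
  have hB0 : (0 : ℝ) ≤ B := Nat.cast_nonneg _
  have hκr : (κ : ℝ) ≤ B := by exact_mod_cast hκB
  have hκ1r : (1 : ℝ) ≤ κ := by exact_mod_cast hκ1
  have hcr : (c : ℝ) ≤ B * N := by exact_mod_cast hc
  obtain ⟨hq1, hq2, hp0, hp1, hsm⟩ := hM
  have hL4 : 4 ≤ Real.log N := by linarith
  have hM' : Msh V C 1 N q p := ⟨le_trans (mul_le_mul_of_nonneg_left (pow_le_pow_right₀ (by linarith) (by omega)) (by positivity)) hq1,
    hq2, hp0, hp1, hsm⟩
  have h1 := h31' N (le_trans (le_max_left _ _) hN) q p hM' (κ : ℤ) (by exact_mod_cast (by omega : κ ≠ 0)) (by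
    rw [Int.natAbs_natCast, pow_one]
    linarith) (c : ℤ) (by
    rw [pow_one]
    push_cast
    rw [abs_of_nonneg (by positivity)]
    nlinarith)
  obtain ⟨L, hL⟩ : ∃ L, L = Real.log N := ⟨_, rfl⟩
  rw [← hL] at e1 e2 e3 h1 hqC hL4 ⊢
  have hL0 : 0 < L := by linarith
  obtain ⟨δ, hδ⟩ : ∃ δ : ℝ, δ = 1 / L ^ (A + 3) := ⟨_, rfl⟩
  have hδ0 : 0 < δ := by rw [hδ]; positivity
  have hδ1 : δ ≤ 1 := by
    rw [hδ, div_le_one (by positivity)]
    exact one_le_pow₀ (by linarith)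
  obtain ⟨X, hX⟩ : ∃ X : ℝ, X = 2 * ((B : ℝ) + 2) * N := ⟨_, rfl⟩
  rw [← hX] at e2
  have hX1 : 1 ≤ X := by rw [hX]; nlinarith
  -- the size of `κ q`
  have hqN : (q : ℝ) * L ^ (A + 7) ≤ N := by
    refine le_trans ?_ hqC
    apply mul_le_mul_of_nonneg_left _ (Nat.cast_nonneg _)
    exact pow_le_pow_right₀ (by linarith) (by omega)
  have hκq : (κ : ℝ) * q ≤ δ * (N / L ^ 2) := by
    have h2 : (κ : ℝ) ≤ L := by linarith
    rw [hδ, one_div, inv_mul_eq_div, div_div, le_div_iff₀ (by positivity)]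
    calc (κ : ℝ) * q * (L ^ 2 * L ^ (A + 3)) ≤ L * q * (L ^ 2 * L ^ (A + 3)) := by
          gcongr
      _ = q * L ^ (A + 6) := by ring
      _ ≤ q * L ^ (A + 7) := by
          apply mul_le_mul_of_nonneg_left _ (Nat.cast_nonneg _)
          exact pow_le_pow_right₀ (by linarith) (by omega)
      _ ≤ N := hqN
  have hNL : (N : ℝ) / L ^ 2 ≤ N := div_le_self (by linarith) (one_le_pow₀ (by linarith))
  have hNL0 : 0 < (N : ℝ) / L ^ 2 := by positivity
  have hκqN : (κ : ℝ) * q ≤ N := by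
    refine hκq.trans ?_
    nlinarith
  have hup : ∀ n ∈ Icc 1 N, ∀ v ∈ range q, (((n : ℤ) + ((c : ℤ) + (κ : ℤ) * (v : ℕ)) : ℤ) : ℝ) ≤ X := by
    intro n hn v hv
    rw [mem_Icc] at hn
    rw [mem_range] at hv
    have h3 : (n : ℝ) ≤ N := by exact_mod_cast hn.2
    have h4 : (κ : ℝ) * v ≤ κ * q := mul_le_mul_of_nonneg_left (by exact_mod_cast hv.le) (by linarith)
    push_cast
    rw [hX]
    nlinarith
  -- the bad sets
  obtain ⟨F, hF⟩ : ∃ F : ℕ → ℝ, F = fun n : ℕ => ∑ v ∈ range q, p v *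
      (lamI ((n : ℤ) + ((c : ℤ) + (κ : ℤ) * (v : ℕ))) - mkI (κ : ℤ).natAbs ((n : ℤ) + ((c : ℤ) + (κ : ℤ) * (v : ℕ)))) := ⟨_, rfl⟩
  obtain ⟨G, hG⟩ : ∃ G : ℕ → ℝ, G = fun n : ℕ => ∑ v ∈ range q, p v *
      (if ((n : ℤ) + ((c : ℤ) + (κ : ℤ) * (v : ℕ))).toNat.Prime then 0 else lamI ((n : ℤ) + ((c : ℤ) + (κ : ℤ) * (v : ℕ)))) := ⟨_, rfl⟩
  have hFs : ∑ n ∈ Icc 1 N, F n ^ 2 ≤ N / L ^ (2 * A + 8) := by rw [hF]; exact h1
  have hG0 : ∀ n, 0 ≤ G n := by
    intro n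
    rw [hG]
    apply sum_nonneg
    intro v _
    apply mul_nonneg (hp0 v)
    split_ifs
    · exact le_rfl
    · exact lamI_nonneg _
  have hGs : ∑ n ∈ Icc 1 N, G n ≤ 2 * √X * Real.log X := by
    rw [hG]
    rw [sum_comm]
    calc ∑ v ∈ range q, ∑ n ∈ Icc 1 N, p v *
        (if ((n : ℤ) + ((c : ℤ) + (κ : ℤ) * (v : ℕ))).toNat.Prime then 0 else lamI ((n : ℤ) + ((c : ℤ) + (κ : ℤ) * (v : ℕ)))) ≤
        ∑ v ∈ range q, p v * (2 * √X * Real.log X) := by
          apply sum_le_sum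
          intro v hv
          rw [← mul_sum]
          exact mul_le_mul_of_nonneg_left (pp_inner N _ X hX1 fun n hn => hup n hn v hv) (hp0 v)
      _ = 2 * √X * Real.log X := by rw [← sum_mul, hp1, one_mul]
  obtain ⟨B1, hB1⟩ : ∃ B : Finset ℕ, B = (Icc 1 N).filter (fun n => δ ^ 2 < F n ^ 2) := ⟨_, rfl⟩
  obtain ⟨B2, hB2⟩ : ∃ B : Finset ℕ, B = (Icc 1 N).filter (fun n => δ < G n) := ⟨_, rfl⟩
  obtain ⟨B3, hB3⟩ : ∃ B : Finset ℕ, B = (Icc 1 N).filter
      (fun n : ℕ => 0 < (n : ℤ) + c ∧ (((n : ℤ) + c : ℤ) : ℝ) < N / L ^ 2) := ⟨_, rfl⟩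
  have c1 : (B1.card : ℝ) ≤ N / L ^ 2 := by
    rw [hB1]
    refine (card_markov _ (fun n => F n ^ 2) (fun i _ => sq_nonneg _) (δ ^ 2) _ (by positivity) hFs).trans (le_of_eq ?_)
    rw [hδ, show 2 * A + 8 = (A + 3) * 2 + 2 by ring, pow_add, pow_mul]
    field_simp
  have c2 : (B2.card : ℝ) ≤ N / L ^ 2 := by
    rw [hB2]
    refine (card_markov _ G (fun i _ => hG0 i) δ _ hδ0 hGs).trans (le_trans (le_of_eq ?_) e2)
    rw [hδ, div_div_eq_mul_div, div_one]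
  have c3 : (B3.card : ℝ) ≤ N / L ^ 2 := by
    rw [hB3]
    exact card_small N c _ (by positivity)
  refine ⟨B1 ∪ B2 ∪ B3, ?_, fun n hn1 hnN hnE hcop => ?_⟩
  · have h2 : ((B1 ∪ B2 ∪ B3).card : ℝ) ≤ B1.card + B2.card + B3.card := by
      exact_mod_cast (card_union_le _ _).trans (Nat.add_le_add_right (card_union_le _ _) _)
    linarith
  · have hnI : n ∈ Icc 1 N := mem_Icc.2 ⟨hn1, hnN⟩
    rw [mem_union, mem_union, not_or, not_or] at hnE
    obtain ⟨⟨n1, n2⟩, n3⟩ := hnE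
    rw [hB1, mem_filter, not_and] at n1
    rw [hB2, mem_filter, not_and] at n2
    rw [hB3, mem_filter, not_and] at n3
    have n1' := n1 hnI
    have n2' := n2 hnI
    have n3' := n3 hnI
    rw [not_and] at n3'
    have n3'' := n3' (by omega)
    rw [not_lt] at n1' n2' n3''
    have hFb : |F n| ≤ δ := abs_le_of_sq_le_sq n1' hδ0.le
    obtain ⟨R, hR⟩ : ∃ R : ℝ, R = ((n + c : ℕ) : ℝ) := ⟨_, rfl⟩
    have hRN : (N : ℝ) / L ^ 2 ≤ R := by rw [hR]; push_cast at n3'' ⊢; exact n3''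
    rw [← hR]
    refine ⟨hRN, ?_⟩
    have hRe : Real.exp 1 ≤ R := e3.trans hRN
    have hR1 : 1 < R := lt_of_lt_of_le (by have := Real.add_one_lt_exp (show (1 : ℝ) ≠ 0 by norm_num); linarith) hRe
    have hR0 : 0 < R := by linarith
    have hℓ : 1 ≤ Real.log R := by rw [Real.le_log_iff_exp_le hR0]; exact hRe
    obtain ⟨X', hX'⟩ : ∃ X' : ℝ, X' = R + κ * q := ⟨_, rfl⟩
    have hlow : ∀ v ∈ range q, R ≤ (((n : ℤ) + ((c : ℤ) + (κ : ℤ) * (v : ℕ)) : ℤ) : ℝ) ∧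
        (((n : ℤ) + ((c : ℤ) + (κ : ℤ) * (v : ℕ)) : ℤ) : ℝ) ≤ X' := by
      intro v hv
      rw [mem_range] at hv
      have h4 : (κ : ℝ) * v ≤ κ * q := mul_le_mul_of_nonneg_left (by exact_mod_cast hv.le) (by linarith)
      have h5 : 0 ≤ (κ : ℝ) * v := by positivity
      rw [hX', hR]
      push_cast
      constructor <;> linarith
    obtain ⟨d1, d2⟩ := det q p hp0 κ c n R X' hR1 hlow
    obtain ⟨g, hg⟩ : ∃ g : ℝ, g = κ / (Nat.totient κ : ℝ) := ⟨_, rfl⟩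
    have hφ : (1 : ℝ) ≤ Nat.totient κ := by exact_mod_cast Nat.totient_pos.2 hκ1
    have hg0 : 0 ≤ g := by rw [hg]; positivity
    have hgB : g ≤ B := by
      rw [hg]
      exact (div_le_self (by linarith) hφ).trans hκr
    have hmk : ∀ v ∈ range q, mkI (κ : ℤ).natAbs ((n : ℤ) + ((c : ℤ) + (κ : ℤ) * (v : ℕ))) = g := by
      intro v hv
      have h30 : (0 : ℤ) ≤ (c : ℤ) + (κ : ℤ) * (v : ℕ) := by positivity
      have h31 : (1 : ℤ) ≤ (n : ℤ) := by exact_mod_cast hn1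
      have h3 : 1 ≤ (n : ℤ) + ((c : ℤ) + (κ : ℤ) * (v : ℕ)) := by linarith
      rw [Int.natAbs_natCast]
      unfold mkI Pool.Agent.Run7.h794.MK.mk
      have h5 : ((n : ℤ) + ((c : ℤ) + (κ : ℤ) * (v : ℕ))).toNat = n + c + κ * v := by
        have : (n : ℤ) + ((c : ℤ) + (κ : ℤ) * (v : ℕ)) = ((n + c + κ * v : ℕ) : ℤ) := by push_cast; ring
        rw [this, Int.toNat_natCast]
      rw [if_pos h3, h5, if_pos, hg]
      exact (Nat.coprime_add_mul_left_left _ _ _).2 hcop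
    have hFn : F n = ∑ v ∈ range q, p v * lamI ((n : ℤ) + ((c : ℤ) + (κ : ℤ) * (v : ℕ))) - g := by
      rw [hF]
      have h2 : ∑ v ∈ range q, p v * (lamI ((n : ℤ) + ((c : ℤ) + (κ : ℤ) * (v : ℕ))) - mkI (κ : ℤ).natAbs ((n : ℤ) + ((c : ℤ) + (κ : ℤ) * (v : ℕ)))) =
          ∑ v ∈ range q, (p v * lamI ((n : ℤ) + ((c : ℤ) + (κ : ℤ) * (v : ℕ))) - p v * g) := by
        refine sum_congr rfl fun v hv => ?_
        rw [hmk v hv]
        ring
      simp only
      rw [h2, sum_sub_distrib, ← sum_mul, hp1, one_mul]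
    have hGn : G n = ∑ v ∈ range q, p v *
      (if ((n : ℤ) + ((c : ℤ) + (κ : ℤ) * (v : ℕ))).toNat.Prime then 0 else lamI ((n : ℤ) + ((c : ℤ) + (κ : ℤ) * (v : ℕ)))) := by rw [hG]
    rw [← hGn] at d2
    obtain ⟨S, hS⟩ : ∃ S : ℝ, S = ∑ v ∈ range q, p v * lamI ((n : ℤ) + ((c : ℤ) + (κ : ℤ) * (v : ℕ))) := ⟨_, rfl⟩
    rw [← hS] at d1 d2 hFn
    obtain ⟨x, hx⟩ : ∃ x : ℝ, x = cnt q p κ c n := ⟨_, rfl⟩
    rw [← hx] at d1 d2 ⊢
    rw [← hg]
    have hx0 : 0 ≤ x := by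
      rw [hx]
      unfold cnt
      apply sum_nonneg
      intro v _
      apply mul_nonneg (hp0 v)
      split_ifs <;> norm_num
    obtain ⟨ℓ, hℓd⟩ : ∃ ℓ, ℓ = Real.log R := ⟨_, rfl⟩
    rw [← hℓd] at hℓ d1 ⊢
    have hℓ0 : 0 < ℓ := by linarith
    have hXℓ : Real.log X' ≤ ℓ + δ := by
      have h2 : X' = R * (1 + κ * q / R) := by
        rw [hX']
        field_simp
      have h3 : 0 ≤ κ * q / R := by positivity
      rw [h2, Real.log_mul hR0.ne' (by positivity), ← hℓd]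
      have h4 := Real.log_le_sub_one_of_pos (show 0 < 1 + κ * q / R by positivity)
      have h5 : κ * q / R ≤ δ := by
        rw [div_le_iff₀ hR0]
        exact hκq.trans (mul_le_mul_of_nonneg_left hRN hδ0.le)
      linarith
    have hFb' := abs_le.1 hFb
    have hfin : (2 + g) * δ ≤ 1 / L ^ A := by
      rw [hδ, pow_add, mul_one_div, div_le_div_iff₀ (by positivity) (by positivity), one_mul]
      have h2 : 2 + g ≤ L ^ 3 := by nlinarith [sq_nonneg L, pow_pos hL0 3, mul_nonneg hL0.le hL0.le]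
      calc (2 + g) * L ^ A ≤ L ^ 3 * L ^ A := mul_le_mul_of_nonneg_right h2 (by positivity)
        _ = L ^ A * L ^ 3 := mul_comm _ _
    refine le_trans ?_ hfin
    rw [abs_le]
    constructor
    · -- lower bound
      have h2 : g - 2 * δ ≤ (ℓ + δ) * x := by
        calc g - 2 * δ ≤ S - G n := by linarith
          _ ≤ Real.log X' * x := by linarith
          _ ≤ (ℓ + δ) * x := mul_le_mul_of_nonneg_right hXℓ hx0
      have h3 : ℓ * (g / ℓ - (2 + g) * δ) ≤ ℓ * x := by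
        have h4 : ℓ * (g / ℓ) = g := by field_simp
        have h5 : x * ℓ ≤ g + δ := by linarith
        have h6 : x ≤ g + δ := by nlinarith
        rw [mul_sub, h4]
        nlinarith [mul_nonneg hδ0.le hg0, mul_nonneg hδ0.le hδ0.le, mul_nonneg (mul_nonneg hδ0.le hg0) (by linarith : (0 : ℝ) ≤ ℓ - 1),
          mul_nonneg hδ0.le (by linarith : (0 : ℝ) ≤ ℓ - 1)]
      have h7 := le_of_mul_le_mul_left h3 hℓ0
      linarith
    · have h5 : x * ℓ ≤ g + δ := by linarith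
      have h6 : x ≤ (g + δ) / ℓ := by rw [le_div_iff₀ hℓ0]; exact h5
      have h7 : (g + δ) / ℓ = g / ℓ + δ / ℓ := add_div _ _ _
      have h8 : δ / ℓ ≤ δ := div_le_self hδ0.le hℓ
      have h9 : 0 ≤ g * δ := mul_nonneg hg0 hδ0.le
      linarith

/-! ### the sum of the inverse divisors -/

lemma one_sub_ge {p : ℕ} (hp : p.Prime) : Real.exp (-(2 * (1 / (p : ℝ)))) ≤ 1 - (1 : ℝ) / p := by
  have h2 : (2 : ℝ) ≤ p := by exact_mod_cast hp.two_le
  have h3 : (1 : ℝ) / p ≤ 1 / 2 := one_div_le_one_div_of_le (by norm_num) h2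
  have h4 : 0 ≤ (1 : ℝ) / p := by positivity
  obtain ⟨u, hu⟩ : ∃ u : ℝ, u = 1 / (p : ℝ) := ⟨_, rfl⟩
  rw [← hu] at h3 h4 ⊢
  rw [Real.exp_neg]
  have h5 : 1 + 2 * u ≤ Real.exp (2 * u) := by
    have := Real.add_one_le_exp (2 * u)
    linarith
  have h6 : (Real.exp (2 * u))⁻¹ ≤ (1 + 2 * u)⁻¹ := inv_anti₀ (by linarith) h5
  refine h6.trans ?_
  rw [inv_le_iff_one_le_mul₀ (by linarith)]
  nlinarith

lemma totient_ge (n : ℕ) : Real.exp (-(2 * ∑ p ∈ n.primeFactors, 1 / (p : ℝ))) * n ≤ (Nat.totient n : ℝ) := by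
  have h1 : (Nat.totient n : ℝ) = n * ∏ p ∈ n.primeFactors, (1 - 1 / (p : ℝ)) := by
    have h2 := Nat.totient_eq_mul_prod_factors n
    have h3 : ((Nat.totient n : ℚ) : ℝ) = ((n * ∏ p ∈ n.primeFactors, (1 - (p : ℚ)⁻¹) : ℚ) : ℝ) := by rw [h2]
    push_cast at h3
    rw [h3]
    congr 1
    refine prod_congr rfl fun p _ => ?_
    rw [one_div]
  rw [h1, mul_comm]
  apply mul_le_mul_of_nonneg_left _ (Nat.cast_nonneg n)
  rw [mul_sum, ← sum_neg_distrib, Real.exp_sum]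
  exact prod_le_prod (fun p _ => (Real.exp_pos _).le) fun p hp => one_sub_ge (Nat.prime_of_mem_primeFactors hp)

/-- `∑_{d ∣ h} 1 / d ≤ K log ^ 2 y` for `h ≤ exp y` -/
lemma sg_le : ∃ K : ℝ, 1 ≤ K ∧ ∀ y : ℕ, 3 ≤ y → ∀ h : ℕ, 1 ≤ h → (h : ℝ) ≤ Real.exp y →
    Pool.Agent.H357R2.SI.sg h ≤ K * Real.log y ^ 2 := by
  obtain ⟨C, hC⟩ := Pool.Agent.Helper256.KM.mertens_inv
  refine ⟨Real.exp (2 * (|C| + 2)), Real.one_le_exp (by positivity), fun y hy h hh hhy => ?_⟩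
  have hy0 : (0 : ℝ) < y := by exact_mod_cast (by omega : 0 < y)
  have hy3 : (3 : ℝ) ≤ y := by exact_mod_cast hy
  have hly : 1 ≤ Real.log y := by
    rw [Real.le_log_iff_exp_le hy0]
    have := Real.exp_one_lt_d9
    linarith
  have hsum : ∑ p ∈ h.primeFactors, 1 / (p : ℝ) ≤ Real.log (Real.log y) + (|C| + 2) := by
    rw [← sum_filter_add_sum_filter_not h.primeFactors (fun p => p ≤ y)]
    have h1 : ∑ p ∈ h.primeFactors.filter (fun p => p ≤ y), 1 / (p : ℝ) ≤ Real.log (Real.log y) + |C| := by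
      calc ∑ p ∈ h.primeFactors.filter (fun p => p ≤ y), 1 / (p : ℝ) ≤ ∑ p ∈ (Icc 1 y).filter Nat.Prime, (1 : ℝ) / p := by
            apply sum_le_sum_of_subset_of_nonneg
            · intro p hp
              rw [mem_filter] at hp
              have h2 := Nat.prime_of_mem_primeFactors hp.1
              rw [mem_filter, mem_Icc]
              exact ⟨⟨h2.one_le, hp.2⟩, h2⟩
            · intro p _ _
              positivity
        _ ≤ Real.log (Real.log y) + C := by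
            have := (abs_le.1 (hC y hy)).2
            linarith
        _ ≤ Real.log (Real.log y) + |C| := by linarith [le_abs_self C]
    have h2 : ∑ p ∈ h.primeFactors.filter (fun p => ¬ p ≤ y), 1 / (p : ℝ) ≤ 2 := by
      have h3 : (h.primeFactors.card : ℝ) * Real.log 2 ≤ y := by
        have h4 : 2 ^ h.primeFactors.card ≤ h := by
          calc 2 ^ h.primeFactors.card = ∏ _p ∈ h.primeFactors, 2 := by rw [prod_const]
            _ ≤ ∏ p ∈ h.primeFactors, p := prod_le_prod' fun p hp => (Nat.prime_of_mem_primeFactors hp).two_le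
            _ ≤ h := Nat.le_of_dvd (by omega) (Nat.prod_primeFactors_dvd h)
        have h5 : ((2 : ℝ)) ^ h.primeFactors.card ≤ Real.exp y := le_trans (by exact_mod_cast h4) hhy
        have h6 := Real.log_le_log (by positivity) h5
        rwa [Real.log_pow, Real.log_exp] at h6
      have hl2 := Real.log_two_gt_d9
      have h7 : (h.primeFactors.card : ℝ) ≤ 2 * y := by
        have h8 : (0 : ℝ) ≤ h.primeFactors.card := Nat.cast_nonneg _
        nlinarith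
      calc ∑ p ∈ h.primeFactors.filter (fun p => ¬ p ≤ y), 1 / (p : ℝ) ≤ ∑ _p ∈ h.primeFactors.filter (fun p => ¬ p ≤ y), 1 / (y : ℝ) := by
            apply sum_le_sum
            intro p hp
            rw [mem_filter, not_le] at hp
            apply one_div_le_one_div_of_le hy0
            exact_mod_cast hp.2.le
        _ = (h.primeFactors.filter (fun p => ¬ p ≤ y)).card / y := by
            rw [sum_const, nsmul_eq_mul, mul_one_div]
        _ ≤ (2 * y) / y := by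
            apply div_le_div_of_nonneg_right _ hy0.le
            refine le_trans ?_ h7
            exact_mod_cast card_le_card (filter_subset _ _)
        _ = 2 := by field_simp
    linarith
  have hkey : Real.exp (-(2 * (Real.log (Real.log y) + (|C| + 2)))) * h ≤ (Nat.totient h : ℝ) := by
    refine le_trans ?_ (totient_ge h)
    apply mul_le_mul_of_nonneg_right _ (Nat.cast_nonneg _)
    apply Real.exp_le_exp.2
    linarith
  have h1 := Pool.Agent.X152.DS.sum_inv_divisors_le _ (Real.exp_pos _) h (by omega) hkey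
  unfold Pool.Agent.H357R2.SI.sg
  refine h1.trans (le_of_eq ?_)
  rw [one_div, ← Real.exp_neg, neg_neg, mul_add, Real.exp_add, mul_comm]
  congr 1
  rw [show 2 * Real.log (Real.log y) = Real.log (Real.log y) + Real.log (Real.log y) by ring, Real.exp_add,
    Real.exp_log (by linarith)]
  ring

/-- an upper bound for pairs, with a fixed constant -/
lemma pairs_le (B : ℕ) : ∃ K : ℝ, 1 ≤ K ∧ ∃ N₀ : ℕ, ∀ N : ℕ, N₀ ≤ N → ∀ h : ℕ, 1 ≤ h → h ≤ 2 * B * N →
    (((Icc 1 N).filter fun n => n.Prime ∧ (n + h).Prime).card : ℝ) ≤ K * Real.log (Real.log N) ^ 4 * N / Real.log N ^ 2 := by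
  obtain ⟨C, hC, u0, hp⟩ := Pool.Agent.H357R2.SI.pair_sieve
  obtain ⟨K, hK, hsg⟩ := sg_le
  obtain ⟨N₂, hN₂⟩ := eventually_atTop.1 ((ev_log_ge (9 + Real.log (2 * B + 1))).and (eventually_ge_atTop 3))
  refine ⟨16 * C * K ^ 2, by nlinarith [sq_nonneg (K - 1)], u0 + N₂, fun N hN h hh1 hh2 => ?_⟩
  obtain ⟨hbig, hN3⟩ := hN₂ N (by omega)
  have t1 : 0 ≤ Real.log (2 * (B : ℝ) + 1) := Real.log_nonneg (by linarith [Nat.cast_nonneg (α := ℝ) B])
  obtain ⟨L, hL⟩ : ∃ L, L = Real.log (N : ℝ) := ⟨_, rfl⟩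
  rw [← hL] at hbig ⊢
  have hL9 : 9 ≤ L := by linarith
  have hN0 : (0 : ℝ) < N := by exact_mod_cast (by omega : 0 < N)
  obtain ⟨y, hy⟩ : ∃ y : ℕ, y = ⌈2 * L⌉₊ := ⟨_, rfl⟩
  have hy1 : 2 * L ≤ y := by rw [hy]; exact Nat.le_ceil _
  have hy2 : (y : ℝ) ≤ L ^ 2 := by
    have := (Nat.ceil_lt_add_one (by linarith : 0 ≤ 2 * L)).le
    rw [hy]
    nlinarith
  have hy3 : 3 ≤ y := by
    have : (3 : ℝ) ≤ y := by linarith
    exact_mod_cast this
  have hhy : (h : ℝ) ≤ Real.exp y := by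
    have h1 : (h : ℝ) ≤ (2 * B + 1) * N := by
      have h2 : (h : ℝ) ≤ 2 * B * N := by exact_mod_cast hh2
      linarith
    refine h1.trans ?_
    rw [← Real.exp_log (by positivity : (0 : ℝ) < (2 * B + 1) * N)]
    apply Real.exp_le_exp.2
    rw [Real.log_mul (by positivity) hN0.ne', ← hL]
    linarith
  have h1 := hsg y hy3 h hh1 hhy
  have h2 := hp h 0 N (by omega) (by omega)
  have hly : Real.log y ≤ 2 * Real.log L := by
    have h3 := Real.log_le_log (by linarith) hy2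
    rwa [Real.log_pow] at h3
  have hly0 : 0 ≤ Real.log y := Real.log_nonneg (by linarith)
  have hsg0 : 0 ≤ Pool.Agent.H357R2.SI.sg h := by
    unfold Pool.Agent.H357R2.SI.sg
    exact sum_nonneg fun d _ => by positivity
  have h4 : Pool.Agent.H357R2.SI.sg h ^ 2 ≤ 16 * K ^ 2 * Real.log L ^ 4 := by
    have h5 : Pool.Agent.H357R2.SI.sg h ≤ K * (2 * Real.log L) ^ 2 := by
      refine h1.trans ?_
      gcongr
    calc Pool.Agent.H357R2.SI.sg h ^ 2 ≤ (K * (2 * Real.log L) ^ 2) ^ 2 := pow_le_pow_left₀ hsg0 h5 2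
      _ = 16 * K ^ 2 * Real.log L ^ 4 := by ring
  rw [zero_add] at h2
  have e : (Ioc 0 N).filter (fun n => n.Prime ∧ (n + h).Prime) = (Icc 1 N).filter fun n => n.Prime ∧ (n + h).Prime := by
    ext n
    simp only [mem_filter, mem_Ioc, mem_Icc]
    constructor <;> (rintro ⟨⟨a, b⟩, c⟩; exact ⟨⟨by omega, b⟩, c⟩)
  rw [e, ← hL] at h2
  refine h2.trans ?_
  apply div_le_div_of_nonneg_right _ (by positivity)
  apply mul_le_mul_of_nonneg_right _ hN0.le
  calc C * Pool.Agent.H357R2.SI.sg h ^ 2 ≤ C * (16 * K ^ 2 * Real.log L ^ 4) := mul_le_mul_of_nonneg_left h4 (by linarith)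
    _ = 16 * C * K ^ 2 * Real.log L ^ 4 := by ring

end Pool.Agent.Run7.h524.MG
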