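import Pool.Agent.Run7.h524.MG.Prs

/-!
# Pairs of primes: the Poisson law
-/

set_option autoImplicit false

namespace Pool.Agent.Run7.h524.MG

open Finset Filter
open Pool.Agent.Run7.h794.MK
open Pool.Agent.Run7.h931.MK (cnt)
open Pool.Agent.N384.MQ (Sm Flat dis sm_dis dis_nonneg dis_sum_real ev_log_pow ev_log_ge)
open Q282.CL (av)

/-- a fourth power of a logarithm is small -/
lemma ev_log4 (K : ℝ) (hK : 1 ≤ K) : ∀ᶠ N : ℕ in atTop, K * Real.log (Real.log N) ^ 4 ≤ Real.log N ^ (1 / 8 : ℝ) := by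
  have h1 := (isLittleO_log_rpow_atTop (by norm_num : (0 : ℝ) < 1 / 32)).bound (by positivity : (0 : ℝ) < 1 / K)
  have h2 : Tendsto (fun N : ℕ => Real.log (N : ℝ)) atTop atTop := Real.tendsto_log_atTop.comp tendsto_natCast_atTop_atTop
  filter_upwards [h2.eventually h1, ev_log_ge 3] with N h3 h4
  obtain ⟨L, hL⟩ : ∃ L, L = Real.log (N : ℝ) := ⟨_, rfl⟩
  rw [← hL] at h3 h4 ⊢
  have hL0 : 0 < L := by linarith
  have hl0 : 0 ≤ Real.log L := Real.log_nonneg (by linarith)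
  rw [Real.norm_of_nonneg hl0, Real.norm_of_nonneg (by positivity)] at h3
  have hK4 : K * (1 / K) ^ 4 ≤ 1 := by
    have h5 : 1 / K ≤ 1 := by rw [div_le_one (by linarith)]; exact hK
    have h6 : (1 / K) ^ 3 ≤ 1 := pow_le_one₀ (by positivity) h5
    calc K * (1 / K) ^ 4 = (K * (1 / K)) * (1 / K) ^ 3 := by ring
      _ = (1 / K) ^ 3 := by rw [mul_one_div_cancel (by linarith), one_mul]
      _ ≤ 1 := h6
  calc K * Real.log L ^ 4 ≤ K * (1 / K * L ^ (1 / 32 : ℝ)) ^ 4 := by gcongr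
    _ = (K * (1 / K) ^ 4) * (L ^ (1 / 32 : ℝ)) ^ 4 := by ring
    _ ≤ 1 * (L ^ (1 / 32 : ℝ)) ^ 4 := mul_le_mul_of_nonneg_right hK4 (by positivity)
    _ = L ^ (1 / 8 : ℝ) := by
        rw [one_mul, ← Real.rpow_natCast, ← Real.rpow_mul hL0.le]
        norm_num

open Classical in
/-- **The Poisson law for pairs of primes.** -/
theorem pois_pairs (h31 : S_T31) (B : ℕ) (hB : 1 ≤ B) (Λ : ℝ) (hΛ : 0 < Λ) (ε : ℝ) (hε : 0 < ε) : ∃ V C M₀ N₀ : ℕ, ∀ N : ℕ, N₀ ≤ N →
    ∀ (q : ℕ) [NeZero q], (N : ℝ) ^ (1 / 3 : ℝ) * Real.log N ^ C ≤ q → (q : ℝ) * Real.log N ^ C ≤ N →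
    ∀ {ι : Type} (s : Finset ι) (y : ι → ZMod q), s.Nonempty → Flat q (1 / Real.log N ^ V) s y →
    ∀ κ c : ℕ, 1 ≤ κ → κ ≤ B → 1 ≤ c → c ≤ B * N → ∀ J : Finset ℕ, J ⊆ (Icc 1 N).filter Nat.Prime → (N : ℝ) ≤ B * Real.log N * J.card →
    (∀ n ∈ J, (n + c).Coprime κ) → ∀ m : ℕ, M₀ ≤ m → (m : ℝ) ≤ Λ * Real.log N →
    ((univ.filter fun ω : Fin m → s => ¬ ∀ j : ℕ,
      |((J.filter fun n => (univ.filter fun l => (n + c + κ * (y (ω l)).val).Prime).card = j).card : ℝ) -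
        ∑ n ∈ J, pw (m * rr κ c n) j| ≤ ε * J.card).card : ℝ) ≤
      Real.exp (-√(Real.log N)) * (s.card : ℝ) ^ m := by
  obtain ⟨B', hB'⟩ : ∃ B' : ℝ, B' = 2 * (B : ℝ) := ⟨_, rfl⟩
  have hBr : (1 : ℝ) ≤ B := by exact_mod_cast hB
  have hB'1 : 1 ≤ B' := by rw [hB']; linarith
  obtain ⟨η, δ, ρ₀, hη, hδ, hρ₀, M₀, hg⟩ := pois2 B' Λ hB'1 hΛ ε hε
  obtain ⟨V, C, N₁, hpr⟩ := prec2 h31 2 B
  obtain ⟨K, hK, N₃, hpairs⟩ := pairs_le B
  have hll : ∀ᶠ N : ℕ in atTop, 4 * Real.log (Real.log N) ≤ Real.log N := by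
    have h := Pool.Agent.Run7.h931.MK.ev_sub 4 0 1 one_pos
    filter_upwards [h] with N hN
    push_cast at hN
    linarith
  obtain ⟨N₂, hN₂⟩ := eventually_atTop.1 ((ev_log_ge (4 + Real.log ((B : ℝ) + 1) + Λ / η + 24 * B / ε + (1 / ρ₀) ^ 2 + (1 / δ) ^ 4)).and
    (hll.and ((ev_log4 (B * K) (by nlinarith)).and (eventually_ge_atTop 3))))
  refine ⟨V, C, M₀, N₁ + N₂ + N₃ + 3, fun N hN q _ hq1 hq2 ι s y hs hf κ c hκ hκB hc1 hc J hJ hJB hcop m hm1 hm2 => ?_⟩
  obtain ⟨hbig, hll', hlog4, hN3⟩ := hN₂ N (by omega)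
  have hN0 : (0 : ℝ) < N := by exact_mod_cast (by omega : 0 < N)
  have t1 : 0 ≤ Real.log ((B : ℝ) + 1) := Real.log_nonneg (by linarith)
  have t2 : 0 < Λ / η := by positivity
  have t3 : 0 < 24 * B / ε := by positivity
  have t4 : 0 < (1 / ρ₀) ^ 2 := by positivity
  have t5 : 0 < (1 / δ) ^ 4 := by positivity
  obtain ⟨L, hL⟩ : ∃ L, L = Real.log (N : ℝ) := ⟨_, rfl⟩
  rw [← hL] at hJB hm2 hlog4 ⊢
  have hL4 : 4 ≤ L := by rw [hL]; linarith
  have hL0 : 0 < L := by linarith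
  have hL1 : 1 ≤ L := by linarith
  have : Nonempty s := hs.to_subtype
  have hJ0 : 0 < J.card := by
    rcases Nat.eq_zero_or_pos J.card with h | h
    · rw [h, Nat.cast_zero, mul_zero] at hJB
      linarith
    · exact h
  have hJr0 : (0 : ℝ) < J.card := by exact_mod_cast hJ0
  have hJI : ∀ n ∈ J, (1 ≤ n ∧ n ≤ N) ∧ n.Prime := fun n hn => by
    have h1 := hJ hn
    rw [mem_filter, mem_Icc] at h1
    exact h1
  -- the exceptional set
  have hM : Msh V C 1 N q (dis s y) := by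
    refine ⟨hq1, ?_, fun v => dis_nonneg s y v, ?_, sm_dis hs hf⟩
    · rw [one_mul]
      have h1 : (q : ℝ) ≤ N := by
        refine le_trans ?_ hq2
        exact le_mul_of_one_le_right (Nat.cast_nonneg _) (one_le_pow₀ (by rw [← hL]; linarith))
      exact_mod_cast h1
    · have h1 := dis_sum_real s y q le_rfl (fun _ => 1)
      simp only [mul_one, sum_const, nsmul_eq_mul] at h1
      rw [h1, div_self]
      exact_mod_cast hs.card_pos.ne'
  obtain ⟨E, hE1, hE2⟩ := hpr N (by omega) q (dis s y) hM hq2 κ c hκ hκB hc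
  have hqN : (q : ℝ) ≤ N := by
    refine le_trans ?_ hq2
    exact le_mul_of_one_le_right (Nat.cast_nonneg _) (one_le_pow₀ (by rw [← hL]; linarith))
  obtain ⟨ρ, hρ⟩ : ∃ ρ : ℝ, ρ = 1 / L := ⟨_, rfl⟩
  have hρ0 : 0 < ρ := by rw [hρ]; positivity
  obtain ⟨b, hb⟩ : ∃ b : ℝ, b = L ^ (1 / 8 : ℝ) := ⟨_, rfl⟩
  have hb1 : 1 ≤ b := by rw [hb]; exact Real.one_le_rpow hL1 (by norm_num)
  have hb2 : b ^ 2 = L ^ (1 / 4 : ℝ) := by
    rw [hb, ← Real.rpow_natCast, ← Real.rpow_mul hL0.le]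
    norm_num
  have hb4 : b ^ 2 ≤ √L := by
    rw [hb2, Real.sqrt_eq_rpow]
    exact Real.rpow_le_rpow_of_exponent_le hL1 (by norm_num)
  have hsq : √L * √L = L := Real.mul_self_sqrt hL0.le
  have hsq0 : 0 < √L := Real.sqrt_pos.2 hL0
  have hres := hg s ℕ J E (fun n a => if (n + c + κ * (y a.1).val).Prime then 1 else 0) (rr κ c) ρ b m (card_pos.1 hJ0) (fun n a => by
    split_ifs
    · exact Or.inr rfl
    · exact Or.inl rfl) hρ0 hb1 (by
    rw [hρ, mul_one_div, div_le_iff₀ hL0]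
    have h1 : 1 / ρ₀ ≤ √L := by
      apply Real.le_sqrt_of_sq_le
      rw [hL]
      linarith
    rw [div_le_iff₀ hρ₀] at h1
    calc b ^ 2 ≤ √L * 1 := by linarith
      _ ≤ √L * (√L * ρ₀) := mul_le_mul_of_nonneg_left h1 hsq0.le
      _ = ρ₀ * (√L * √L) := by ring
      _ = ρ₀ * L := by rw [hsq]) hm1 (by
    rw [hρ, mul_one_div, div_le_iff₀ hL0]
    exact hm2) (by
    have h1 : ((J ∩ E).card : ℝ) ≤ E.card := by exact_mod_cast card_le_card inter_subset_right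
    refine h1.trans (hE1.trans ?_)
    rw [← hL]
    have h2 : 24 * B / ε ≤ L := by rw [hL]; linarith
    rw [div_le_iff₀ hε] at h2
    calc 3 * ((N : ℝ) / L ^ 2) ≤ 3 * (B * L * J.card / L ^ 2) := by gcongr
      _ = (24 * B) * J.card / (8 * L) := by field_simp; ring
      _ ≤ (L * ε) * J.card / (8 * L) := by gcongr
      _ = ε / 8 * J.card := by field_simp) (fun n hn => by
    unfold rr
    positivity) (fun n hn => by
    rw [Finset.mem_sdiff] at hn
    have hnI := (hJI n hn.1).1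
    obtain ⟨a1, a2⟩ := hE2 n hnI.1 hnI.2 hn.2 (hcop n hn.1)
    obtain ⟨b1, b2⟩ := rr_bounds B κ c n N hκ hκB hnI.2 hc (by linarith) hll' (by rw [← hL]; linarith) a1
    rw [← hL] at b1 b2
    refine ⟨?_, ?_⟩
    · refine b2.trans (le_of_eq ?_)
      rw [hρ, hB']
      ring
    · have e1 : av (fun a : s => (((if (n + c + κ * (y a.1).val).Prime then 1 else 0 : ℕ) : ℕ) : ℝ)) = cnt q (dis s y) κ c n := by
        rw [← av_ff]
        unfold ff
        congr 1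
        funext a
        split_ifs
        · norm_num
        · norm_num
      rw [e1]
      have h1 : |cnt q (dis s y) κ c n - rr κ c n| ≤ 1 / L ^ 2 := by
        rw [hL]
        exact a2
      calc m * |cnt q (dis s y) κ c n - rr κ c n| ≤ (Λ * L) * (1 / L ^ 2) :=
            mul_le_mul hm2 h1 (abs_nonneg _) (by positivity)
        _ = Λ / L := by field_simp
        _ ≤ η := by
          rw [div_le_iff₀ hL0]
          have h2 : Λ / η ≤ L := by rw [hL]; linarith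
          rw [div_le_iff₀ hη] at h2
          linarith) (fun a => by
    have h1 : ∑ n ∈ J \ E, (((if (n + c + κ * (y a.1).val).Prime then 1 else 0 : ℕ) : ℕ) : ℝ) ≤
        (((Icc 1 N).filter fun n => n.Prime ∧ (n + (c + κ * (y a.1).val)).Prime).card : ℝ) := by
      rw [← Nat.cast_sum, sum_boole]
      norm_cast
      apply card_le_card
      intro n hn
      rw [mem_filter, Finset.mem_sdiff] at hn
      have h2 := hJI n hn.1.1
      rw [mem_filter, mem_Icc]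
      exact ⟨h2.1, h2.2, by rw [← add_assoc]; exact hn.2⟩
    have h2 := hpairs N (by omega) (c + κ * (y a.1).val) (by omega) (by
      have h2 : (y a.1).val ≤ N := by
        have h3 : (y a.1).val < q := ZMod.val_lt _
        have h4 : q ≤ N := by exact_mod_cast hqN
        omega
      calc c + κ * (y a.1).val ≤ B * N + B * N := Nat.add_le_add hc (Nat.mul_le_mul hκB h2)
        _ = 2 * B * N := by ring)
    rw [← hL] at h2
    refine h1.trans (h2.trans ?_)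
    have hlog0 : 0 ≤ Real.log L := Real.log_nonneg hL1
    calc K * Real.log L ^ 4 * N / L ^ 2 ≤ K * Real.log L ^ 4 * (B * L * J.card) / L ^ 2 := by gcongr
      _ = (B * K * Real.log L ^ 4) * (1 / L) * J.card := by field_simp
      _ ≤ b * ρ * J.card := by
          rw [hρ, hb]
          gcongr)
  have hff : ∀ (ω : Fin m → s) (n : ℕ), ∑ l, (if (n + c + κ * (y (ω l).1).val).Prime then 1 else 0 : ℕ) =
      (univ.filter fun l => (n + c + κ * (y (ω l)).val).Prime).card := by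
    intro ω n
    rw [sum_boole, Nat.cast_id]
  simp only [hff] at hres
  refine hres.trans ?_
  rw [Fintype.card_coe]
  apply mul_le_mul_of_nonneg_right _ (by positivity)
  apply Real.exp_le_exp.2
  rw [hρ, neg_div, neg_le_neg_iff, mul_one_div, div_div_eq_mul_div, le_div_iff₀ (by positivity)]
  -- `√L * b ^ 2 ≤ δ * L`
  have h3 : 1 / δ ≤ L ^ (1 / 4 : ℝ) := by
    have h4 : (1 / δ) ^ 4 ≤ L := by rw [hL]; linarith
    calc 1 / δ = ((1 / δ) ^ 4) ^ (1 / 4 : ℝ) := by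
          rw [← Real.rpow_natCast, ← Real.rpow_mul (by positivity)]
          norm_num
      _ ≤ L ^ (1 / 4 : ℝ) := Real.rpow_le_rpow (by positivity) h4 (by norm_num)
  rw [div_le_iff₀ hδ] at h3
  have h5 : L ^ (1 / 4 : ℝ) * L ^ (1 / 4 : ℝ) = √L := by
    rw [← Real.rpow_add hL0, Real.sqrt_eq_rpow]
    norm_num
  calc √L * b ^ 2 = √L * L ^ (1 / 4 : ℝ) * 1 := by rw [hb2, mul_one]
    _ ≤ √L * L ^ (1 / 4 : ℝ) * (L ^ (1 / 4 : ℝ) * δ) := mul_le_mul_of_nonneg_left h3 (by positivity)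
    _ = δ * (√L * (L ^ (1 / 4 : ℝ) * L ^ (1 / 4 : ℝ))) := by ring
    _ = δ * L := by rw [h5, hsq]

end Pool.Agent.Run7.h524.MG
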